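import Mathlib
import Pool.Agent.Q70.SQ.Defs

/-!
# Weil numbers with related fields, distinguished by their slopes: definitions
-/

set_option autoImplicit false

namespace Pool.Agent.Q70.MM

open NumberField Module Pool.Agent.Q70.SQ Pool.Agent.Y137.MV

/-- The Weil numbers `x` in `F` and `y` in `K` (for `p ^ a`) have fields of different degrees, or
the quotient of the mean square deviations of their slopes is not the square of a rational number
and the degree of `F` is twice an odd number, or this quotient is not the sum of the squares of two
rational numbers and the degree of `F` is four times an odd number. -/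
def Distinguished (p a : ℕ) [Fact p.Prime] {F K : Type*} [Field F] [NumberField F] [Field K]
    [NumberField K] (x : F) (y : K) : Prop :=
  finrank ℚ F ≠ finrank ℚ K ∨
    (Odd (finrank ℚ F / 2) ∧ ∀ r : ℚ, weilDeviation p a x ≠ (r : ℝ) ^ 2 * weilDeviation p a y) ∨
    (finrank ℚ F / 2 % 4 = 2 ∧ ∀ r s : ℚ,
      weilDeviation p a x ≠ ((r : ℝ) ^ 2 + (s : ℝ) ^ 2) * weilDeviation p a y)

/-- For each `i` there is at most one index `β i` different from `i` such that the odd functions on the
embeddings of `F i` and of `F (β i)` are related, and then the Weil numbers `π i` and `π (β i)` are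
distinguished by the degrees or by the slopes. -/
def RelatedPairs (p a : ℕ) [Fact p.Prime] {I : Type*} {F : I → Type*} [∀ i, Field (F i)]
    [∀ i, NumberField (F i)] (π : ∀ i, F i) : Prop :=
  ∃ β : I → I, (∀ i, β (β i) = i) ∧
    (∀ i i', i' ≠ i → i' ≠ β i → Unrelated (F i) (F i')) ∧
    ∀ i, β i ≠ i → Distinguished p a (π i) (π (β i))

end Pool.Agent.Q70.MM
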