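import Mathlib

/-!
# Multipliers of rational similitudes of sums of squares
-/

set_option autoImplicit false

namespace Pool.Agent.Q70.MM

open Finset

section polar

variable {ι ι' : Type*} [Fintype ι] [Fintype ι'] [DecidableEq ι] {t : ι → ι' → ℚ} {lam : ℚ}
  (ht : ∀ a : ι → ℚ, ∑ y, (∑ x, a x * t x y) ^ 2 = lam * ∑ x, (a x) ^ 2)

include ht

theorem sim_self (x : ι) : ∑ y, t x y * t x y = lam := by
  have h1 := ht (Pi.single x 1)
  simp only [Pi.single_apply, ite_mul, one_mul, zero_mul, sum_ite_eq', mem_univ, if_true] at h1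
  have h2 : ∑ z, (if z = x then (1 : ℚ) else 0) ^ 2 = 1 := by
    simp
  rw [h2, mul_one] at h1
  rw [← h1]
  exact sum_congr rfl fun y _ => by ring

theorem sim_ne (x x' : ι) (hx : x ≠ x') : ∑ y, t x y * t x' y = 0 := by
  have h1 := ht (Pi.single x 1 + Pi.single x' 1)
  have h2 : ∀ y, ∑ z, (Pi.single x 1 + Pi.single x' 1 : ι → ℚ) z * t z y = t x y + t x' y := by
    intro y
    simp [Pi.single_apply, add_mul, sum_add_distrib]
  have h3 : ∑ z, ((Pi.single x 1 + Pi.single x' 1 : ι → ℚ) z) ^ 2 = 2 := by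
    have h4 : ∀ z, ((Pi.single x 1 + Pi.single x' 1 : ι → ℚ) z) ^ 2 =
        (if z = x then 1 else 0) + (if z = x' then 1 else 0) := by
      intro z
      rw [Pi.add_apply, Pi.single_apply, Pi.single_apply]
      by_cases h5 : z = x
      · have h6 : z ≠ x' := fun h7 => hx (h5.symm.trans h7)
        simp [h5, hx]
      · by_cases h6 : z = x'
        · simp [h6, hx.symm]
        · simp [h5, h6]
    rw [sum_congr rfl fun z _ => h4 z, sum_add_distrib]
    simp
    norm_num
  simp only [h2, h3] at h1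
  have h4 := sim_self ht x
  have h5 := sim_self ht x'
  have h6 : ∑ y, (t x y + t x' y) ^ 2 = ∑ y, t x y * t x y + ∑ y, t x' y * t x' y +
      2 * ∑ y, t x y * t x' y := by
    rw [mul_sum, ← sum_add_distrib, ← sum_add_distrib]
    exact sum_congr rfl fun y _ => by ring
  rw [h6, h4, h5] at h1
  linarith

end polar

/-- The multiplier of a similitude in odd dimension is a square. -/
theorem sq_of_sim {ι ι' : Type*} [Fintype ι] [Fintype ι'] (hcard : Fintype.card ι = Fintype.card ι')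
    (hodd : Odd (Fintype.card ι)) {t : ι → ι' → ℚ} {lam : ℚ} (hlam : 0 < lam)
    (ht : ∀ a : ι → ℚ, ∑ y, (∑ x, a x * t x y) ^ 2 = lam * ∑ x, (a x) ^ 2) :
    ∃ r : ℚ, lam = r ^ 2 := by
  classical
  let e : ι ≃ ι' := Fintype.equivOfCardEq hcard
  let M : Matrix ι ι ℚ := fun x y => t x (e y)
  have h1 : M * M.transpose = lam • (1 : Matrix ι ι ℚ) := by
    ext x x'
    rw [Matrix.mul_apply]
    have h2 : ∑ y, M x y * M.transpose y x' = ∑ y, t x y * t x' y :=
      Fintype.sum_equiv e _ _ fun y => rfl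
    rw [h2, Matrix.smul_apply, Matrix.one_apply, smul_eq_mul]
    by_cases h3 : x = x'
    · subst h3
      rw [if_pos rfl, mul_one, sim_self ht]
    · rw [if_neg h3, mul_zero, sim_ne ht x x' h3]
  have h2 := congrArg Matrix.det h1
  rw [Matrix.det_mul, Matrix.det_transpose, Matrix.det_smul, Matrix.det_one, mul_one] at h2
  obtain ⟨m, hm⟩ := hodd
  rw [hm] at h2
  refine ⟨M.det / lam ^ m, ?_⟩
  have h3 : lam ^ m ≠ 0 := pow_ne_zero _ hlam.ne'
  rw [div_pow, eq_div_iff (pow_ne_zero 2 h3)]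
  rw [sq M.det, h2]
  ring

/-- Elimination of squares. -/
theorem elim {W : Type*} [AddCommGroup W] [Module ℚ W] (m : ℕ) :
    ∀ (X : Type) [AddCommGroup X] [Module ℚ X] (z y : Fin m → X →ₗ[ℚ] ℚ) (w : X →ₗ[ℚ] W),
      (∀ (ζ : Fin m → ℚ) (v : W), ∃ x, (∀ i, z i x = ζ i) ∧ w x = v) →
      ∀ v : W, ∃ x, w x = v ∧ ∀ i, (z i x) ^ 2 = (y i x) ^ 2 := by
  induction m with
  | zero =>
    intro X _ _ z y w hs v
    obtain ⟨x, -, hx⟩ := hs Fin.elim0 v
    exact ⟨x, hx, fun i => i.elim0⟩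
  | succ m ih =>
    intro X _ _ z y w hs v
    obtain ⟨e, he1, he2⟩ := hs (Fin.cons 1 0) 0
    have he0 : z 0 e = 1 := he1 0
    have hei : ∀ i : Fin m, z i.succ e = 0 := fun i => he1 i.succ
    obtain ⟨ε, hε, hεb⟩ : ∃ ε : ℚ, ε ^ 2 = 1 ∧ 1 - ε * y 0 e ≠ 0 := by
      by_cases h1 : y 0 e = 1
      · exact ⟨-1, by norm_num, by rw [h1]; norm_num⟩
      · exact ⟨1, by norm_num, by
          rw [one_mul]
          exact sub_ne_zero.2 (Ne.symm h1)⟩
    let K : Submodule ℚ X := LinearMap.ker (z 0 - ε • y 0)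
    obtain ⟨x, hx1, hx2⟩ := ih K (fun i => (z i.succ).comp K.subtype)
      (fun i => (y i.succ).comp K.subtype) (w.comp K.subtype) (by
        intro ζ v'
        obtain ⟨x₀, h1, h2⟩ := hs (Fin.cons 0 ζ) v'
        have h10 : z 0 x₀ = 0 := h1 0
        have h1i : ∀ i : Fin m, z i.succ x₀ = ζ i := fun i => h1 i.succ
        let c : ℚ := ε * y 0 x₀ / (1 - ε * y 0 e)
        have hmem : x₀ + c • e ∈ K := by
          rw [LinearMap.mem_ker, LinearMap.sub_apply, LinearMap.smul_apply, map_add, map_add,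
            map_smul, map_smul, h10, he0]
          simp only [smul_eq_mul, c]
          field_simp
          ring
        refine ⟨⟨x₀ + c • e, hmem⟩, fun i => ?_, ?_⟩
        · change z i.succ (x₀ + c • e) = ζ i
          rw [map_add, map_smul, h1i, hei, smul_zero, add_zero]
        · change w (x₀ + c • e) = v'
          rw [map_add, map_smul, h2, he2, smul_zero, add_zero]) v
    refine ⟨x.1, hx1, fun i => ?_⟩
    refine Fin.cases ?_ (fun i => hx2 i) i
    have h3 := x.2
    rw [LinearMap.mem_ker, LinearMap.sub_apply, LinearMap.smul_apply, smul_eq_mul, sub_eq_zero] at h3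
    rw [h3, mul_pow, hε, one_mul]

/-- The multiplier of a similitude in dimension `4 k + 2` is a sum of two squares. -/
theorem two_sq_of_sim {ι ι' : Type*} [Fintype ι] [Fintype ι'] (k : ℕ)
    (hι : Fintype.card ι = 4 * k + 2) (hι' : Fintype.card ι' = 4 * k + 2) {t : ι → ι' → ℚ}
    {lam : ℚ} (hlam : 0 < lam)
    (ht : ∀ a : ι → ℚ, ∑ y, (∑ x, a x * t x y) ^ 2 = lam * ∑ x, (a x) ^ 2) :
    ∃ r s : ℚ, lam = r ^ 2 + s ^ 2 := by
  classical
  let J : Type := (Fin k × Fin 4) ⊕ Fin 2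
  have hJ : Fintype.card J = 4 * k + 2 := by
    simp only [J, Fintype.card_sum, Fintype.card_prod, Fintype.card_fin]
    ring
  let e : ι ≃ J := Fintype.equivOfCardEq (hι.trans hJ.symm)
  let e' : ι' ≃ J := Fintype.equivOfCardEq (hι'.trans hJ.symm)
  -- an integral multiplier
  let D : ℚ := lam.den
  have hD : D ≠ 0 := Nat.cast_ne_zero.2 lam.den_ne_zero
  obtain ⟨N, hN⟩ : ∃ N : ℕ, D ^ 2 * lam = N := by
    refine ⟨lam.num.toNat * lam.den, ?_⟩
    have h1 : (lam.num.toNat : ℤ) = lam.num := Int.toNat_of_nonneg (Rat.num_nonneg.2 hlam.le)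
    have h2 : ((lam.num.toNat : ℕ) : ℚ) = lam.num := by exact_mod_cast h1
    have h3 : lam * D = lam.num := Rat.mul_den_eq_num lam
    push_cast
    rw [h2, ← h3]
    ring
  have hN0 : (0 : ℚ) < N := by
    rw [← hN]
    positivity
  obtain ⟨a, b, c, d, habcd⟩ := Nat.sum_four_squares N
  have hq : (a : ℚ) ^ 2 + (b : ℚ) ^ 2 + (c : ℚ) ^ 2 + (d : ℚ) ^ 2 = N := by exact_mod_cast habcd
  let X : Type := J → ℚ
  let yf : J → X →ₗ[ℚ] ℚ := fun j =>
    { toFun := fun x => ∑ i, x i * (D * t (e.symm i) (e'.symm j))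
      map_add' := fun x x' => by
        rw [← sum_add_distrib]
        exact sum_congr rfl fun i _ => add_mul _ _ _
      map_smul' := fun r x => by
        rw [RingHom.id_apply, smul_eq_mul, mul_sum]
        exact sum_congr rfl fun i _ => mul_assoc _ _ _ }
  have hy : ∀ x : X, ∑ j, (yf j x) ^ 2 = N * ∑ i, (x i) ^ 2 := by
    intro x
    have h1 := ht (fun i => x (e i))
    have h2 : ∑ i : ι, (x (e i)) ^ 2 = ∑ j, (x j) ^ 2 := Fintype.sum_equiv e _ _ fun i => rfl
    have h3 : ∀ j, yf j x = D * ∑ i : ι, x (e i) * t i (e'.symm j) := by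
      intro j
      rw [mul_sum]
      refine (Fintype.sum_equiv e _ _ fun i => ?_).symm
      rw [Equiv.symm_apply_apply]
      ring
    have h4 : ∑ j, (yf j x) ^ 2 = D ^ 2 * ∑ y, (∑ i, x (e i) * t i y) ^ 2 := by
      rw [mul_sum]
      refine (Fintype.sum_equiv e' _ _ fun y => ?_).symm
      rw [h3, Equiv.symm_apply_apply]
      ring
    rw [h4, h1, h2, ← hN]
    ring
  -- the quaternion forms
  let pr : J → X →ₗ[ℚ] ℚ := fun j => LinearMap.proj j
  let Q : Fin 4 → Fin 4 → ℚ := ![![a, -b, -c, -d], ![b, a, -d, c], ![c, d, a, -b], ![d, -c, b, a]]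
  let zf : Fin k × Fin 4 → X →ₗ[ℚ] ℚ := fun br =>
    ∑ s : Fin 4, Q br.2 s • pr (Sum.inl (br.1, s))
  have hzf : ∀ (br : Fin k × Fin 4) (x : X), zf br x = ∑ s : Fin 4, Q br.2 s * x (Sum.inl (br.1, s)) := by
    intro br x
    simp only [zf, LinearMap.sum_apply, LinearMap.smul_apply, smul_eq_mul]
    rfl
  have hz : ∀ (x : X) (l : Fin k), ∑ r : Fin 4, (zf (l, r) x) ^ 2 =
      N * ∑ r : Fin 4, (x (Sum.inl (l, r))) ^ 2 := by
    intro x l
    simp only [hzf, Q, Fin.sum_univ_four, Matrix.cons_val_zero, Matrix.cons_val_one,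
      Matrix.cons_val, ← hq]
    ring
  let w : X →ₗ[ℚ] (Fin 2 → ℚ) := LinearMap.pi fun s => pr (Sum.inr s)
  let em : Fin (k * 4) ≃ Fin k × Fin 4 := finProdFinEquiv.symm
  obtain ⟨x, hx1, hx2⟩ := elim (k * 4) X (fun i => zf (em i)) (fun i => yf (Sum.inl (em i))) w (by
    intro ζ v
    let ζ' : Fin k × Fin 4 → ℚ := fun br => ζ (em.symm br)
    let x : X := fun j => match j with
      | Sum.inl br => (∑ r : Fin 4, Q r br.2 * ζ' (br.1, r)) / N
      | Sum.inr s => v s
    refine ⟨x, fun i => ?_, ?_⟩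
    · have h1 : zf (em i) x = ζ' (em i) := by
        rw [hzf]
        generalize em i = br
        obtain ⟨l, r⟩ := br
        have h2 : ∀ s : Fin 4, x (Sum.inl (l, s)) = (∑ r : Fin 4, Q r s * ζ' (l, r)) / N :=
          fun s => rfl
        simp only [h2]
        have h3 : (N : ℚ) ≠ 0 := hN0.ne'
        fin_cases r <;>
        · simp only [Q, Fin.sum_univ_four, Matrix.cons_val_zero, Matrix.cons_val_one,
            Matrix.cons_val, Fin.zero_eta, Fin.mk_one, Fin.reduceFinMk]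
          field_simp
          rw [← hq]
          ring
      rw [h1]
      simp only [ζ', Equiv.symm_apply_apply]
    · funext s
      rfl) ![1, 0]
  have h1 := hy x
  rw [Fintype.sum_sum_type, Fintype.sum_sum_type] at h1
  have h2 : ∑ br : Fin k × Fin 4, (yf (Sum.inl br) x) ^ 2 = ∑ br : Fin k × Fin 4, (zf br x) ^ 2 := by
    refine sum_congr rfl fun br _ => ?_
    have h3 := hx2 (em.symm br)
    simp only [Equiv.apply_symm_apply] at h3
    exact h3.symm
  have h3 : ∑ br : Fin k × Fin 4, (zf br x) ^ 2 = N * ∑ br : Fin k × Fin 4, (x (Sum.inl br)) ^ 2 := by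
    rw [Fintype.sum_prod_type, Fintype.sum_prod_type, mul_sum]
    exact sum_congr rfl fun l _ => hz x l
  have h4 : ∑ s : Fin 2, (x (Sum.inr s)) ^ 2 = 1 := by
    have h5 : ∀ s : Fin 2, x (Sum.inr s) = ![(1 : ℚ), 0] s := fun s => congrFun hx1 s
    simp only [h5, Fin.sum_univ_two]
    norm_num
  rw [h2, h3, h4, mul_add, mul_one, add_right_inj, Fin.sum_univ_two] at h1
  refine ⟨yf (Sum.inr 0) x / D, yf (Sum.inr 1) x / D, ?_⟩
  have h5 : lam = N / D ^ 2 := by
    rw [← hN]
    field_simp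
  rw [h5, ← h1]
  field_simp

end Pool.Agent.Q70.MM
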