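import Mathlib
import Pool.Agent.Y137.MV.Odd
import Pool.Agent.Q70.SQ.Quad
import Pool.Agent.Q70.MM.Sim

/-!
# Relations between two slope functions are similitudes
-/

set_option autoImplicit false
set_option linter.unusedSectionVars false
set_option linter.unusedVariables false

namespace Pool.Agent.Q70.MM

open Finset Pool.Agent.Y137.MV Pool.Agent.Q70.SQ

section half

variable {E : Type*} [Fintype E] [DecidableEq E] {inv : E → E} (hinv : ∀ x, inv (inv x) = x)
  (hne : ∀ x, inv x ≠ x)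

include hinv hne in
theorem exists_half : ∃ H : Finset E, ∀ x, x ∈ H ↔ inv x ∉ H := by
  let e := Fintype.equivFin E
  refine ⟨Finset.univ.filter (fun x => e x < e (inv x)), fun x => ?_⟩
  simp only [mem_filter, mem_univ, true_and, hinv]
  constructor
  · intro h1
    exact not_lt.2 h1.le
  · intro h1
    rcases lt_or_eq_of_le (not_lt.1 h1) with h2 | h2
    · exact h2
    · exact absurd (e.injective h2).symm (hne x)

include hinv in
theorem sum_half {M : Type*} [AddCommMonoid M] {H : Finset E} (hH : ∀ x, x ∈ H ↔ inv x ∉ H)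
    (f : E → M) : ∑ x, f x = ∑ x ∈ H, (f x + f (inv x)) := by
  rw [← Finset.sum_add_sum_compl H f, sum_add_distrib]
  congr 1
  refine (Finset.sum_bij (fun x _ => inv x) (fun x hx => ?_) (fun x _ y _ hxy => ?_)
    (fun y hy => ?_) (fun x _ => rfl)).symm
  · rw [mem_compl]
    exact (hH x).1 hx
  · rw [← hinv x, hxy, hinv]
  · refine ⟨inv y, ?_, hinv y⟩
    rw [mem_compl] at hy
    by_contra h1
    exact hy ((hH y).2 h1)

include hinv in
theorem card_half {H : Finset E} (hH : ∀ x, x ∈ H ↔ inv x ∉ H) : Fintype.card E = 2 * H.card := by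
  have h1 := sum_half hinv hH (fun _ => (1 : ℕ))
  simp only [sum_const, smul_eq_mul, mul_one, card_univ] at h1
  omega

include hinv in
theorem sum_half_sq {H : Finset E} (hH : ∀ x, x ∈ H ↔ inv x ∉ H) {n : E → ℚ} (hn : OddFun inv n) :
    ∑ x, (n x : ℝ) ^ 2 = 2 * ∑ x : H, (n x : ℝ) ^ 2 := by
  rw [sum_half hinv hH, mul_sum, ← Finset.sum_coe_sort H]
  refine sum_congr rfl fun x _ => ?_
  rw [hn x]
  push_cast
  ring

end half

variable {E E' G : Type*} [Fintype E] [DecidableEq E] [Fintype E'] [DecidableEq E'] [Group G]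
  [Fintype G] [MulAction G E] [MulAction G E']

/-- The slope functions `u`, `u'` satisfy the relation with the coefficients `n`, `n'`. -/
def Rel (G : Type*) [Group G] [MulAction G E] [MulAction G E'] (u : E → ℝ) (u' : E' → ℝ)
    (n : E → ℚ) (n' : E' → ℚ) : Prop :=
  ∀ g : G, ∑ x, (n x : ℝ) * u (g • x) + ∑ y, (n' y : ℝ) * u' (g • y) = 0

theorem Rel.add {u : E → ℝ} {u' : E' → ℝ} {n m : E → ℚ} {n' m' : E' → ℚ} (h1 : Rel G u u' n n')
    (h2 : Rel G u u' m m') : Rel G u u' (n + m) (n' + m') := by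
  intro g
  have h3 := h1 g
  have h4 := h2 g
  simp only [Pi.add_apply, Rat.cast_add, add_mul, sum_add_distrib]
  linarith

theorem Rel.smul {u : E → ℝ} {u' : E' → ℝ} {n : E → ℚ} {n' : E' → ℚ} (h1 : Rel G u u' n n')
    (r : ℚ) : Rel G u u' (r • n) (r • n') := by
  intro g
  have h3 := h1 g
  simp only [Pi.smul_apply, smul_eq_mul, Rat.cast_mul, mul_assoc, ← mul_sum]
  rw [← mul_add, h3, mul_zero]

theorem Rel.zero {u : E → ℝ} {u' : E' → ℝ} : Rel G u u' 0 0 := by
  intro g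
  simp

theorem Rel.swap {u : E → ℝ} {u' : E' → ℝ} {n : E → ℚ} {n' : E' → ℚ} (h1 : Rel G u u' n n') :
    Rel G u' u n' n := by
  intro g
  rw [add_comm]
  exact h1 g

theorem Rel.transl {u : E → ℝ} {u' : E' → ℝ} {n : E → ℚ} {n' : E' → ℚ} (h1 : Rel G u u' n n')
    (h : G) : Rel G u u' (fun x => n (h • x)) (fun y => n' (h • y)) := by
  intro g
  rw [← h1 (g * h⁻¹)]
  congr 1
  · refine Fintype.sum_equiv (MulAction.toPerm h) _ _ fun x => ?_
    rw [MulAction.toPerm_apply, mul_smul, inv_smul_smul]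
  · refine Fintype.sum_equiv (MulAction.toPerm h) _ _ fun x => ?_
    rw [MulAction.toPerm_apply, mul_smul, inv_smul_smul]

theorem Rel.sum {u : E → ℝ} {u' : E' → ℝ} {κ : Type*} (s : Finset κ) {n : κ → E → ℚ}
    {n' : κ → E' → ℚ} (h1 : ∀ k, Rel G u u' (n k) (n' k)) :
    Rel G u u' (∑ k ∈ s, n k) (∑ k ∈ s, n' k) := by
  classical
  induction s using Finset.induction_on with
  | empty => simpa using Rel.zero
  | insert a s ha ih =>
    rw [sum_insert ha, sum_insert ha]
    exact (h1 a).add ih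

theorem odd_add {inv : E → E} {n m : E → ℚ} (hn : OddFun inv n) (hm : OddFun inv m) :
    OddFun inv (n + m) := by
  intro x
  rw [Pi.add_apply, Pi.add_apply, hn x, hm x]
  ring

theorem odd_smul {inv : E → E} {n : E → ℚ} (r : ℚ) (hn : OddFun inv n) : OddFun inv (r • n) := by
  intro x
  rw [Pi.smul_apply, Pi.smul_apply, hn x, smul_neg]

theorem odd_sum {inv : E → E} {κ : Type*} (s : Finset κ) {n : κ → E → ℚ}
    (hn : ∀ k, OddFun inv (n k)) : OddFun inv (∑ k ∈ s, n k) := by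
  intro x
  rw [Finset.sum_apply, Finset.sum_apply, ← sum_neg_distrib]
  exact sum_congr rfl fun k _ => hn k x

theorem odd_transl {inv : E → E} (hG : ∀ (g : G) (x : E), g • inv x = inv (g • x)) {n : E → ℚ}
    (hn : OddFun inv n) (g : G) : OddFun inv (fun x => n (g • x)) := by
  intro x
  change n (g • inv x) = -n (g • x)
  rw [hG, hn]

section main

variable {inv : E → E} {inv' : E' → E'} (hinv : ∀ x, inv (inv x) = x)
  (hne : ∀ x, inv x ≠ x) (hinv' : ∀ x, inv' (inv' x) = x) (hne' : ∀ x, inv' x ≠ x)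
  (hG : ∀ (g : G) (x : E), g • inv x = inv (g • x))
  (hG' : ∀ (g : G) (x : E'), g • inv' x = inv' (g • x))
  (hirr : IrrOdd G inv) (hirr' : IrrOdd G inv') {u : E → ℝ} {u' : E' → ℝ} {C C' : ℝ} (hC : 0 < C)
  (hC' : 0 < C')
  (hq : ∀ n : E → ℚ, OddFun inv n →
    ∑ g : G, (∑ x, (n x : ℝ) * u (g • x)) ^ 2 = C * ∑ x, (n x : ℝ) ^ 2)
  (hq' : ∀ n : E' → ℚ, OddFun inv' n →
    ∑ g : G, (∑ x, (n x : ℝ) * u' (g • x)) ^ 2 = C' * ∑ x, (n x : ℝ) ^ 2)

include hq hq' in
theorem rel_norm {n : E → ℚ} {n' : E' → ℚ} (hn : OddFun inv n) (hn' : OddFun inv' n')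
    (h1 : Rel G u u' n n') : C * ∑ x, (n x : ℝ) ^ 2 = C' * ∑ x, (n' x : ℝ) ^ 2 := by
  rw [← hq n hn, ← hq' n' hn']
  refine sum_congr rfl fun g _ => ?_
  have h2 := h1 g
  have h3 : ∑ x, (n x : ℝ) * u (g • x) = -∑ y, (n' y : ℝ) * u' (g • y) := by linarith
  rw [h3, neg_sq]

include hC hq hq' in
theorem rel_zero {n : E → ℚ} (hn : OddFun inv n) (h1 : Rel G u u' n 0) : n = 0 := by
  have h2 := rel_norm hq hq' hn (n' := 0) (fun x => by simp) h1
  simp only [Pi.zero_apply, Rat.cast_zero, ne_eq, OfNat.ofNat_ne_zero, not_false_eq_true, zero_pow,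
    sum_const_zero, mul_zero] at h2
  have h3 := (mul_eq_zero.1 h2).resolve_left hC.ne'
  funext x
  have h4 := (sum_eq_zero_iff_of_nonneg (fun x _ => sq_nonneg _)).1 h3 x (mem_univ x)
  have h5 := pow_eq_zero_iff two_ne_zero |>.1 h4
  exact_mod_cast h5

include hG hG' hirr in
theorem rel_all {n0 : E → ℚ} {n0' : E' → ℚ} (hn0 : OddFun inv n0) (hn0' : OddFun inv' n0')
    (h0 : n0 ≠ 0) (hrel : Rel G u u' n0 n0') (n : E → ℚ) (hn : OddFun inv n) :
    ∃ n', OddFun inv' n' ∧ Rel G u u' n n' := by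
  let W : Submodule ℚ (E → ℚ) :=
    { carrier := {m | OddFun inv m ∧ ∃ m', OddFun inv' m' ∧ Rel G u u' m m'}
      zero_mem' := ⟨fun x => by simp, 0, fun x => by simp, Rel.zero⟩
      add_mem' := by
        rintro m l ⟨h1, m', h2, h3⟩ ⟨h4, l', h5, h6⟩
        exact ⟨odd_add h1 h4, m' + l', odd_add h2 h5, h3.add h6⟩
      smul_mem' := by
        rintro r m ⟨h1, m', h2, h3⟩
        exact ⟨odd_smul r h1, r • m', odd_smul r h2, h3.smul r⟩ }
  rcases hirr W (fun m hm => hm.1) (by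
    rintro g m ⟨h1, m', h2, h3⟩
    exact ⟨odd_transl hG h1 g, _, odd_transl hG' h2 g, h3.transl g⟩) with h1 | h1
  · have h2 : n0 ∈ W := ⟨hn0, n0', hn0', hrel⟩
    rw [h1, Submodule.mem_bot] at h2
    exact absurd h2 h0
  · exact (h1 n hn).2

include hinv hne hinv' hne' hG hG' hirr hC hC' hq hq' in
theorem exists_sim {n0 : E → ℚ} {n0' : E' → ℚ} (hn0 : OddFun inv n0) (hn0' : OddFun inv' n0')
    (h0 : n0 ≠ 0) (hrel : Rel G u u' n0 n0') :
    ∃ (H : Finset E) (H' : Finset E') (t : H → H' → ℚ) (lam : ℚ),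
      Fintype.card E = 2 * Fintype.card H ∧ Fintype.card E' = 2 * Fintype.card H' ∧ 0 < lam ∧
      C = lam * C' ∧ ∀ a : H → ℚ, ∑ y, (∑ x, a x * t x y) ^ 2 = lam * ∑ x, (a x) ^ 2 := by
  obtain ⟨H, hH⟩ := exists_half hinv hne
  obtain ⟨H', hH'⟩ := exists_half hinv' hne'
  have hall : ∀ x : H, ∃ n', OddFun inv' n' ∧ Rel G u u' (dlt inv x.1) n' := fun x =>
    rel_all hG hG' hirr hn0 hn0' h0 hrel _ (dlt_odd inv hinv x.1)
  choose T hT1 hT2 using hall
  let t : H → H' → ℚ := fun x y => T x y.1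
  have hval : ∀ (a : H → ℚ) (z : H), (∑ x, a x • dlt inv x.1) z.1 = a z := by
    intro a z
    rw [Finset.sum_apply]
    have h1 : ∀ x : H, (a x • dlt inv x.1) z.1 = if x = z then a z else 0 := by
      intro x
      simp only [Pi.smul_apply, dlt, smul_eq_mul]
      have h2 : z.1 ≠ inv x.1 := by
        intro h3
        have h4 := (hH x.1).1 x.2
        rw [← h3] at h4
        exact h4 z.2
      rw [if_neg h2, sub_zero]
      by_cases h3 : x = z
      · subst h3
        simp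
      · rw [if_neg h3, if_neg (fun h4 => h3 (Subtype.ext h4.symm)), mul_zero]
    rw [sum_congr rfl fun x _ => h1 x, sum_ite_eq' univ z, if_pos (mem_univ _)]
  have hreal : ∀ a : H → ℚ, C * ∑ x, (a x : ℝ) ^ 2 =
      C' * ∑ y, (((∑ x, a x * t x y : ℚ)) : ℝ) ^ 2 := by
    intro a
    have h1 : Rel G u u' (∑ x, a x • dlt inv x.1) (∑ x, a x • T x) :=
      Rel.sum univ fun x => (hT2 x).smul (a x)
    have ho : OddFun inv (∑ x, a x • dlt inv x.1) :=
      odd_sum univ fun x => odd_smul (a x) (dlt_odd inv hinv x.1)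
    have ho' : OddFun inv' (∑ x, a x • T x) := odd_sum univ fun x => odd_smul (a x) (hT1 x)
    have h2 := rel_norm hq hq' ho ho' h1
    rw [sum_half_sq hinv hH ho, sum_half_sq hinv' hH' ho'] at h2
    have h3 : ∑ x : H, (((∑ x, a x • dlt inv x.1 : E → ℚ) x.1 : ℚ) : ℝ) ^ 2 =
        ∑ x, (a x : ℝ) ^ 2 := sum_congr rfl fun x _ => by rw [hval]
    have h4 : ∀ y : H', (∑ x, a x • T x : E' → ℚ) y.1 = ∑ x, a x * t x y := by
      intro y
      rw [Finset.sum_apply]
      rfl
    have h5 : ∑ y : H', (((∑ x, a x • T x : E' → ℚ) y.1 : ℚ) : ℝ) ^ 2 =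
        ∑ y, (((∑ x, a x * t x y : ℚ)) : ℝ) ^ 2 := sum_congr rfl fun y _ => by rw [h4 y]
    rw [h3, h5] at h2
    linarith
  obtain ⟨x0, hx0⟩ : ∃ x : H, True := by
    obtain ⟨x, hx⟩ := Function.ne_iff.1 h0
    by_cases h1 : x ∈ H
    · exact ⟨⟨x, h1⟩, trivial⟩
    · refine ⟨⟨inv x, ?_⟩, trivial⟩
      by_contra h2
      exact h1 ((hH x).2 h2)
  let lam : ℚ := ∑ y, (t x0 y) ^ 2
  have hlam : C = lam * C' := by
    have h1 := hreal (Pi.single x0 1)
    have h2 : ∑ x, ((Pi.single x0 (1 : ℚ) : H → ℚ) x : ℝ) ^ 2 = 1 := by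
      rw [sum_eq_single x0]
      · simp
      · intro b _ hb
        rw [Pi.single_eq_of_ne hb]
        simp
      · intro h3
        exact absurd (mem_univ _) h3
    have h3 : ∀ y, ∑ x, (Pi.single x0 (1 : ℚ) : H → ℚ) x * t x y = t x0 y := by
      intro y
      rw [sum_eq_single x0]
      · simp
      · intro b _ hb
        rw [Pi.single_eq_of_ne hb, zero_mul]
      · intro h3
        exact absurd (mem_univ _) h3
    rw [h2, sum_congr rfl fun y _ => by rw [h3 y]] at h1
    simp only [lam]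
    push_cast
    linarith
  have hlam0 : 0 < lam := by
    by_contra h1
    have h2 : (lam : ℝ) ≤ 0 := by exact_mod_cast not_lt.1 h1
    nlinarith
  refine ⟨H, H', t, lam, ?_, ?_, hlam0, hlam, fun a => ?_⟩
  · rw [Fintype.card_coe]
    exact card_half hinv hH
  · rw [Fintype.card_coe]
    exact card_half hinv' hH'
  · have h1 := hreal a
    rw [hlam] at h1
    have h2 : C' * (∑ y, (((∑ x, a x * t x y : ℚ)) : ℝ) ^ 2 - lam * ∑ x, (a x : ℝ) ^ 2) = 0 := by
      linarith
    have h3 := (mul_eq_zero.1 h2).resolve_left hC'.ne'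
    have h4 : ((∑ y, (∑ x, a x * t x y) ^ 2 : ℚ) : ℝ) = ((lam * ∑ x, (a x) ^ 2 : ℚ) : ℝ) := by
      push_cast at h3 ⊢
      linarith
    exact_mod_cast h4

theorem card_le_of_sim {ι ι' : Type*} [Fintype ι] [Fintype ι'] {t : ι → ι' → ℚ} {lam : ℚ}
    (hlam : 0 < lam)
    (ht : ∀ a : ι → ℚ, ∑ y, (∑ x, a x * t x y) ^ 2 = lam * ∑ x, (a x) ^ 2) :
    Fintype.card ι ≤ Fintype.card ι' := by
  let f : (ι → ℚ) →ₗ[ℚ] (ι' → ℚ) :=
    { toFun := fun a y => ∑ x, a x * t x y
      map_add' := fun a b => by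
        funext y
        rw [Pi.add_apply, ← sum_add_distrib]
        exact sum_congr rfl fun x _ => add_mul _ _ _
      map_smul' := fun r a => by
        funext y
        rw [RingHom.id_apply, Pi.smul_apply, smul_eq_mul, mul_sum]
        exact sum_congr rfl fun x _ => mul_assoc _ _ _ }
  have hf : Function.Injective f := by
    rw [injective_iff_map_eq_zero]
    intro a ha
    have h1 := ht a
    have h2 : ∑ y, (∑ x, a x * t x y) ^ 2 = 0 := by
      refine sum_eq_zero fun y _ => ?_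
      have h3 : ∑ x, a x * t x y = 0 := congrFun ha y
      rw [h3, zero_pow two_ne_zero]
    rw [h2] at h1
    have h3 := (mul_eq_zero.1 h1.symm).resolve_left hlam.ne'
    funext x
    have h4 := (sum_eq_zero_iff_of_nonneg (fun x _ => sq_nonneg _)).1 h3 x (mem_univ x)
    exact pow_eq_zero_iff two_ne_zero |>.1 h4
  have h1 := LinearMap.finrank_le_finrank_of_injective hf
  rwa [Module.finrank_fintype_fun_eq_card, Module.finrank_fintype_fun_eq_card] at h1

include hinv hne hinv' hne' hG hG' hirr hirr' hC hC' hq hq' in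
/-- **If there is a relation then the numbers of elements are equal and the ratio of the norms is a
square, or a sum of two squares.** -/
theorem ratio_of_rel {n0 : E → ℚ} {n0' : E' → ℚ} (hn0 : OddFun inv n0) (hn0' : OddFun inv' n0')
    (h0 : n0 ≠ 0) (hrel : Rel G u u' n0 n0') :
    Fintype.card E = Fintype.card E' ∧
    (Odd (Fintype.card E / 2) → ∃ r : ℚ, C = r ^ 2 * C') ∧
    (Fintype.card E / 2 % 4 = 2 → ∃ r s : ℚ, C = (r ^ 2 + s ^ 2) * C') := by
  obtain ⟨H, H', t, lam, h1, h2, h3, h4, h5⟩ := exists_sim hinv hne hinv' hne' hG hG' hirr hC hC' hq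
    hq' hn0 hn0' h0 hrel
  have h0' : n0' ≠ 0 := by
    rintro rfl
    exact h0 (rel_zero hC hq hq' hn0 hrel)
  obtain ⟨K, K', s, mu, k1, k2, k3, k4, k5⟩ := exists_sim hinv' hne' hinv hne hG' hG hirr' hC' hC
    hq' hq hn0' hn0 h0' hrel.swap
  have h6 := card_le_of_sim h3 h5
  have h7 := card_le_of_sim k3 k5
  have h8 : Fintype.card E = Fintype.card E' := by omega
  have h9 : Fintype.card H = Fintype.card H' := by omega
  have h10 : Fintype.card E / 2 = Fintype.card H := by omega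
  refine ⟨h8, fun h11 => ?_, fun h11 => ?_⟩
  · rw [h10] at h11
    obtain ⟨r, hr⟩ := sq_of_sim h9 h11 h3 h5
    refine ⟨r, ?_⟩
    rw [h4, hr]
    push_cast
    ring
  · rw [h10] at h11
    obtain ⟨r, s, hr⟩ := two_sq_of_sim (Fintype.card H / 4) (by omega) (by omega) h3 h5
    refine ⟨r, s, ?_⟩
    rw [h4, hr]
    push_cast
    ring

end main

end Pool.Agent.Q70.MM
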