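import Mathlib
import Pool.Agent.Q70.SQ.Main
import Pool.Agent.Q70.MM.Defs
import Pool.Agent.Q70.MM.Graph

/-!
# Maximal angle rank for related fields
-/

set_option autoImplicit false
set_option linter.unusedSectionVars false
set_option linter.unusedVariables false

namespace Pool.Agent.Q70.MM

open NumberField Module TensorProduct IntermediateField Pool.Agent.Q70.SQ
open Pool.Agent.H204R3.CM Pool.Agent.H204R3.SP Pool.Agent.H204R3.GP Pool.Agent.Y137.MV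
  Pool.Agent.Y137.SL Pool.Agent.Y1.CT

noncomputable section

/-- Orthogonality of the blocks. -/
theorem orth {ι G : Type*} [Fintype ι] [DecidableEq ι] [Fintype G] (s : ι → G → ℝ)
    (h0 : ∀ g, ∑ k, s k g = 0) (β : ι → ι) (hβ : ∀ i, β (β i) = i)
    (horth : ∀ k l, l ≠ k → l ≠ β k → ∑ g, s k g * s l g = 0) (i : ι) (g : G) :
    ∑ k ∈ {i, β i}, s k g = 0 := by
  set B : Finset ι := {i, β i} with hB
  have hmem : ∀ k ∈ B, β k ∈ B := by
    intro k hk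
    rw [hB, Finset.mem_insert, Finset.mem_singleton] at hk ⊢
    rcases hk with rfl | rfl
    · exact Or.inr rfl
    · exact Or.inl (hβ i)
  have h1 : ∑ g, (∑ k ∈ B, s k g) ^ 2 = 0 := by
    have h2 : ∀ g, (∑ k ∈ B, s k g) ^ 2 = -∑ k ∈ B, ∑ l ∈ Bᶜ, s k g * s l g := by
      intro g
      have h3 := h0 g
      rw [← Finset.sum_add_sum_compl B] at h3
      have h4 : ∑ k ∈ B, s k g = -∑ l ∈ Bᶜ, s l g := by linarith
      rw [sq]
      nth_rewrite 2 [h4]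
      rw [mul_neg, Finset.sum_mul_sum]
    rw [Finset.sum_congr rfl fun g _ => h2 g, Finset.sum_neg_distrib, neg_eq_zero,
      Finset.sum_comm]
    refine Finset.sum_eq_zero fun k hk => ?_
    rw [Finset.sum_comm]
    refine Finset.sum_eq_zero fun l hl => horth k l ?_ ?_
    · rintro rfl
      exact (Finset.mem_compl.1 hl) hk
    · rintro rfl
      exact (Finset.mem_compl.1 hl) (hmem k hk)
  have h2 := (Finset.sum_eq_zero_iff_of_nonneg (fun g _ => sq_nonneg _)).1 h1 g (Finset.mem_univ g)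
  exact pow_eq_zero_iff two_ne_zero |>.1 h2

variable {p : ℕ} [Fact p.Prime] {a : ℕ} {ι : Type} [Fintype ι] {F : ι → Type}
  [∀ i, Field (F i)] [∀ i, NumberField (F i)] [∀ i, IsCMField (F i)] {π : ∀ i, F i}

section

variable {L : Type*} [Field L] [NumberField L] [IsGalois ℚ L] (j : L →+* ℂ)
  (h : ∀ i, ∀ ψ : F i →+* ℂ, ∃ φ : F i →+* L, j.comp φ = ψ) (jp : L →+* PadicAlgCl p)
  (hw : ∀ i, π i * IsCMField.complexConj (F i) (π i) = (p : F i) ^ a)

/-- The slope function of `π i`. -/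
def ui (p a : ℕ) [Fact p.Prime] (π : ∀ i, F i) (jp : L →+* PadicAlgCl p) (i : ι)
    (φ : F i →+* L) : ℝ := uu p a π jp ⟨i, φ⟩

include j h hw in
theorem norm_eq (habs : ∀ i, OddAbsolutelyIrreducible (F i)) (i : ι) (n : (F i →+* L) → ℚ)
    (hn : OddFun cbar n) :
    ∑ σ : L ≃ₐ[ℚ] L, (∑ φ, (n φ : ℝ) * ui p a π jp i (σ • φ)) ^ 2 =
      (8 * (Fintype.card (L ≃ₐ[ℚ] L) * weilDeviation p a (π i))) * ∑ φ, (n φ : ℝ) ^ 2 := by
  classical
  have h1 := quad_eq (X := F i →+* L) (bar := cbar)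
    (B := fun φ φ' => BB p a π jp ⟨i, φ⟩ ⟨i, φ'⟩) cbar_cbar cbar_ne
    (fun φ φ' => BB_bar_right jp hw ⟨i, φ⟩ ⟨i, φ'⟩)
    (fun φ φ' h3 h4 => form_self (E := F i →+* L) (G := L ≃ₐ[ℚ] L) (inv := cbar) cbar_cbar
      (abs_transfer j (h i) (habs i)) (fun φ φ' => BB p a π jp ⟨i, φ⟩ ⟨i, φ'⟩)
      (fun g φ φ' => BB_inv jp g ⟨i, φ⟩ ⟨i, φ'⟩)
      (fun φ φ' => BB_bar_left jp hw ⟨i, φ⟩ ⟨i, φ'⟩)
      (fun φ φ' => BB_bar_right jp hw ⟨i, φ⟩ ⟨i, φ'⟩) φ φ' h3 h4)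
    (fun φ => BB_bar_bar jp hw ⟨i, φ⟩) (fun φ => (n φ : ℝ))
  have h2 : ∑ φ : F i →+* L, ∑ φ' : F i →+* L,
      (n φ : ℝ) * (n φ' : ℝ) * BB p a π jp ⟨i, φ⟩ ⟨i, φ'⟩ =
      ∑ σ : L ≃ₐ[ℚ] L, (∑ φ, (n φ : ℝ) * ui p a π jp i (σ • φ)) ^ 2 := by
    have h3 : ∀ σ : L ≃ₐ[ℚ] L, (∑ φ, (n φ : ℝ) * ui p a π jp i (σ • φ)) ^ 2 =
        ∑ φ : F i →+* L, ∑ φ' : F i →+* L, (n φ : ℝ) * (n φ' : ℝ) *
          (uu p a π jp (σ • ⟨i, φ⟩) * uu p a π jp (σ • ⟨i, φ'⟩)) := by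
      intro σ
      rw [sq, Finset.sum_mul_sum]
      refine Finset.sum_congr rfl fun φ _ => Finset.sum_congr rfl fun φ' _ => ?_
      have e1 : ui p a π jp i (σ • φ) = uu p a π jp (σ • ⟨i, φ⟩) := rfl
      have e2 : ui p a π jp i (σ • φ') = uu p a π jp (σ • ⟨i, φ'⟩) := rfl
      rw [e1, e2]
      ring
    symm
    rw [Finset.sum_congr rfl fun σ _ => h3 σ, Finset.sum_comm]
    refine Finset.sum_congr rfl fun φ _ => ?_
    rw [Finset.sum_comm]
    refine Finset.sum_congr rfl fun φ' _ => ?_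
    rw [← Finset.mul_sum]
    rfl
  rw [← h2]
  refine h1.trans ?_
  rw [Finset.mul_sum, Finset.mul_sum]
  refine Finset.sum_congr rfl fun φ _ => ?_
  rw [hn φ, BB_self]
  push_cast
  ring

include j h hw in
theorem cross_zero (i i' : ι) (hun : Unrelated (F i) (F i')) (n : (F i →+* L) → ℚ)
    (n' : (F i' →+* L) → ℚ) :
    ∑ σ : L ≃ₐ[ℚ] L, (∑ φ, (n φ : ℝ) * ui p a π jp i (σ • φ)) *
      (∑ φ, (n' φ : ℝ) * ui p a π jp i' (σ • φ)) = 0 := by
  classical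
  have h3 : ∀ σ : L ≃ₐ[ℚ] L, (∑ φ, (n φ : ℝ) * ui p a π jp i (σ • φ)) *
      (∑ φ, (n' φ : ℝ) * ui p a π jp i' (σ • φ)) =
        ∑ φ : F i →+* L, ∑ φ' : F i' →+* L, (n φ : ℝ) * (n' φ' : ℝ) *
          (uu p a π jp (σ • ⟨i, φ⟩) * uu p a π jp (σ • ⟨i', φ'⟩)) := by
    intro σ
    rw [Finset.sum_mul_sum]
    refine Finset.sum_congr rfl fun φ _ => Finset.sum_congr rfl fun φ' _ => ?_
    have e1 : ui p a π jp i (σ • φ) = uu p a π jp (σ • ⟨i, φ⟩) := rfl
    have e2 : ui p a π jp i' (σ • φ') = uu p a π jp (σ • ⟨i', φ'⟩) := rfl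
    rw [e1, e2]
    ring
  rw [Finset.sum_congr rfl fun σ _ => h3 σ, Finset.sum_comm]
  refine Finset.sum_eq_zero fun φ _ => ?_
  rw [Finset.sum_comm]
  refine Finset.sum_eq_zero fun φ' _ => ?_
  rw [← Finset.mul_sum]
  have h4 := form_zero (E := F i →+* L) (E' := F i' →+* L) (G := L ≃ₐ[ℚ] L) (inv := cbar)
      (inv' := cbar) cbar_cbar (unrel_transfer j (h i) (h i') hun)
      (fun φ φ' => BB p a π jp ⟨i, φ⟩ ⟨i', φ'⟩)
      (fun g φ φ' => BB_inv jp g ⟨i, φ⟩ ⟨i', φ'⟩)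
      (fun φ φ' => BB_bar_left jp hw ⟨i, φ⟩ ⟨i', φ'⟩)
      (fun φ φ' => BB_bar_right jp hw ⟨i, φ⟩ ⟨i', φ'⟩) φ φ'
  change (n φ : ℝ) * (n' φ' : ℝ) * BB p a π jp ⟨i, φ⟩ ⟨i', φ'⟩ = 0
  rw [h4, mul_zero]

theorem smul_cbar {F : Type*} [Field F] [NumberField F] [IsCMField F] (g : L ≃ₐ[ℚ] L)
    (φ : F →+* L) : g • cbar φ = cbar (g • φ) := rfl

include j h in
theorem card_emb (i : ι) : Fintype.card (F i →+* L) = finrank ℚ (F i) := by
  rw [Fintype.card_congr (embEquiv j (h i)), NumberField.Embeddings.card]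

include j h hw in
/-- The main point: there are no relations in a block. -/
theorem block_zero (habs : ∀ i, OddAbsolutelyIrreducible (F i)) (hns : ∀ i, HasOtherSlope p a (π i))
    (i i' : ι) (hd : Distinguished p a (π i) (π i')) (n : (F i →+* L) → ℚ)
    (n' : (F i' →+* L) → ℚ) (hn : OddFun cbar n) (hn' : OddFun cbar n')
    (h1 : ∀ σ : L ≃ₐ[ℚ] L, ∑ φ, (n φ : ℝ) * ui p a π jp i (σ • φ) +
      ∑ φ, (n' φ : ℝ) * ui p a π jp i' (σ • φ) = 0) : n = 0 := by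
  classical
  by_contra h0
  have hpos : ∀ i, 0 < (Fintype.card (L ≃ₐ[ℚ] L) : ℝ) * weilDeviation p a (π i) := by
    intro i
    obtain ⟨φ, -⟩ := h i (Classical.arbitrary (F i →+* ℂ))
    have h2 := BB_pos j h jp hw hns ⟨i, φ⟩
    rw [BB_self] at h2
    change 0 < 4 * ((Fintype.card (L ≃ₐ[ℚ] L) : ℝ) * weilDeviation p a (π i)) at h2
    linarith
  obtain ⟨h2, h3, h4⟩ := ratio_of_rel (G := L ≃ₐ[ℚ] L) (inv := (cbar : (F i →+* L) → _))
    (inv' := (cbar : (F i' →+* L) → _)) (u := ui p a π jp i) (u' := ui p a π jp i')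
    (C := 8 * (Fintype.card (L ≃ₐ[ℚ] L) * weilDeviation p a (π i)))
    (C' := 8 * (Fintype.card (L ≃ₐ[ℚ] L) * weilDeviation p a (π i')))
    cbar_cbar cbar_ne cbar_cbar cbar_ne (fun g φ => smul_cbar g φ) (fun g φ => smul_cbar g φ)
    (irr_transfer j (h i) (habs i).1) (irr_transfer j (h i') (habs i').1)
    (by linarith [hpos i]) (by linarith [hpos i'])
    (fun n hn => norm_eq j h jp hw habs i n hn) (fun n hn => norm_eq j h jp hw habs i' n hn)
    hn hn' h0 h1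
  rw [card_emb j h i, card_emb j h i'] at h2
  rw [card_emb j h i] at h3 h4
  have hG0 : (0 : ℝ) < Fintype.card (L ≃ₐ[ℚ] L) := Nat.cast_pos.2 Fintype.card_pos
  rcases hd with hd | ⟨hd1, hd2⟩ | ⟨hd1, hd2⟩
  · exact hd h2
  · obtain ⟨r, hr⟩ := h3 hd1
    refine hd2 r ?_
    have h5 : (8 * (Fintype.card (L ≃ₐ[ℚ] L) : ℝ)) * (weilDeviation p a (π i) -
        (r : ℝ) ^ 2 * weilDeviation p a (π i')) = 0 := by linarith
    have h6 := (mul_eq_zero.1 h5).resolve_left (by positivity)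
    linarith
  · obtain ⟨r, s, hr⟩ := h4 hd1
    refine hd2 r s ?_
    have h5 : (8 * (Fintype.card (L ≃ₐ[ℚ] L) : ℝ)) * (weilDeviation p a (π i) -
        ((r : ℝ) ^ 2 + (s : ℝ) ^ 2) * weilDeviation p a (π i')) = 0 := by linarith
    have h6 := (mul_eq_zero.1 h5).resolve_left (by positivity)
    linarith

include j h hw in
theorem single_zero (habs : ∀ i, OddAbsolutelyIrreducible (F i))
    (hns : ∀ i, HasOtherSlope p a (π i)) (i : ι) (n : (F i →+* L) → ℚ) (hn : OddFun cbar n)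
    (h1 : ∀ σ : L ≃ₐ[ℚ] L, ∑ φ, (n φ : ℝ) * ui p a π jp i (σ • φ) = 0) : n = 0 := by
  classical
  obtain ⟨φ0, -⟩ := h i (Classical.arbitrary (F i →+* ℂ))
  have h2 := BB_pos j h jp hw hns ⟨i, φ0⟩
  rw [BB_self] at h2
  change 0 < 4 * ((Fintype.card (L ≃ₐ[ℚ] L) : ℝ) * weilDeviation p a (π i)) at h2
  have h3 := norm_eq j h jp hw habs i n hn
  rw [Finset.sum_eq_zero fun σ _ => by rw [h1 σ, zero_pow two_ne_zero]] at h3
  have h4 := (mul_eq_zero.1 h3.symm).resolve_left (by linarith)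
  funext φ
  have h5 := (Finset.sum_eq_zero_iff_of_nonneg (fun x _ => sq_nonneg _)).1 h4 φ (Finset.mem_univ φ)
  have h6 := pow_eq_zero_iff two_ne_zero |>.1 h5
  exact_mod_cast h6

end

/-- **Maximal angle rank for related fields.** -/
theorem angle_of_pairs (ha : 0 < a)
    (hw : ∀ i, π i * IsCMField.complexConj (F i) (π i) = (p : F i) ^ a)
    (habs : ∀ i, OddAbsolutelyIrreducible (F i)) (hns : ∀ i, HasOtherSlope p a (π i))
    (hrp : RelatedPairs p a π) : MaximalAngleRank (p ^ a) π := by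
  classical
  obtain ⟨β, hβ, hun, hd⟩ := hrp
  intro r n hrel i φ
  obtain ⟨L, hLa, hLb, j, h, -⟩ := exists_galois_roots F (1 : Polynomial ℚ) one_ne_zero
  let jp : L →ₐ[ℚ] PadicAlgCl p := IsAlgClosed.lift
  let J : (Σ i, (F i →+* L)) ≃ Σ i, (F i →+* ℂ) :=
    Equiv.sigmaCongrRight fun i => embEquiv j (h i)
  have hJ : ∀ x : Σ i, (F i →+* L), (J x).2 (π (J x).1) = j (val π x) := fun x => rfl
  have hp0 : (0 : ℝ) < p := Nat.cast_pos.2 (Fact.out : p.Prime).pos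
  have hlogp : 0 < (a : ℝ) * Real.log p :=
    mul_pos (Nat.cast_pos.2 ha) (Real.log_pos (by exact_mod_cast (Fact.out : p.Prime).one_lt))
  -- the relation in `L`
  have hL : ∏ x : Σ i, (F i →+* L), (val π x) ^ (n (J x)) = ((p : L) ^ a) ^ r := by
    apply j.injective
    rw [map_prod, map_zpow₀, map_pow, map_natCast]
    have h1 : ∏ x : Σ i, (F i →+* L), j ((val π x) ^ (n (J x))) =
        ∏ y : Σ i, (F i →+* ℂ), (y.2 (π y.1)) ^ (n y) :=
      Fintype.prod_equiv J _ _ fun x => by rw [map_zpow₀, hJ]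
    rw [h1, hrel]
    push_cast
    rfl
  have hlog : ∀ (E : Type) [NormedField E] (f : L →+* E), (∀ x, ‖f (val π x)‖ ≠ 0) →
      ∑ x : Σ i, (F i →+* L), (n (J x) : ℝ) * Real.log ‖f (val π x)‖ =
        r * Real.log ‖(p : E) ^ a‖ := by
    intro E _ f hf
    have h1 := congrArg (fun z => Real.log ‖f z‖) hL
    simp only [map_prod, map_zpow₀, norm_prod, norm_zpow, Real.log_zpow, map_pow, map_natCast] at h1
    rw [Real.log_prod (fun x _ => zpow_ne_zero _ (hf x))] at h1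
    simp only [Real.log_zpow] at h1
    exact h1
  have hc : ∑ x : Σ i, (F i →+* L), (n (J x) : ℝ) = 2 * r := by
    have hne : ∀ x : Σ i, (F i →+* L), ‖j (val π x)‖ ≠ 0 := by
      intro x h2
      have h3 := norm_val j hw x
      rw [h2] at h3
      have h4 : (0 : ℝ) < (p : ℝ) ^ a := pow_pos hp0 a
      norm_num at h3
      linarith
    have h1 := hlog ℂ j hne
    have h2 : ∀ x : Σ i, (F i →+* L), Real.log ‖j (val π x)‖ = (a : ℝ) * Real.log p / 2 := by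
      intro x
      have h3 := congrArg Real.log (norm_val j hw x)
      rw [Real.log_pow, Real.log_pow] at h3
      push_cast at h3
      linarith
    have h3 : Real.log ‖((p : ℕ) : ℂ) ^ a‖ = (a : ℝ) * Real.log p := by
      rw [norm_pow, Real.log_pow, Complex.norm_natCast]
    rw [Finset.sum_congr rfl fun x _ => by rw [h2 x], ← Finset.sum_mul, h3] at h1
    have h4 : (∑ x : Σ i, (F i →+* L), (n (J x) : ℝ) - 2 * r) * ((a : ℝ) * Real.log p) = 0 := by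
      linarith
    have h5 := (mul_eq_zero.1 h4).resolve_right hlogp.ne'
    linarith
  have hzero : ∀ σ : L ≃ₐ[ℚ] L, ∑ x : Σ i, (F i →+* L), (n (J x) : ℝ) *
      uu p a π (jp : L →+* PadicAlgCl p) (σ • x) = 0 := by
    intro σ
    have h1 := hlog (PadicAlgCl p) ((jp : L →+* PadicAlgCl p).comp (σ : L →+* L))
      (fun x => norm_val_ne (jp : L →+* PadicAlgCl p) hw (σ • x))
    have h2 : ∀ x : Σ i, (F i →+* L), (n (J x) : ℝ) * uu p a π (jp : L →+* PadicAlgCl p) (σ • x) =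
        2 * ((n (J x) : ℝ) * Real.log ‖((jp : L →+* PadicAlgCl p).comp (σ : L →+* L)) (val π x)‖) -
        (n (J x) : ℝ) * Real.log ‖(p : PadicAlgCl p) ^ a‖ := by
      intro x
      rw [uu]
      have h3 : ((jp : L →+* PadicAlgCl p).comp (σ : L →+* L)) (val π x) =
        (jp : L →+* PadicAlgCl p) (val π (σ • x)) := rfl
      rw [h3]
      ring
    rw [Finset.sum_congr rfl fun x _ => h2 x, Finset.sum_sub_distrib, ← Finset.mul_sum, h1,
      ← Finset.sum_mul, hc]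
    ring
  -- the odd part
  let N : ∀ k, (F k →+* L) → ℚ := fun k ψ => (n (J ⟨k, ψ⟩) : ℚ) - (n (J ⟨k, cbar ψ⟩) : ℚ)
  have hN : ∀ k, OddFun cbar (N k) := by
    intro k ψ
    simp only [N, cbar_cbar]
    ring
  have hN0 : ∀ σ : L ≃ₐ[ℚ] L, ∑ k, ∑ ψ, (N k ψ : ℝ) *
      ui p a π (jp : L →+* PadicAlgCl p) k (σ • ψ) = 0 := by
    intro σ
    have h1 := hzero σ
    have h2 : ∑ x : Σ i, (F i →+* L), (n (J (bar x)) : ℝ) *
        uu p a π (jp : L →+* PadicAlgCl p) (σ • x) = 0 := by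
      rw [← neg_zero, ← h1, ← Finset.sum_neg_distrib]
      refine Fintype.sum_equiv ⟨bar, bar, bar_bar, bar_bar⟩ _ _ fun x => ?_
      change _ = -((n (J (bar x)) : ℝ) * uu p a π (jp : L →+* PadicAlgCl p) (σ • bar x))
      have h3 : σ • bar x = bar (σ • x) := rfl
      rw [h3, uu_bar (jp : L →+* PadicAlgCl p) hw]
      ring
    rw [Fintype.sum_sigma] at h1 h2
    have h3 : ∀ k, ∑ ψ, (N k ψ : ℝ) * ui p a π (jp : L →+* PadicAlgCl p) k (σ • ψ) =
        ∑ ψ, (n (J ⟨k, ψ⟩) : ℝ) * uu p a π (jp : L →+* PadicAlgCl p) (σ • ⟨k, ψ⟩) -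
        ∑ ψ, (n (J (bar ⟨k, ψ⟩)) : ℝ) * uu p a π (jp : L →+* PadicAlgCl p) (σ • ⟨k, ψ⟩) := by
      intro k
      rw [← Finset.sum_sub_distrib]
      refine Finset.sum_congr rfl fun ψ _ => ?_
      have e1 : ui p a π (jp : L →+* PadicAlgCl p) k (σ • ψ) =
        uu p a π (jp : L →+* PadicAlgCl p) (σ • ⟨k, ψ⟩) := rfl
      have e2 : (bar ⟨k, ψ⟩ : Σ i, (F i →+* L)) = ⟨k, cbar ψ⟩ := rfl
      rw [e1, e2]
      simp only [N]
      push_cast
      ring
    rw [Finset.sum_congr rfl fun k _ => h3 k, Finset.sum_sub_distrib, h1, h2, sub_zero]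
  have hblock := orth (G := L ≃ₐ[ℚ] L) (fun k σ => ∑ ψ, (N k ψ : ℝ) *
      ui p a π (jp : L →+* PadicAlgCl p) k (σ • ψ)) hN0 β hβ
      (fun k l h1 h2 => cross_zero j h (jp : L →+* PadicAlgCl p) hw k l (hun k l h1 h2) (N k) (N l))
      i
  have hNi : N i = 0 := by
    by_cases hi : β i = i
    · rw [hi] at hblock
      refine single_zero j h (jp : L →+* PadicAlgCl p) hw habs hns i (N i) (hN i) fun σ => ?_
      have h1 := hblock σ
      simp only [Finset.pair_eq_singleton, Finset.sum_singleton] at h1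
      exact h1
    · refine block_zero j h (jp : L →+* PadicAlgCl p) hw habs hns i (β i) (hd i hi) (N i) (N (β i))
        (hN i) (hN _) fun σ => ?_
      have h1 := hblock σ
      rw [Finset.sum_pair (Ne.symm hi)] at h1
      exact h1
  obtain ⟨φ', rfl⟩ := h i φ
  have h1 := congrFun hNi φ'
  have h7 : J ⟨i, cbar φ'⟩ = ⟨i, ComplexEmbedding.conjugate (j.comp φ')⟩ := by
    change (⟨i, j.comp (cbar φ')⟩ : Σ i, (F i →+* ℂ)) = _
    rw [comp_cbar]
  simp only [N, h7, Pi.zero_apply] at h1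
  have h2 := sub_eq_zero.1 h1
  exact_mod_cast h2

end

end Pool.Agent.Q70.MM
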