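import Mathlib
import Pool.Agent.Y137.SL.Defs
import Pool.Agent.Y1.CT.UnrelDefs

/-!
# Several Weil numbers in the same fields: definitions
-/

set_option autoImplicit false

namespace Pool.Agent.Q70.MM

open NumberField Module Polynomial Pool.Agent.Y137.SL Pool.Agent.Y1.CT

/-- For each `c` the slope functions `τ ↦ log |τ (π c l)| + (log q) / 2`, `q = p ^ a`, of the numbers
`π c l` in `K c` (`l` in `J c`) on the embeddings `τ` of `K c` in the algebraic closure of `ℚ_p` are
linearly independent over the rational numbers. -/
def IndependentSlopes (p a : ℕ) [Fact p.Prime] {C : Type*} {K : C → Type*} {J : C → Type*}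
    [∀ c, Field (K c)] [∀ c, Fintype (J c)] (π : ∀ c, J c → K c) : Prop :=
  ∀ (c : C) (m : J c → ℚ),
    (∀ τ : K c →+* PadicAlgCl p, ∑ l, (m l : ℝ) * slope p a (π c l) τ = 0) → m = 0

/-- The slopes of the numbers `x` and `y` are neither equal nor opposite. (For ordinary Weil numbers
this means that no positive powers of them are equal or complex conjugate, so that the abelian
varieties are not isogenous over any extension.) -/
def DifferentSlopes (p a : ℕ) [Fact p.Prime] {K : Type*} [Field K] (x y : K) : Prop :=
  (∃ τ : K →+* PadicAlgCl p, slope p a x τ ≠ slope p a y τ) ∧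
    ∃ τ : K →+* PadicAlgCl p, slope p a x τ ≠ -slope p a y τ

/-- The complex number `ρ` is not zero and for each `c` it is unrelated to the field `K c` (an odd
function on the embeddings of `K c` invariant under all automorphisms of `ℂ` that fix some positive
power of `ρ` is zero) or it is algebraic of smaller degree than `K c`. -/
def HarmlessNumber {C : Type} (K : C → Type) [∀ c, Field (K c)] [∀ c, NumberField (K c)]
    (ρ : ℂ) : Prop :=
  ρ ≠ 0 ∧ ∀ c, UnrelatedTo (K c) ρ ∨ (IsIntegral ℚ ρ ∧ (minpoly ℚ ρ).natDegree < finrank ℚ (K c))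

/-- All complex roots of the polynomial are harmless numbers. -/
def HarmlessRoots {C : Type} (K : C → Type) [∀ c, Field (K c)] [∀ c, NumberField (K c)]
    (χ : ℚ[X]) : Prop :=
  ∀ ρ : ℂ, aeval ρ χ = 0 → HarmlessNumber K ρ

end Pool.Agent.Q70.MM
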