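import Mathlib
import Pool.Agent.Q70.MM.Main
import Pool.Agent.Q70.MM.SameDefs

/-!
# Maximal angle rank for several Weil numbers in the same fields
-/

set_option autoImplicit false
set_option linter.unusedSectionVars false
set_option linter.unusedVariables false

namespace Pool.Agent.Q70.MM

open NumberField Module TensorProduct IntermediateField Pool.Agent.Q70.SQ
open Pool.Agent.H204R3.CM Pool.Agent.H204R3.SP Pool.Agent.H204R3.GP Pool.Agent.Y137.MV
  Pool.Agent.Y137.SL Pool.Agent.Y1.CT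

noncomputable section

/-- The sum of the squares splits. -/
theorem same_core {E G J : Type*} [Fintype E] [DecidableEq E] [Group G] [Fintype G]
    [MulAction G E] [Fintype J] {inv : E → E} (hinv : ∀ x, inv (inv x) = x)
    (hne : ∀ x, inv x ≠ x) (habs : AbsOdd G inv)
    (hG : ∀ (g : G) (x : E), g • inv x = inv (g • x)) (u : J → E → ℝ)
    (hu : ∀ l x, u l (inv x) = -u l x) (n : J → E → ℚ) (hn : ∀ l, OddFun inv (n l))
    (hrel : ∀ g : G, ∑ l, ∑ x, (n l x : ℝ) * u l (g • x) = 0) (x : E) (g : G) :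
    ∑ l, (n l x : ℝ) * u l (g • x) = 0 := by
  classical
  let s : G → E → ℝ := fun g x => ∑ l, (n l x : ℝ) * u l (g • x)
  have hs0 : ∀ g, ∑ y, s g y = 0 := by
    intro g
    rw [← hrel g, Finset.sum_comm]
  have hsbar : ∀ g x, s g (inv x) = s g x := by
    intro g x
    refine Finset.sum_congr rfl fun l _ => ?_
    rw [hn l, hG, hu]
    push_cast
    ring
  have hB : ∀ (l l' : J) (x y : E), y ≠ x → y ≠ inv x → ∑ g : G, u l (g • x) * u l' (g • y) = 0 := by
    intro l l' x y h1 h2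
    exact form_self (G := G) hinv habs (fun x y => ∑ g : G, u l (g • x) * u l' (g • y))
      (fun h x y => Fintype.sum_equiv (Equiv.mulRight h) _ _ fun g => by
        rw [Equiv.coe_mulRight, mul_smul, mul_smul])
      (fun x y => by
        rw [← Finset.sum_neg_distrib]
        exact Finset.sum_congr rfl fun g _ => by rw [hG, hu, neg_mul])
      (fun x y => by
        rw [← Finset.sum_neg_distrib]
        exact Finset.sum_congr rfl fun g _ => by rw [hG, hu, mul_neg]) x y h1 h2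
  have hcross : ∀ x y : E, y ≠ x → y ≠ inv x → ∑ g : G, s g x * s g y = 0 := by
    intro x y h1 h2
    have h3 : ∀ g : G, s g x * s g y = ∑ l, ∑ l', ((n l x : ℝ) * (n l' y : ℝ)) *
        (u l (g • x) * u l' (g • y)) := by
      intro g
      simp only [s]
      rw [Finset.sum_mul_sum]
      exact Finset.sum_congr rfl fun l _ => Finset.sum_congr rfl fun l' _ => by ring
    rw [Finset.sum_congr rfl fun g _ => h3 g, Finset.sum_comm]
    refine Finset.sum_eq_zero fun l _ => ?_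
    rw [Finset.sum_comm]
    refine Finset.sum_eq_zero fun l' _ => ?_
    rw [← Finset.mul_sum, hB l l' x y h1 h2, mul_zero]
  have hsq : ∑ g : G, s g x ^ 2 = 0 := by
    have h1 : ∑ y, ∑ g : G, s g x * s g y = 0 := by
      rw [Finset.sum_comm]
      refine Finset.sum_eq_zero fun g _ => ?_
      rw [← Finset.mul_sum, hs0, mul_zero]
    rw [← Finset.add_sum_erase _ _ (Finset.mem_univ x),
      ← Finset.add_sum_erase _ _ (Finset.mem_erase.2 ⟨hne x, Finset.mem_univ (inv x)⟩),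
      Finset.sum_eq_zero (s := (Finset.univ.erase x).erase (inv x))] at h1
    · have h2 : ∑ g : G, s g x * s g (inv x) = ∑ g : G, s g x ^ 2 :=
        Finset.sum_congr rfl fun g _ => by rw [hsbar, sq]
      have h3 : ∑ g : G, s g x * s g x = ∑ g : G, s g x ^ 2 :=
        Finset.sum_congr rfl fun g _ => by rw [sq]
      rw [h2, h3] at h1
      linarith
    · intro y hy
      rw [Finset.mem_erase, Finset.mem_erase] at hy
      exact hcross x y hy.2.1 hy.1
  have h2 := (Finset.sum_eq_zero_iff_of_nonneg (fun g _ => sq_nonneg _)).1 hsq g (Finset.mem_univ g)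
  exact pow_eq_zero_iff two_ne_zero |>.1 h2

variable {p : ℕ} [Fact p.Prime] {a : ℕ}

/-- **Maximal angle rank for several Weil numbers in the same fields.** -/
theorem angle_same {C : Type} [Fintype C] {K : C → Type} {J : C → Type} [∀ c, Fintype (J c)]
    [∀ c, Field (K c)] [∀ c, NumberField (K c)] [∀ c, IsCMField (K c)] (π : ∀ c, J c → K c)
    (ha : 0 < a)
    (hw : ∀ c l, π c l * IsCMField.complexConj (K c) (π c l) = (p : K c) ^ a)
    (habs : ∀ c, OddAbsolutelyIrreducible (K c))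
    (hun : ∀ c c', c ≠ c' → Unrelated (K c) (K c'))
    (hind : IndependentSlopes p a π) :
    MaximalAngleRank (p ^ a) (F := fun i : Σ c, J c => K i.1) (fun i => π i.1 i.2) := by
  classical
  set F : (Σ c, J c) → Type := fun i => K i.1 with hF
  set π' : ∀ i, F i := fun i => π i.1 i.2 with hπ'
  have hw' : ∀ i, π' i * IsCMField.complexConj (F i) (π' i) = (p : F i) ^ a := fun i => hw i.1 i.2
  intro r n hrel i φ
  obtain ⟨L, hLa, hLb, j, h, -⟩ := exists_galois_roots F (1 : Polynomial ℚ) one_ne_zero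
  let jp : L →ₐ[ℚ] PadicAlgCl p := IsAlgClosed.lift
  let J' : (Σ i, (F i →+* L)) ≃ Σ i, (F i →+* ℂ) :=
    Equiv.sigmaCongrRight fun i => embEquiv j (h i)
  have hJ : ∀ x : Σ i, (F i →+* L), (J' x).2 (π' (J' x).1) = j (val π' x) := fun x => rfl
  have hp0 : (0 : ℝ) < p := Nat.cast_pos.2 (Fact.out : p.Prime).pos
  have hlogp : 0 < (a : ℝ) * Real.log p :=
    mul_pos (Nat.cast_pos.2 ha) (Real.log_pos (by exact_mod_cast (Fact.out : p.Prime).one_lt))
  -- the relation in `L`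
  have hL : ∏ x : Σ i, (F i →+* L), (val π' x) ^ (n (J' x)) = ((p : L) ^ a) ^ r := by
    apply j.injective
    rw [map_prod, map_zpow₀, map_pow, map_natCast]
    have h1 : ∏ x : Σ i, (F i →+* L), j ((val π' x) ^ (n (J' x))) =
        ∏ y : Σ i, (F i →+* ℂ), (y.2 (π' y.1)) ^ (n y) :=
      Fintype.prod_equiv J' _ _ fun x => by rw [map_zpow₀, hJ]
    rw [h1, hrel]
    push_cast
    rfl
  have hlog : ∀ (E : Type) [NormedField E] (f : L →+* E), (∀ x, ‖f (val π' x)‖ ≠ 0) →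
      ∑ x : Σ i, (F i →+* L), (n (J' x) : ℝ) * Real.log ‖f (val π' x)‖ =
        r * Real.log ‖(p : E) ^ a‖ := by
    intro E _ f hf
    have h1 := congrArg (fun z => Real.log ‖f z‖) hL
    simp only [map_prod, map_zpow₀, norm_prod, norm_zpow, Real.log_zpow, map_pow, map_natCast] at h1
    rw [Real.log_prod (fun x _ => zpow_ne_zero _ (hf x))] at h1
    simp only [Real.log_zpow] at h1
    exact h1
  have hc : ∑ x : Σ i, (F i →+* L), (n (J' x) : ℝ) = 2 * r := by
    have hne : ∀ x : Σ i, (F i →+* L), ‖j (val π' x)‖ ≠ 0 := by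
      intro x h2
      have h3 := norm_val j hw' x
      rw [h2] at h3
      have h4 : (0 : ℝ) < (p : ℝ) ^ a := pow_pos hp0 a
      norm_num at h3
      linarith
    have h1 := hlog ℂ j hne
    have h2 : ∀ x : Σ i, (F i →+* L), Real.log ‖j (val π' x)‖ = (a : ℝ) * Real.log p / 2 := by
      intro x
      have h3 := congrArg Real.log (norm_val j hw' x)
      rw [Real.log_pow, Real.log_pow] at h3
      push_cast at h3
      linarith
    have h3 : Real.log ‖((p : ℕ) : ℂ) ^ a‖ = (a : ℝ) * Real.log p := by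
      rw [norm_pow, Real.log_pow, Complex.norm_natCast]
    rw [Finset.sum_congr rfl fun x _ => by rw [h2 x], ← Finset.sum_mul, h3] at h1
    have h4 : (∑ x : Σ i, (F i →+* L), (n (J' x) : ℝ) - 2 * r) * ((a : ℝ) * Real.log p) = 0 := by
      linarith
    have h5 := (mul_eq_zero.1 h4).resolve_right hlogp.ne'
    linarith
  have hzero : ∀ σ : L ≃ₐ[ℚ] L, ∑ x : Σ i, (F i →+* L), (n (J' x) : ℝ) *
      uu p a π' (jp : L →+* PadicAlgCl p) (σ • x) = 0 := by
    intro σ
    have h1 := hlog (PadicAlgCl p) ((jp : L →+* PadicAlgCl p).comp (σ : L →+* L))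
      (fun x => norm_val_ne (jp : L →+* PadicAlgCl p) hw' (σ • x))
    have h2 : ∀ x : Σ i, (F i →+* L), (n (J' x) : ℝ) * uu p a π' (jp : L →+* PadicAlgCl p) (σ • x) =
        2 * ((n (J' x) : ℝ) * Real.log ‖((jp : L →+* PadicAlgCl p).comp (σ : L →+* L)) (val π' x)‖) -
        (n (J' x) : ℝ) * Real.log ‖(p : PadicAlgCl p) ^ a‖ := by
      intro x
      rw [uu]
      have h3 : ((jp : L →+* PadicAlgCl p).comp (σ : L →+* L)) (val π' x) =
        (jp : L →+* PadicAlgCl p) (val π' (σ • x)) := rfl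
      rw [h3]
      ring
    rw [Finset.sum_congr rfl fun x _ => h2 x, Finset.sum_sub_distrib, ← Finset.mul_sum, h1,
      ← Finset.sum_mul, hc]
    ring
  -- the odd part
  let N : ∀ k, (F k →+* L) → ℚ := fun k ψ => (n (J' ⟨k, ψ⟩) : ℚ) - (n (J' ⟨k, cbar ψ⟩) : ℚ)
  have hN : ∀ k, OddFun cbar (N k) := by
    intro k ψ
    simp only [N, cbar_cbar]
    ring
  have hN0 : ∀ σ : L ≃ₐ[ℚ] L, ∑ k, ∑ ψ, (N k ψ : ℝ) *
      ui p a π' (jp : L →+* PadicAlgCl p) k (σ • ψ) = 0 := by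
    intro σ
    have h1 := hzero σ
    have h2 : ∑ x : Σ i, (F i →+* L), (n (J' (bar x)) : ℝ) *
        uu p a π' (jp : L →+* PadicAlgCl p) (σ • x) = 0 := by
      rw [← neg_zero, ← h1, ← Finset.sum_neg_distrib]
      refine Fintype.sum_equiv ⟨bar, bar, bar_bar, bar_bar⟩ _ _ fun x => ?_
      change _ = -((n (J' (bar x)) : ℝ) * uu p a π' (jp : L →+* PadicAlgCl p) (σ • bar x))
      have h3 : σ • bar x = bar (σ • x) := rfl
      rw [h3, uu_bar (jp : L →+* PadicAlgCl p) hw']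
      ring
    rw [Fintype.sum_sigma] at h1 h2
    have h3 : ∀ k, ∑ ψ, (N k ψ : ℝ) * ui p a π' (jp : L →+* PadicAlgCl p) k (σ • ψ) =
        ∑ ψ, (n (J' ⟨k, ψ⟩) : ℝ) * uu p a π' (jp : L →+* PadicAlgCl p) (σ • ⟨k, ψ⟩) -
        ∑ ψ, (n (J' (bar ⟨k, ψ⟩)) : ℝ) * uu p a π' (jp : L →+* PadicAlgCl p) (σ • ⟨k, ψ⟩) := by
      intro k
      rw [← Finset.sum_sub_distrib]
      refine Finset.sum_congr rfl fun ψ _ => ?_
      have e1 : ui p a π' (jp : L →+* PadicAlgCl p) k (σ • ψ) =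
        uu p a π' (jp : L →+* PadicAlgCl p) (σ • ⟨k, ψ⟩) := rfl
      have e2 : (bar ⟨k, ψ⟩ : Σ i, (F i →+* L)) = ⟨k, cbar ψ⟩ := rfl
      rw [e1, e2]
      simp only [N]
      push_cast
      ring
    rw [Finset.sum_congr rfl fun k _ => h3 k, Finset.sum_sub_distrib, h1, h2, sub_zero]
  -- the blocks
  have hblock := orth (G := L ≃ₐ[ℚ] L) (fun c σ => ∑ l : J c, ∑ ψ : K c →+* L,
      (N ⟨c, l⟩ ψ : ℝ) * ui p a π' (jp : L →+* PadicAlgCl p) ⟨c, l⟩ (σ • ψ))
      (fun σ => by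
        have h1 := hN0 σ
        rw [Fintype.sum_sigma] at h1
        exact h1) id (fun _ => rfl)
      (fun c c' h1 _ => by
        have h3 : ∀ σ : L ≃ₐ[ℚ] L, (∑ l : J c, ∑ ψ : K c →+* L,
            (N ⟨c, l⟩ ψ : ℝ) * ui p a π' (jp : L →+* PadicAlgCl p) ⟨c, l⟩ (σ • ψ)) *
            (∑ l : J c', ∑ ψ : K c' →+* L,
            (N ⟨c', l⟩ ψ : ℝ) * ui p a π' (jp : L →+* PadicAlgCl p) ⟨c', l⟩ (σ • ψ)) =
            ∑ l : J c, ∑ l' : J c', (∑ ψ : K c →+* L,
            (N ⟨c, l⟩ ψ : ℝ) * ui p a π' (jp : L →+* PadicAlgCl p) ⟨c, l⟩ (σ • ψ)) *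
            (∑ ψ : K c' →+* L,
            (N ⟨c', l'⟩ ψ : ℝ) * ui p a π' (jp : L →+* PadicAlgCl p) ⟨c', l'⟩ (σ • ψ)) :=
          fun σ => Finset.sum_mul_sum _ _ _ _
        rw [Finset.sum_congr rfl fun σ _ => h3 σ, Finset.sum_comm]
        refine Finset.sum_eq_zero fun l _ => ?_
        rw [Finset.sum_comm]
        refine Finset.sum_eq_zero fun l' _ => ?_
        exact cross_zero (F := F) (π := π') j h (jp : L →+* PadicAlgCl p) hw' ⟨c, l⟩ ⟨c', l'⟩
          (hun c c' (Ne.symm h1)) (N ⟨c, l⟩) (N ⟨c', l'⟩))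
      i.1
  have hsame : ∀ (ψ : K i.1 →+* L) (σ : L ≃ₐ[ℚ] L), ∑ l : J i.1, (N ⟨i.1, l⟩ ψ : ℝ) *
      ui p a π' (jp : L →+* PadicAlgCl p) ⟨i.1, l⟩ (σ • ψ) = 0 := by
    refine fun ψ σ => same_core (G := L ≃ₐ[ℚ] L) (inv := (cbar : (K i.1 →+* L) → _)) cbar_cbar
      cbar_ne (abs_transfer j (h i) (habs i.1)) (fun g φ => smul_cbar g φ)
      (fun l => ui p a π' (jp : L →+* PadicAlgCl p) ⟨i.1, l⟩)
      (fun l x => uu_bar (jp : L →+* PadicAlgCl p) hw' ⟨⟨i.1, l⟩, x⟩)
      (fun l => N ⟨i.1, l⟩) (fun l => hN ⟨i.1, l⟩) (fun g => ?_) ψ σ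
    have h1 := hblock g
    simp only [id, Finset.pair_eq_singleton, Finset.sum_singleton] at h1
    exact h1
  have hNi : ∀ ψ : K i.1 →+* L, (fun l => N ⟨i.1, l⟩ ψ) = 0 := by
    intro ψ
    refine hind i.1 _ fun τ => ?_
    obtain ⟨φ', hφ'⟩ := exists_factor j (h i) (jp : L →+* PadicAlgCl p) τ
    obtain ⟨g, hg⟩ := MulAction.exists_smul_eq (L ≃ₐ[ℚ] L) ψ φ'
    have h1 := hsame ψ g
    have h2 : ∀ l, ui p a π' (jp : L →+* PadicAlgCl p) ⟨i.1, l⟩ (g • ψ) =
        2 * slope p a (π i.1 l) τ := by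
      intro l
      rw [hg, ui, uu, Y137.SL.slope, log_Q, ← hφ']
      change 2 * Real.log ‖jp (φ' (π i.1 l))‖ - -(↑a * Real.log ↑p) =
        2 * (Real.log ‖jp (φ' (π i.1 l))‖ + ↑a * Real.log ↑p / 2)
      ring
    rw [Finset.sum_congr rfl fun l _ => by rw [h2 l]] at h1
    have h3 : ∑ l, ((N ⟨i.1, l⟩ ψ : ℚ) : ℝ) * (2 * slope p a (π i.1 l) τ) =
        2 * ∑ l, ((N ⟨i.1, l⟩ ψ : ℚ) : ℝ) * slope p a (π i.1 l) τ := by
      rw [Finset.mul_sum]
      exact Finset.sum_congr rfl fun l _ => by ring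
    rw [h3] at h1
    exact (mul_eq_zero.1 h1).resolve_left two_ne_zero
  obtain ⟨φ', rfl⟩ := h i φ
  have h1 : N i φ' = 0 := congrFun (hNi φ') i.2
  have h7 : J' ⟨i, cbar φ'⟩ = ⟨i, ComplexEmbedding.conjugate (j.comp φ')⟩ := by
    change (⟨i, j.comp (cbar φ')⟩ : Σ i, (F i →+* ℂ)) = _
    rw [comp_cbar]
  simp only [N, h7] at h1
  have h2 := sub_eq_zero.1 h1
  exact_mod_cast h2

/-- Three sign vectors, no two of which are equal or opposite, are linearly independent. -/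
theorem three_signs {T : Type*} {e : ℝ} (he : e ≠ 0) {x y z : T → ℝ}
    (hx : ∀ t, x t = e ∨ x t = -e) (hy : ∀ t, y t = e ∨ y t = -e) (hz : ∀ t, z t = e ∨ z t = -e)
    (hxy : ∃ t, x t ≠ y t) (hxy' : ∃ t, x t ≠ -y t) (hxz : ∃ t, x t ≠ z t)
    (hxz' : ∃ t, x t ≠ -z t) (hyz : ∃ t, y t ≠ z t) (hyz' : ∃ t, y t ≠ -z t) {a b c : ℝ}
    (h : ∀ t, a * x t + b * y t + c * z t = 0) : a = 0 := by
  have key : ∀ t, (x t = y t ∧ x t = z t ∧ a + b + c = 0) ∨
      (x t = y t ∧ x t = -z t ∧ a + b - c = 0) ∨ (x t = -y t ∧ x t = z t ∧ a - b + c = 0) ∨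
      (x t = -y t ∧ x t = -z t ∧ a - b - c = 0) := by
    intro t
    have h1 := h t
    have h2 : ∀ s : ℝ, s * e = 0 → s = 0 := fun s hs => (mul_eq_zero.1 hs).resolve_right he
    rcases hx t with hx | hx <;> rcases hy t with hy | hy <;> rcases hz t with hz | hz <;>
      rw [hx, hy, hz] at h1 ⊢
    · exact Or.inl ⟨rfl, rfl, h2 _ (by linarith)⟩
    · exact Or.inr (Or.inl ⟨rfl, (neg_neg e).symm, h2 _ (by linarith)⟩)
    · exact Or.inr (Or.inr (Or.inl ⟨(neg_neg e).symm, rfl, h2 _ (by linarith)⟩))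
    · exact Or.inr (Or.inr (Or.inr ⟨(neg_neg e).symm, (neg_neg e).symm, h2 _ (by linarith)⟩))
    · exact Or.inr (Or.inr (Or.inr ⟨rfl, rfl, h2 _ (by linarith)⟩))
    · exact Or.inr (Or.inr (Or.inl ⟨rfl, rfl, h2 _ (by linarith)⟩))
    · exact Or.inr (Or.inl ⟨rfl, rfl, h2 _ (by linarith)⟩)
    · exact Or.inl ⟨rfl, rfl, h2 _ (by linarith)⟩
  have k1 : a - b + c = 0 ∨ a - b - c = 0 := by
    obtain ⟨t, ht⟩ := hxy
    rcases key t with h1 | h1 | h1 | h1
    · exact absurd h1.1 ht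
    · exact absurd h1.1 ht
    · exact Or.inl h1.2.2
    · exact Or.inr h1.2.2
  have k2 : a + b + c = 0 ∨ a + b - c = 0 := by
    obtain ⟨t, ht⟩ := hxy'
    rcases key t with h1 | h1 | h1 | h1
    · exact Or.inl h1.2.2
    · exact Or.inr h1.2.2
    · exact absurd h1.1 ht
    · exact absurd h1.1 ht
  have k3 : a + b - c = 0 ∨ a - b - c = 0 := by
    obtain ⟨t, ht⟩ := hxz
    rcases key t with h1 | h1 | h1 | h1
    · exact absurd h1.2.1 ht
    · exact Or.inl h1.2.2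
    · exact absurd h1.2.1 ht
    · exact Or.inr h1.2.2
  have k4 : a + b + c = 0 ∨ a - b + c = 0 := by
    obtain ⟨t, ht⟩ := hxz'
    rcases key t with h1 | h1 | h1 | h1
    · exact Or.inl h1.2.2
    · exact absurd h1.2.1 ht
    · exact Or.inr h1.2.2
    · exact absurd h1.2.1 ht
  have k5 : a + b - c = 0 ∨ a - b + c = 0 := by
    obtain ⟨t, ht⟩ := hyz
    rcases key t with h1 | h1 | h1 | h1
    · exact absurd (h1.1.symm.trans h1.2.1) ht
    · exact Or.inl h1.2.2
    · exact Or.inr h1.2.2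
    · exact absurd (neg_injective (h1.1.symm.trans h1.2.1)) ht
  have k6 : a + b + c = 0 ∨ a - b - c = 0 := by
    obtain ⟨t, ht⟩ := hyz'
    rcases key t with h1 | h1 | h1 | h1
    · exact Or.inl h1.2.2
    · exact absurd (h1.1.symm.trans h1.2.1) ht
    · exact absurd (by rw [← h1.2.1, h1.1, neg_neg]) ht
    · exact Or.inr h1.2.2
  rcases k1 with k1 | k1 <;> rcases k2 with k2 | k2 <;> rcases k3 with k3 | k3 <;>
    rcases k4 with k4 | k4 <;> rcases k5 with k5 | k5 <;> rcases k6 with k6 | k6 <;> linarith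

end

end Pool.Agent.Q70.MM
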