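import Mathlib
import Pool.Agent.Q70.MM.Same

/-!
# Relations between the Weil numbers of large and of small factors
-/

set_option autoImplicit false
set_option linter.unusedSectionVars false
set_option linter.unusedVariables false

namespace Pool.Agent.Q70.MM

open NumberField Module TensorProduct IntermediateField Pool.Agent.Q70.SQ
open Pool.Agent.H204R3.CM Pool.Agent.H204R3.SP Pool.Agent.H204R3.GP Pool.Agent.Y137.MV
  Pool.Agent.Y137.SL Pool.Agent.Y1.CT

noncomputable section

theorem conj_conj' {F : Type*} [Field F] (φ : F →+* ℂ) :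
    ComplexEmbedding.conjugate (ComplexEmbedding.conjugate φ) = φ := by
  ext x
  simp [ComplexEmbedding.conjugate_coe_eq]

theorem conj_ne' {F : Type*} [Field F] [NumberField F] [IsCMField F] (φ : F →+* ℂ) :
    ComplexEmbedding.conjugate φ ≠ φ := by
  intro h
  have h1 : ComplexEmbedding.IsReal φ := h
  have h2 := IsTotallyComplex.isComplex (InfinitePlace.mk φ)
  rw [← InfinitePlace.isReal_mk_iff] at h1
  exact InfinitePlace.not_isReal_iff_isComplex.2 h2 h1

/-- There are no equivariant maps to the odd functions for a field of smaller degree. -/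
theorem unrelated_of_degree {K F : Type*} [Field K] [NumberField K] [IsCMField K] [Field F]
    [NumberField F] [IsCMField F] (hirr : OddIrreducible K) (hd : finrank ℚ F < finrank ℚ K) :
    Unrelated K F := by
  classical
  intro T hT1 hT2 n hn
  let W : Submodule ℚ ((K →+* ℂ) → ℚ) :=
    { carrier := {m | IsOdd m ∧ T m = 0}
      zero_mem' := ⟨fun φ => by simp, map_zero T⟩
      add_mem' := by
        rintro m l ⟨h1, h2⟩ ⟨h3, h4⟩
        refine ⟨fun φ => ?_, by rw [map_add, h2, h4, add_zero]⟩
        rw [Pi.add_apply, Pi.add_apply, h1 φ, h3 φ]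
        ring
      smul_mem' := by
        rintro r m ⟨h1, h2⟩
        refine ⟨fun φ => ?_, by rw [map_smul, h2, smul_zero]⟩
        rw [Pi.smul_apply, Pi.smul_apply, h1 φ, smul_neg] }
  rcases hirr W (fun m hm => hm.1) (by
    rintro τ m ⟨h1, h2⟩
    refine ⟨fun φ => ?_, ?_⟩
    · change m ((τ : ℂ →+* ℂ).comp (ComplexEmbedding.conjugate φ)) =
        -m ((τ : ℂ →+* ℂ).comp φ)
      have e1 : (τ : ℂ →+* ℂ).comp (ComplexEmbedding.conjugate φ) =
          ComplexEmbedding.conjugate ((τ : ℂ →+* ℂ).comp φ) := by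
        have e0 : (RingHom.id ℂ).comp (cbar φ) = ComplexEmbedding.conjugate φ :=
          comp_cbar (RingHom.id ℂ) φ
        rw [← e0, RingHom.id_comp, comp_cbar]
      rw [e1, h1]
    · funext φ
      rw [hT1 τ m φ, h2]
      rfl) with h1 | h1
  · exfalso
    let Od : Submodule ℚ ((K →+* ℂ) → ℚ) :=
      { carrier := {m | IsOdd m}
        zero_mem' := fun φ => by simp
        add_mem' := by
          intro m l h1 h3 φ
          rw [Pi.add_apply, Pi.add_apply, h1 φ, h3 φ]
          ring
        smul_mem' := by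
          intro r m h1 φ
          rw [Pi.smul_apply, Pi.smul_apply, h1 φ, smul_neg] }
    obtain ⟨H, hH⟩ := exists_half (E := F →+* ℂ) (inv := ComplexEmbedding.conjugate) conj_conj'
      conj_ne'
    let S : Od →ₗ[ℚ] (H → ℚ) :=
      { toFun := fun m y => T m.1 y.1
        map_add' := fun m l => by
          funext y
          change T (m.1 + l.1) y.1 = T m.1 y.1 + T l.1 y.1
          rw [map_add]
          rfl
        map_smul' := fun r m => by
          funext y
          change T (r • m.1) y.1 = r • T m.1 y.1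
          rw [map_smul]
          rfl }
    have hS : Function.Injective S := by
      rw [injective_iff_map_eq_zero]
      intro m hm
      have h2 : T m.1 = 0 := by
        funext y
        by_cases hy : y ∈ H
        · exact congrFun hm ⟨y, hy⟩
        · have h3 : ComplexEmbedding.conjugate y ∈ H := by
            by_contra h4
            exact hy ((hH y).2 h4)
          have h4 : T m.1 (ComplexEmbedding.conjugate y) = 0 := congrFun hm ⟨_, h3⟩
          have h5 := hT2 m.1 y
          rw [h4] at h5
          have h6 : T m.1 y = 0 := by linarith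
          exact h6
      have h3 : m.1 ∈ W := ⟨m.2, h2⟩
      rw [h1, Submodule.mem_bot] at h3
      exact Subtype.ext h3
    have h2 := LinearMap.finrank_le_finrank_of_injective hS
    rw [Module.finrank_fintype_fun_eq_card, Fintype.card_coe] at h2
    have h3 := card_le_odd (E := K →+* ℂ) ComplexEmbedding.conjugate conj_conj' conj_ne' Od
      (fun m hm => hm)
    have h4 := card_half (E := F →+* ℂ) (inv := ComplexEmbedding.conjugate) conj_conj' hH
    rw [NumberField.Embeddings.card] at h3 h4
    omega
  · exact (h1 n hn).2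

/-- Embeddings of isomorphic fields. -/
def embIso {K F A : Type*} [Field K] [Field F] [Field A] (ε : K ≃+* F) :
    (K →+* A) ≃ (F →+* A) where
  toFun ψ := ψ.comp (ε.symm : F →+* K)
  invFun φ := φ.comp (ε : K →+* F)
  left_inv ψ := by
    ext x
    simp
  right_inv φ := by
    ext x
    simp

theorem embIso_apply {K F A : Type*} [Field K] [Field F] [Field A] (ε : K ≃+* F) (ψ : K →+* A)
    (x : F) : embIso ε ψ x = ψ (ε.symm x) := rfl

theorem embIso_symm_apply {K F A : Type*} [Field K] [Field F] [Field A] (ε : K ≃+* F)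
    (φ : F →+* A) (x : K) : (embIso ε).symm φ x = φ (ε x) := rfl

theorem unrelated_congr {K K' F F' : Type*} [Field K] [Field K'] [Field F] [Field F']
    (ε : K ≃+* F) (ε' : K' ≃+* F') (hun : Unrelated K K') : Unrelated F F' := by
  intro T hT1 hT2 n hn
  let J : (K →+* ℂ) ≃ (F →+* ℂ) := embIso ε
  let J' : (K' →+* ℂ) ≃ (F' →+* ℂ) := embIso ε'
  let A : ((K →+* ℂ) → ℚ) →ₗ[ℚ] ((F →+* ℂ) → ℚ) :=
    { toFun := fun n φ => n (J.symm φ)
      map_add' := fun _ _ => rfl
      map_smul' := fun _ _ => rfl }
  let B : ((F' →+* ℂ) → ℚ) →ₗ[ℚ] ((K' →+* ℂ) → ℚ) :=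
    { toFun := fun n φ => n (J' φ)
      map_add' := fun _ _ => rfl
      map_smul' := fun _ _ => rfl }
  have h1 := hun (B.comp (T.comp A)) (by
    intro τ m ψ
    change T (A (fun φ => m ((τ : ℂ →+* ℂ).comp φ))) (J' ψ) =
      T (A m) (J' ((τ : ℂ →+* ℂ).comp ψ))
    have e1 : J' ((τ : ℂ →+* ℂ).comp ψ) = (τ : ℂ →+* ℂ).comp (J' ψ) := rfl
    rw [e1, ← hT1]
    rfl) (by
    intro m ψ
    change T (A m) (J' (ComplexEmbedding.conjugate ψ)) = -T (A m) (J' ψ)
    have e1 : J' (ComplexEmbedding.conjugate ψ) = ComplexEmbedding.conjugate (J' ψ) := rfl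
    rw [e1]
    exact hT2 _ _) (fun ψ => n (J ψ)) (by
    intro ψ
    change n (J (ComplexEmbedding.conjugate ψ)) = -n (J ψ)
    have e1 : J (ComplexEmbedding.conjugate ψ) = ComplexEmbedding.conjugate (J ψ) := rfl
    rw [e1]
    exact hn _)
  funext φ
  have h2 := congrFun h1 (J'.symm φ)
  change T (A (fun ψ => n (J ψ))) (J' (J'.symm φ)) = 0 at h2
  rw [Equiv.apply_symm_apply] at h2
  have h3 : A (fun ψ => n (J ψ)) = n := by
    funext ψ
    change n (J (J.symm ψ)) = n ψ
    rw [Equiv.apply_symm_apply]
  rw [h3] at h2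
  exact h2

theorem embIso_cbar {L K F : Type*} [Field L] [Field K] [NumberField K] [IsCMField K] [Field F]
    [NumberField F] [IsCMField F] (j : L →+* ℂ) (ε : K ≃+* F) (ψ : K →+* L) :
    embIso ε (cbar ψ) = cbar (embIso ε ψ) := by
  have h1 : j.comp (embIso ε (cbar ψ)) = j.comp (cbar (embIso ε ψ)) := by
    rw [comp_cbar]
    have h2 : j.comp (embIso ε (cbar ψ)) = embIso ε (j.comp (cbar ψ)) := rfl
    rw [h2, comp_cbar]
    rfl
  ext x
  exact j.injective (RingHom.congr_fun h1 x)

end

end Pool.Agent.Q70.MM
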