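import Mathlib
import Pool.Agent.Q70.MM.Big

/-!
# The relations are trivial at the large factors
-/

set_option autoImplicit false
set_option linter.unusedSectionVars false
set_option linter.unusedVariables false

namespace Pool.Agent.Q70.MM

open NumberField Module TensorProduct IntermediateField Pool.Agent.Q70.SQ
open Pool.Agent.H204R3.CM Pool.Agent.H204R3.SP Pool.Agent.H204R3.GP Pool.Agent.Y137.MV
  Pool.Agent.Y137.SL Pool.Agent.Y1.CT

noncomputable section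

variable {p : ℕ} [Fact p.Prime] {a : ℕ} {ι : Type} [Fintype ι] {F : ι → Type}
  [∀ i, Field (F i)] [∀ i, NumberField (F i)] [∀ i, IsCMField (F i)] {π : ∀ i, F i}

/-- The odd part of the exponents of a relation. -/
def oddPart {L : Type} [Field L] (j : L →+* ℂ) (n : (Σ i, (F i →+* ℂ)) → ℤ) (k : ι)
    (ψ : F k →+* L) : ℚ :=
  (n ⟨k, j.comp ψ⟩ : ℚ) - (n ⟨k, j.comp (cbar ψ)⟩ : ℚ)

theorem oddPart_odd {L : Type} [Field L] (j : L →+* ℂ) (n : (Σ i, (F i →+* ℂ)) → ℤ) (k : ι) :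
    OddFun cbar (oddPart j n k) := by
  intro ψ
  simp only [oddPart, cbar_cbar]
  ring

theorem odd_rel {L : Type} [Field L] [NumberField L] [IsGalois ℚ L] (j : L →+* ℂ)
    (h : ∀ i, ∀ ψ : F i →+* ℂ, ∃ φ : F i →+* L, j.comp φ = ψ) (jp : L →+* PadicAlgCl p)
    (ha : 0 < a) (hw : ∀ i, π i * IsCMField.complexConj (F i) (π i) = (p : F i) ^ a)
    (r : ℤ) (n : (Σ i, (F i →+* ℂ)) → ℤ)
    (hrel : ∏ x, (x.2 (π x.1)) ^ n x = (((p ^ a : ℕ) : ℂ)) ^ r) (σ : L ≃ₐ[ℚ] L) :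
    ∑ k, ∑ ψ : F k →+* L, (oddPart j n k ψ : ℝ) * ui p a π jp k (σ • ψ) = 0 := by
  classical
  let J' : (Σ i, (F i →+* L)) ≃ Σ i, (F i →+* ℂ) :=
    Equiv.sigmaCongrRight fun i => embEquiv j (h i)
  have hJ : ∀ x : Σ i, (F i →+* L), (J' x).2 (π (J' x).1) = j (val π x) := fun x => rfl
  have hp0 : (0 : ℝ) < p := Nat.cast_pos.2 (Fact.out : p.Prime).pos
  have hlogp : 0 < (a : ℝ) * Real.log p :=
    mul_pos (Nat.cast_pos.2 ha) (Real.log_pos (by exact_mod_cast (Fact.out : p.Prime).one_lt))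
  -- the relation in `L`
  have hL : ∏ x : Σ i, (F i →+* L), (val π x) ^ (n (J' x)) = ((p : L) ^ a) ^ r := by
    apply j.injective
    rw [map_prod, map_zpow₀, map_pow, map_natCast]
    have h1 : ∏ x : Σ i, (F i →+* L), j ((val π x) ^ (n (J' x))) =
        ∏ y : Σ i, (F i →+* ℂ), (y.2 (π y.1)) ^ (n y) :=
      Fintype.prod_equiv J' _ _ fun x => by rw [map_zpow₀, hJ]
    rw [h1, hrel]
    push_cast
    rfl
  have hlog : ∀ (E : Type) [NormedField E] (f : L →+* E), (∀ x, ‖f (val π x)‖ ≠ 0) →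
      ∑ x : Σ i, (F i →+* L), (n (J' x) : ℝ) * Real.log ‖f (val π x)‖ =
        r * Real.log ‖(p : E) ^ a‖ := by
    intro E _ f hf
    have h1 := congrArg (fun z => Real.log ‖f z‖) hL
    simp only [map_prod, map_zpow₀, norm_prod, norm_zpow, Real.log_zpow, map_pow, map_natCast] at h1
    rw [Real.log_prod (fun x _ => zpow_ne_zero _ (hf x))] at h1
    simp only [Real.log_zpow] at h1
    exact h1
  have hc : ∑ x : Σ i, (F i →+* L), (n (J' x) : ℝ) = 2 * r := by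
    have hne : ∀ x : Σ i, (F i →+* L), ‖j (val π x)‖ ≠ 0 := by
      intro x h2
      have h3 := norm_val j hw x
      rw [h2] at h3
      have h4 : (0 : ℝ) < (p : ℝ) ^ a := pow_pos hp0 a
      norm_num at h3
      linarith
    have h1 := hlog ℂ j hne
    have h2 : ∀ x : Σ i, (F i →+* L), Real.log ‖j (val π x)‖ = (a : ℝ) * Real.log p / 2 := by
      intro x
      have h3 := congrArg Real.log (norm_val j hw x)
      rw [Real.log_pow, Real.log_pow] at h3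
      push_cast at h3
      linarith
    have h3 : Real.log ‖((p : ℕ) : ℂ) ^ a‖ = (a : ℝ) * Real.log p := by
      rw [norm_pow, Real.log_pow, Complex.norm_natCast]
    rw [Finset.sum_congr rfl fun x _ => by rw [h2 x], ← Finset.sum_mul, h3] at h1
    have h4 : (∑ x : Σ i, (F i →+* L), (n (J' x) : ℝ) - 2 * r) * ((a : ℝ) * Real.log p) = 0 := by
      linarith
    have h5 := (mul_eq_zero.1 h4).resolve_right hlogp.ne'
    linarith
  have h1 : ∑ x : Σ i, (F i →+* L), (n (J' x) : ℝ) * uu p a π jp (σ • x) = 0 := by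
    have h1 := hlog (PadicAlgCl p) (jp.comp (σ : L →+* L)) (fun x => norm_val_ne jp hw (σ • x))
    have h2 : ∀ x : Σ i, (F i →+* L), (n (J' x) : ℝ) * uu p a π jp (σ • x) =
        2 * ((n (J' x) : ℝ) * Real.log ‖(jp.comp (σ : L →+* L)) (val π x)‖) -
        (n (J' x) : ℝ) * Real.log ‖(p : PadicAlgCl p) ^ a‖ := by
      intro x
      rw [uu]
      have h3 : (jp.comp (σ : L →+* L)) (val π x) = jp (val π (σ • x)) := rfl
      rw [h3]
      ring
    rw [Finset.sum_congr rfl fun x _ => h2 x, Finset.sum_sub_distrib, ← Finset.mul_sum, h1,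
      ← Finset.sum_mul, hc]
    ring
  have h2 : ∑ x : Σ i, (F i →+* L), (n (J' (bar x)) : ℝ) * uu p a π jp (σ • x) = 0 := by
    rw [← neg_zero, ← h1, ← Finset.sum_neg_distrib]
    refine Fintype.sum_equiv ⟨bar, bar, bar_bar, bar_bar⟩ _ _ fun x => ?_
    change _ = -((n (J' (bar x)) : ℝ) * uu p a π jp (σ • bar x))
    have h3 : σ • bar x = bar (σ • x) := rfl
    rw [h3, uu_bar jp hw]
    ring
  rw [Fintype.sum_sigma] at h1 h2
  have h3 : ∀ k, ∑ ψ, (oddPart j n k ψ : ℝ) * ui p a π jp k (σ • ψ) =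
      ∑ ψ, (n (J' ⟨k, ψ⟩) : ℝ) * uu p a π jp (σ • ⟨k, ψ⟩) -
      ∑ ψ, (n (J' (bar ⟨k, ψ⟩)) : ℝ) * uu p a π jp (σ • ⟨k, ψ⟩) := by
    intro k
    rw [← Finset.sum_sub_distrib]
    refine Finset.sum_congr rfl fun ψ _ => ?_
    have e1 : ui p a π jp k (σ • ψ) = uu p a π jp (σ • ⟨k, ψ⟩) := rfl
    have e2 : J' (bar ⟨k, ψ⟩) = ⟨k, j.comp (cbar ψ)⟩ := rfl
    have e3 : J' ⟨k, ψ⟩ = ⟨k, j.comp ψ⟩ := rfl
    rw [e1, e2, e3, oddPart]
    push_cast
    ring
  rw [Finset.sum_congr rfl fun k _ => h3 k, Finset.sum_sub_distrib, h1, h2, sub_zero]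

/-- **The exponents of a relation are symmetric at the large factors.** -/
theorem big_symm (ha : 0 < a) (hw : ∀ i, π i * IsCMField.complexConj (F i) (π i) = (p : F i) ^ a)
    {C : Type} [Fintype C] {K : C → Type} {J : C → Type} [∀ c, Fintype (J c)]
    [∀ c, Field (K c)] [∀ c, NumberField (K c)] [∀ c, IsCMField (K c)]
    (idx : ∀ c, J c → ι) (hinj : Function.Injective fun x : Σ c, J c => idx x.1 x.2)
    (ε : ∀ c l, K c ≃+* F (idx c l))
    (habs : ∀ c, OddAbsolutelyIrreducible (K c))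
    (hun : ∀ c c', c ≠ c' → Unrelated (K c) (K c'))
    (hsmall : ∀ c i, (∀ c' l, idx c' l ≠ i) → Unrelated (K c) (F i))
    (hind : IndependentSlopes p a fun c l => (ε c l).symm (π (idx c l)))
    (r : ℤ) (n : (Σ i, (F i →+* ℂ)) → ℤ)
    (hrel : ∏ x, (x.2 (π x.1)) ^ n x = (((p ^ a : ℕ) : ℂ)) ^ r) (c₀ : C) (l₀ : J c₀)
    (φ : F (idx c₀ l₀) →+* ℂ) :
    n ⟨idx c₀ l₀, φ⟩ = n ⟨idx c₀ l₀, ComplexEmbedding.conjugate φ⟩ := by
  classical
  obtain ⟨L, hLa, hLb, j, h, -⟩ := exists_galois_roots F (1 : Polynomial ℚ) one_ne_zero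
  let jp' : L →ₐ[ℚ] PadicAlgCl p := IsAlgClosed.lift
  let jp : L →+* PadicAlgCl p := jp'
  have hN0 := odd_rel j h jp ha hw r n hrel
  set N : ∀ k, (F k →+* L) → ℚ := oddPart j n with hNdef
  have hN : ∀ k, OddFun cbar (N k) := oddPart_odd j n
  let idx' : (Σ c, J c) → ι := fun x => idx x.1 x.2
  let R : Finset ι := Finset.univ.image idx'
  have hR : ∀ i, i ∉ R → ∀ c' l, idx c' l ≠ i := by
    rintro i hi c' l rfl
    exact hi (Finset.mem_image.2 ⟨⟨c', l⟩, Finset.mem_univ _, rfl⟩)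
  let t : ι → (L ≃ₐ[ℚ] L) → ℝ := fun k σ => ∑ ψ : F k →+* L, (N k ψ : ℝ) * ui p a π jp k (σ • ψ)
  have ht0 : ∀ σ, ∑ k, t k σ = 0 := hN0
  let s : Option C → (L ≃ₐ[ℚ] L) → ℝ := fun o σ => match o with
    | none => ∑ k ∈ Rᶜ, t k σ
    | some c => ∑ l : J c, t (idx c l) σ
  have hs0 : ∀ σ, ∑ o, s o σ = 0 := by
    intro σ
    rw [Fintype.sum_option]
    have h1 : ∑ c : C, s (some c) σ = ∑ k ∈ R, t k σ := by
      rw [Finset.sum_image fun x _ y _ hxy => hinj hxy, Fintype.sum_sigma]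
    rw [h1, ← ht0 σ, ← Finset.sum_add_sum_compl R, add_comm]
  have hcr : ∀ (c : C) (l : J c) (k : ι), Unrelated (F (idx c l)) (F k) →
      ∑ σ : L ≃ₐ[ℚ] L, t (idx c l) σ * t k σ = 0 := fun c l k hu =>
    cross_zero j h jp hw (idx c l) k hu (N (idx c l)) (N k)
  have hcr1 : ∀ (c : C) (l : J c) (k : ι), k ∉ R → ∑ σ : L ≃ₐ[ℚ] L, t (idx c l) σ * t k σ = 0 :=
    fun c l k hk => hcr c l k (unrelated_congr (ε c l) (RingEquiv.refl (F k))
      (hsmall c k (hR k hk)))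
  have hcr2 : ∀ (c c' : C) (l : J c) (l' : J c'), c ≠ c' →
      ∑ σ : L ≃ₐ[ℚ] L, t (idx c l) σ * t (idx c' l') σ = 0 :=
    fun c c' l l' hc => hcr c l _ (unrelated_congr (ε c l) (ε c' l') (hun c c' hc))
  have hnone : ∀ c : C, ∑ σ : L ≃ₐ[ℚ] L, s (some c) σ * s none σ = 0 := by
    intro c
    have h1 : ∀ σ, s (some c) σ * s none σ = ∑ l : J c, ∑ k ∈ Rᶜ, t (idx c l) σ * t k σ :=
      fun σ => Finset.sum_mul_sum _ _ _ _
    rw [Finset.sum_congr rfl fun σ _ => h1 σ, Finset.sum_comm]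
    refine Finset.sum_eq_zero fun l _ => ?_
    rw [Finset.sum_comm]
    exact Finset.sum_eq_zero fun k hk => hcr1 c l k (Finset.mem_compl.1 hk)
  have hblock := orth (G := L ≃ₐ[ℚ] L) s hs0 id (fun _ => rfl) (by
    intro o o' h1 _
    rcases o with _ | c <;> rcases o' with _ | c'
    · exact absurd rfl h1
    · rw [← hnone c']
      exact Finset.sum_congr rfl fun σ _ => mul_comm _ _
    · exact hnone c
    · have hc : c ≠ c' := fun h2 => h1 (by rw [h2])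
      have h2 : ∀ σ, s (some c) σ * s (some c') σ =
          ∑ l : J c, ∑ l' : J c', t (idx c l) σ * t (idx c' l') σ :=
        fun σ => Finset.sum_mul_sum _ _ _ _
      rw [Finset.sum_congr rfl fun σ _ => h2 σ, Finset.sum_comm]
      refine Finset.sum_eq_zero fun l _ => ?_
      rw [Finset.sum_comm]
      exact Finset.sum_eq_zero fun l' _ => hcr2 c c' l l' hc) (some c₀)
  have hs : ∀ σ, ∑ l : J c₀, t (idx c₀ l) σ = 0 := by
    intro σ
    have h1 := hblock σ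
    simp only [id, Finset.pair_eq_singleton, Finset.sum_singleton] at h1
    exact h1
  -- transport to the field `K c₀`
  have hK : ∀ ψ : K c₀ →+* ℂ, ∃ φ : K c₀ →+* L, j.comp φ = ψ := by
    intro ψ
    obtain ⟨φ, hφ⟩ := h _ (embIso (ε c₀ l₀) ψ)
    refine ⟨(embIso (ε c₀ l₀)).symm φ, ?_⟩
    have h1 : j.comp ((embIso (ε c₀ l₀)).symm φ) = (embIso (ε c₀ l₀)).symm (j.comp φ) := rfl
    rw [h1, hφ, Equiv.symm_apply_apply]
  have hsmul : ∀ (l : J c₀) (σ : L ≃ₐ[ℚ] L) (ψ : K c₀ →+* L),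
      embIso (ε c₀ l) (σ • ψ) = σ • embIso (ε c₀ l) ψ := fun l σ ψ => rfl
  have hbar : ∀ (l : J c₀) (ψ : K c₀ →+* L),
      embIso (ε c₀ l) (cbar ψ) = cbar (embIso (ε c₀ l) ψ) := fun l ψ => embIso_cbar j (ε c₀ l) ψ
  have hsame : ∀ (ψ : K c₀ →+* L) (σ : L ≃ₐ[ℚ] L), ∑ l : J c₀,
      (N (idx c₀ l) (embIso (ε c₀ l) ψ) : ℝ) * ui p a π jp (idx c₀ l) (embIso (ε c₀ l) (σ • ψ)) =
        0 := by
    refine fun ψ σ => same_core (G := L ≃ₐ[ℚ] L) (inv := (cbar : (K c₀ →+* L) → _)) cbar_cbar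
      cbar_ne (abs_transfer j hK (habs c₀)) (fun g φ => smul_cbar g φ)
      (fun l x => ui p a π jp (idx c₀ l) (embIso (ε c₀ l) x))
      (fun l x => ?_) (fun l x => N (idx c₀ l) (embIso (ε c₀ l) x)) (fun l x => ?_)
      (fun g => ?_) ψ σ
    · rw [hbar]
      exact uu_bar jp hw ⟨idx c₀ l, embIso (ε c₀ l) x⟩
    · change N (idx c₀ l) (embIso (ε c₀ l) (cbar x)) = -N (idx c₀ l) (embIso (ε c₀ l) x)
      rw [hbar]
      exact hN _ _
    · rw [← hs g]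
      refine Finset.sum_congr rfl fun l _ => ?_
      exact Fintype.sum_equiv (embIso (ε c₀ l)) _ _ fun x => by rw [hsmul]
  have hNi : ∀ ψ : K c₀ →+* L, (fun l => N (idx c₀ l) (embIso (ε c₀ l) ψ)) = 0 := by
    intro ψ
    refine hind c₀ _ fun τ => ?_
    obtain ⟨φ', hφ'⟩ := exists_factor j hK jp τ
    obtain ⟨g, hg⟩ := MulAction.exists_smul_eq (L ≃ₐ[ℚ] L) ψ φ'
    have h1 := hsame ψ g
    have h2 : ∀ l, ui p a π jp (idx c₀ l) (embIso (ε c₀ l) (g • ψ)) =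
        2 * Y137.SL.slope p a ((ε c₀ l).symm (π (idx c₀ l))) τ := by
      intro l
      rw [hg, ui, uu, Y137.SL.slope, log_Q, ← hφ']
      change 2 * Real.log ‖jp (φ' ((ε c₀ l).symm (π (idx c₀ l))))‖ - -(↑a * Real.log ↑p) =
        2 * (Real.log ‖jp (φ' ((ε c₀ l).symm (π (idx c₀ l))))‖ + ↑a * Real.log ↑p / 2)
      ring
    rw [Finset.sum_congr rfl fun l _ => by rw [h2 l]] at h1
    have h3 : ∑ l, ((N (idx c₀ l) (embIso (ε c₀ l) ψ) : ℚ) : ℝ) *
        (2 * Y137.SL.slope p a ((ε c₀ l).symm (π (idx c₀ l))) τ) =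
        2 * ∑ l, ((N (idx c₀ l) (embIso (ε c₀ l) ψ) : ℚ) : ℝ) *
          Y137.SL.slope p a ((ε c₀ l).symm (π (idx c₀ l))) τ := by
      rw [Finset.mul_sum]
      exact Finset.sum_congr rfl fun l _ => by ring
    rw [h3] at h1
    exact (mul_eq_zero.1 h1).resolve_left two_ne_zero
  obtain ⟨φ', rfl⟩ := h _ φ
  have h1 : N (idx c₀ l₀) (embIso (ε c₀ l₀) ((embIso (ε c₀ l₀)).symm φ')) = 0 :=
    congrFun (hNi _) l₀
  rw [Equiv.apply_symm_apply] at h1
  have h2 : (n ⟨idx c₀ l₀, j.comp φ'⟩ : ℚ) - (n ⟨idx c₀ l₀, j.comp (cbar φ')⟩ : ℚ) = 0 := h1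
  rw [comp_cbar] at h2
  exact_mod_cast sub_eq_zero.1 h2

end

end Pool.Agent.Q70.MM
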