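import Mathlib
import Pool.Agent.Q70.MM.Same

/-!
# Relations between the slope functions of two related fields, several for each field
-/

set_option autoImplicit false
set_option linter.unusedSectionVars false
set_option linter.unusedVariables false

namespace Pool.Agent.Q70.MM

open Finset Pool.Agent.Y137.MV Pool.Agent.Q70.SQ

/-- A nonzero equivariant map between the odd functions is given by an invariant kernel. -/
theorem exists_kernel {E E' G : Type*} [Fintype E] [DecidableEq E] [Fintype E'] [Group G]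
    [MulAction G E] [MulAction G E'] {inv : E → E} {inv' : E' → E'}
    (hinv : ∀ x, inv (inv x) = x) (hG : ∀ (g : G) (x : E), g • inv x = inv (g • x))
    (h : ¬ UnrelOdd G inv inv') :
    ∃ b : E → E' → ℚ, (∀ (g : G) x y, b (g • x) (g • y) = b x y) ∧ (∀ x y, b (inv x) y = -b x y) ∧
      (∀ x y, b x (inv' y) = -b x y) ∧ ∃ x y, b x y ≠ 0 := by
  classical
  simp only [UnrelOdd] at h
  push Not at h
  obtain ⟨T, hT1, hT2, n0, hn0, h0⟩ := h
  refine ⟨fun x y => T (dlt inv x) y, ?_, ?_, ?_, ?_⟩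
  · intro g x y
    have h1 := hT1 g (dlt inv (g • x)) y
    change T (dlt inv (g • x)) (g • y) = T (dlt inv x) y
    rw [← h1]
    have e : (fun y => dlt inv (g • x) (g • y)) = dlt inv x := by
      funext z
      simp only [dlt]
      have e1 : (g • z = g • x) ↔ (z = x) := smul_left_cancel_iff g
      have e2 : (g • z = inv (g • x)) ↔ (z = inv x) := by
        rw [← hG]
        exact smul_left_cancel_iff g
      simp only [e1, e2]
    rw [e]
  · intro x y
    have h1 : dlt inv (inv x) = -dlt inv x := by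
      funext z
      simp only [dlt, hinv, Pi.neg_apply]
      ring
    change T (dlt inv (inv x)) y = -T (dlt inv x) y
    rw [h1, map_neg, Pi.neg_apply]
  · intro x y
    exact hT2 _ y
  · by_contra h1
    push Not at h1
    have h2 : (2 : ℚ) • n0 = ∑ x, n0 x • dlt inv x := by
      funext y
      rw [Finset.sum_apply]
      simp only [Pi.smul_apply, dlt, smul_eq_mul, mul_sub, mul_ite, mul_one, mul_zero,
        Finset.sum_sub_distrib]
      rw [Finset.sum_ite_eq Finset.univ y, if_pos (Finset.mem_univ _)]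
      have h3 : ∀ x, (y = inv x) ↔ (inv y = x) := fun x =>
        ⟨fun h => by rw [h, hinv], fun h => by rw [← h, hinv]⟩
      simp only [h3]
      rw [Finset.sum_ite_eq Finset.univ (inv y), if_pos (Finset.mem_univ _), hn0]
      ring
    have h3 : T ((2 : ℚ) • n0) = 0 := by
      rw [h2, map_sum]
      refine Finset.sum_eq_zero fun x _ => ?_
      rw [map_smul]
      have h4 : T (dlt inv x) = 0 := funext fun y => h1 x y
      rw [h4, smul_zero]
    rw [map_smul] at h3
    exact h0 ((smul_eq_zero.1 h3).resolve_left two_ne_zero)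

section ker

variable {E E' G : Type*} [Fintype E] [DecidableEq E] [Fintype E'] [DecidableEq E'] [Group G]
  [Fintype G] [MulAction G E] [MulAction G E'] {inv : E → E} {inv' : E' → E'}
  (hinv : ∀ x, inv (inv x) = x) (hne : ∀ x, inv x ≠ x)
  (hinv' : ∀ x, inv' (inv' x) = x) (hne' : ∀ x, inv' x ≠ x)
  (habs : AbsOdd G inv) (htr : ∀ x y : E, ∃ g : G, g • x = y)
  {b : E → E' → ℚ} (hb : ∀ (g : G) x y, b (g • x) (g • y) = b x y)
  (hb1 : ∀ x y, b (inv x) y = -b x y) (hb2 : ∀ x y, b x (inv' y) = -b x y)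

include hinv habs hb hb1 in
theorem gram_off (x x' : E) (h1 : x' ≠ x) (h2 : x' ≠ inv x) : ∑ y, b x y * b x' y = 0 := by
  have h3 := form_self (G := G) hinv habs (fun x x' => ((∑ y, b x y * b x' y : ℚ) : ℝ))
    (fun g x x' => by
      congr 1
      refine (Fintype.sum_equiv (MulAction.toPerm g) _ _ fun y => ?_).symm
      rw [MulAction.toPerm_apply, hb, hb])
    (fun x x' => by
      rw [← Rat.cast_neg, ← Finset.sum_neg_distrib]
      congr 1
      exact Finset.sum_congr rfl fun y _ => by rw [hb1, neg_mul])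
    (fun x x' => by
      rw [← Rat.cast_neg, ← Finset.sum_neg_distrib]
      congr 1
      exact Finset.sum_congr rfl fun y _ => by rw [hb1, mul_neg]) x x' h1 h2
  exact_mod_cast h3

include htr hb in
theorem gram_diag (x x' : E) : ∑ y, b x y * b x y = ∑ y, b x' y * b x' y := by
  obtain ⟨g, rfl⟩ := htr x x'
  refine Fintype.sum_equiv (MulAction.toPerm g) _ _ fun y => ?_
  rw [MulAction.toPerm_apply, hb]

include htr hb in
theorem gram_pos (h0 : ∃ x y, b x y ≠ 0) (x : E) : 0 < ∑ y, b x y * b x y := by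
  obtain ⟨x', y', h1⟩ := h0
  rw [gram_diag htr hb x x']
  refine Finset.sum_pos' (fun y _ => mul_self_nonneg _) ⟨y', Finset.mem_univ _, ?_⟩
  exact mul_self_pos.2 h1

include hinv hne hinv' hne' habs htr hb hb1 hb2 in
/-- The matrix of the kernel is a similitude. -/
theorem kernel_sim {H : Finset E} (hH : ∀ x, x ∈ H ↔ inv x ∉ H) {H' : Finset E'}
    (hH' : ∀ x, x ∈ H' ↔ inv' x ∉ H') (x0 : E) (a : H → ℚ) :
    ∑ y : H', (∑ x : H, a x * b x y) ^ 2 = (∑ y, b x0 y * b x0 y) / 2 * ∑ x, (a x) ^ 2 := by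
  have h1 : ∀ x x' : H, ∑ y : H', b x y * b x' y =
      if x = x' then (∑ y, b x0 y * b x0 y) / 2 else 0 := by
    intro x x'
    have h2 : ∑ y : E', b x y * b x' y = 2 * ∑ y : H', b x y * b x' y := by
      rw [sum_half hinv' hH', Finset.mul_sum, ← Finset.sum_coe_sort H']
      refine Finset.sum_congr rfl fun y _ => ?_
      rw [hb2, hb2]
      ring
    by_cases h3 : x = x'
    · subst h3
      rw [if_pos rfl, gram_diag htr hb x0 x, h2]
      ring
    · rw [if_neg h3]
      have h4 : x'.1 ≠ x.1 := fun h => h3 (Subtype.ext h.symm)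
      have h5 : x'.1 ≠ inv x.1 := by
        intro h6
        have h7 := (hH x.1).1 x.2
        rw [← h6] at h7
        exact h7 x'.2
      rw [gram_off hinv habs hb hb1 x.1 x'.1 h4 h5] at h2
      linarith
  have h2 : ∀ y : H', (∑ x : H, a x * b x y) ^ 2 = ∑ x : H, ∑ x' : H, a x * a x' *
      (b x y * b x' y) := by
    intro y
    rw [sq, Finset.sum_mul_sum]
    exact Finset.sum_congr rfl fun x _ => Finset.sum_congr rfl fun x' _ => by ring
  rw [Finset.sum_congr rfl fun y _ => h2 y, Finset.sum_comm]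
  have h3 : ∀ x : H, ∑ y : H', ∑ x' : H, a x * a x' * (b x y * b x' y) =
      (∑ y, b x0 y * b x0 y) / 2 * (a x) ^ 2 := by
    intro x
    rw [Finset.sum_comm]
    have h4 : ∀ x' : H, ∑ y : H', a x * a x' * (b x y * b x' y) =
        if x = x' then a x * a x' * ((∑ y, b x0 y * b x0 y) / 2) else 0 := by
      intro x'
      rw [← Finset.mul_sum, h1]
      split_ifs <;> simp
    rw [Finset.sum_congr rfl fun x' _ => h4 x', Finset.sum_ite_eq, if_pos (Finset.mem_univ _)]
    ring
  rw [Finset.sum_congr rfl fun x _ => h3 x, ← Finset.mul_sum]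

include hinv habs hb hb1 htr hne in
/-- The bilinear form of the kernel on real functions, one of them odd. -/
theorem gram_real (x0 : E) (v w : E → ℝ) (hw : ∀ x, w (inv x) = -w x) :
    ∑ y, (∑ x, (b x y : ℝ) * v x) * (∑ x, (b x y : ℝ) * w x) =
      2 * ((∑ y, b x0 y * b x0 y : ℚ) : ℝ) * ∑ x, v x * w x := by
  have h1 : ∀ y, (∑ x, (b x y : ℝ) * v x) * (∑ x, (b x y : ℝ) * w x) =
      ∑ x, ∑ x', v x * w x' * ((b x y * b x' y : ℚ) : ℝ) := by
    intro y
    rw [Finset.sum_mul_sum]
    refine Finset.sum_congr rfl fun x _ => Finset.sum_congr rfl fun x' _ => ?_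
    push_cast
    ring
  rw [Finset.sum_congr rfl fun y _ => h1 y, Finset.sum_comm, Finset.mul_sum]
  refine Finset.sum_congr rfl fun x _ => ?_
  rw [Finset.sum_comm]
  have h2 : ∀ x', ∑ y, v x * w x' * ((b x y * b x' y : ℚ) : ℝ) =
      v x * w x' * ((∑ y, b x y * b x' y : ℚ) : ℝ) := by
    intro x'
    rw [← Finset.mul_sum, Rat.cast_sum]
  rw [Finset.sum_congr rfl fun x' _ => h2 x', ← Finset.add_sum_erase _ _ (Finset.mem_univ x),
    ← Finset.add_sum_erase _ _ (Finset.mem_erase.2 ⟨hne x, Finset.mem_univ (inv x)⟩),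
    Finset.sum_eq_zero (s := (Finset.univ.erase x).erase (inv x))]
  · have h3 : ∑ y, b x y * b (inv x) y = -∑ y, b x0 y * b x0 y := by
      rw [gram_diag htr hb x0 x, ← Finset.sum_neg_distrib]
      exact Finset.sum_congr rfl fun y _ => by rw [hb1, mul_neg]
    rw [h3, hw, ← gram_diag htr hb x0 x]
    push_cast
    ring
  · intro x' hx'
    rw [Finset.mem_erase, Finset.mem_erase] at hx'
    rw [gram_off hinv habs hb hb1 x x' hx'.2.1 hx'.1, Rat.cast_zero, mul_zero]

end ker

section pair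

variable {E E' G J J' : Type*} [Fintype E] [DecidableEq E] [Fintype E'] [DecidableEq E'] [Group G]
  [Fintype G] [MulAction G E] [MulAction G E'] [Fintype J] [Fintype J'] {inv : E → E}
  {inv' : E' → E'} (hinv : ∀ x, inv (inv x) = x) (hne : ∀ x, inv x ≠ x)
  (hinv' : ∀ x, inv' (inv' x) = x) (hne' : ∀ x, inv' x ≠ x)
  (hG : ∀ (g : G) (x : E), g • inv x = inv (g • x))
  (hG' : ∀ (g : G) (x : E'), g • inv' x = inv' (g • x))
  (habs : AbsOdd G inv) (habs' : AbsOdd G inv') (htr : ∀ x y : E, ∃ g : G, g • x = y)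
  (htr' : ∀ x y : E', ∃ g : G, g • x = y)
  (u : J → E → ℝ) (hu : ∀ l x, u l (inv x) = -u l x)
  (u' : J' → E' → ℝ) (hu' : ∀ l x, u' l (inv' x) = -u' l x)

include hinv hne hinv' hne' habs habs' htr htr' in
/-- The two sets have the same number of elements and the multiplier of the similitude is a square or
a sum of two squares. -/
theorem kernel_mult {b : E → E' → ℚ} (hb : ∀ (g : G) x y, b (g • x) (g • y) = b x y)
    (hb1 : ∀ x y, b (inv x) y = -b x y) (hb2 : ∀ x y, b x (inv' y) = -b x y)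
    (h0 : ∃ x y, b x y ≠ 0) (y0 : E') : Fintype.card E = Fintype.card E' ∧
      0 < ∑ x, b x y0 * b x y0 ∧
      (Odd (Fintype.card E / 2) → ∃ r : ℚ, 2 * ∑ x, b x y0 * b x y0 = r ^ 2) ∧
      (Fintype.card E / 2 % 4 = 2 → ∃ r s : ℚ, 2 * ∑ x, b x y0 * b x y0 = r ^ 2 + s ^ 2) := by
  obtain ⟨H, hH⟩ := exists_half hinv hne
  obtain ⟨H', hH'⟩ := exists_half hinv' hne'
  have hbt : ∀ (g : G) y x, (fun y x => b x y) (g • y) (g • x) = (fun y x => b x y) y x :=
    fun g y x => hb g x y
  have h0t : ∃ y x, (fun y x => b x y) y x ≠ 0 := by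
    obtain ⟨x, y, h⟩ := h0
    exact ⟨y, x, h⟩
  have p1 : ∀ x0, 0 < ∑ y, b x0 y * b x0 y := gram_pos htr hb h0
  have p2 : 0 < ∑ x, b x y0 * b x y0 := gram_pos (b := fun y x => b x y) htr' hbt h0t y0
  obtain ⟨x0, -, -⟩ := h0
  have h1 := kernel_sim hinv hne hinv' hne' habs htr hb hb1 hb2 hH hH' x0
  have h2 : ∀ a : H' → ℚ, ∑ x : H, (∑ y : H', a y * b x y) ^ 2 =
      (∑ x, b x y0 * b x y0) / 2 * ∑ y, (a y) ^ 2 :=
    kernel_sim (b := fun y x => b x y) hinv' hne' hinv hne habs' htr' hbt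
      (fun y x => hb2 x y) (fun y x => hb1 x y) hH' hH y0
  have c1 := card_le_of_sim (t := fun (x : H) (y : H') => b x y) (half_pos (p1 x0)) h1
  have c2 := card_le_of_sim (t := fun (y : H') (x : H) => b x y) (half_pos p2) h2
  have c3 := card_half hinv hH
  have c4 := card_half hinv' hH'
  have c5 : Fintype.card H = H.card := Fintype.card_coe H
  have c6 : Fintype.card H' = H'.card := Fintype.card_coe H'
  have c7 : Fintype.card H' = Fintype.card H := le_antisymm c2 c1
  have c8 : Fintype.card E / 2 = Fintype.card H' := by omega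
  refine ⟨by omega, p2, fun h3 => ?_, fun h3 => ?_⟩
  · rw [c8] at h3
    obtain ⟨r, hr⟩ := sq_of_sim (t := fun (y : H') (x : H) => b x y) c7 h3 (half_pos p2) h2
    refine ⟨2 * r, ?_⟩
    rw [mul_pow, ← hr]
    ring
  · rw [c8] at h3
    obtain ⟨r, s, hr⟩ := two_sq_of_sim (t := fun (y : H') (x : H) => b x y) (Fintype.card H' / 4)
      (by omega) (by omega) (half_pos p2) h2
    refine ⟨2 * r, 2 * s, ?_⟩
    rw [mul_pow, mul_pow, ← mul_add, ← hr]
    ring

include hinv hne hinv' hne' hG hG' habs habs' htr htr' hu hu' in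
/-- **There are no relations between the slope functions of two related fields** if their quadratic
forms are separated. -/
theorem pair_core (n : J → E → ℚ) (hn : ∀ l, OddFun inv (n l)) (n' : J' → E' → ℚ)
    (hn' : ∀ l, OddFun inv' (n' l))
    (hind : ∀ m : J → ℚ, (∀ x, ∑ l, (m l : ℝ) * u l x = 0) → m = 0)
    (hind' : ∀ m : J' → ℚ, (∀ x, ∑ l, (m l : ℝ) * u' l x = 0) → m = 0)
    (hsep : UnrelOdd G inv inv' ∨ Fintype.card E ≠ Fintype.card E' ∨
      (Odd (Fintype.card E / 2) ∧ ∀ (m : J → ℚ) (m' : J' → ℚ),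
        ∑ x, (∑ l, (m l : ℝ) * u l x) ^ 2 = ∑ y, (∑ l, (m' l : ℝ) * u' l y) ^ 2 → m = 0) ∨
      (Fintype.card E / 2 % 4 = 2 ∧ ∀ (m : J → ℚ) (m' : J' → ℚ) (r s : ℚ),
        ∑ x, (∑ l, (m l : ℝ) * u l x) ^ 2 =
          ((r : ℝ) ^ 2 + (s : ℝ) ^ 2) * ∑ y, (∑ l, (m' l : ℝ) * u' l y) ^ 2 → m = 0))
    (hrel : ∀ g : G, ∑ l, ∑ x, (n l x : ℝ) * u l (g • x) +
      ∑ l, ∑ y, (n' l y : ℝ) * u' l (g • y) = 0) :
    (∀ l, n l = 0) ∧ ∀ l, n' l = 0 := by
  classical
  by_cases hun : UnrelOdd G inv inv'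
  · -- the cross terms are zero
    have hcross : ∑ g : G, (∑ l, ∑ x, (n l x : ℝ) * u l (g • x)) *
        (∑ l, ∑ y, (n' l y : ℝ) * u' l (g • y)) = 0 := by
      have h3 : ∀ g : G, (∑ l, ∑ x, (n l x : ℝ) * u l (g • x)) *
          (∑ l, ∑ y, (n' l y : ℝ) * u' l (g • y)) =
          ∑ l, ∑ x, ∑ l', ∑ y, (n l x : ℝ) * (n' l' y : ℝ) * (u l (g • x) * u' l' (g • y)) := by
        intro g
        rw [Finset.sum_mul]
        refine Finset.sum_congr rfl fun l _ => ?_
        rw [Finset.sum_mul]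
        refine Finset.sum_congr rfl fun x _ => ?_
        rw [Finset.mul_sum]
        refine Finset.sum_congr rfl fun l' _ => ?_
        rw [Finset.mul_sum]
        exact Finset.sum_congr rfl fun y _ => by ring
      rw [Finset.sum_congr rfl fun g _ => h3 g, Finset.sum_comm]
      refine Finset.sum_eq_zero fun l _ => ?_
      rw [Finset.sum_comm]
      refine Finset.sum_eq_zero fun x _ => ?_
      rw [Finset.sum_comm]
      refine Finset.sum_eq_zero fun l' _ => ?_
      rw [Finset.sum_comm]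
      refine Finset.sum_eq_zero fun y _ => ?_
      rw [← Finset.mul_sum]
      have h4 := form_zero (G := G) hinv hun (fun x y => ∑ g : G, u l (g • x) * u' l' (g • y))
        (fun h x y => Fintype.sum_equiv (Equiv.mulRight h) _ _ fun g => by
          rw [Equiv.coe_mulRight, mul_smul, mul_smul])
        (fun x y => by
          rw [← Finset.sum_neg_distrib]
          exact Finset.sum_congr rfl fun g _ => by rw [hG, hu, neg_mul])
        (fun x y => by
          rw [← Finset.sum_neg_distrib]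
          exact Finset.sum_congr rfl fun g _ => by rw [hG', hu', mul_neg]) x y
      change (n l x : ℝ) * (n' l' y : ℝ) * (∑ g : G, u l (g • x) * u' l' (g • y)) = 0
      rw [h4, mul_zero]
    have hz : ∀ g : G, ∑ l, ∑ x, (n l x : ℝ) * u l (g • x) = 0 := by
      have h1 : ∑ g : G, (∑ l, ∑ x, (n l x : ℝ) * u l (g • x)) ^ 2 = 0 := by
        rw [← neg_zero, ← hcross, ← Finset.sum_neg_distrib]
        refine Finset.sum_congr rfl fun g _ => ?_
        have h2 := hrel g
        have h3 : ∑ l, ∑ y, (n' l y : ℝ) * u' l (g • y) =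
          -∑ l, ∑ x, (n l x : ℝ) * u l (g • x) := by linarith
        rw [h3]
        ring
      intro g
      have h2 := (Finset.sum_eq_zero_iff_of_nonneg (fun g _ => sq_nonneg _)).1 h1 g
        (Finset.mem_univ g)
      exact pow_eq_zero_iff two_ne_zero |>.1 h2
    have hz' : ∀ g : G, ∑ l, ∑ y, (n' l y : ℝ) * u' l (g • y) = 0 := by
      intro g
      have h1 := hrel g
      rw [hz g, zero_add] at h1
      exact h1
    have k1 : ∀ x, (fun l => n l x) = 0 := fun x => hind _ fun z => by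
      obtain ⟨g, rfl⟩ := htr x z
      exact same_core hinv hne habs hG u hu n hn hz x g
    have k2 : ∀ x, (fun l => n' l x) = 0 := fun x => hind' _ fun z => by
      obtain ⟨g, rfl⟩ := htr' x z
      exact same_core hinv' hne' habs' hG' u' hu' n' hn' hz' x g
    exact ⟨fun l => funext fun x => congrFun (k1 x) l, fun l => funext fun x => congrFun (k2 x) l⟩
  -- related fields
  obtain ⟨b, hb, hb1, hb2, h0⟩ := exists_kernel hinv hG hun
  obtain ⟨-, y0, -⟩ := id h0
  obtain ⟨c1, c2, c3, c4⟩ := kernel_mult hinv hne hinv' hne' habs habs' htr htr' hb hb1 hb2 h0 y0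
  have hbt : ∀ (g : G) y x, (fun y x => b x y) (g • y) (g • x) = (fun y x => b x y) y x :=
    fun g y x => hb g x y
  set S : ℚ := ∑ x, b x y0 * b x y0 with hS
  have hgr : ∀ (v w : E' → ℝ), (∀ y, w (inv' y) = -w y) →
      ∑ x, (∑ y, (b x y : ℝ) * v y) * (∑ y, (b x y : ℝ) * w y) = 2 * (S : ℝ) * ∑ y, v y * w y :=
    fun v w hw => gram_real (b := fun y x => b x y) hinv' hne' habs' htr' hbt
      (fun y x => hb2 x y) y0 v w hw
  let N : J' → E → ℚ := fun l x => (∑ y, b x y * n' l y) / (2 * S)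
  let U : J' → E → ℝ := fun l x => ∑ y, (b x y : ℝ) * u' l y
  have hN : ∀ l, OddFun inv (N l) := by
    intro l x
    simp only [N]
    rw [← neg_div, ← Finset.sum_neg_distrib]
    congr 1
    exact Finset.sum_congr rfl fun y _ => by rw [hb1, neg_mul]
  have hU : ∀ l x, U l (inv x) = -U l x := by
    intro l x
    simp only [U]
    rw [← Finset.sum_neg_distrib]
    refine Finset.sum_congr rfl fun y _ => ?_
    rw [hb1]
    push_cast
    ring
  have hS0 : (S : ℝ) ≠ 0 := by exact_mod_cast c2.ne'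
  have htrans : ∀ l (g : G), ∑ x, (N l x : ℝ) * U l (g • x) = ∑ y, (n' l y : ℝ) * u' l (g • y) := by
    intro l g
    have h1 : ∀ x, (N l x : ℝ) * U l (g • x) = ((∑ y, (b x y : ℝ) * (n' l y : ℝ)) *
        (∑ y, (b x y : ℝ) * u' l (g • y))) / (2 * S) := by
      intro x
      have h2 : U l (g • x) = ∑ y, (b x y : ℝ) * u' l (g • y) := by
        simp only [U]
        refine (Fintype.sum_equiv (MulAction.toPerm g) _ _ fun y => ?_).symm
        rw [MulAction.toPerm_apply, hb]
      rw [h2]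
      simp only [N]
      push_cast
      ring
    rw [Finset.sum_congr rfl fun x _ => h1 x, ← Finset.sum_div,
      hgr (fun y => (n' l y : ℝ)) (fun y => u' l (g • y)) (fun y => by rw [hG', hu'])]
    field_simp
  have hs := same_core (G := G) hinv hne habs hG (J := J ⊕ J') (Sum.elim u U)
    (by rintro (l | l) x; exacts [hu l x, hU l x]) (Sum.elim n N)
    (by rintro (l | l); exacts [hn l, hN l]) (fun g => by
      rw [Fintype.sum_sum_type]
      simp only [Sum.elim_inl, Sum.elim_inr]
      rw [Finset.sum_congr rfl fun l _ => htrans l g]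
      exact hrel g)
  have hs' : ∀ x z, ∑ l, (n l x : ℝ) * u l z = -∑ l, (N l x : ℝ) * U l z := by
    intro x z
    obtain ⟨g, rfl⟩ := htr x z
    have h1 := hs x g
    rw [Fintype.sum_sum_type] at h1
    simp only [Sum.elim_inl, Sum.elim_inr] at h1
    linarith
  have hkey : ∀ x, ∑ z, (∑ l, (n l x : ℝ) * u l z) ^ 2 =
      2 * (S : ℝ) * ∑ y, (∑ l, (N l x : ℝ) * u' l y) ^ 2 := by
    intro x
    have h1 : ∀ z, ∑ l, (N l x : ℝ) * U l z =
        ∑ y, (b z y : ℝ) * (∑ l, (N l x : ℝ) * u' l y) := by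
      intro z
      simp only [U, Finset.mul_sum]
      rw [Finset.sum_comm]
      exact Finset.sum_congr rfl fun y _ => Finset.sum_congr rfl fun l _ => by ring
    have h2 : ∀ z, (∑ l, (n l x : ℝ) * u l z) ^ 2 =
        (∑ y, (b z y : ℝ) * (∑ l, (N l x : ℝ) * u' l y)) *
        (∑ y, (b z y : ℝ) * (∑ l, (N l x : ℝ) * u' l y)) := by
      intro z
      rw [hs' x z, h1 z]
      ring
    rw [Finset.sum_congr rfl fun z _ => h2 z, hgr _ _ (fun y => by
      rw [← Finset.sum_neg_distrib]
      exact Finset.sum_congr rfl fun l _ => by rw [hu', mul_neg])]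
    congr 1
    exact Finset.sum_congr rfl fun y _ => (sq _).symm
  have k1 : ∀ x, (fun l => n l x) = 0 := by
    intro x
    rcases hsep with h | h | ⟨h1, h2⟩ | ⟨h1, h2⟩
    · exact absurd h hun
    · exact absurd c1 h
    · obtain ⟨r, hr⟩ := c3 h1
      refine h2 _ (fun l => r * N l x) ?_
      rw [hkey x]
      have h3 : (2 * (S : ℝ)) = (r : ℝ) ^ 2 := by exact_mod_cast hr
      rw [h3, Finset.mul_sum]
      refine Finset.sum_congr rfl fun y _ => ?_
      rw [← mul_pow, Finset.mul_sum]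
      congr 1
      refine Finset.sum_congr rfl fun l _ => ?_
      push_cast
      ring
    · obtain ⟨r, s, hr⟩ := c4 h1
      refine h2 _ (fun l => N l x) r s ?_
      rw [hkey x]
      have h3 : (2 * (S : ℝ)) = (r : ℝ) ^ 2 + (s : ℝ) ^ 2 := by exact_mod_cast hr
      rw [h3]
  have k2 : ∀ x, (fun l => N l x) = 0 := by
    intro x
    refine hind' _ fun y => ?_
    have h1 := hkey x
    have h2 : ∑ z, (∑ l, (n l x : ℝ) * u l z) ^ 2 = 0 := by
      refine Finset.sum_eq_zero fun z _ => ?_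
      have h3 : ∑ l, (n l x : ℝ) * u l z = 0 := by
        refine Finset.sum_eq_zero fun l _ => ?_
        have h4 : n l x = 0 := congrFun (k1 x) l
        rw [h4, Rat.cast_zero, zero_mul]
      rw [h3, zero_pow two_ne_zero]
    rw [h2] at h1
    have h3 := (mul_eq_zero.1 h1.symm).resolve_left (mul_ne_zero two_ne_zero hS0)
    have h4 := (Finset.sum_eq_zero_iff_of_nonneg (fun y _ => sq_nonneg _)).1 h3 y
      (Finset.mem_univ y)
    exact pow_eq_zero_iff two_ne_zero |>.1 h4
  refine ⟨fun l => funext fun x => congrFun (k1 x) l, fun l => funext fun y => ?_⟩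
  -- `n'` is recovered from `N`
  have h1 := hgr (fun z => (n' l z : ℝ)) (fun z => (dlt inv' y z : ℝ)) (fun z => by
    rw [dlt_odd inv' hinv' y z]
    push_cast
    ring)
  have h2 : ∀ x, ∑ z, (b x z : ℝ) * (n' l z : ℝ) = 0 := by
    intro x
    have h3 : N l x = 0 := congrFun (k2 x) l
    simp only [N] at h3
    have h4 : ∑ y, b x y * n' l y = 0 := by
      rcases div_eq_zero_iff.1 h3 with h5 | h5
      · exact h5
      · exact absurd h5 (mul_ne_zero two_ne_zero c2.ne')
    exact_mod_cast h4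
  rw [Finset.sum_eq_zero fun x _ => by rw [h2 x, zero_mul]] at h1
  have h3 := (mul_eq_zero.1 h1.symm).resolve_left (mul_ne_zero two_ne_zero hS0)
  have h4 : ∑ z, (n' l z : ℝ) * (dlt inv' y z : ℝ) = 2 * (n' l y : ℝ) := by
    have h5 : ∀ z, (n' l z : ℝ) * (dlt inv' y z : ℝ) =
        (if z = y then (n' l z : ℝ) else 0) - (if z = inv' y then (n' l z : ℝ) else 0) := by
      intro z
      simp only [dlt]
      split_ifs <;> simp
    rw [Finset.sum_congr rfl fun z _ => h5 z, Finset.sum_sub_distrib, Finset.sum_ite_eq',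
      Finset.sum_ite_eq', if_pos (Finset.mem_univ _), if_pos (Finset.mem_univ _), hn' l y]
    push_cast
    ring
  rw [h4] at h3
  have h5 := (mul_eq_zero.1 h3).resolve_left two_ne_zero
  exact_mod_cast h5

end pair

end Pool.Agent.Q70.MM
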