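import Mathlib
import Pool.Agent.Q70.MM.SameDefs
import Pool.Agent.Y137.MV.Defs

/-!
# Several Weil numbers in related fields, distinguished by the quadratic forms of their slopes:
definitions
-/

set_option autoImplicit false

namespace Pool.Agent.Q70.MM

open NumberField Module IntermediateField Pool.Agent.Y137.SL Pool.Agent.Y137.MV

/-- The quadratic form of the slopes of the numbers `π l` in `F`: the sum over the embeddings `τ` of `F`
in the algebraic closure of `ℚ_p` of the squares of `∑ l, m l * slope (π l) τ`; here the slope of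
`x` at `τ` is `log |τ x| + (log q) / 2`, `q = p ^ a`, that is `- log q` times the usual slope minus
`1 / 2`. -/
noncomputable def slopeForm (p a : ℕ) [Fact p.Prime] {F : Type*} [Field F] [NumberField F]
    {J : Type*} [Fintype J] (π : J → F) (m : J → ℚ) : ℝ :=
  ∑ τ : F →+* PadicAlgCl p, (∑ l, (m l : ℝ) * slope p a (π l) τ) ^ 2

/-- The families `π` in `F` and `π'` in `K` (of Weil numbers for `p ^ a`) have fields of different
degrees, or the degree of `F` is twice an odd number and the quadratic forms of the slopes have no
common values at rational vectors (other than the value at `m = 0`), or the degree of `F` is four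
times an odd number and the form of `π` takes no value which is the product of a value of the form of
`π'` and a sum of two rational squares. -/
def Separated (p a : ℕ) [Fact p.Prime] {F K : Type*} [Field F] [NumberField F] [Field K]
    [NumberField K] {J J' : Type*} [Fintype J] [Fintype J'] (π : J → F) (π' : J' → K) : Prop :=
  finrank ℚ F ≠ finrank ℚ K ∨
    (Odd (finrank ℚ F / 2) ∧ ∀ (m : J → ℚ) (m' : J' → ℚ),
      slopeForm p a π m = slopeForm p a π' m' → m = 0) ∨
    (finrank ℚ F / 2 % 4 = 2 ∧ ∀ (m : J → ℚ) (m' : J' → ℚ) (r s : ℚ),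
      slopeForm p a π m = ((r : ℝ) ^ 2 + (s : ℝ) ^ 2) * slopeForm p a π' m' → m = 0)

/-- For each `c` there is at most one index `β c` different from `c` such that the odd functions on the
embeddings of `K c` and of `K (β c)` are related, and then the families `π c` and `π (β c)` are
separated by the degrees or by the quadratic forms of the slopes. -/
def SeparatedPairs (p a : ℕ) [Fact p.Prime] {C : Type*} {K : C → Type*} [∀ c, Field (K c)]
    [∀ c, NumberField (K c)] {J : C → Type*} [∀ c, Fintype (J c)] (π : ∀ c, J c → K c) : Prop :=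
  ∃ β : C → C, (∀ c, β (β c) = c) ∧
    (∀ c c', c' ≠ c → c' ≠ β c → Unrelated (K c) (K c')) ∧
    ∀ c, β c ≠ c → Separated p a (π c) (π (β c))

/-- The numbers `π c l` are Weil numbers for `p ^ a` which generate the CM fields `K c`, the odd
functions on the embeddings of `K c` are absolutely irreducible, and for each `c` the slope functions
of the `π c l` are linearly independent over `ℚ`. -/
structure IsSystem (p a : ℕ) [Fact p.Prime] {C : Type*} {K : C → Type*} [∀ c, Field (K c)]
    [∀ c, NumberField (K c)] [∀ c, IsCMField (K c)] {J : C → Type*} [∀ c, Fintype (J c)]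
    (π : ∀ c, J c → K c) : Prop where
  gen : ∀ c l, ℚ⟮π c l⟯ = ⊤
  weil : ∀ c l, π c l * IsCMField.complexConj (K c) (π c l) = (p : K c) ^ a
  abs : ∀ c, OddAbsolutelyIrreducible (K c)
  slopes : IndependentSlopes p a π

/-- The Weil number `x` (for `p ^ a`) has only the slopes `0`, `1 / 2` and `1`, and the `p`-rank `f`: the
slope is different from `1 / 2` for `2 f` of the embeddings `τ` of the field in the algebraic closure
of `ℚ_p`. -/
def HasRank (p a : ℕ) [Fact p.Prime] {F : Type*} [Field F] [NumberField F] (x : F) (f : ℕ) :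
    Prop :=
  (∀ τ : F →+* PadicAlgCl p, slope p a x τ ≠ 0 → |slope p a x τ| = a * Real.log p / 2) ∧
    {τ : F →+* PadicAlgCl p | slope p a x τ ≠ 0}.ncard = 2 * f

/-- The number of the embeddings at which the numbers `x` and `y` have the same slope, different from
`1 / 2`, minus the number of those at which they have opposite slopes, different from `1 / 2`. -/
noncomputable def agreement (p a : ℕ) [Fact p.Prime] {F : Type*} [Field F] [NumberField F]
    (x y : F) : ℤ :=
  ({τ : F →+* PadicAlgCl p | slope p a x τ ≠ 0 ∧ slope p a y τ = slope p a x τ}.ncard : ℤ) -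
    {τ : F →+* PadicAlgCl p | slope p a x τ ≠ 0 ∧ slope p a y τ = -slope p a x τ}.ncard

/-- The numbers `x`, `y` in `F` and `z` in `K` are Weil numbers for `p ^ a` with only the slopes `0`,
`1 / 2` and `1`, and with the `p`-ranks `f₁`, `f₂` and `f > 0`, which generate these CM fields; the odd
functions are absolutely irreducible, the degree of `F` is twice an odd number, the agreement of `x`
and `y` is `2 k`, and the equation `f₁ X ^ 2 + 2 k X Y + f₂ Y ^ 2 = f Z ^ 2` has no integral solution
with `(X, Y) ≠ (0, 0)`. -/
structure IsTriple (p a : ℕ) [Fact p.Prime] {F K : Type*} [Field F] [NumberField F] [IsCMField F]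
    [Field K] [NumberField K] [IsCMField K] (x y : F) (z : K) (f₁ f₂ f : ℕ) (k : ℤ) : Prop where
  gen : ℚ⟮x⟯ = ⊤ ∧ ℚ⟮y⟯ = ⊤ ∧ ℚ⟮z⟯ = ⊤
  weil_x : x * IsCMField.complexConj F x = (p : F) ^ a
  weil_y : y * IsCMField.complexConj F y = (p : F) ^ a
  weil_z : z * IsCMField.complexConj K z = (p : K) ^ a
  abs : OddAbsolutelyIrreducible F ∧ OddAbsolutelyIrreducible K
  odd : Odd (finrank ℚ F / 2)
  ranks : HasRank p a x f₁ ∧ HasRank p a y f₂ ∧ HasRank p a z f
  pos : 0 < f
  agree : agreement p a x y = 2 * k
  form : ∀ X Y Z : ℤ, f₁ * X ^ 2 + 2 * k * X * Y + f₂ * Y ^ 2 = f * Z ^ 2 → X = 0 ∧ Y = 0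

/-- Two numbers in `F false` and one in `F true`. -/
def twoOne {F : Bool → Type} (x y : F false) (z : F true) : ∀ b : Bool, Fin (cond b 1 2) → F b
  | false => ![x, y]
  | true => ![z]

end Pool.Agent.Q70.MM
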