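import Mathlib
import Pool.Agent.Q70.MM.Clu
import Pool.Agent.Q70.MM.CluDefs

/-!
# Maximal angle rank for several Weil numbers in related fields
-/

set_option autoImplicit false
set_option linter.unusedSectionVars false
set_option linter.unusedVariables false

namespace Pool.Agent.Q70.MM

open NumberField Module TensorProduct IntermediateField Pool.Agent.Q70.SQ
open Pool.Agent.H204R3.CM Pool.Agent.H204R3.SP Pool.Agent.H204R3.GP Pool.Agent.Y137.MV
  Pool.Agent.Y137.SL Pool.Agent.Y1.CT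

noncomputable section

variable {p : ℕ} [Fact p.Prime] {a : ℕ}

/-- **Maximal angle rank for several Weil numbers in each of the fields, which may be related in
pairs.** -/
theorem angle_of_forms {C : Type} [Fintype C] {K : C → Type} {J : C → Type} [∀ c, Fintype (J c)]
    [∀ c, Field (K c)] [∀ c, NumberField (K c)] [∀ c, IsCMField (K c)] (π : ∀ c, J c → K c)
    (ha : 0 < a)
    (hw : ∀ c l, π c l * IsCMField.complexConj (K c) (π c l) = (p : K c) ^ a)
    (habs : ∀ c, OddAbsolutelyIrreducible (K c))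
    (hind : IndependentSlopes p a π) (hsep : SeparatedPairs p a π) :
    MaximalAngleRank (p ^ a) (F := fun i : Σ c, J c => K i.1) (fun i => π i.1 i.2) := by
  classical
  set F : (Σ c, J c) → Type := fun i => K i.1 with hF
  set π' : ∀ i, F i := fun i => π i.1 i.2 with hπ'
  have hw' : ∀ i, π' i * IsCMField.complexConj (F i) (π' i) = (p : F i) ^ a := fun i => hw i.1 i.2
  obtain ⟨β, hβ, hun, hd⟩ := hsep
  intro r n hrel i φ
  obtain ⟨L, hLa, hLb, j, h, -⟩ := exists_galois_roots F (1 : Polynomial ℚ) one_ne_zero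
  let jp : L →ₐ[ℚ] PadicAlgCl p := IsAlgClosed.lift
  let J' : (Σ i, (F i →+* L)) ≃ Σ i, (F i →+* ℂ) :=
    Equiv.sigmaCongrRight fun i => embEquiv j (h i)
  have hJ : ∀ x : Σ i, (F i →+* L), (J' x).2 (π' (J' x).1) = j (val π' x) := fun x => rfl
  have hp0 : (0 : ℝ) < p := Nat.cast_pos.2 (Fact.out : p.Prime).pos
  have hlogp : 0 < (a : ℝ) * Real.log p :=
    mul_pos (Nat.cast_pos.2 ha) (Real.log_pos (by exact_mod_cast (Fact.out : p.Prime).one_lt))
  -- the relation in `L`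
  have hL : ∏ x : Σ i, (F i →+* L), (val π' x) ^ (n (J' x)) = ((p : L) ^ a) ^ r := by
    apply j.injective
    rw [map_prod, map_zpow₀, map_pow, map_natCast]
    have h1 : ∏ x : Σ i, (F i →+* L), j ((val π' x) ^ (n (J' x))) =
        ∏ y : Σ i, (F i →+* ℂ), (y.2 (π' y.1)) ^ (n y) :=
      Fintype.prod_equiv J' _ _ fun x => by rw [map_zpow₀, hJ]
    rw [h1, hrel]
    push_cast
    rfl
  have hlog : ∀ (E : Type) [NormedField E] (f : L →+* E), (∀ x, ‖f (val π' x)‖ ≠ 0) →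
      ∑ x : Σ i, (F i →+* L), (n (J' x) : ℝ) * Real.log ‖f (val π' x)‖ =
        r * Real.log ‖(p : E) ^ a‖ := by
    intro E _ f hf
    have h1 := congrArg (fun z => Real.log ‖f z‖) hL
    simp only [map_prod, map_zpow₀, norm_prod, norm_zpow, Real.log_zpow, map_pow, map_natCast] at h1
    rw [Real.log_prod (fun x _ => zpow_ne_zero _ (hf x))] at h1
    simp only [Real.log_zpow] at h1
    exact h1
  have hc : ∑ x : Σ i, (F i →+* L), (n (J' x) : ℝ) = 2 * r := by
    have hne : ∀ x : Σ i, (F i →+* L), ‖j (val π' x)‖ ≠ 0 := by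
      intro x h2
      have h3 := norm_val j hw' x
      rw [h2] at h3
      have h4 : (0 : ℝ) < (p : ℝ) ^ a := pow_pos hp0 a
      norm_num at h3
      linarith
    have h1 := hlog ℂ j hne
    have h2 : ∀ x : Σ i, (F i →+* L), Real.log ‖j (val π' x)‖ = (a : ℝ) * Real.log p / 2 := by
      intro x
      have h3 := congrArg Real.log (norm_val j hw' x)
      rw [Real.log_pow, Real.log_pow] at h3
      push_cast at h3
      linarith
    have h3 : Real.log ‖((p : ℕ) : ℂ) ^ a‖ = (a : ℝ) * Real.log p := by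
      rw [norm_pow, Real.log_pow, Complex.norm_natCast]
    rw [Finset.sum_congr rfl fun x _ => by rw [h2 x], ← Finset.sum_mul, h3] at h1
    have h4 : (∑ x : Σ i, (F i →+* L), (n (J' x) : ℝ) - 2 * r) * ((a : ℝ) * Real.log p) = 0 := by
      linarith
    have h5 := (mul_eq_zero.1 h4).resolve_right hlogp.ne'
    linarith
  have hzero : ∀ σ : L ≃ₐ[ℚ] L, ∑ x : Σ i, (F i →+* L), (n (J' x) : ℝ) *
      uu p a π' (jp : L →+* PadicAlgCl p) (σ • x) = 0 := by
    intro σ
    have h1 := hlog (PadicAlgCl p) ((jp : L →+* PadicAlgCl p).comp (σ : L →+* L))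
      (fun x => norm_val_ne (jp : L →+* PadicAlgCl p) hw' (σ • x))
    have h2 : ∀ x : Σ i, (F i →+* L), (n (J' x) : ℝ) * uu p a π' (jp : L →+* PadicAlgCl p) (σ • x) =
        2 * ((n (J' x) : ℝ) * Real.log ‖((jp : L →+* PadicAlgCl p).comp (σ : L →+* L)) (val π' x)‖) -
        (n (J' x) : ℝ) * Real.log ‖(p : PadicAlgCl p) ^ a‖ := by
      intro x
      rw [uu]
      have h3 : ((jp : L →+* PadicAlgCl p).comp (σ : L →+* L)) (val π' x) =
        (jp : L →+* PadicAlgCl p) (val π' (σ • x)) := rfl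
      rw [h3]
      ring
    rw [Finset.sum_congr rfl fun x _ => h2 x, Finset.sum_sub_distrib, ← Finset.mul_sum, h1,
      ← Finset.sum_mul, hc]
    ring
  -- the odd part
  let N : ∀ k, (F k →+* L) → ℚ := fun k ψ => (n (J' ⟨k, ψ⟩) : ℚ) - (n (J' ⟨k, cbar ψ⟩) : ℚ)
  have hN : ∀ k, OddFun cbar (N k) := by
    intro k ψ
    simp only [N, cbar_cbar]
    ring
  have hN0 : ∀ σ : L ≃ₐ[ℚ] L, ∑ k, ∑ ψ, (N k ψ : ℝ) *
      ui p a π' (jp : L →+* PadicAlgCl p) k (σ • ψ) = 0 := by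
    intro σ
    have h1 := hzero σ
    have h2 : ∑ x : Σ i, (F i →+* L), (n (J' (bar x)) : ℝ) *
        uu p a π' (jp : L →+* PadicAlgCl p) (σ • x) = 0 := by
      rw [← neg_zero, ← h1, ← Finset.sum_neg_distrib]
      refine Fintype.sum_equiv ⟨bar, bar, bar_bar, bar_bar⟩ _ _ fun x => ?_
      change _ = -((n (J' (bar x)) : ℝ) * uu p a π' (jp : L →+* PadicAlgCl p) (σ • bar x))
      have h3 : σ • bar x = bar (σ • x) := rfl
      rw [h3, uu_bar (jp : L →+* PadicAlgCl p) hw']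
      ring
    rw [Fintype.sum_sigma] at h1 h2
    have h3 : ∀ k, ∑ ψ, (N k ψ : ℝ) * ui p a π' (jp : L →+* PadicAlgCl p) k (σ • ψ) =
        ∑ ψ, (n (J' ⟨k, ψ⟩) : ℝ) * uu p a π' (jp : L →+* PadicAlgCl p) (σ • ⟨k, ψ⟩) -
        ∑ ψ, (n (J' (bar ⟨k, ψ⟩)) : ℝ) * uu p a π' (jp : L →+* PadicAlgCl p) (σ • ⟨k, ψ⟩) := by
      intro k
      rw [← Finset.sum_sub_distrib]
      refine Finset.sum_congr rfl fun ψ _ => ?_
      have e1 : ui p a π' (jp : L →+* PadicAlgCl p) k (σ • ψ) =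
        uu p a π' (jp : L →+* PadicAlgCl p) (σ • ⟨k, ψ⟩) := rfl
      have e2 : (bar ⟨k, ψ⟩ : Σ i, (F i →+* L)) = ⟨k, cbar ψ⟩ := rfl
      rw [e1, e2]
      simp only [N]
      push_cast
      ring
    rw [Finset.sum_congr rfl fun k _ => h3 k, Finset.sum_sub_distrib, h1, h2, sub_zero]
  -- the blocks
  let s : C → (L ≃ₐ[ℚ] L) → ℝ := fun c σ => ∑ l : J c, ∑ ψ : K c →+* L,
      (N ⟨c, l⟩ ψ : ℝ) * ui p a π' (jp : L →+* PadicAlgCl p) ⟨c, l⟩ (σ • ψ)
  have hblock := orth (G := L ≃ₐ[ℚ] L) s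
      (fun σ => by
        have h1 := hN0 σ
        rw [Fintype.sum_sigma] at h1
        exact h1) β hβ
      (fun c c' h1 h2 => by
        have h3 : ∀ σ : L ≃ₐ[ℚ] L, s c σ * s c' σ =
            ∑ l : J c, ∑ l' : J c', (∑ ψ : K c →+* L,
            (N ⟨c, l⟩ ψ : ℝ) * ui p a π' (jp : L →+* PadicAlgCl p) ⟨c, l⟩ (σ • ψ)) *
            (∑ ψ : K c' →+* L,
            (N ⟨c', l'⟩ ψ : ℝ) * ui p a π' (jp : L →+* PadicAlgCl p) ⟨c', l'⟩ (σ • ψ)) :=
          fun σ => Finset.sum_mul_sum _ _ _ _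
        rw [Finset.sum_congr rfl fun σ _ => h3 σ, Finset.sum_comm]
        refine Finset.sum_eq_zero fun l _ => ?_
        rw [Finset.sum_comm]
        refine Finset.sum_eq_zero fun l' _ => ?_
        exact cross_zero (F := F) (π := π') j h (jp : L →+* PadicAlgCl p) hw' ⟨c, l⟩ ⟨c', l'⟩
          (hun c c' h1 h2) (N ⟨c, l⟩) (N ⟨c', l'⟩))
      i.1
  -- the embeddings of all fields `K c` with `J c` not empty factor through `L`
  have hK : ∀ c, J c → ∀ ψ : K c →+* ℂ, ∃ φ : K c →+* L, j.comp φ = ψ := fun c l => h ⟨c, l⟩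
  have hui : ∀ c (l : J c) (φ : K c →+* L), ui p a π' (jp : L →+* PadicAlgCl p) ⟨c, l⟩ φ =
      2 * slope p a (π c l) ((jp : L →+* PadicAlgCl p).comp φ) := by
    intro c l φ
    rw [ui, uu, Y137.SL.slope, log_Q]
    change 2 * Real.log ‖jp (φ (π c l))‖ - -(↑a * Real.log ↑p) =
        2 * (Real.log ‖jp (φ (π c l))‖ + ↑a * Real.log ↑p / 2)
    ring
  have hslope : ∀ c, J c → ∀ m : J c → ℚ, (∀ φ : K c →+* L, ∑ l, (m l : ℝ) *
      ui p a π' (jp : L →+* PadicAlgCl p) ⟨c, l⟩ φ = 0) → m = 0 := by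
    intro c l0 m h1
    refine hind c m fun τ => ?_
    obtain ⟨φ', hφ'⟩ := exists_factor j (hK c l0) (jp : L →+* PadicAlgCl p) τ
    have h2 := h1 φ'
    rw [Finset.sum_congr rfl fun l _ => by rw [hui c l φ', hφ']] at h2
    have h3 : ∑ l, (m l : ℝ) * (2 * slope p a (π c l) τ) =
        2 * ∑ l, (m l : ℝ) * slope p a (π c l) τ := by
      rw [Finset.mul_sum]
      exact Finset.sum_congr rfl fun l _ => by ring
    rw [h3] at h2
    exact (mul_eq_zero.1 h2).resolve_left two_ne_zero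
  have hform : ∀ c, J c → ∀ m : J c → ℚ, ∑ φ : K c →+* L, (∑ l, (m l : ℝ) *
      ui p a π' (jp : L →+* PadicAlgCl p) ⟨c, l⟩ φ) ^ 2 = 4 * slopeForm p a (π c) m := by
    intro c l0 m
    rw [slopeForm, Finset.mul_sum]
    refine Fintype.sum_bijective (fun φ : K c →+* L => (jp : L →+* PadicAlgCl p).comp φ)
      ⟨fun φ φ' hφ => ?_, fun τ => exists_factor j (hK c l0) (jp : L →+* PadicAlgCl p) τ⟩ _ _
      fun φ => ?_
    · exact RingHom.ext fun x => (jp : L →+* PadicAlgCl p).injective (RingHom.congr_fun hφ x)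
    · rw [Finset.sum_congr rfl fun l _ => by rw [hui c l φ]]
      have h3 : ∑ l, (m l : ℝ) * (2 * slope p a (π c l) ((jp : L →+* PadicAlgCl p).comp φ)) =
          2 * ∑ l, (m l : ℝ) * slope p a (π c l) ((jp : L →+* PadicAlgCl p).comp φ) := by
        rw [Finset.mul_sum]
        exact Finset.sum_congr rfl fun l _ => by ring
      rw [h3]
      ring
  have hcard : ∀ c, J c → Fintype.card (K c →+* L) = finrank ℚ (K c) := by
    intro c l0
    rw [Fintype.card_congr (embEquiv j (hK c l0)), NumberField.Embeddings.card]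
  have hNi : N i = 0 := by
    by_cases hβi : β i.1 = i.1
    · -- one field
      have hsame : ∀ (ψ : K i.1 →+* L) (σ : L ≃ₐ[ℚ] L), ∑ l : J i.1, (N ⟨i.1, l⟩ ψ : ℝ) *
          ui p a π' (jp : L →+* PadicAlgCl p) ⟨i.1, l⟩ (σ • ψ) = 0 := by
        refine fun ψ σ => same_core (G := L ≃ₐ[ℚ] L) (inv := (cbar : (K i.1 →+* L) → _)) cbar_cbar
          cbar_ne (abs_transfer j (h i) (habs i.1)) (fun g φ => smul_cbar g φ)
          (fun l => ui p a π' (jp : L →+* PadicAlgCl p) ⟨i.1, l⟩)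
          (fun l x => uu_bar (jp : L →+* PadicAlgCl p) hw' ⟨⟨i.1, l⟩, x⟩)
          (fun l => N ⟨i.1, l⟩) (fun l => hN ⟨i.1, l⟩) (fun g => ?_) ψ σ
        have h1 := hblock g
        rw [hβi, Finset.pair_eq_singleton, Finset.sum_singleton] at h1
        exact h1
      funext ψ
      have h1 := hslope i.1 i.2 (fun l => N ⟨i.1, l⟩ ψ) fun φ => by
        obtain ⟨g, rfl⟩ := MulAction.exists_smul_eq (L ≃ₐ[ℚ] L) ψ φ
        exact hsame ψ g
      exact congrFun h1 i.2
    by_cases hJ0 : Nonempty (J (β i.1))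
    · -- two fields
      obtain ⟨l1⟩ := hJ0
      have h1 := pair_core (G := L ≃ₐ[ℚ] L) (E := K i.1 →+* L) (E' := K (β i.1) →+* L)
        (inv := cbar) (inv' := cbar) cbar_cbar cbar_ne cbar_cbar cbar_ne
        (fun g φ => smul_cbar g φ) (fun g φ => smul_cbar g φ)
        (abs_transfer j (hK _ i.2) (habs i.1)) (abs_transfer j (hK _ l1) (habs (β i.1)))
        (fun x y => MulAction.exists_smul_eq (L ≃ₐ[ℚ] L) x y)
        (fun x y => MulAction.exists_smul_eq (L ≃ₐ[ℚ] L) x y)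
        (fun l => ui p a π' (jp : L →+* PadicAlgCl p) ⟨i.1, l⟩)
        (fun l x => uu_bar (jp : L →+* PadicAlgCl p) hw' ⟨⟨i.1, l⟩, x⟩)
        (fun l => ui p a π' (jp : L →+* PadicAlgCl p) ⟨β i.1, l⟩)
        (fun l x => uu_bar (jp : L →+* PadicAlgCl p) hw' ⟨⟨β i.1, l⟩, x⟩)
        (fun l => N ⟨i.1, l⟩) (fun l => hN ⟨i.1, l⟩)
        (fun l => N ⟨β i.1, l⟩) (fun l => hN ⟨β i.1, l⟩)
        (hslope i.1 i.2) (hslope (β i.1) l1) (by
          rw [hcard _ i.2, hcard _ l1]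
          rcases hd i.1 hβi with h2 | ⟨h2, h3⟩ | ⟨h2, h3⟩
          · exact Or.inr (Or.inl h2)
          · refine Or.inr (Or.inr (Or.inl ⟨h2, fun m m' h4 => h3 m m' ?_⟩))
            rw [hform i.1 i.2, hform (β i.1) l1] at h4
            linarith
          · refine Or.inr (Or.inr (Or.inr ⟨h2, fun m m' r s h4 => h3 m m' r s ?_⟩))
            rw [hform i.1 i.2, hform (β i.1) l1] at h4
            linarith)
        (fun g => by
          have h1 := hblock g
          rw [Finset.sum_pair (Ne.symm hβi)] at h1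
          exact h1)
      exact h1.1 i.2
    · -- the second family is empty
      have hsame : ∀ (ψ : K i.1 →+* L) (σ : L ≃ₐ[ℚ] L), ∑ l : J i.1, (N ⟨i.1, l⟩ ψ : ℝ) *
          ui p a π' (jp : L →+* PadicAlgCl p) ⟨i.1, l⟩ (σ • ψ) = 0 := by
        refine fun ψ σ => same_core (G := L ≃ₐ[ℚ] L) (inv := (cbar : (K i.1 →+* L) → _)) cbar_cbar
          cbar_ne (abs_transfer j (h i) (habs i.1)) (fun g φ => smul_cbar g φ)
          (fun l => ui p a π' (jp : L →+* PadicAlgCl p) ⟨i.1, l⟩)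
          (fun l x => uu_bar (jp : L →+* PadicAlgCl p) hw' ⟨⟨i.1, l⟩, x⟩)
          (fun l => N ⟨i.1, l⟩) (fun l => hN ⟨i.1, l⟩) (fun g => ?_) ψ σ
        have h1 := hblock g
        rw [Finset.sum_pair (Ne.symm hβi)] at h1
        have h2 : s (β i.1) g = 0 :=
          Finset.sum_eq_zero fun l _ => absurd ⟨l⟩ hJ0
        rw [h2, add_zero] at h1
        exact h1
      funext ψ
      have h1 := hslope i.1 i.2 (fun l => N ⟨i.1, l⟩ ψ) fun φ => by
        obtain ⟨g, rfl⟩ := MulAction.exists_smul_eq (L ≃ₐ[ℚ] L) ψ φ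
        exact hsame ψ g
      exact congrFun h1 i.2
  obtain ⟨φ', rfl⟩ := h i φ
  have h1 : N i φ' = 0 := congrFun hNi φ'
  have h7 : J' ⟨i, cbar φ'⟩ = ⟨i, ComplexEmbedding.conjugate (j.comp φ')⟩ := by
    change (⟨i, j.comp (cbar φ')⟩ : Σ i, (F i →+* ℂ)) = _
    rw [comp_cbar]
  simp only [N, h7] at h1
  have h2 := sub_eq_zero.1 h1
  exact_mod_cast h2

end

end Pool.Agent.Q70.MM
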