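import Mathlib
import Pool.Agent.Q70.MM.CluMain

/-!
# Two Weil numbers in a field and one in a related field
-/

set_option autoImplicit false
set_option linter.unusedSectionVars false
set_option linter.unusedVariables false

namespace Pool.Agent.Q70.MM

open NumberField Module Pool.Agent.Y137.MV Pool.Agent.Y137.SL Pool.Agent.Y1.CT Pool.Agent.Q70.SQ

noncomputable section

variable {p : ℕ} [Fact p.Prime] {a : ℕ} {F : Type*} [Field F] [NumberField F]

theorem sum_sq_rank {x : F} {f : ℕ} (hx : HasRank p a x f) :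
    ∑ τ : F →+* PadicAlgCl p, slope p a x τ ^ 2 = (a * Real.log p / 2) ^ 2 * (2 * f) := by
  classical
  have h1 : ∀ τ : F →+* PadicAlgCl p, slope p a x τ ^ 2 =
      if slope p a x τ ≠ 0 then (a * Real.log p / 2) ^ 2 else 0 := by
    intro τ
    split_ifs with h
    · rw [← hx.1 τ h, sq_abs]
    · rw [not_not] at h
      rw [h, zero_pow two_ne_zero]
  rw [Finset.sum_congr rfl fun τ _ => h1 τ, ← Finset.sum_filter, Finset.sum_const, nsmul_eq_mul]
  have h2 : (Finset.univ.filter fun τ : F →+* PadicAlgCl p => slope p a x τ ≠ 0).card = 2 * f := by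
    rw [← hx.2, ← Set.ncard_coe_finset]
    congr 1
    ext τ
    simp
  rw [h2]
  push_cast
  ring

theorem sum_mul_rank {x y : F} {f₁ f₂ : ℕ} (hx : HasRank p a x f₁) (hy : HasRank p a y f₂) :
    ∑ τ : F →+* PadicAlgCl p, slope p a x τ * slope p a y τ =
      (a * Real.log p / 2) ^ 2 * agreement p a x y := by
  classical
  set e : ℝ := a * Real.log p / 2 with he
  have h1 : ∀ τ : F →+* PadicAlgCl p, slope p a x τ * slope p a y τ =
      (if slope p a x τ ≠ 0 ∧ slope p a y τ = slope p a x τ then e ^ 2 else 0) -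
      (if slope p a x τ ≠ 0 ∧ slope p a y τ = -slope p a x τ then e ^ 2 else 0) := by
    intro τ
    by_cases h : slope p a x τ = 0
    · rw [h]
      simp
    have h2 := hx.1 τ h
    by_cases h' : slope p a y τ = 0
    · have e1 : ¬ (slope p a x τ ≠ 0 ∧ slope p a y τ = slope p a x τ) := by
        rintro ⟨-, h3⟩
        exact h (h3 ▸ h')
      have e2 : ¬ (slope p a x τ ≠ 0 ∧ slope p a y τ = -slope p a x τ) := by
        rintro ⟨-, h3⟩
        rw [h'] at h3
        exact h (neg_eq_zero.1 h3.symm)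
      rw [if_neg e1, if_neg e2, h']
      ring
    have h3 := hy.1 τ h'
    have h4 : slope p a y τ = slope p a x τ ∨ slope p a y τ = -slope p a x τ :=
      abs_eq_abs.1 (h3.trans h2.symm)
    have h5 : slope p a x τ ^ 2 = e ^ 2 := by
      rw [he, ← h2, sq_abs]
    rcases h4 with h4 | h4
    · have e2 : ¬ (slope p a x τ ≠ 0 ∧ slope p a y τ = -slope p a x τ) := by
        rintro ⟨-, h6⟩
        rw [h4] at h6
        exact h (by linarith)
      rw [if_pos ⟨h, h4⟩, if_neg e2, h4, ← h5]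
      ring
    · have e2 : ¬ (slope p a x τ ≠ 0 ∧ slope p a y τ = slope p a x τ) := by
        rintro ⟨-, h6⟩
        rw [h4] at h6
        exact h (by linarith)
      rw [if_neg e2, if_pos ⟨h, h4⟩, h4, ← h5]
      ring
  rw [Finset.sum_congr rfl fun τ _ => h1 τ, Finset.sum_sub_distrib, ← Finset.sum_filter,
    ← Finset.sum_filter, Finset.sum_const, Finset.sum_const, nsmul_eq_mul, nsmul_eq_mul, agreement]
  have h2 : ∀ (P : (F →+* PadicAlgCl p) → Prop) [DecidablePred P], (Finset.univ.filter P).card =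
      {τ : F →+* PadicAlgCl p | P τ}.ncard := by
    intro P _
    rw [← Set.ncard_coe_finset]
    congr 1
    ext τ
    simp
  rw [h2 fun τ => slope p a x τ ≠ 0 ∧ slope p a y τ = slope p a x τ,
    h2 fun τ => slope p a x τ ≠ 0 ∧ slope p a y τ = -slope p a x τ]
  push_cast
  ring

theorem slopeForm_two {x y : F} {f₁ f₂ : ℕ} {k : ℤ} (hx : HasRank p a x f₁)
    (hy : HasRank p a y f₂) (hk : agreement p a x y = 2 * k) (m : Fin 2 → ℚ) :
    slopeForm p a ![x, y] m = (a * Real.log p / 2) ^ 2 * 2 *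
      ((f₁ * (m 0) ^ 2 + 2 * k * m 0 * m 1 + f₂ * (m 1) ^ 2 : ℚ) : ℝ) := by
  have h1 : ∀ τ : F →+* PadicAlgCl p, (∑ l, (m l : ℝ) * slope p a (![x, y] l) τ) ^ 2 =
      (m 0 : ℝ) ^ 2 * slope p a x τ ^ 2 + 2 * (m 0 : ℝ) * m 1 * (slope p a x τ * slope p a y τ) +
      (m 1 : ℝ) ^ 2 * slope p a y τ ^ 2 := by
    intro τ
    rw [Fin.sum_univ_two]
    change ((m 0 : ℝ) * slope p a x τ + (m 1 : ℝ) * slope p a y τ) ^ 2 = _
    ring
  rw [slopeForm, Finset.sum_congr rfl fun τ _ => h1 τ, Finset.sum_add_distrib,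
    Finset.sum_add_distrib, ← Finset.mul_sum, ← Finset.mul_sum, ← Finset.mul_sum, sum_sq_rank hx,
    sum_sq_rank hy, sum_mul_rank hx hy, hk]
  push_cast
  ring

theorem slopeForm_one {z : F} {f : ℕ} (hz : HasRank p a z f) (m : Fin 1 → ℚ) :
    slopeForm p a ![z] m = (a * Real.log p / 2) ^ 2 * 2 * ((f * (m 0) ^ 2 : ℚ) : ℝ) := by
  have h1 : ∀ τ : F →+* PadicAlgCl p, (∑ l, (m l : ℝ) * slope p a (![z] l) τ) ^ 2 =
      (m 0 : ℝ) ^ 2 * slope p a z τ ^ 2 := by
    intro τ
    rw [Fin.sum_univ_one]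
    change ((m 0 : ℝ) * slope p a z τ) ^ 2 = _
    ring
  rw [slopeForm, Finset.sum_congr rfl fun τ _ => h1 τ, ← Finset.mul_sum, sum_sq_rank hz]
  push_cast
  ring

/-- Zeros of the form in integers and in rational numbers. -/
theorem ternary_rat {f₁ f₂ f : ℕ} {k : ℤ} (h : ∀ X Y Z : ℤ,
    f₁ * X ^ 2 + 2 * k * X * Y + f₂ * Y ^ 2 = f * Z ^ 2 → X = 0 ∧ Y = 0) (x y z : ℚ)
    (h1 : (f₁ : ℚ) * x ^ 2 + 2 * k * x * y + f₂ * y ^ 2 = f * z ^ 2) : x = 0 ∧ y = 0 := by
  set D : ℤ := x.den * y.den * z.den with hD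
  have hD0 : (D : ℚ) ≠ 0 := by
    simp only [hD]
    push_cast
    exact mul_ne_zero (mul_ne_zero (Nat.cast_ne_zero.2 x.den_ne_zero)
      (Nat.cast_ne_zero.2 y.den_ne_zero)) (Nat.cast_ne_zero.2 z.den_ne_zero)
  have hx : ((x.num * y.den * z.den : ℤ) : ℚ) = D * x := by
    have h2 : (x.num : ℚ) = x * x.den := (Rat.mul_den_eq_num x).symm
    simp only [hD]
    push_cast
    rw [h2]
    ring
  have hy : ((x.den * y.num * z.den : ℤ) : ℚ) = D * y := by
    have h2 : (y.num : ℚ) = y * y.den := (Rat.mul_den_eq_num y).symm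
    simp only [hD]
    push_cast
    rw [h2]
    ring
  have hz : ((x.den * y.den * z.num : ℤ) : ℚ) = D * z := by
    have h2 : (z.num : ℚ) = z * z.den := (Rat.mul_den_eq_num z).symm
    simp only [hD]
    push_cast
    rw [h2]
    ring
  obtain ⟨h3, h4⟩ := h (x.num * y.den * z.den) (x.den * y.num * z.den) (x.den * y.den * z.num) (by
    have h5 : ((f₁ * (x.num * y.den * z.den) ^ 2 + 2 * k * (x.num * y.den * z.den) *
        (x.den * y.num * z.den) + f₂ * (x.den * y.num * z.den) ^ 2 : ℤ) : ℚ) =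
        ((f * (x.den * y.den * z.num) ^ 2 : ℤ) : ℚ) := by
      have e1 : ((f₁ * (x.num * y.den * z.den) ^ 2 + 2 * k * (x.num * y.den * z.den) *
        (x.den * y.num * z.den) + f₂ * (x.den * y.num * z.den) ^ 2 : ℤ) : ℚ) =
        f₁ * ((x.num * y.den * z.den : ℤ) : ℚ) ^ 2 + 2 * k * ((x.num * y.den * z.den : ℤ) : ℚ) *
        ((x.den * y.num * z.den : ℤ) : ℚ) + f₂ * ((x.den * y.num * z.den : ℤ) : ℚ) ^ 2 := by
        push_cast
        ring
      have e2 : ((f * (x.den * y.den * z.num) ^ 2 : ℤ) : ℚ) =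
        f * ((x.den * y.den * z.num : ℤ) : ℚ) ^ 2 := by
        push_cast
        ring
      rw [e1, e2, hx, hy, hz]
      linear_combination (D : ℚ) ^ 2 * h1
    exact_mod_cast h5)
  rw [h3, Int.cast_zero] at hx
  rw [h4, Int.cast_zero] at hy
  exact ⟨(mul_eq_zero.1 hx.symm).resolve_left hD0, (mul_eq_zero.1 hy.symm).resolve_left hD0⟩

/-- **Several Weil numbers in each of two fields, related or not.** -/
theorem angle_of_two {F : Bool → Type} [∀ b, Field (F b)] [∀ b, NumberField (F b)]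
    [∀ b, IsCMField (F b)] {J : Bool → Type} [∀ b, Fintype (J b)] (π : ∀ b, J b → F b) (ha : 0 < a)
    (hw : ∀ b l, π b l * IsCMField.complexConj (F b) (π b l) = (p : F b) ^ a)
    (habs : ∀ b, OddAbsolutelyIrreducible (F b)) (hind : IndependentSlopes p a π)
    (h1 : Separated p a (π false) (π true)) (h2 : Separated p a (π true) (π false)) :
    MaximalAngleRank (p ^ a) (F := fun i : Σ b, J b => F i.1) (fun i => π i.1 i.2) := by
  refine angle_of_forms (K := F) (J := J) π ha hw habs hind ⟨not, fun b => Bool.not_not b, ?_, ?_⟩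
  · intro c c' h3 h4
    exfalso
    revert c c'
    decide
  · rintro (_ | _) _
    · exact h1
    · exact h2

/-- **Two Weil numbers in a field and one in another field, related or not.** -/
theorem angle_two_one (ha : 0 < a) {F : Bool → Type} [∀ b, Field (F b)] [∀ b, NumberField (F b)]
    [∀ b, IsCMField (F b)] (x y : F false) (z : F true) {f₁ f₂ f : ℕ} {k : ℤ}
    (hwx : x * IsCMField.complexConj (F false) x = (p : F false) ^ a)
    (hwy : y * IsCMField.complexConj (F false) y = (p : F false) ^ a)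
    (hwz : z * IsCMField.complexConj (F true) z = (p : F true) ^ a)
    (habs : ∀ b, OddAbsolutelyIrreducible (F b)) (hodd : Odd (finrank ℚ (F false) / 2))
    (hx : HasRank p a x f₁) (hy : HasRank p a y f₂) (hz : HasRank p a z f) (hf : 0 < f)
    (hk : agreement p a x y = 2 * k) (hform : ∀ X Y Z : ℤ,
      f₁ * X ^ 2 + 2 * k * X * Y + f₂ * Y ^ 2 = f * Z ^ 2 → X = 0 ∧ Y = 0) :
    MaximalAngleRank (p ^ a) (F := fun i : Σ b : Bool, Fin (cond b 1 2) => F i.1)
      (fun i => twoOne x y z i.1 i.2) := by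
  have hlogp : 0 < (a : ℝ) * Real.log p :=
    mul_pos (Nat.cast_pos.2 ha) (Real.log_pos (by exact_mod_cast (Fact.out : p.Prime).one_lt))
  have he : (a * Real.log p / 2) ^ 2 * 2 ≠ 0 := by positivity
  have hsep : ∀ (m : Fin 2 → ℚ) (m' : Fin 1 → ℚ),
      slopeForm p a ![x, y] m = slopeForm p a ![z] m' → m = 0 ∧ m' = 0 := by
    intro m m' h
    rw [slopeForm_two hx hy hk, slopeForm_one hz] at h
    have h1 := mul_left_cancel₀ he h
    have h2 : (f₁ * (m 0) ^ 2 + 2 * k * m 0 * m 1 + f₂ * (m 1) ^ 2 : ℚ) = f * (m' 0) ^ 2 := by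
      exact_mod_cast h1
    obtain ⟨h3, h4⟩ := ternary_rat hform (m 0) (m 1) (m' 0) h2
    refine ⟨?_, ?_⟩
    · funext l
      fin_cases l
      · exact h3
      · exact h4
    · rw [h3, h4] at h2
      have h5 : (f : ℚ) * (m' 0) ^ 2 = 0 := by
        rw [← h2]
        ring
      have h6 := (mul_eq_zero.1 h5).resolve_left (Nat.cast_ne_zero.2 hf.ne')
      funext l
      fin_cases l
      exact pow_eq_zero_iff two_ne_zero |>.1 h6
  have hz0 : ∀ (G : Type) [Field G] [NumberField G] (J : Type) [Fintype J] (π : J → G) (m : J → ℚ),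
      (∀ τ : G →+* PadicAlgCl p, ∑ l, (m l : ℝ) * slope p a (π l) τ = 0) →
      slopeForm p a π m = 0 := by
    intro G _ _ J _ π m h
    exact Finset.sum_eq_zero fun τ _ => by rw [h τ, zero_pow two_ne_zero]
  have h00 : ∀ (G : Type) [Field G] [NumberField G] (J : Type) [Fintype J] (π : J → G),
      slopeForm p a π 0 = 0 := by
    intro G _ _ J _ π
    exact hz0 G J π 0 fun τ => Finset.sum_eq_zero fun l _ => by simp
  refine angle_of_forms (K := F) (J := fun b => Fin (cond b 1 2)) (twoOne x y z) ha ?_ habs ?_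
    ⟨not, fun b => Bool.not_not b, ?_, ?_⟩
  · rintro (_ | _) l
    · change Fin 2 at l
      fin_cases l
      · exact hwx
      · exact hwy
    · change Fin 1 at l
      fin_cases l
      exact hwz
  · rintro (_ | _) m h
    · exact (hsep m 0 ((hz0 _ _ ![x, y] m h).trans (h00 _ _ ![z]).symm)).1
    · exact (hsep 0 m ((h00 _ _ ![x, y]).trans (hz0 _ _ ![z] m h).symm)).2
  · intro c c' h1 h2
    exfalso
    revert c c'
    decide
  · rintro (_ | _) _
    · exact Or.inr (Or.inl ⟨hodd, fun m m' h => (hsep m m' h).1⟩)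
    · by_cases h3 : finrank ℚ (F true) = finrank ℚ (F false)
      · refine Or.inr (Or.inl ⟨?_, fun m m' h => (hsep m' m h.symm).2⟩)
        rw [h3]
        exact hodd
      · exact Or.inl h3

theorem angle_triple (ha : 0 < a) {F : Bool → Type} [∀ b, Field (F b)] [∀ b, NumberField (F b)]
    [∀ b, IsCMField (F b)] {x y : F false} {z : F true} {f₁ f₂ f : ℕ} {k : ℤ}
    (h : IsTriple p a x y z f₁ f₂ f k) :
    MaximalAngleRank (p ^ a) (F := fun i : Σ b : Bool, Fin (cond b 1 2) => F i.1)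
      (fun i => twoOne x y z i.1 i.2) :=
  angle_two_one ha x y z h.weil_x h.weil_y h.weil_z
    (fun b => by
      cases b
      · exact h.abs.1
      · exact h.abs.2) h.odd h.ranks.1 h.ranks.2.1 h.ranks.2.2 h.pos h.agree h.form

theorem triple_gen {F : Bool → Type} [∀ b, Field (F b)] [∀ b, NumberField (F b)]
    [∀ b, IsCMField (F b)] {x y : F false} {z : F true} {f₁ f₂ f : ℕ} {k : ℤ}
    (h : IsTriple p a x y z f₁ f₂ f k) (i : Σ b : Bool, Fin (cond b 1 2)) :
    IntermediateField.adjoin ℚ {twoOne x y z i.1 i.2} = ⊤ := by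
  obtain ⟨_ | _, l⟩ := i
  · change Fin 2 at l
    fin_cases l
    · exact h.gen.1
    · exact h.gen.2.1
  · change Fin 1 at l
    fin_cases l
    exact h.gen.2.2

theorem triple_weil {F : Bool → Type} [∀ b, Field (F b)] [∀ b, NumberField (F b)]
    [∀ b, IsCMField (F b)] {x y : F false} {z : F true} {f₁ f₂ f : ℕ} {k : ℤ}
    (h : IsTriple p a x y z f₁ f₂ f k) (i : Σ b : Bool, Fin (cond b 1 2)) :
    twoOne x y z i.1 i.2 * IsCMField.complexConj (F i.1) (twoOne x y z i.1 i.2) =
      (p : F i.1) ^ a := by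
  obtain ⟨_ | _, l⟩ := i
  · change Fin 2 at l
    fin_cases l
    · exact h.weil_x
    · exact h.weil_y
  · change Fin 1 at l
    fin_cases l
    exact h.weil_z

end

end Pool.Agent.Q70.MM
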