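import Mathlib
import Pool.Agent.TH117.BL.Main
import Pool.Agent.Q70.MM.BigMain

/-!
# Elementary relations for abelian varieties with large generic factors and small factors
-/

set_option autoImplicit false
set_option linter.unusedSectionVars false
set_option linter.unusedVariables false

namespace Pool.Agent.Q70.MM

open NumberField Module Finset Pool.Agent.H204R3.CM Pool.Agent.W547.KB Pool.Agent.W495.TA
  Pool.Agent.TH117.BL Pool.Agent.Y137.MV Pool.Agent.Y137.SL

noncomputable section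

variable {p : ℕ} [Fact p.Prime] {ν : PadicAlgCl p ≃+* ℂ}

theorem frob_norm {A : CMPair} {a : ℕ} {π : A.E} (h : IsFrobenius p ν A a π) (φ : A.E →+* ℂ) :
    φ π * ComplexEmbedding.conjugate φ π = (p : ℂ) ^ a := by
  rw [ComplexEmbedding.conjugate_coe_eq, Complex.mul_conj, Complex.normSq_eq_norm_sq, h.weil φ]
  push_cast
  rfl

theorem frob_mul {A : CMPair} {a : ℕ} {π : A.E} (h : IsFrobenius p ν A a π) :
    π * IsCMField.complexConj A.E π = (p : A.E) ^ a := by
  let φ : A.E →+* ℂ := Classical.arbitrary _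
  apply φ.injective
  rw [map_mul, IsCMField.complexEmbedding_complexConj, map_pow, map_natCast]
  exact frob_norm h φ

/-- The complex conjugate eigenvalue. -/
def cj {Z : RedAV p ν} (w : Emb Z) : Emb Z := ⟨w.1, ComplexEmbedding.conjugate w.2⟩

theorem cj_cj {Z : RedAV p ν} (w : Emb Z) : cj (cj w) = w :=
  Sigma.ext rfl (heq_of_eq (conj_conj' w.2))

theorem cj_ne {Z : RedAV p ν} (w : Emb Z) : cj w ≠ w := by
  intro h
  have h1 : (⟨w.1, ComplexEmbedding.conjugate w.2⟩ : Emb Z) = ⟨w.1, w.2⟩ := h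
  exact conj_ne' w.2 (eq_of_heq (Sigma.mk.inj h1).2)

theorem eig_mul {Z : RedAV p ν} (w : Emb Z) : eig Z w * eig Z (cj w) = (p : ℂ) ^ Z.a :=
  frob_norm (Z.frob w.1) w.2

theorem pa_ne (Z : RedAV p ν) : ((p : ℂ) ^ Z.a) ≠ 0 :=
  pow_ne_zero _ (Nat.cast_ne_zero.2 (Fact.out : p.Prime).ne_zero)

/-- The subgroup generated by the elementary relations. -/
abbrev ElemSub (Z : RedAV p ν) : AddSubgroup (Emb Z → ℤ) := AddSubgroup.closure
  {d : Emb Z → ℤ | ∃ n : Emb Z → ℕ, IsRel Z n ∧ IsElementary Z n ∧ ∀ w, d w = n w}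

theorem pair_mem {Z : RedAV p ν} [DecidableEq (Emb Z)] (w : Emb Z) :
    (Pi.single w 1 + Pi.single (cj w) 1 : Emb Z → ℤ) ∈ ElemSub Z := by
  have hsum : ∑ v, (Pi.single w 1 + Pi.single (cj w) 1 : Emb Z → ℕ) v = 2 := by
    simp only [Pi.add_apply, sum_add_distrib, Finset.sum_pi_single', mem_univ, if_true]
  refine AddSubgroup.subset_closure ⟨Pi.single w 1 + Pi.single (cj w) 1, ⟨1, one_pos, ?_⟩,
    Or.inl hsum.le, fun v => ?_⟩
  · have h1 : ∏ v, eig Z v ^ (Pi.single w 1 + Pi.single (cj w) 1 : Emb Z → ℕ) v =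
        eig Z w * eig Z (cj w) := by
      simp only [Pi.add_apply, pow_add, prod_mul_distrib]
      rw [prod_eq_single w, prod_eq_single (cj w)]
      · rw [Pi.single_eq_same, Pi.single_eq_same, pow_one, pow_one]
      · intro b _ hb
        rw [Pi.single_eq_of_ne hb, pow_zero]
      · exact fun h => absurd (mem_univ _) h
      · intro b _ hb
        rw [Pi.single_eq_of_ne hb, pow_zero]
      · exact fun h => absurd (mem_univ _) h
    rw [h1, eig_mul, hsum, one_mul, mul_one]
  · simp only [Pi.add_apply, Pi.single_apply]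
    split_ifs <;> simp

/-- **The relations are elementary.** -/
theorem elementary_of_big (Z : RedAV p ν) {C : Type} [Fintype C] {K : C → Type} {J : C → Type}
    [∀ c, Fintype (J c)] [∀ c, Field (K c)] [∀ c, NumberField (K c)] [∀ c, IsCMField (K c)]
    (idx : ∀ c, J c → Z.X.I) (hinj : Function.Injective fun x : Σ c, J c => idx x.1 x.2)
    (ε : ∀ c l, K c ≃+* (Z.X.factor (idx c l)).E)
    (habs : ∀ c, OddAbsolutelyIrreducible (K c))
    (hun : ∀ c c', c ≠ c' → Unrelated (K c) (K c'))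
    (hsmall : ∀ c i, (∀ c' l, idx c' l ≠ i) → Unrelated (K c) (Z.X.factor i).E)
    (hind : IndependentSlopes p Z.a fun c l => (ε c l).symm (Z.π (idx c l)))
    (hgood : IsGoodSet Z {i | ∀ c l, idx c l ≠ i}) : HasElementaryRelations Z := by
  classical
  intro e he
  obtain ⟨s, hs, hrel⟩ := he
  have hsym : ∀ w : Emb Z, (∃ c l, idx c l = w.1) → e w = e (cj w) := by
    rintro ⟨i, φ⟩ ⟨c, l, hi⟩
    subst hi
    have h1 := big_symm (F := fun i => (Z.X.factor i).E) (π := Z.π) Z.pos
      (fun i => frob_mul (Z.frob i)) idx hinj ε habs hun hsmall hind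
      ((s * ∑ w, e w : ℕ) : ℤ) (fun w => ((2 * s * e w : ℕ) : ℤ)) (by
        rw [zpow_natCast]
        have h2 : ∏ x : Emb Z, (x.2 (Z.π x.1)) ^ ((2 * s * e x : ℕ) : ℤ) =
            (∏ w, eig Z w ^ e w) ^ (2 * s) := by
          rw [← prod_pow]
          refine prod_congr rfl fun w _ => ?_
          rw [zpow_natCast, ← pow_mul, mul_comm]
          rfl
        refine h2.trans (hrel.trans ?_)
        push_cast
        rfl) c l φ
    have h2 : 2 * s * e ⟨idx c l, φ⟩ = 2 * s * e ⟨idx c l, ComplexEmbedding.conjugate φ⟩ := by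
      exact_mod_cast h1
    exact Nat.eq_of_mul_eq_mul_left (by omega) h2
  let big : Emb Z → Prop := fun w => ∃ c l, idx c l = w.1
  have hbig : ∀ w, big (cj w) ↔ big w := fun w => Iff.rfl
  let es : Emb Z → ℕ := fun w => if big w then 0 else e w
  let eb : Emb Z → ℕ := fun w => if big w then e w else 0
  have hes : ∀ w, e w = es w + eb w := by
    intro w
    simp only [es, eb]
    split_ifs <;> simp
  have hebsym : ∀ w, eb (cj w) = eb w := by
    intro w
    simp only [eb, hbig]
    by_cases hw : big w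
    · rw [if_pos hw, if_pos hw, ← hsym w hw]
    · rw [if_neg hw, if_neg hw]
  let eqv : Emb Z ≃ Emb Z := ⟨cj, cj, cj_cj, cj_cj⟩
  have hQ : (∏ w, eig Z w ^ eb w) ^ 2 = ((p : ℂ) ^ Z.a) ^ ∑ w, eb w := by
    have h1 : ∏ w, eig Z w ^ eb w = ∏ w, eig Z (cj w) ^ eb w :=
      Fintype.prod_equiv eqv _ _ fun w => by
        change eig Z w ^ eb w = eig Z (cj (cj w)) ^ eb (cj w)
        rw [cj_cj, hebsym]
    rw [sq]
    nth_rewrite 2 [h1]
    rw [← prod_mul_distrib, ← prod_pow_eq_pow_sum]
    exact prod_congr rfl fun w _ => by rw [← mul_pow, eig_mul]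
  have hrel_es : IsRel Z es := by
    refine ⟨s, hs, ?_⟩
    have h1 : ∏ w, eig Z w ^ e w = (∏ w, eig Z w ^ es w) * ∏ w, eig Z w ^ eb w := by
      rw [← prod_mul_distrib]
      exact prod_congr rfl fun w _ => by rw [← pow_add, ← hes]
    have h2 : ∑ w, e w = ∑ w, es w + ∑ w, eb w := by
      rw [← sum_add_distrib]
      exact sum_congr rfl fun w _ => hes w
    rw [h1, h2, mul_pow, pow_mul (∏ w, eig Z w ^ eb w), hQ, ← pow_mul, mul_add, pow_add,
      mul_comm (∑ w, eb w) s] at hrel
    exact mul_right_cancel₀ (pow_ne_zero _ (pa_ne Z)) hrel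
  have hmem_es : (fun w => (es w : ℤ)) ∈ ElemSub Z := by
    refine AddSubgroup.subset_closure ⟨es, hrel_es, Or.inr (Or.inl ⟨_, hgood, fun w hw => ?_⟩),
      fun w => rfl⟩
    intro c l hcl
    exact hw (if_pos ⟨c, l, hcl⟩)
  let T : Finset (Emb Z) := univ.filter fun w => big w ∧ w.2 ∈ (Z.X.factor w.1).Φ
  have hsumT : (fun w => (e w : ℤ)) = (fun w => (es w : ℤ)) +
      ∑ w ∈ T, (e w : ℤ) • (Pi.single w 1 + Pi.single (cj w) 1 : Emb Z → ℤ) := by
    funext v
    rw [Pi.add_apply, Finset.sum_apply]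
    have h1 : ∑ w ∈ T, ((e w : ℤ) • (Pi.single w 1 + Pi.single (cj w) 1 : Emb Z → ℤ)) v =
        (if v ∈ T then (e v : ℤ) else 0) + if cj v ∈ T then (e (cj v) : ℤ) else 0 := by
      have h2 : ∀ w ∈ T, ((e w : ℤ) • (Pi.single w 1 + Pi.single (cj w) 1 : Emb Z → ℤ)) v =
          (if w = v then (e v : ℤ) else 0) + if w = cj v then (e (cj v) : ℤ) else 0 := by
        intro w _
        have e1 : (v = cj w) ↔ (w = cj v) :=
          ⟨fun h => by rw [h, cj_cj], fun h => by rw [h, cj_cj]⟩
        simp only [Pi.smul_apply, Pi.add_apply, Pi.single_apply, smul_eq_mul, mul_add, mul_ite,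
          mul_one, mul_zero, e1, eq_comm (a := v)]
        congr 1
        · by_cases h3 : w = v
          · rw [if_pos h3, if_pos h3, h3]
          · rw [if_neg h3, if_neg h3]
        · by_cases h3 : w = cj v
          · rw [if_pos h3, if_pos h3, h3]
          · rw [if_neg h3, if_neg h3]
      rw [sum_congr rfl h2, sum_add_distrib, sum_ite_eq', sum_ite_eq']
    rw [h1]
    by_cases hv : big v
    · have h3 : es v = 0 := if_pos hv
      have h4 := (Z.X.factor v.1).isCMType v.2
      have hT1 : v ∈ T ↔ v.2 ∈ (Z.X.factor v.1).Φ := by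
        simp only [T, mem_filter, mem_univ, true_and]
        exact ⟨fun h => h.2, fun h => ⟨hv, h⟩⟩
      have hT2 : cj v ∈ T ↔ ComplexEmbedding.conjugate v.2 ∈ (Z.X.factor v.1).Φ := by
        simp only [T, mem_filter, mem_univ, true_and]
        exact ⟨fun h => h.2, fun h => ⟨hv, h⟩⟩
      by_cases h5 : v.2 ∈ (Z.X.factor v.1).Φ
      · have h6 : ComplexEmbedding.conjugate v.2 ∉ (Z.X.factor v.1).Φ := by
          tauto
        rw [h3, if_pos (hT1.2 h5), if_neg (fun h => h6 (hT2.1 h))]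
        simp
      · have h6 : ComplexEmbedding.conjugate v.2 ∈ (Z.X.factor v.1).Φ := by
          tauto
        rw [h3, if_neg (fun h => h5 (hT1.1 h)), if_pos (hT2.2 h6), ← hsym v hv]
        simp
    · have h3 : es v = e v := if_neg hv
      have h4 : v ∉ T := fun h => hv (mem_filter.1 h).2.1
      have h5 : cj v ∉ T := fun h => hv (mem_filter.1 h).2.1
      rw [h3, if_neg h4, if_neg h5]
      simp
  rw [hsumT]
  exact (ElemSub Z).add_mem hmem_es ((ElemSub Z).sum_mem fun w _ =>
    (ElemSub Z).zsmul_mem (pair_mem w) _)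

end

end Pool.Agent.Q70.MM
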