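import Mathlib
import Pool.Agent.TH117.BL.Defs
import Pool.Agent.Q70.MM.SameDefs
import Pool.Agent.Q70.SQ.Ord

/-!
# Large and small factors of abelian varieties over finite fields: definitions
-/

set_option autoImplicit false

namespace Pool.Agent.Q70.MM

open NumberField Module Pool.Agent.Y137.SL Pool.Agent.Y137.MV Pool.Agent.W547.KB
  Pool.Agent.W495.TA Pool.Agent.Q70.SQ
  Pool.Agent.TH117.BL Pool.Agent.Y1.CT

/-- Large factors of the abelian variety `Z`: the factors with the indices `idx c l`, `l` in a finite
set `J c` (`c` in a finite set `C`), all have the CM field `K c` (`iso`). The odd functions on the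
complex embeddings of `K c` are an absolutely irreducible representation of the automorphisms of the
field of complex numbers, and the fields `K c` are pairwise unrelated. The field of each other
factor is unrelated to `K c` (there are no equivariant maps between the odd functions), or its degree
is smaller than the one of `K c`. -/
structure LargeFactors {p : ℕ} [Fact p.Prime] {ν : PadicAlgCl p ≃+* ℂ} (Z : RedAV p ν) where
  /-- the set of the fields -/
  C : Type
  /-- the fields -/
  K : C → Type
  /-- the factors with the CM field `K c` -/
  J : C → Type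
  [fintypeC : Fintype C]
  [fintypeJ : ∀ c, Fintype (J c)]
  [field : ∀ c, Field (K c)]
  [numberField : ∀ c, NumberField (K c)]
  [cm : ∀ c, IsCMField (K c)]
  /-- the indices of the large factors -/
  idx : ∀ c, J c → Z.X.I
  inj : Function.Injective fun x : Σ c, J c => idx x.1 x.2
  /-- the CM field of the large factors -/
  iso : ∀ c l, K c ≃+* (Z.X.factor (idx c l)).E
  abs : ∀ c, OddAbsolutelyIrreducible (K c)
  unrelated : ∀ c c', c ≠ c' → Unrelated (K c) (K c')
  small : ∀ c i, (∀ c' l, idx c' l ≠ i) →
    Unrelated (K c) (Z.X.factor i).E ∨ finrank ℚ (Z.X.factor i).E < finrank ℚ (K c)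

attribute [instance] LargeFactors.fintypeC LargeFactors.fintypeJ LargeFactors.field
  LargeFactors.numberField LargeFactors.cm

variable {p : ℕ} [Fact p.Prime] {ν : PadicAlgCl p ≃+* ℂ} {Z : RedAV p ν}

/-- The Frobenius endomorphism of the large factor with the index `idx c l`, a Weil number in `K c`. -/
noncomputable def LargeFactors.frob (D : LargeFactors Z) (c : D.C) (l : D.J c) : D.K c :=
  (D.iso c l).symm (Z.π (D.idx c l))

/-- The other factors. -/
def LargeFactors.rest (D : LargeFactors Z) : Set Z.X.I := {i | ∀ c l, D.idx c l ≠ i}

/-- All large factors are ordinary, at most three of them have the same field, and the slopes of two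
with the same field are neither equal nor opposite. -/
def LargeFactors.OrdinaryTriples (D : LargeFactors Z) : Prop :=
  (∀ c, Fintype.card (D.J c) ≤ 3) ∧ (∀ c l, IsOrdinary p Z.a (D.frob c l)) ∧
    ∀ c l l', l ≠ l' → DifferentSlopes p Z.a (D.frob c l) (D.frob c l')

end Pool.Agent.Q70.MM
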