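import Mathlib
import Pool.Agent.Q70.MM.Same
import Pool.Agent.Q70.SQ.Ord

/-!
# Three ordinary Weil numbers in one field
-/

set_option autoImplicit false
set_option linter.unusedSectionVars false
set_option linter.unusedVariables false

namespace Pool.Agent.Q70.MM

open NumberField Module Pool.Agent.Q70.SQ Pool.Agent.Y137.SL

theorem two_signs {T : Type*} {e : ℝ} (he : e ≠ 0) {x y : T → ℝ}
    (hx : ∀ t, x t = e ∨ x t = -e) (hy : ∀ t, y t = e ∨ y t = -e)
    (hxy : ∃ t, x t ≠ y t) (hxy' : ∃ t, x t ≠ -y t) {a b : ℝ}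
    (h : ∀ t, a * x t + b * y t = 0) : a = 0 := by
  have h2 : ∀ s : ℝ, s * e = 0 → s = 0 := fun s hs => (mul_eq_zero.1 hs).resolve_right he
  have k1 : a - b = 0 := by
    obtain ⟨t, ht⟩ := hxy
    have h1 := h t
    rcases hx t with hx | hx <;> rcases hy t with hy | hy <;> rw [hx, hy] at h1 ht
    · exact absurd rfl ht
    · exact h2 _ (by linarith)
    · exact h2 _ (by linarith)
    · exact absurd rfl ht
  have k2 : a + b = 0 := by
    obtain ⟨t, ht⟩ := hxy'
    have h1 := h t
    rcases hx t with hx | hx <;> rcases hy t with hy | hy <;> rw [hx, hy] at h1 ht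
    · exact h2 _ (by linarith)
    · exact absurd (neg_neg e).symm ht
    · exact absurd rfl ht
    · exact h2 _ (by linarith)
  linarith

variable {p : ℕ} [Fact p.Prime] {a : ℕ}

theorem slope_ordinary {K : Type*} [Field K] [NumberField K] {x : K} (hx : IsOrdinary p a x)
    (τ : K →+* PadicAlgCl p) :
    Y137.SL.slope p a x τ = a * Real.log p / 2 ∨ Y137.SL.slope p a x τ = -(a * Real.log p / 2) := by
  have h1 : τ x ∈ (minpoly ℚ x).aroots (PadicAlgCl p) := by
    rw [Polynomial.mem_aroots]
    refine ⟨minpoly.ne_zero (Algebra.IsIntegral.isIntegral x), ?_⟩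
    have h2 := Polynomial.aeval_algHom_apply (RingHom.equivRatAlgHom K (PadicAlgCl p) τ) x
      (minpoly ℚ x)
    rw [minpoly.aeval, map_zero] at h2
    exact h2
  rcases hx _ h1 with h2 | h2
  · left
    rw [Y137.SL.slope, h2, Real.log_one]
    ring
  · right
    rw [Y137.SL.slope, h2, log_Q]
    ring

/-- At most three ordinary Weil numbers in one field, no two of which have the same or opposite slopes,
have linearly independent slopes. -/
theorem independent_of_three {C : Type*} {K : C → Type*} {J : C → Type*}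
    [∀ c, Field (K c)] [∀ c, NumberField (K c)] [∀ c, Fintype (J c)] (π : ∀ c, J c → K c)
    (ha : 0 < a) (hcard : ∀ c, Fintype.card (J c) ≤ 3) (hord : ∀ c l, IsOrdinary p a (π c l))
    (hdiff : ∀ c l l', l ≠ l' → DifferentSlopes p a (π c l) (π c l')) :
    IndependentSlopes p a π := by
  classical
  intro c m hrel
  have he : (a : ℝ) * Real.log p / 2 ≠ 0 := by
    have hlogp : 0 < (a : ℝ) * Real.log p :=
      mul_pos (Nat.cast_pos.2 ha) (Real.log_pos (by exact_mod_cast (Fact.out : p.Prime).one_lt))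
    positivity
  have hs := fun l τ => slope_ordinary (hord c l) τ
  funext l₀
  have hcard' : (Finset.univ.erase l₀).card ≤ 2 := by
    rw [Finset.card_erase_of_mem (Finset.mem_univ _), Finset.card_univ]
    have := hcard c
    omega
  have hsplit : ∀ τ : K c →+* PadicAlgCl p, (m l₀ : ℝ) * Y137.SL.slope p a (π c l₀) τ +
      ∑ l ∈ Finset.univ.erase l₀, (m l : ℝ) * Y137.SL.slope p a (π c l) τ = 0 := by
    intro τ
    rw [Finset.add_sum_erase _ (fun l => (m l : ℝ) * Y137.SL.slope p a (π c l) τ)
      (Finset.mem_univ l₀)]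
    exact hrel τ
  have h3 : (Finset.univ.erase l₀).card = 0 ∨ (Finset.univ.erase l₀).card = 1 ∨
      (Finset.univ.erase l₀).card = 2 := by omega
  have hgoal : (m l₀ : ℝ) = 0 := by
    rcases h3 with h3 | h3 | h3
    · rw [Finset.card_eq_zero] at h3
      obtain ⟨τ⟩ : Nonempty (K c →+* PadicAlgCl p) := inferInstance
      have h4 := hsplit τ
      rw [h3, Finset.sum_empty, add_zero] at h4
      refine (mul_eq_zero.1 h4).resolve_right ?_
      rcases hs l₀ τ with h5 | h5 <;> rw [h5]
      · exact he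
      · exact neg_ne_zero.2 he
    · obtain ⟨l₁, h4⟩ := Finset.card_eq_one.1 h3
      have h5 : l₁ ≠ l₀ := by
        have : l₁ ∈ Finset.univ.erase l₀ := by rw [h4]; exact Finset.mem_singleton_self _
        exact (Finset.mem_erase.1 this).1
      obtain ⟨h6, h7⟩ := hdiff c l₀ l₁ h5.symm
      refine two_signs he (hs l₀) (hs l₁) h6 h7 (b := m l₁) fun τ => ?_
      have h8 := hsplit τ
      rw [h4, Finset.sum_singleton] at h8
      exact h8
    · obtain ⟨l₁, l₂, h4, h5⟩ := Finset.card_eq_two.1 h3
      have h6 : l₁ ≠ l₀ := by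
        have : l₁ ∈ Finset.univ.erase l₀ := by rw [h5]; exact Finset.mem_insert_self _ _
        exact (Finset.mem_erase.1 this).1
      have h7 : l₂ ≠ l₀ := by
        have : l₂ ∈ Finset.univ.erase l₀ := by
          rw [h5]
          exact Finset.mem_insert_of_mem (Finset.mem_singleton_self _)
        exact (Finset.mem_erase.1 this).1
      obtain ⟨k1, k2⟩ := hdiff c l₀ l₁ h6.symm
      obtain ⟨k3, k4⟩ := hdiff c l₀ l₂ h7.symm
      obtain ⟨k5, k6⟩ := hdiff c l₁ l₂ h4
      refine three_signs he (hs l₀) (hs l₁) (hs l₂) k1 k2 k3 k4 k5 k6 (b := m l₁) (c := m l₂)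
        fun τ => ?_
      have h8 := hsplit τ
      rw [h5, Finset.sum_pair h4] at h8
      linarith
  exact_mod_cast hgoal

end Pool.Agent.Q70.MM
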