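import Mathlib
import Pool.Agent.Q70.MM.Elem
import Pool.Agent.Q70.MM.ElemDefs
import Pool.Agent.Q70.MM.Three

/-!
# Elementary relations for abelian varieties with large and small factors
-/

set_option autoImplicit false

namespace Pool.Agent.Q70.MM

open NumberField Module Pool.Agent.Y137.SL Pool.Agent.Y137.MV Pool.Agent.W547.KB
  Pool.Agent.W495.TA Pool.Agent.Q70.SQ
  Pool.Agent.TH117.BL Pool.Agent.Y1.CT

variable {p : ℕ} [Fact p.Prime] {ν : PadicAlgCl p ≃+* ℂ} {Z : RedAV p ν}

theorem elementary_of_large (D : LargeFactors Z) (hind : IndependentSlopes p Z.a D.frob)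
    (hgood : IsGoodSet Z D.rest) : HasElementaryRelations Z :=
  elementary_of_big Z D.idx D.inj D.iso D.abs D.unrelated
    (fun c i hi => (D.small c i hi).elim (fun h => h)
      fun h => unrelated_of_degree (D.abs c).1 h) hind hgood

theorem independent_of_triples (D : LargeFactors Z) (h : D.OrdinaryTriples) :
    IndependentSlopes p Z.a D.frob :=
  independent_of_three D.frob Z.pos h.1 h.2.1 h.2.2

end Pool.Agent.Q70.MM
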