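import Mathlib

/-!
# The complex roots of the characteristic polynomial of a product of commuting operators
-/

set_option autoImplicit false

namespace Pool.Agent.Q70.MM

open Module Polynomial TensorProduct

/-- A complex root of the characteristic polynomial of the multiplication by `r` in a finite
commutative algebra is the image of `r` under a homomorphism. -/
theorem exists_hom {R : Type*} [CommRing R] [Algebra ℚ R] [Module.Finite ℚ R] (r : R) {z : ℂ}
    (hz : aeval z (Algebra.lmul ℚ R r).charpoly = 0) : ∃ φ : R →ₐ[ℚ] ℂ, φ r = z := by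
  classical
  have h1 : Module.End.HasEigenvalue
      (LinearMap.baseChange ℂ (Algebra.lmul ℚ R r) : Module.End ℂ (ℂ ⊗[ℚ] R)) z := by
    rw [Module.End.hasEigenvalue_iff_isRoot_charpoly, LinearMap.charpoly_baseChange, IsRoot,
      eval_map_algebraMap]
    exact hz
  obtain ⟨v, hv⟩ := h1.exists_hasEigenvector
  have hv1 := hv.apply_eq_smul
  have hv0 := hv.2
  have h2 : ∀ w : ℂ ⊗[ℚ] R, ((Algebra.lmul ℚ R r).baseChange ℂ) w = ((1 : ℂ) ⊗ₜ[ℚ] r) * w := by
    intro w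
    induction w using TensorProduct.induction_on with
    | zero => rw [map_zero, mul_zero]
    | tmul x y =>
      rw [LinearMap.baseChange_tmul, Algebra.TensorProduct.tmul_mul_tmul, one_mul]
      rfl
    | add x y hx hy => rw [map_add, mul_add, hx, hy]
  set t : ℂ ⊗[ℚ] R := (1 : ℂ) ⊗ₜ[ℚ] r - algebraMap ℂ (ℂ ⊗[ℚ] R) z with ht
  have h3 : t * v = 0 := by
    rw [ht, sub_mul, ← h2, hv1, Algebra.smul_def, sub_self]
  have h4 : t ∈ nonunits (ℂ ⊗[ℚ] R) := by
    intro h5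
    exact hv0 ((h5.mul_right_eq_zero).1 h3)
  obtain ⟨m, hm, htm⟩ := exists_max_ideal_of_mem_nonunits h4
  letI : Field ((ℂ ⊗[ℚ] R) ⧸ m) := Ideal.Quotient.field m
  have hfin : Module.Finite ℂ ((ℂ ⊗[ℚ] R) ⧸ m) := inferInstance
  have hint : Algebra.IsIntegral ℂ ((ℂ ⊗[ℚ] R) ⧸ m) := inferInstance
  let e : ℂ ≃ₐ[ℂ] ((ℂ ⊗[ℚ] R) ⧸ m) := AlgEquiv.ofBijective (Algebra.ofId ℂ _)
    IsAlgClosed.algebraMap_bijective_of_isIntegral
  let φ : R →ₐ[ℚ] ℂ := ((e.symm : ((ℂ ⊗[ℚ] R) ⧸ m) →ₐ[ℂ] ℂ).restrictScalars ℚ).comp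
    (((Ideal.Quotient.mkₐ ℂ m).restrictScalars ℚ).comp
      (Algebra.TensorProduct.includeRight : R →ₐ[ℚ] ℂ ⊗[ℚ] R))
  refine ⟨φ, ?_⟩
  have h5 : Ideal.Quotient.mkₐ ℂ m ((1 : ℂ) ⊗ₜ[ℚ] r) = algebraMap ℂ ((ℂ ⊗[ℚ] R) ⧸ m) z := by
    have h6 : Ideal.Quotient.mkₐ ℂ m t = 0 := Ideal.Quotient.eq_zero_iff_mem.2 htm
    rw [ht, map_sub, sub_eq_zero] at h6
    rw [h6]
    rfl
  change e.symm (Ideal.Quotient.mkₐ ℂ m ((1 : ℂ) ⊗ₜ[ℚ] r)) = z
  rw [h5, AlgEquiv.symm_apply_eq]
  rfl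

/-- The product of commuting operators, each killed by the rational polynomial `f`, and of a rational
number `lam` is killed by a rational polynomial whose complex roots are the products of `lam` and of
roots of `f`. -/
theorem exists_poly {A : Type*} [Ring A] [Algebra ℚ A] {b : ℕ} (s : Fin b → A)
    (hs : ∀ i j, s i * s j = s j * s i) {f : ℚ[X]} (hf0 : f ≠ 0) (hf : ∀ i, aeval (s i) f = 0)
    (lam : ℚ) : ∃ F : ℚ[X], F ≠ 0 ∧ aeval (algebraMap ℚ A lam * (List.ofFn s).prod) F = 0 ∧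
      ∀ z : ℂ, aeval z F = 0 → ∃ α : Fin b → ℂ, (∀ i, aeval (α i) f = 0) ∧ z = lam * ∏ i, α i := by
  classical
  have hcomm : ∀ x ∈ Set.range s, ∀ y ∈ Set.range s, x * y = y * x := by
    rintro _ ⟨i, rfl⟩ _ ⟨j, rfl⟩
    exact hs i j
  letI := Algebra.adjoinCommRingOfComm ℚ hcomm
  let s' : Fin b → Algebra.adjoin ℚ (Set.range s) := fun i =>
    ⟨s i, Algebra.subset_adjoin (Set.mem_range_self i)⟩
  have hs' : ∀ i, aeval (s' i) f = 0 := by
    intro i
    have h1 := Polynomial.aeval_algHom_apply (Algebra.adjoin ℚ (Set.range s)).val (s' i) f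
    rw [show (Algebra.adjoin ℚ (Set.range s)).val (s' i) = s i from rfl, hf i] at h1
    exact Subtype.ext h1.symm
  have hfin : Module.Finite ℚ (Algebra.adjoin ℚ (Set.range s)) := by
    have h1 := fg_adjoin_of_finite (R := ℚ) (s := Set.range s') (Set.finite_range s') (by
      rintro _ ⟨i, rfl⟩
      exact IsAlgebraic.isIntegral ⟨f, hf0, hs' i⟩)
    have h2 : Algebra.adjoin ℚ (Set.range s') = ⊤ := by
      rw [← Algebra.adjoin_adjoin_coe_preimage (R := ℚ) (s := Set.range s)]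
      congr 1
      ext x
      constructor
      · rintro ⟨i, rfl⟩
        exact ⟨i, rfl⟩
      · rintro ⟨i, hi⟩
        exact ⟨i, Subtype.ext hi⟩
    rw [h2] at h1
    exact ⟨h1⟩
  let r : Algebra.adjoin ℚ (Set.range s) :=
    algebraMap ℚ (Algebra.adjoin ℚ (Set.range s)) lam * ∏ i, s' i
  have hr : (Algebra.adjoin ℚ (Set.range s)).val r =
      algebraMap ℚ A lam * (List.ofFn s).prod := by
    simp only [r]
    rw [map_mul, ← List.prod_ofFn, map_list_prod, List.map_ofFn]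
    rfl
  refine ⟨(Algebra.lmul ℚ _ r).charpoly, (LinearMap.charpoly_monic _).ne_zero, ?_, ?_⟩
  · have h1 := LinearMap.aeval_self_charpoly (Algebra.lmul ℚ (Algebra.adjoin ℚ (Set.range s)) r)
    have h2 := Polynomial.aeval_algHom_apply
      (Algebra.lmul ℚ (Algebra.adjoin ℚ (Set.range s))) r (Algebra.lmul ℚ _ r).charpoly
    rw [h1] at h2
    have h3 : aeval r (Algebra.lmul ℚ (Algebra.adjoin ℚ (Set.range s)) r).charpoly = 0 := by
      have h4 := LinearMap.congr_fun h2.symm 1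
      change aeval r (Algebra.lmul ℚ _ r).charpoly * 1 = 0 at h4
      rwa [mul_one] at h4
    rw [← hr, Polynomial.aeval_algHom_apply, h3, map_zero]
  · intro z hz
    obtain ⟨φ, hφ⟩ := exists_hom r hz
    refine ⟨fun i => φ (s' i), fun i => ?_, ?_⟩
    · rw [Polynomial.aeval_algHom_apply, hs' i, map_zero]
    · rw [← hφ]
      simp only [r]
      rw [map_mul, map_prod, AlgHom.commutes]
      rfl

end Pool.Agent.Q70.MM
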