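import Mathlib
import Pool.Agent.Q70.MM.RootHom

/-!
# The representation on the multilinear forms
-/

set_option autoImplicit false
set_option linter.unusedSectionVars false

namespace Pool.Agent.Q70.MM

open Module Polynomial

section recip

/-- The reciprocal polynomial. -/
noncomputable def recip {R : Type*} [Semiring R] (f : R[X]) : R[X] :=
  ∑ i ∈ Finset.range (f.natDegree + 1), monomial (f.natDegree - i) (f.coeff i)

theorem aeval_recip {R A : Type*} [CommSemiring R] [Ring A] [Algebra R A] {a b : A}
    (h : b * a = 1) (f : R[X]) : aeval b (recip f) = b ^ f.natDegree * aeval a f := by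
  rw [recip, map_sum, aeval_eq_sum_range, Finset.mul_sum]
  refine Finset.sum_congr rfl fun i hi => ?_
  have hi' : i ≤ f.natDegree := Nat.lt_succ_iff.1 (Finset.mem_range.1 hi)
  have h1 : b ^ f.natDegree * a ^ i = b ^ (f.natDegree - i) := by
    rw [← Nat.sub_add_cancel hi', pow_add, mul_assoc, Nat.sub_add_cancel hi',
      pow_mul_pow_eq_one i h, mul_one]
  rw [aeval_monomial, mul_smul_comm, h1, Algebra.smul_def]

theorem recip_coeff_zero {R : Type*} [Semiring R] (f : R[X]) :
    (recip f).coeff 0 = f.leadingCoeff := by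
  rw [recip, finset_sum_coeff, Finset.sum_eq_single f.natDegree]
  · rw [Nat.sub_self, coeff_monomial_same]
    rfl
  · intro i hi hne
    rw [coeff_monomial, if_neg]
    have hi' : i ≤ f.natDegree := Nat.lt_succ_iff.1 (Finset.mem_range.1 hi)
    omega
  · intro h
    exact absurd (Finset.mem_range.2 (Nat.lt_succ_self _)) h

theorem recip_ne_zero {R : Type*} [Semiring R] {f : R[X]} (hf : f ≠ 0) : recip f ≠ 0 := by
  intro h
  have h1 := recip_coeff_zero f
  rw [h, coeff_zero] at h1
  exact hf (leadingCoeff_eq_zero.1 h1.symm)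

theorem recip_root {f : ℚ[X]} (hf : f ≠ 0) {z : ℂ} (hz : aeval z (recip f) = 0) :
    z ≠ 0 ∧ aeval z⁻¹ f = 0 := by
  have hz0 : z ≠ 0 := by
    rintro rfl
    rw [← coeff_zero_eq_aeval_zero', recip_coeff_zero] at hz
    exact hf (leadingCoeff_eq_zero.1 ((map_eq_zero _).1 hz))
  refine ⟨hz0, ?_⟩
  rw [aeval_recip (mul_inv_cancel₀ hz0)] at hz
  exact (mul_eq_zero.1 hz).resolve_left (pow_ne_zero _ hz0)

theorem recip_map {R S : Type*} [Field R] [Field S] (g : R →+* S) (f : R[X]) :
    (recip f).map g = recip (f.map g) := by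
  rw [recip, recip, Polynomial.map_sum, natDegree_map]
  refine Finset.sum_congr rfl fun i _ => ?_
  rw [map_monomial, coeff_map]

end recip

section op

variable {k : Type*} [Field k] {M : Type*} [AddCommGroup M] [Module k M] {b : ℕ}

/-- The operator `g` on the `i`-th variable. -/
noncomputable def opI (g : Module.End k M) (i : Fin b) :
    Module.End k (MultilinearMap k (fun _ : Fin b => M) k) where
  toFun φ := φ.compLinearMap (fun j => if j = i then g else LinearMap.id)
  map_add' φ ψ := rfl
  map_smul' c φ := rfl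

theorem opI_apply (g : Module.End k M) (i : Fin b)
    (φ : MultilinearMap k (fun _ : Fin b => M) k) (x : Fin b → M) :
    opI g i φ x = φ (Function.update x i (g (x i))) := by
  change φ (fun j => (if j = i then g else LinearMap.id) (x j)) = _
  congr 1
  funext j
  by_cases h : j = i
  · subst h
    rw [if_pos rfl, Function.update_self]
  · rw [if_neg h, Function.update_of_ne h]
    rfl

theorem opI_comm (g : Module.End k M) (i j : Fin b) : opI g i * opI g j = opI g j * opI g i := by
  by_cases h : i = j
  · rw [h]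
  · refine LinearMap.ext fun φ => MultilinearMap.ext fun x => ?_
    rw [Module.End.mul_apply, Module.End.mul_apply, opI_apply, opI_apply, opI_apply, opI_apply,
      Function.update_of_ne (Ne.symm h), Function.update_of_ne h, Function.update_comm h]

theorem opI_pow (g : Module.End k M) (i : Fin b) (n : ℕ)
    (φ : MultilinearMap k (fun _ : Fin b => M) k) (x : Fin b → M) :
    ((opI g i) ^ n) φ x = φ (Function.update x i ((g ^ n) (x i))) := by
  induction n generalizing φ x with
  | zero => rw [pow_zero, pow_zero, Module.End.one_apply, Module.End.one_apply,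
      Function.update_eq_self]
  | succ n ih =>
    rw [pow_succ, Module.End.mul_apply, ih, opI_apply, Function.update_self,
      Function.update_idem, pow_succ', Module.End.mul_apply]

theorem opI_aeval (g : Module.End k M) (i : Fin b) (q : k[X])
    (φ : MultilinearMap k (fun _ : Fin b => M) k) (x : Fin b → M) :
    (aeval (opI g i) q) φ x = φ (Function.update x i ((aeval g q) (x i))) := by
  induction q using Polynomial.induction_on' with
  | add p q hp hq =>
    rw [map_add, map_add, LinearMap.add_apply, LinearMap.add_apply, MultilinearMap.map_update_add,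
      ← hp, ← hq]
    rfl
  | monomial n c =>
    rw [aeval_monomial, aeval_monomial, ← Algebra.smul_def, ← Algebra.smul_def,
      LinearMap.smul_apply, LinearMap.smul_apply, MultilinearMap.map_update_smul, ← opI_pow]
    rfl

theorem opI_list (g : Module.End k M) (l : List (Fin b)) (hl : l.Nodup)
    (φ : MultilinearMap k (fun _ : Fin b => M) k) (x : Fin b → M) :
    ((l.map (opI g)).prod) φ x = φ (fun i => if i ∈ l then g (x i) else x i) := by
  induction l generalizing φ x with
  | nil => simp
  | cons a l ih =>
    rw [List.nodup_cons] at hl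
    rw [List.map_cons, List.prod_cons, Module.End.mul_apply, opI_apply, ih hl.2]
    congr 1
    funext i
    by_cases h : i = a
    · subst h
      rw [if_neg hl.1, Function.update_self, if_pos List.mem_cons_self]
    · have h1 : (i ∈ a :: l) ↔ (i ∈ l) := by
        rw [List.mem_cons]
        exact ⟨fun h2 => h2.resolve_left h, Or.inr⟩
      simp only [h1, Function.update_of_ne h]

theorem opI_prod (g : Module.End k M) (φ : MultilinearMap k (fun _ : Fin b => M) k)
    (x : Fin b → M) : ((List.ofFn fun i => opI g i).prod) φ x = φ (fun i => g (x i)) := by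
  rw [List.ofFn_eq_map, opI_list g _ (List.nodup_finRange b)]
  congr 1
  funext i
  rw [if_pos (List.mem_finRange i)]

end op

section rep

variable {k : Type*} [Field k] {M : Type*} [AddCommGroup M] [Module k M] {Γ : Type*} [Group Γ]

/-- The representation on the multilinear forms in `b` variables, twisted by the `c`-th power of the
character. -/
noncomputable def formRep (τ : Representation k Γ M) (χ : Γ →* k) (c : ℤ) (b : ℕ) :
    Representation k Γ (MultilinearMap k (fun _ : Fin b => M) k) where
  toFun s :=
    { toFun := fun φ => (χ s) ^ c • φ.compLinearMap (fun _ => τ s⁻¹)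
      map_add' := fun φ ψ => by
        rw [← smul_add]
        rfl
      map_smul' := fun r φ => by
        rw [RingHom.id_apply, smul_comm]
        rfl }
  map_one' := by
    refine LinearMap.ext fun φ => MultilinearMap.ext fun x => ?_
    change (χ 1) ^ c * φ (fun i => τ 1⁻¹ (x i)) = φ x
    rw [map_one, one_zpow, one_mul, inv_one, map_one]
    rfl
  map_mul' s t := by
    refine LinearMap.ext fun φ => MultilinearMap.ext fun x => ?_
    change (χ (s * t)) ^ c * φ (fun i => τ (s * t)⁻¹ (x i)) =
      (χ s) ^ c * ((χ t) ^ c * φ (fun i => τ t⁻¹ (τ s⁻¹ (x i))))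
    rw [map_mul, mul_zpow, mul_assoc, mul_inv_rev, map_mul]
    rfl

theorem formRep_apply (τ : Representation k Γ M) (χ : Γ →* k) (c : ℤ) (b : ℕ) (s : Γ)
    (φ : MultilinearMap k (fun _ : Fin b => M) k) (x : Fin b → M) :
    formRep τ χ c b s φ x = (χ s) ^ c * φ (fun i => τ s⁻¹ (x i)) := rfl

/-- The eigenvalues on the multilinear forms. -/
theorem formRep_killed [CharZero k] (τ : Representation k Γ M) (χ : Γ →* k) (γ : Γ) {f : ℚ[X]}
    (hf0 : f ≠ 0) (hfγ : aeval (τ γ) (f.map (algebraMap ℚ k)) = 0) {p a : ℕ}
    (hχ : χ γ = (p : k) ^ a) (c : ℤ) (b : ℕ) : ∃ F : ℚ[X], F ≠ 0 ∧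
      aeval (formRep τ χ c b γ) (F.map (algebraMap ℚ k)) = 0 ∧
      ∀ z : ℂ, aeval z F = 0 → ∃ α : Fin b → ℂ, (∀ i, α i ≠ 0 ∧ aeval (α i)⁻¹ f = 0) ∧
        z = (((p : ℚ) ^ a) ^ c : ℚ) * ∏ i, α i := by
  classical
  have h1 : aeval (τ γ⁻¹) ((recip f).map (algebraMap ℚ k)) = 0 := by
    have h2 : τ γ⁻¹ * τ γ = 1 := by rw [← map_mul, inv_mul_cancel, map_one]
    rw [recip_map, aeval_recip h2, hfγ, mul_zero]
  obtain ⟨F, hF0, hF, hroot⟩ := exists_poly (A := Module.End k (MultilinearMap k (fun _ : Fin b => M) k))
    (fun i => opI (τ γ⁻¹) i) (opI_comm (τ γ⁻¹)) (recip_ne_zero hf0) (fun i => by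
      rw [← aeval_map_algebraMap k]
      refine LinearMap.ext fun φ => MultilinearMap.ext fun x => ?_
      rw [opI_aeval, h1]
      exact φ.map_coord_zero i (by rw [Function.update_self]; rfl)) (((p : ℚ) ^ a) ^ c)
  refine ⟨F, hF0, ?_, fun z hz => ?_⟩
  · rw [aeval_map_algebraMap]
    have h3 : formRep τ χ c b γ = algebraMap ℚ (Module.End k (MultilinearMap k (fun _ : Fin b => M) k))
        (((p : ℚ) ^ a) ^ c) * (List.ofFn fun i => opI (τ γ⁻¹) i).prod := by
      refine LinearMap.ext fun φ => MultilinearMap.ext fun x => ?_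
      rw [formRep_apply, ← Algebra.smul_def, ← algebraMap_smul k, LinearMap.smul_apply,
        _root_.smul_apply, opI_prod, hχ, smul_eq_mul, map_zpow₀, map_pow, map_natCast]
    rw [h3]
    exact hF
  · obtain ⟨α, h3, h4⟩ := hroot z hz
    exact ⟨α, fun i => recip_root hf0 (h3 i), h4⟩

end rep

end Pool.Agent.Q70.MM
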