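import Mathlib
import Pool.Agent.H204R3.GP.MTDefs
import Pool.Agent.TH170.FT.MTDefs

/-!
# Motives and their sums with the `H_1` of abelian varieties: definitions

A motive is given by its Betti realization `W` (a rational vector space) with its Hodge structure, by
its `ℓ`-adic realization `V` with the action `ρ` of the Galois group `Γ`, and by the comparison map.
The Hodge structure is given by a real vector space `R` with a map `per : W → R` (the real vector space
generated by `W`) and by the operation `h z` on `R` of the complex numbers of absolute value one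
(multiplication by `z ^ (p - q)` on the part of type `(p, q)`). For an abelian variety
`W = H_1(A, ℚ)`, `R` is the tangent space and `h z` is the multiplication by `z`.
-/

set_option autoImplicit false

namespace Pool.Agent.Q70.MM

open Module Pool.Agent.H204R3.GP

section hodge

variable {W R : Type} [AddCommGroup W] [Module ℚ W] [AddCommGroup R] [Module ℝ R]

/-- A rational multilinear form on `W` in `b` variables is a *Hodge class* if it extends to a real
multilinear form on `R` which is invariant under the complex numbers of absolute value one. -/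
def IsHodgeForm (per : W →+ R) (h : ℂ → R →ₗ[ℝ] R) {b : ℕ}
    (ψ : MultilinearMap ℚ (fun _ : Fin b => W) ℚ) : Prop :=
  ∃ Ψ : MultilinearMap ℝ (fun _ : Fin b => R) ℝ, (∀ x : Fin b → W, Ψ (fun i => per (x i)) = ψ x) ∧
    ∀ z : ℂ, ‖z‖ = 1 → ∀ u : Fin b → R, Ψ (fun i => h z (u i)) = Ψ u

end hodge

section galois

variable {k V M Γ : Type} [Field k] [AddCommGroup V] [Module k V] [AddCommGroup M] [Module k M]
  [Group Γ]

/-- The multilinear form `φ` on `V` is a *Tate class*: a subgroup of finite index acts on it through
the `c`-th power of the cyclotomic character, `c` in `ℤ`. -/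
def IsTateForms (ρ : Representation k Γ V) (χ : Γ →* k) (c : ℤ) {b : ℕ}
    (φ : MultilinearMap k (fun _ : Fin b => V) k) : Prop :=
  ∃ Δ : Subgroup Γ, Δ.FiniteIndex ∧ ∀ s ∈ Δ, ∀ v : Fin b → V,
    φ (fun i => ρ s (v i)) = (χ s) ^ c * φ v

/-- The direct sum of two representations. -/
def sumRep (ρ : Representation k Γ V) (τ : Representation k Γ M) :
    Representation k Γ (V × M) where
  toFun s := (ρ s).prodMap (τ s)
  map_one' := by
    rw [map_one, map_one]
    rfl
  map_mul' s t := by
    rw [map_mul, map_mul]
    rfl

end galois

/-- The **Mumford-Tate conjecture for a motive** (in terms of invariants): all Tate classes in the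
spaces of multilinear forms in `b` variables on `V`, for all twists `c`, are linear combinations of
Hodge classes. -/
def MumfordTateFor {k V Γ W R : Type} [Field k] [CharZero k] [AddCommGroup V] [Module k V]
    [Group Γ] [AddCommGroup W] [Module ℚ W] [AddCommGroup R] [Module ℝ R] (per : W →+ R)
    (h : ℂ → R →ₗ[ℝ] R) (comp : W →+ V) (ρ : Representation k Γ V) (χ : Γ →* k) : Prop :=
  ∀ (b : ℕ) (c : ℤ) (φ : MultilinearMap k (fun _ : Fin b => V) k), IsTateForms ρ χ c φ →
    φ ∈ Submodule.span k {φ' : MultilinearMap k (fun _ : Fin b => V) k |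
      ∃ ψ : MultilinearMap ℚ (fun _ : Fin b => W) ℚ, IsHodgeForm per h ψ ∧ Compares comp φ' ψ}

/-- The multiplication by `z` on the tangent space. -/
def mulBy {T : Type} [AddCommGroup T] [Module ℂ T] (z : ℂ) : T →ₗ[ℝ] T :=
  (z • (LinearMap.id : T →ₗ[ℂ] T)).restrictScalars ℝ

/-- The Hodge structure on the direct sum of `H_1(A)` and of a motive. -/
def sumHodge {T R : Type} [AddCommGroup T] [Module ℂ T] [AddCommGroup R] [Module ℝ R]
    (h : ℂ → R →ₗ[ℝ] R) (z : ℂ) : T × R →ₗ[ℝ] T × R := (mulBy z).prodMap (h z)

end Pool.Agent.Q70.MM
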