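import Mathlib
import Pool.Agent.Y137.MV.Comp
import Pool.Agent.Y137.MV.Final
import Pool.Agent.H204R3.GP.MT
import Pool.Agent.Q306.TP.Forces
import Pool.Agent.Q70.MM.FormRep
import Pool.Agent.Q70.MM.MotDefs

/-!
# The Mumford-Tate conjecture for the direct sums of motives with `H_1` of abelian varieties
-/

set_option autoImplicit false
set_option linter.unusedSectionVars false

namespace Pool.Agent.Q70.MM

open NumberField Module TensorProduct IntermediateField
open Pool.Agent.H204R3.CM Pool.Agent.H204R3.SP Pool.Agent.H204R3.GP Pool.Agent.Y137.MV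
  Pool.Agent.TH170 Pool.Agent.Q306.TP Pool.Agent.Y1.CT

noncomputable section

section final

variable {k : Type*} [Field k] {V : Type*} [AddCommGroup V] [Module k V]
  [CharZero k] {Γ : Type*} [Group Γ] (ρ : Representation k Γ V) (χ : Γ →* k)

theorem pt_tate {m : ℕ} {g : MultilinearMap k (fun _ : Fin m × Fin 2 => V) k}
    (hg : g ∈ PT ρ χ m) : ∃ Δ : Subgroup Γ, Δ.FiniteIndex ∧ ∀ s ∈ Δ,
      ∀ v : Fin m × Fin 2 → V, g (fun l => ρ s (v l)) = χ s ^ m * g v := by
  obtain ⟨σ, B, hB, rfl⟩ := hg
  choose Δ hΔ hB using hB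
  refine ⟨⨅ l, Δ l, Subgroup.finiteIndex_iInf hΔ, fun s hs v => ?_⟩
  rw [mmG_apply, mmG_apply, Finset.prod_congr rfl fun l _ => hB l s (Subgroup.mem_iInf.1 hs l) _ _,
    Finset.prod_mul_distrib, Finset.prod_const, Finset.card_univ, Fintype.card_fin]

variable {M : Type*} [AddCommGroup M] [Module k M] [FiniteDimensional k M]
  (τ : Representation k Γ M)

/-- An equivariant multilinear map all of whose scalar components are combinations of products of
Tate forms is a combination of products. -/
theorem final_multi [FiniteDimensional k V] {m : ℕ}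
    (f : MultilinearMap k (fun _ : Fin m × Fin 2 => V) M) (hf : IsEqv ρ τ f)
    (hc : ∀ l : M →ₗ[k] k, l.compMultilinearMap f ∈ Submodule.span k (PT ρ χ m)) :
    f ∈ Submodule.span k {g : MultilinearMap k (fun _ : Fin m × Fin 2 => V) M |
      ∃ h ∈ PT ρ χ m, ∃ w : M, (∃ Δ : Subgroup Γ, Δ.FiniteIndex ∧ ∀ s ∈ Δ, τ s w = χ s ^ m • w) ∧
        g = h.smulRight w} := by
  classical
  obtain ⟨S, hS1, hS2, hS3⟩ := exists_linearIndependent k (PT ρ χ (V := V) m)
  have hfin : Finite S := hS3.finite
  have _ : Fintype S := Fintype.ofFinite S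
  let BS : Basis S k (Submodule.span k (Set.range ((↑) : S →
      MultilinearMap k (fun _ : Fin m × Fin 2 => V) k))) := Basis.span hS3
  have hrange : Submodule.span k (Set.range ((↑) : S →
      MultilinearMap k (fun _ : Fin m × Fin 2 => V) k)) = Submodule.span k (PT ρ χ m) := by
    rw [Subtype.range_coe, hS2]
  let T : Dual k M →ₗ[k] (Submodule.span k (Set.range ((↑) : S →
      MultilinearMap k (fun _ : Fin m × Fin 2 => V) k))) :=
    { toFun := fun l => ⟨l.compMultilinearMap f, by rw [hrange]; exact hc l⟩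
      map_add' := fun l l' => Subtype.ext (MultilinearMap.ext fun v => rfl)
      map_smul' := fun c l => Subtype.ext (MultilinearMap.ext fun v => rfl) }
  let w : S → M := fun g => (Module.evalEquiv k M).symm ((BS.coord g).comp T)
  have hw : ∀ g (l : Dual k M), l (w g) = BS.coord g (T l) := by
    intro g l
    have h1 := Module.apply_evalEquiv_symm_apply k M l ((BS.coord g).comp T)
    exact h1
  have hfw : ∀ v, f v = ∑ g : S, (g : MultilinearMap k (fun _ : Fin m × Fin 2 => V) k) v • w g := by
    intro v
    rw [← sub_eq_zero, ← Module.forall_dual_apply_eq_zero_iff k]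
    intro l
    rw [map_sub, map_sum, sub_eq_zero]
    have h1 : l (f v) = ((T l : Submodule.span k (Set.range ((↑) : S →
        MultilinearMap k (fun _ : Fin m × Fin 2 => V) k))) :
        MultilinearMap k (fun _ : Fin m × Fin 2 => V) k) v := rfl
    rw [h1]
    conv_lhs => rw [← BS.sum_repr (T l)]
    have h2 : ∀ g : S, ((BS g : Submodule.span k (Set.range ((↑) : S →
        MultilinearMap k (fun _ : Fin m × Fin 2 => V) k))) :
        MultilinearMap k (fun _ : Fin m × Fin 2 => V) k) =
        (g : MultilinearMap k (fun _ : Fin m × Fin 2 => V) k) := by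
      intro g
      exact congrArg Subtype.val (Basis.span_apply hS3 g)
    rw [Submodule.coe_sum]
    have h3 : ∀ G : S → MultilinearMap k (fun _ : Fin m × Fin 2 => V) k,
        (∑ g, G g) v = ∑ g, G g v := by
      intro G
      exact map_sum ({ toFun := fun F => F v
                       map_zero' := rfl
                       map_add' := fun _ _ => rfl } :
        (MultilinearMap k (fun _ : Fin m × Fin 2 => V) k) →+ k) G Finset.univ
    rw [h3]
    refine Finset.sum_congr rfl fun g _ => ?_
    rw [Submodule.coe_smul, h2, map_smul, hw, smul_eq_mul, mul_comm]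
    rfl
  -- the vectors are eigenvectors
  obtain ⟨Δ0, hΔ0, hf⟩ := hf
  choose Δ hΔ hg using fun g : S => pt_tate ρ χ (hS1 g.2)
  have hD : (Δ0 ⊓ ⨅ g, Δ g).FiniteIndex := by
    have h1 := Subgroup.finiteIndex_iInf hΔ
    infer_instance
  have hwΔ : ∀ s ∈ Δ0 ⊓ ⨅ g, Δ g, ∀ g, τ s (w g) = χ s ^ m • w g := by
    intro s hs g
    rw [Subgroup.mem_inf] at hs
    rw [← sub_eq_zero, ← Module.forall_dual_apply_eq_zero_iff k]
    intro l
    have h1 : ∑ g : S, (l (τ s (w g) - χ s ^ m • w g)) •
        (g : MultilinearMap k (fun _ : Fin m × Fin 2 => V) k) = 0 := by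
      ext v
      have h2 := hf s hs.1 v
      rw [hfw, hfw, map_sum] at h2
      have h3 : ∀ g : S, (g : MultilinearMap k (fun _ : Fin m × Fin 2 => V) k)
          (fun l => ρ s (v l)) =
          χ s ^ m * (g : MultilinearMap k (fun _ : Fin m × Fin 2 => V) k) v :=
        fun g => hg g s (Subgroup.mem_iInf.1 hs.2 g) v
      simp only [h3, map_smul] at h2
      have h4 := congrArg l h2
      rw [map_sum, map_sum] at h4
      have h5 : ∀ G : S → MultilinearMap k (fun _ : Fin m × Fin 2 => V) k,
          (∑ g, G g) v = ∑ g, G g v := by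
        intro G
        exact map_sum ({ toFun := fun F => F v
                         map_zero' := rfl
                         map_add' := fun _ _ => rfl } :
          (MultilinearMap k (fun _ : Fin m × Fin 2 => V) k) →+ k) G Finset.univ
      rw [h5]
      change ∑ g : S, (l (τ s (w g) - χ s ^ m • w g)) *
        (g : MultilinearMap k (fun _ : Fin m × Fin 2 => V) k) v = 0
      have h6 : ∀ g : S, (l (τ s (w g) - χ s ^ m • w g)) *
          (g : MultilinearMap k (fun _ : Fin m × Fin 2 => V) k) v =
          l ((g : MultilinearMap k (fun _ : Fin m × Fin 2 => V) k) v • τ s (w g)) -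
          l ((χ s ^ m * (g : MultilinearMap k (fun _ : Fin m × Fin 2 => V) k) v) • w g) := by
        intro g
        rw [map_sub, map_smul, map_smul, map_smul, smul_eq_mul, smul_eq_mul, smul_eq_mul]
        ring
      rw [Finset.sum_congr rfl (fun g _ => h6 g), Finset.sum_sub_distrib, h4, sub_self]
    exact (Fintype.linearIndependent_iff.1 hS3) _ h1 g
  have hfin2 : f = ∑ g : S, (g : MultilinearMap k (fun _ : Fin m × Fin 2 => V) k).smulRight
      (w g) := by
    ext v
    rw [hfw]
    exact (map_sum ({ toFun := fun F => F v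
                      map_zero' := rfl
                      map_add' := fun _ _ => rfl } :
      (MultilinearMap k (fun _ : Fin m × Fin 2 => V) M) →+ M)
        (fun g : S => (g : MultilinearMap k (fun _ : Fin m × Fin 2 => V) k).smulRight (w g))
        Finset.univ).symm
  rw [hfin2]
  exact Submodule.sum_mem _ fun g _ => Submodule.subset_span
    ⟨g, hS1 g.2, w g, ⟨_, hD, fun s hs => hwΔ s hs g⟩, rfl⟩

end final

section products

theorem unrelatedTo_inv {K : Type} [Field K] {y : ℂ} (h : UnrelatedTo K y) :
    UnrelatedTo K y⁻¹ := by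
  intro n hn hinv
  refine h n hn fun τ hτ => hinv τ ?_
  obtain ⟨m, hm, h1⟩ := hτ
  exact ⟨m, hm, by rw [inv_pow, map_inv₀, h1]⟩

theorem unrelatedTo_rat {K : Type} [Field K] (r : ℚ) : UnrelatedTo K (r : ℂ) := by
  intro n hn hinv
  funext φ
  have h1 := hinv (starRingAut (R := ℂ)) ⟨1, one_pos, by
    rw [pow_one]
    exact map_ratCast _ r⟩ φ
  have h2 : ((starRingAut (R := ℂ) : ℂ ≃+* ℂ) : ℂ →+* ℂ).comp φ =
      ComplexEmbedding.conjugate φ := rfl
  rw [h2, hn] at h1
  have h3 : n φ = 0 := by linarith
  exact h3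

variable {I : Type} {K : I → Type} [∀ i, Field (K i)]

theorem isProduct_rat (r : ℚ) : IsProductOfUnrelated K (r : ℂ) :=
  ⟨1, fun _ => r, fun _ => ⟨isAlgebraic_algebraMap r, fun _ => unrelatedTo_rat r⟩, by simp⟩

theorem isProduct_inv {α : ℂ} (h : IsProductOfUnrelated K α) : IsProductOfUnrelated K α⁻¹ := by
  obtain ⟨t, y, hy, rfl⟩ := h
  exact ⟨t, fun l => (y l)⁻¹, fun l => ⟨(hy l).1.inv, fun i => unrelatedTo_inv ((hy l).2 i)⟩,
    by rw [Finset.prod_inv_distrib]⟩

theorem isProduct_mul {α β : ℂ} (h : IsProductOfUnrelated K α) (h' : IsProductOfUnrelated K β) :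
    IsProductOfUnrelated K (α * β) := by
  obtain ⟨t, y, hy, rfl⟩ := h
  obtain ⟨t', y', hy', rfl⟩ := h'
  refine ⟨t + t', Fin.append y y', fun l => ?_, ?_⟩
  · refine Fin.addCases (fun i => ?_) (fun i => ?_) l
    · rw [Fin.append_left]
      exact hy i
    · rw [Fin.append_right]
      exact hy' i
  · rw [Fin.prod_univ_add]
    simp only [Fin.append_left, Fin.append_right]

theorem isProduct_prod {b : ℕ} {α : Fin b → ℂ} (h : ∀ i, IsProductOfUnrelated K (α i)) :
    IsProductOfUnrelated K (∏ i, α i) := by
  classical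
  induction b with
  | zero =>
    rw [Fin.prod_univ_zero]
    have := isProduct_rat (K := K) 1
    rwa [Rat.cast_one] at this
  | succ b ih =>
    rw [Fin.prod_univ_succ]
    exact isProduct_mul (h 0) (ih fun i => h i.succ)

end products

end

end Pool.Agent.Q70.MM
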