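import Mathlib
import Pool.Agent.Q70.MM.MotMain

/-!
# The Mumford-Tate conjecture for the direct sums of motives with `H_1` of abelian varieties
-/

set_option autoImplicit false
set_option linter.unusedSectionVars false

namespace Pool.Agent.Q70.MM

open NumberField Module TensorProduct IntermediateField
open Pool.Agent.H204R3.CM Pool.Agent.H204R3.SP Pool.Agent.H204R3.GP Pool.Agent.Y137.MV
  Pool.Agent.TH170 Pool.Agent.Q306.TP Pool.Agent.Y1.CT

noncomputable section

section split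

variable {p : ℕ} [Fact p.Prime] {a : ℕ} {ι : Type} [Fintype ι] {F : ι → Type}
  [∀ i, Field (F i)] [∀ i, NumberField (F i)] [∀ i, IsCMField (F i)] {π : ∀ i, F i}
  (hgen : ∀ i, ℚ⟮π i⟯ = ⊤)
  (hw : ∀ i, π i * IsCMField.complexConj (F i) (π i) = (p : F i) ^ a)
  (hang : MaximalAngleRank (p ^ a) π)
  {k : Type} [Field k] [CharZero k] {V : Type} [AddCommGroup V] [Module k V]
  [FiniteDimensional k V] {M : Type} [AddCommGroup M] [Module k M] [FiniteDimensional k M]
  {Γ : Type} [Group Γ] (ρ : Representation k Γ V) (τ : Representation k Γ M) (χ : Γ →* k)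
  (ω : V →ₗ[k] V →ₗ[k] k) (halt : ∀ v, ω v v = 0) (hnd : ∀ u, (∀ v, ω v u = 0) → u = 0)
  (hωρ : ∀ s u v, ω (ρ s u) (ρ s v) = χ s * ω u v)
  (hss : ∀ Δ : Subgroup Γ, Δ.FiniteIndex → SemiUnder (ρ '' (Δ : Set Γ)))
  (γ : Γ) (hχ : χ γ = (p : k) ^ a)
  (hγ : (ρ γ).charpoly = ∏ i, (minpoly ℚ (π i)).map (algebraMap ℚ k))
  {f : Polynomial ℚ} (hf0 : f ≠ 0)
  (hfγ : Polynomial.aeval (τ γ) (f.map (algebraMap ℚ k)) = 0)
  (hf : ∀ α : ℂ, Polynomial.aeval α f = 0 → IsProductOfUnrelated F α)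

include hgen hw hang halt hnd hωρ hss hχ hγ hf0 hfγ hf in
/-- Equivariant multilinear maps. -/
theorem eqv_split : (∀ (m : ℕ) (φ : MultilinearMap k (fun _ : Fin m × Fin 2 => V) M),
      IsEqv ρ τ φ → φ ∈ Submodule.span k
        {g : MultilinearMap k (fun _ : Fin m × Fin 2 => V) M | ∃ h ∈ PT ρ χ m, ∃ w : M,
          (∃ Δ : Subgroup Γ, Δ.FiniteIndex ∧ ∀ s ∈ Δ, τ s w = χ s ^ m • w) ∧
          g = h.smulRight w}) ∧
    ∀ (m : ℕ) (φ : MultilinearMap k (fun _ : Fin (2 * m + 1) => V) M), IsEqv ρ τ φ → φ = 0 := by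
  classical
  have hp0 : p ^ a ≠ 0 := pow_ne_zero a (Fact.out : p.Prime).ne_zero
  have hw' : ∀ i, π i * IsCMField.complexConj (F i) (π i) = ((p ^ a : ℕ) : F i) := fun i => by
    rw [hw]; push_cast; rfl
  obtain ⟨L, hLa, hLb, j, h, hroots⟩ := exists_galois_roots F f hf0
  have hneat : Neat p a π L := neat_of_angle j hang
  have hun : ∀ β : L, Polynomial.aeval β f = 0 → ∀ i, Forces π β i := by
    intro β hβ i
    have hα : Polynomial.aeval (j β) f = 0 := by
      have h1 := Polynomial.aeval_algHom_apply (RingHom.equivRatAlgHom L ℂ j) β f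
      rw [hβ, map_zero] at h1
      exact h1
    exact forces_prod hp0 hw' j h hang β (hf (j β) hα) i
  constructor
  · intro m φ hφ
    exact final_multi ρ χ τ φ hφ fun l => comp_mem (L := L) ρ χ τ hgen hw j h hneat ω halt hnd hωρ
      hss γ hχ hγ hun hroots hfγ hφ l
  · intro m φ hφ
    exact odd_zero (L := L) ρ χ τ hgen hw j h hneat ω halt hnd hωρ γ hχ hγ hun hroots
      hfγ (κ := Fin (2 * m + 1)) (by
        rw [Fintype.card_fin]
        exact ⟨m, rfl⟩) hφ

variable {W T : Type} [AddCommGroup W] [Module ℚ W] [AddCommGroup T] [Module ℂ T]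
  {MB R : Type} [AddCommGroup MB] [Module ℚ MB] [AddCommGroup R] [Module ℝ R]

/-- The mixed forms which are Hodge classes. -/
def HM (per : W →+ T) (perN : MB →+ R) (h : ℂ → R →ₗ[ℝ] R) (comp : W →+ V) (compN : MB →+ M)
    (κ : Type) (l : ℕ) :
    Set (MultilinearMap k (fun _ : κ => V) (MultilinearMap k (fun _ : Fin l => M) k)) :=
  {Φ | ∃ (ψ : MultilinearMap ℚ (fun _ : κ => W) (MultilinearMap ℚ (fun _ : Fin l => MB) ℚ))
      (Ψ : MultilinearMap ℝ (fun _ : κ => T) (MultilinearMap ℝ (fun _ : Fin l => R) ℝ)),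
      (∀ v x, Ψ (fun i => per (v i)) (fun i => perN (x i)) = ψ v x) ∧
      (∀ z : ℂ, ‖z‖ = 1 → ∀ u y, Ψ (fun i => z • u i) (fun i => h z (y i)) = Ψ u y) ∧
      ∀ v x, Φ (fun i => comp (v i)) (fun i => compN (x i)) = ((ψ v x : ℚ) : k)}

/-- The mixed Tate classes. -/
def IsTateMixed (c : ℤ) {κ : Type} {l : ℕ}
    (Φ : MultilinearMap k (fun _ : κ => V) (MultilinearMap k (fun _ : Fin l => M) k)) : Prop :=
  ∃ Δ : Subgroup Γ, Δ.FiniteIndex ∧ ∀ s ∈ Δ, ∀ v x,
    Φ (fun i => ρ s (v i)) (fun i => τ s (x i)) = (χ s) ^ c * Φ v x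

variable (per : W →+ T) (comp : W →+ V) (perN : MB →+ R) (h : ℂ → R →ₗ[ℝ] R) (compN : MB →+ M)
  (ω₀ : W →ₗ[ℚ] W →ₗ[ℚ] ℚ) (hω₀ : IsHodgeBilinear per ω₀)
  (hωω : ∀ x y, ω (comp x) (comp y) = ((ω₀ x y : ℚ) : k)) (hF : FaltingsEnd per comp ρ)
  (hN : MumfordTateFor perN h compN τ χ)

include hgen hw hang halt hnd hωρ hss hχ hγ hf0 hfγ hf hω₀ hωω hF hN in
/-- The mixed Tate classes are combinations of Hodge classes. -/
theorem mixed_mem (c : ℤ) {j l : ℕ}
    (Φ : MultilinearMap k (fun _ : Fin j => V) (MultilinearMap k (fun _ : Fin l => M) k))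
    (hΦ : IsTateMixed ρ τ χ c Φ) :
    Φ ∈ Submodule.span k (HM (k := k) per perN h comp compN (Fin j) l) := by
  classical
  have hχ0 : ∀ s, χ s ≠ 0 := by
    intro s h0
    have h1 : χ s * χ s⁻¹ = 1 := by rw [← map_mul, mul_inv_cancel, map_one]
    rw [h0, zero_mul] at h1
    exact zero_ne_one h1
  have hanti : ∀ u v, ω u v = - ω v u := by
    intro u v
    have h1 := halt (u + v)
    simp only [map_add, LinearMap.add_apply, halt, zero_add, add_zero] at h1
    linear_combination h1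
  have hnd' : ∀ u, (∀ v, ω u v = 0) → u = 0 := by
    intro u hu
    apply hnd
    intro v
    rw [hanti, hu, neg_zero]
  -- the polynomial
  obtain ⟨P, hP0, hP, hroot⟩ := formRep_killed τ χ γ hf0 hfγ hχ c l
  have hPr : ∀ α : ℂ, Polynomial.aeval α P = 0 → IsProductOfUnrelated F α := by
    intro z hz
    obtain ⟨α, hα, rfl⟩ := hroot z hz
    refine isProduct_mul (isProduct_rat _) (isProduct_prod fun i => ?_)
    have h1 := isProduct_inv (hf _ (hα i).2)
    rwa [inv_inv] at h1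
  obtain ⟨hs1, hs2⟩ := eqv_split hgen hw hang ρ (formRep τ χ c l) χ ω halt hnd hωρ hss γ hχ hγ
    hP0 hP hPr
  have hEqv : ∀ {κ : Type} (Φ : MultilinearMap k (fun _ : κ => V)
      (MultilinearMap k (fun _ : Fin l => M) k)), IsTateMixed ρ τ χ c Φ →
      IsEqv ρ (formRep τ χ c l) Φ := by
    rintro κ Φ ⟨Δ, hΔ, hΦ⟩
    refine ⟨Δ, hΔ, fun s hs v => MultilinearMap.ext fun x => ?_⟩
    have h1 := hΦ s hs v (fun i => τ s⁻¹ (x i))
    have h2 : ∀ y : M, τ s (τ s⁻¹ y) = y := by
      intro y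
      change (τ s * τ s⁻¹) y = y
      rw [← map_mul, mul_inv_cancel, map_one]
      rfl
    simp only [h2] at h1
    rw [formRep_apply]
    exact h1
  rcases Nat.even_or_odd' j with ⟨m, rfl | rfl⟩
  · let e : Fin m × Fin 2 ≃ Fin (2 * m) := finProdFinEquiv.trans (finCongr (mul_comm m 2))
    have h1 := hs1 m (Φ.domDomCongr e.symm) (hEqv _ (by
      obtain ⟨Δ, hΔ, hΦ⟩ := hΦ
      exact ⟨Δ, hΔ, fun s hs v x => hΦ s hs (fun i => v (e.symm i)) x⟩))
    have h2 : Φ.domDomCongr e.symm ∈ Submodule.span k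
        (HM (k := k) per perN h comp compN (Fin m × Fin 2) l) := by
      refine Submodule.span_le.2 ?_ h1
      rintro _ ⟨h', ⟨σ, B, hB, rfl⟩, w, ⟨Δ, hΔ, hw⟩, rfl⟩
      have h3 := mmG_mem_span σ (HB (k := k) per comp) B
        (fun l => tate2_mem per comp ρ χ ω hnd' hωρ ω₀ hω₀ hωω hF (B l) (hB l))
      have h4 : w ∈ Submodule.span k {φ' : MultilinearMap k (fun _ : Fin l => M) k |
          ∃ ψ : MultilinearMap ℚ (fun _ : Fin l => MB) ℚ, IsHodgeForm perN h ψ ∧
            Compares compN φ' ψ} := by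
        refine hN l (c - m) w ⟨Δ, hΔ, fun s hs x => ?_⟩
        have h5 := congrArg (fun g : MultilinearMap k (fun _ : Fin l => M) k =>
          g (fun i => τ s (x i))) (hw s hs)
        have h6 : ∀ y : M, τ s⁻¹ (τ s y) = y := by
          intro y
          change (τ s⁻¹ * τ s) y = y
          rw [← map_mul, inv_mul_cancel, map_one]
          rfl
        simp only [formRep_apply, h6] at h5
        change (χ s) ^ c * w x = χ s ^ m * w (fun i => τ s (x i)) at h5
        rw [zpow_sub₀ (hχ0 s), zpow_natCast, div_mul_eq_mul_div, h5,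
          mul_div_cancel_left₀ _ (pow_ne_zero m (hχ0 s))]
      let bl : MultilinearMap k (fun _ : Fin m × Fin 2 => V) k →ₗ[k]
          MultilinearMap k (fun _ : Fin l => M) k →ₗ[k]
          MultilinearMap k (fun _ : Fin m × Fin 2 => V) (MultilinearMap k (fun _ : Fin l => M) k) :=
        LinearMap.mk₂ k (fun g w => g.smulRight w)
          (fun g g' w => MultilinearMap.ext fun v => add_smul (g v) (g' v) w)
          (fun r g w => MultilinearMap.ext fun v => smul_assoc r (g v) w)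
          (fun g w w' => MultilinearMap.ext fun v => smul_add (g v) w w')
          (fun r g w => MultilinearMap.ext fun v => smul_comm (g v) r w)
      have h5 := Submodule.apply_mem_map₂ bl h3 h4
      rw [Submodule.map₂_span_span] at h5
      refine Submodule.span_mono ?_ h5
      rintro _ ⟨_, ⟨B', hB', rfl⟩, w', ⟨ψ', ⟨Ψ', hΨ1, hΨ2⟩, hψ'⟩, rfl⟩
      obtain ⟨ψ, ⟨Ψ, hΨ3, hΨ4⟩, -, hψ⟩ := mm_good per comp σ B' hB'
      refine ⟨ψ.smulRight ψ', Ψ.smulRight Ψ', fun v x => ?_, fun z hz u y => ?_, fun v x => ?_⟩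
      · change Ψ (fun i => per (v i)) * Ψ' (fun i => perN (x i)) = ((ψ v * ψ' x : ℚ) : ℝ)
        rw [hΨ3, hΨ1]
        push_cast
        rfl
      · change Ψ (fun i => z • u i) * Ψ' (fun i => h z (y i)) = Ψ u * Ψ' y
        rw [hΨ4 z hz, hΨ2 z hz]
      · change mmG σ B' (fun i => comp (v i)) * w' (fun i => compN (x i)) =
          ((ψ v * ψ' x : ℚ) : k)
        rw [hψ v, hψ' x]
        push_cast
        rfl
    -- back to `Fin (2 * m)`
    let D : MultilinearMap k (fun _ : Fin m × Fin 2 => V)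
        (MultilinearMap k (fun _ : Fin l => M) k) →ₗ[k]
        MultilinearMap k (fun _ : Fin (2 * m) => V) (MultilinearMap k (fun _ : Fin l => M) k) :=
      { toFun := fun Φ => Φ.domDomCongr e
        map_add' := fun _ _ => rfl
        map_smul' := fun _ _ => rfl }
    have h3 : D (Φ.domDomCongr e.symm) = Φ := by
      refine MultilinearMap.ext fun v => ?_
      change Φ (fun i => v (e (e.symm i))) = Φ v
      congr 1
      funext i
      rw [e.apply_symm_apply]
    rw [← h3]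
    have h4 := Submodule.mem_map_of_mem (f := D) h2
    rw [Submodule.map_span] at h4
    refine Submodule.span_mono ?_ h4
    rintro _ ⟨Φ', ⟨ψ, Ψ, g1, g2, g3⟩, rfl⟩
    exact ⟨ψ.domDomCongr e, Ψ.domDomCongr e, fun v x => g1 (fun i => v (e i)) x,
      fun z hz u y => g2 z hz (fun i => u (e i)) y, fun v x => g3 (fun i => v (e i)) x⟩
  · rw [hs2 m Φ (hEqv Φ hΦ)]
    exact Submodule.zero_mem _

end split

section back

/-- A mixed form as a form on the direct sum. -/
def back (K : Type*) [Field K] {V M : Type*} [AddCommGroup V] [Module K V] [AddCommGroup M]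
    [Module K M] {b j l : ℕ} {s : Finset (Fin b)} (hj : s.card = j) (hl : sᶜ.card = l) :
    MultilinearMap K (fun _ : Fin j => V) (MultilinearMap K (fun _ : Fin l => M) K) →ₗ[K]
      MultilinearMap K (fun _ : Fin b => V × M) K where
  toFun Φ := (MultilinearMap.curryFinFinset K K (V × M) hj hl).symm
    (((MultilinearMap.compLinearMapₗ (fun _ : Fin l => LinearMap.snd K V M)).compMultilinearMap
      Φ).compLinearMap (fun _ => LinearMap.fst K V M))
  map_add' Φ Ψ := rfl
  map_smul' c Φ := rfl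

theorem back_apply (K : Type*) [Field K] {V M : Type*} [AddCommGroup V] [Module K V]
    [AddCommGroup M] [Module K M] {b j l : ℕ} {s : Finset (Fin b)} (hj : s.card = j)
    (hl : sᶜ.card = l)
    (Φ : MultilinearMap K (fun _ : Fin j => V) (MultilinearMap K (fun _ : Fin l => M) K))
    (w : Fin b → V × M) : back K hj hl Φ w =
      Φ (fun i => (w (finSumEquivOfFinset hj hl (Sum.inl i))).1)
        (fun i => (w (finSumEquivOfFinset hj hl (Sum.inr i))).2) := rfl

/-- The mixed component of a form on the direct sum. -/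
def mixed (K : Type*) [Field K] {V M : Type*} [AddCommGroup V] [Module K V] [AddCommGroup M]
    [Module K M] {b j l : ℕ} {s : Finset (Fin b)} (hj : s.card = j) (hl : sᶜ.card = l)
    (φ : MultilinearMap K (fun _ : Fin b => V × M) K) :
    MultilinearMap K (fun _ : Fin j => V) (MultilinearMap K (fun _ : Fin l => M) K) :=
  ((MultilinearMap.compLinearMapₗ (fun _ : Fin l => LinearMap.inr K V M)).compMultilinearMap
    (MultilinearMap.curryFinFinset K K (V × M) hj hl φ)).compLinearMap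
      (fun _ => LinearMap.inl K V M)

theorem mixed_apply (K : Type*) [Field K] {V M : Type*} [AddCommGroup V] [Module K V]
    [AddCommGroup M] [Module K M] {b j l : ℕ} {s : Finset (Fin b)} (hj : s.card = j)
    (hl : sᶜ.card = l) (φ : MultilinearMap K (fun _ : Fin b => V × M) K) (v : Fin j → V)
    (x : Fin l → M) : mixed K hj hl φ v x =
      φ (fun i => Sum.elim (fun i => (v i, 0)) (fun i => (0, x i))
        ((finSumEquivOfFinset hj hl).symm i)) := rfl

theorem back_mixed (K : Type*) [Field K] {V M : Type*} [AddCommGroup V] [Module K V]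
    [AddCommGroup M] [Module K M] {b j l : ℕ} {s : Finset (Fin b)} (hj : s.card = j)
    (hl : sᶜ.card = l) (φ : MultilinearMap K (fun _ : Fin b => V × M) K) (w : Fin b → V × M) :
    back K hj hl (mixed K hj hl φ) w =
      φ (s.piecewise (fun i => ((w i).1, 0)) (fun i => (0, (w i).2))) := by
  rw [back_apply, mixed_apply]
  congr 1
  funext i
  obtain ⟨y, rfl⟩ := (finSumEquivOfFinset hj hl).surjective i
  rw [Equiv.symm_apply_apply]
  rcases y with y | y
  · rw [Finset.piecewise_eq_of_mem]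
    · rfl
    · rw [finSumEquivOfFinset_inl]
      exact Finset.orderEmbOfFin_mem _ _ _
  · rw [Finset.piecewise_eq_of_notMem]
    · rfl
    · rw [finSumEquivOfFinset_inr]
      exact Finset.mem_compl.1 (Finset.orderEmbOfFin_mem _ _ _)

theorem sum_mixed (K : Type*) [Field K] {V M : Type*} [AddCommGroup V] [Module K V]
    [AddCommGroup M] [Module K M] {b : ℕ} (φ : MultilinearMap K (fun _ : Fin b => V × M) K) :
    φ = ∑ s : Finset (Fin b), back K (s := s) rfl rfl (mixed K rfl rfl φ) := by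
  refine MultilinearMap.ext fun w => ?_
  have h1 : ∀ G : Finset (Fin b) → MultilinearMap K (fun _ : Fin b => V × M) K,
      (∑ s, G s) w = ∑ s, G s w := by
    intro G
    exact map_sum ({ toFun := fun F => F w
                     map_zero' := rfl
                     map_add' := fun _ _ => rfl } :
      (MultilinearMap K (fun _ : Fin b => V × M) K) →+ K) G Finset.univ
  rw [h1, Finset.sum_congr rfl fun s _ => back_mixed K (s := s) rfl rfl φ w, ← φ.map_add_univ]
  congr 1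
  funext i
  simp

end back

section main

variable {p : ℕ} [Fact p.Prime] {a : ℕ} {ι : Type} [Fintype ι] {F : ι → Type}
  [∀ i, Field (F i)] [∀ i, NumberField (F i)] [∀ i, IsCMField (F i)] {π : ∀ i, F i}

/-- **The Mumford-Tate conjecture for the direct sum of a motive and of the `H_1` of an abelian
variety with a Frobenius element without relations.** -/
theorem mumfordTate_sum (hgen : ∀ i, ℚ⟮π i⟯ = ⊤)
    (hw : ∀ i, π i * IsCMField.complexConj (F i) (π i) = (p : F i) ^ a)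
    (hang : MaximalAngleRank (p ^ a) π)
    {ℓ : ℕ} [Fact ℓ.Prime] {W T V Γ MB R M : Type} [AddCommGroup W] [Module ℚ W]
    [AddCommGroup T] [Module ℂ T] [AddCommGroup V] [Module ℚ_[ℓ] V] [FiniteDimensional ℚ_[ℓ] V]
    [Group Γ] [AddCommGroup MB] [Module ℚ MB] [AddCommGroup R] [Module ℝ R] [AddCommGroup M]
    [Module ℚ_[ℓ] M] [FiniteDimensional ℚ_[ℓ] M] {per : W →+ T} {ω₀ : W →ₗ[ℚ] W →ₗ[ℚ] ℚ}
    {comp : W →+ V} {ρ : Representation ℚ_[ℓ] Γ V} {χ : Γ →* ℚ_[ℓ]}
    {ω : V →ₗ[ℚ_[ℓ]] V →ₗ[ℚ_[ℓ]] ℚ_[ℓ]} {perN : MB →+ R} {h : ℂ → R →ₗ[ℝ] R} {compN : MB →+ M}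
    {τ : Representation ℚ_[ℓ] Γ M} (hR : FT.IsRealization per ω₀ comp ρ χ ω)
    (γ : Γ) (hχ : χ γ = (p : ℚ_[ℓ]) ^ a)
    (hγ : (ρ γ).charpoly = ∏ i, (minpoly ℚ (π i)).map (algebraMap ℚ ℚ_[ℓ]))
    {f : Polynomial ℚ} (hf0 : f ≠ 0)
    (hfγ : Polynomial.aeval (τ γ) (f.map (algebraMap ℚ ℚ_[ℓ])) = 0)
    (hf : ∀ α : ℂ, Polynomial.aeval α f = 0 → IsProductOfUnrelated F α) :
    MumfordTateFor (per.prodMap perN) (sumHodge h) (comp.prodMap compN) (sumRep ρ τ) χ ↔
      MumfordTateFor perN h compN τ χ := by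
  classical
  have hss' : ∀ Δ : Subgroup Γ, Δ.FiniteIndex → SemiUnder (ρ '' (Δ : Set Γ)) := by
    intro Δ hΔ U hU
    obtain ⟨U', h1, h2⟩ := hR.semisimple Δ hΔ U (fun s hs u hu => hU _ ⟨s, hs, rfl⟩ u hu)
    refine ⟨U', ?_, h2⟩
    rintro _ ⟨s, hs, rfl⟩ u hu
    exact h1 s hs u hu
  constructor
  · -- restriction
    intro hS b c φ hφ
    obtain ⟨Δ, hΔ, hφ⟩ := hφ
    have h1 := hS b c (φ.compLinearMap fun _ => LinearMap.snd ℚ_[ℓ] V M)
      ⟨Δ, hΔ, fun s hs v => hφ s hs fun i => (v i).2⟩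
    let res : MultilinearMap ℚ_[ℓ] (fun _ : Fin b => V × M) ℚ_[ℓ] →ₗ[ℚ_[ℓ]]
        MultilinearMap ℚ_[ℓ] (fun _ : Fin b => M) ℚ_[ℓ] :=
      MultilinearMap.compLinearMapₗ (fun _ => LinearMap.inr ℚ_[ℓ] V M)
    have h2 : res (φ.compLinearMap fun _ => LinearMap.snd ℚ_[ℓ] V M) = φ :=
      MultilinearMap.ext fun x => rfl
    rw [← h2]
    have h3 := Submodule.mem_map_of_mem (f := res) h1
    rw [Submodule.map_span] at h3
    refine Submodule.span_mono ?_ h3
    rintro _ ⟨φ', ⟨ψ, ⟨Ψ, g1, g2⟩, g3⟩, rfl⟩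
    refine ⟨ψ.compLinearMap fun _ => LinearMap.inr ℚ W MB,
      ⟨Ψ.compLinearMap fun _ => LinearMap.inr ℝ T R, fun x => ?_, fun z hz u => ?_⟩, fun x => ?_⟩
    · have h4 := g1 fun i => ((0 : W), x i)
      change Ψ (fun i => ((0 : T), perN (x i))) = ((ψ fun i => ((0 : W), x i) : ℚ) : ℝ)
      rw [← h4]
      congr 1
      funext i
      change _ = (per 0, perN (x i))
      rw [map_zero]
    · have h4 := g2 z hz fun i => ((0 : T), u i)
      change Ψ (fun i => ((0 : T), h z (u i))) = Ψ (fun i => ((0 : T), u i))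
      rw [← h4]
      congr 1
      funext i
      change _ = (mulBy z 0, h z (u i))
      rw [map_zero]
    · have h4 := g3 fun i => ((0 : W), x i)
      change φ' (fun i => ((0 : V), compN (x i))) = ((ψ fun i => ((0 : W), x i) : ℚ) : ℚ_[ℓ])
      rw [← h4]
      congr 1
      funext i
      change _ = (comp 0, compN (x i))
      rw [map_zero]
  · intro hN b c φ hφ
    obtain ⟨Δ, hΔ, hφ⟩ := hφ
    rw [sum_mixed ℚ_[ℓ] φ]
    refine Submodule.sum_mem _ fun s _ => ?_
    have h1 := mixed_mem hgen hw hang ρ τ χ ω hR.alternating hR.nondegenerate hR.equivariant hss' γ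
      hχ hγ hf0 hfγ hf per comp perN h compN ω₀ hR.hodge hR.compatible hR.faltings hN c
      (mixed ℚ_[ℓ] (s := s) rfl rfl φ) ⟨Δ, hΔ, fun g hg v x => by
        rw [mixed_apply, mixed_apply, ← hφ g hg]
        congr 1
        funext i
        rcases (finSumEquivOfFinset (s := s) rfl rfl).symm i with y | y
        · change (ρ g (v y), (0 : M)) = (ρ g (v y), τ g 0)
          rw [map_zero]
        · change ((0 : V), τ g (x y)) = (ρ g 0, τ g (x y))
          rw [map_zero]⟩
    have h2 := Submodule.mem_map_of_mem (f := back ℚ_[ℓ] (s := s) rfl rfl) h1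
    rw [Submodule.map_span] at h2
    refine Submodule.span_mono ?_ h2
    rintro _ ⟨Φ, ⟨ψ, Ψ, g1, g2, g3⟩, rfl⟩
    exact ⟨back ℚ (s := s) rfl rfl ψ, ⟨back ℝ (s := s) rfl rfl Ψ,
      fun x => g1 _ _, fun z hz u => g2 z hz _ _⟩, fun x => g3 _ _⟩

end main

end

end Pool.Agent.Q70.MM
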