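import Mathlib
import Pool.Agent.Y1.CT.UnrelDefs

/-!
# Products of harmless numbers: definitions
-/

set_option autoImplicit false

namespace Pool.Agent.Q70.MM

open NumberField Module Polynomial Pool.Agent.Y1.CT

/-- The complex number `ρ` is not zero and a product of algebraic numbers `y l` (any number of
them) each of which is, for each `c`, unrelated to the field `K c` (an odd function on the
embeddings of `K c` invariant under all automorphisms of `ℂ` that fix some positive power of `y l` is
zero) or of smaller degree than `K c`. -/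
def HarmlessProduct {C : Type} (K : C → Type) [∀ c, Field (K c)] [∀ c, NumberField (K c)]
    (ρ : ℂ) : Prop :=
  ρ ≠ 0 ∧ ∃ (t : ℕ) (y : Fin t → ℂ), (∀ l, IsAlgebraic ℚ (y l) ∧
    ∀ c, UnrelatedTo (K c) (y l) ∨ (minpoly ℚ (y l)).natDegree < finrank ℚ (K c)) ∧ ρ = ∏ l, y l

/-- All complex roots of the polynomial are products of harmless numbers. -/
def HarmlessProducts {C : Type} (K : C → Type) [∀ c, Field (K c)] [∀ c, NumberField (K c)]
    (χ : ℚ[X]) : Prop :=
  ∀ ρ : ℂ, aeval ρ χ = 0 → HarmlessProduct K ρ

end Pool.Agent.Q70.MM
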