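import Mathlib
import Pool.Agent.Q70.SQ.Times
import Pool.Agent.Q70.HN.Deg
import Pool.Agent.Q70.MM.Three

/-!
# Products with varieties whose eigenvalues are unrelated to the fields
-/

set_option autoImplicit false
set_option linter.unusedSectionVars false
set_option linter.unusedVariables false

namespace Pool.Agent.Q70.MM

open NumberField Module Polynomial Pool.Agent.Y1.CT Pool.Agent.Y137.MV Pool.Agent.Y137.SL
  Pool.Agent.Q70.SQ

/-- Maximal angle rank excludes relations with unrelated numbers. -/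
theorem noRel_of_angle {p : ℕ} [Fact p.Prime] {a : ℕ} {I : Type} [Fintype I] {F : I → Type}
    [∀ i, Field (F i)] [∀ i, NumberField (F i)] [∀ i, IsCMField (F i)] {π : ∀ i, F i}
    (hang : MaximalAngleRank (p ^ a) π)
    (hw : ∀ i, π i * IsCMField.complexConj (F i) (π i) = (p : F i) ^ a) (f : I → ℤ[X])
    (hf : ∀ i, IsPolyOf (π i) (f i)) : NoRel f (p ^ a) (Y1.CT.Unrelated F) where
  monic i := (hf i).1
  one := unrelated_one F
  pair s hs ρ hρ := exactPair_of_angle hang hw f hf s hs ρ hρ

theorem unrelated_of_harmless {C : Type} {K : C → Type} [∀ c, Field (K c)]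
    [∀ c, NumberField (K c)] [∀ c, IsCMField (K c)] (hirr : ∀ c, OddIrreducible (K c)) {ρ : ℂ}
    (h : HarmlessNumber K ρ) : Y1.CT.Unrelated K ρ := by
  refine ⟨h.1, fun c => ?_⟩
  rcases h.2 c with h1 | ⟨h1, h2⟩
  · exact h1
  · exact HN.unrelatedTo_of_degree (hirr c) h1 h2

end Pool.Agent.Q70.MM
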