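import Mathlib
import Pool.Agent.Q70.MM.ProdDefs
import Pool.Agent.Q70.MM.Times
import Pool.Agent.Q306.TP.Forces

/-!
# No relations with products of harmless numbers
-/

set_option autoImplicit false
set_option linter.unusedSectionVars false
set_option linter.unusedVariables false

namespace Pool.Agent.Q70.MM

open NumberField Finset Module Polynomial Pool.Agent.H204R3.CM Pool.Agent.H977R3.CM
  Pool.Agent.W484.HS Pool.Agent.Y137.MV Pool.Agent.Y137.SL Pool.Agent.Y1.CT Pool.Agent.Q306.TP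
  Pool.Agent.TH170.GS

variable {p : ℕ} [Fact p.Prime] {a : ℕ} {I : Type} [Fintype I]
  {K : I → Type} [∀ i, Field (K i)] [∀ i, NumberField (K i)] [∀ i, IsCMField (K i)]

/-- There are no relations with products of unrelated numbers. -/
theorem exactPair_of_products {π : ∀ i, K i} (hang : MaximalAngleRank (p ^ a) π)
    (hw : ∀ i, π i * IsCMField.complexConj (K i) (π i) = (p : K i) ^ a) (f : I → ℤ[X])
    (hf : ∀ i, IsPolyOf (π i) (f i)) (s : ℕ) (hs : 0 < s) (ρ : ℂ) (hρ0 : ρ ≠ 0)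
    (hρ : IsProductOfUnrelated K ρ) :
    ExactPairK (fun z : {z : ℂ // ∃ i, aeval z (f i) = 0} => (z : ℂ) ^ s)
      (((p ^ a : ℕ) : ℂ) ^ s) ρ := by
  classical
  intro n c N hN hn ys hlen hrel hpw
  have hp0 : (p : ℂ) ≠ 0 := Nat.cast_ne_zero.2 (Fact.out : p.Prime).ne_zero
  have hpa : p ^ a ≠ 0 := pow_ne_zero a (Fact.out : p.Prime).ne_zero
  have hq0 : ((p ^ a : ℕ) : ℂ) ≠ 0 := Nat.cast_ne_zero.2 hpa
  have hw' : ∀ i, π i * IsCMField.complexConj (K i) (π i) = ((p ^ a : ℕ) : K i) := fun i => by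
    rw [hw]; push_cast; rfl
  have hπ0 : ∀ i, π i ≠ 0 := by
    intro i h0
    have h1 := hw i
    rw [h0, zero_mul] at h1
    exact pow_ne_zero a (Nat.cast_ne_zero.2 (Fact.out : p.Prime).ne_zero) h1.symm
  let Y : Type := Σ i, (K i →+* ℂ)
  let w : Y → ℂ := fun y => y.2 (π y.1)
  have hw0 : ∀ y, w y ≠ 0 := fun y => (_root_.map_ne_zero _).2 (hπ0 _)
  have hz : ∀ z : {z : ℂ // ∃ i, aeval z (f i) = 0}, ∃ y : Y, w y = z := by
    rintro ⟨z, i, hi⟩
    obtain ⟨φ, hφ⟩ := (hf i).2 z hi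
    exact ⟨⟨i, φ⟩, hφ⟩
  choose idx hidx using hz
  let inv : Y → Y := fun z => ⟨z.1, ComplexEmbedding.conjugate z.2⟩
  let cnt : Y → ℕ := fun y => (ys.map idx).count y
  have hrel1 : ((∏ y, w y ^ (s * cnt y)) * ρ) ^ N = ((((p ^ a : ℕ) : ℂ) ^ s) ^ c) ^ N := by
    rw [← hrel, prod_count idx w (fun z : {z : ℂ // ∃ i, aeval z (f i) = 0} => (z : ℂ))
      (fun z => (hidx z).symm) s ys]
  have hcnt : ∀ y : Y, cnt y = cnt (inv y) := by
    rintro ⟨i, φ⟩
    obtain ⟨t, y, hy, hyρ⟩ := hρ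
    have hy0 : ∀ l, y l ≠ 0 := by
      intro l h0
      apply hρ0
      rw [hyρ]
      exact Finset.prod_eq_zero (Finset.mem_univ l) h0
    have hP0 : (∏ y, w y ^ (s * cnt y)) ≠ 0 :=
      Finset.prod_ne_zero_iff.2 fun y _ => pow_ne_zero _ (hw0 y)
    obtain ⟨u, hu, h1⟩ := coreC hpa hw' y hy0 (fun l => (hy l).1) (fun l i => (hy l).2 i)
      (fun y => -((s * cnt y : ℕ) : ℤ)) hN (-((s : ℤ) * c * N)) (by
        rw [← hyρ]
        have h2 : (∏ x : (Σ i, (K i →+* ℂ)), x.2 (π x.1) ^ (-((s * cnt x : ℕ) : ℤ))) =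
            (∏ y, w y ^ (s * cnt y))⁻¹ := by
          rw [← Finset.prod_inv_distrib]
          refine Finset.prod_congr rfl fun x _ => ?_
          rw [zpow_neg, zpow_natCast]
        rw [h2, inv_pow, zpow_neg]
        have h3 : ((p ^ a : ℕ) : ℂ) ^ ((s : ℤ) * c * N) = ((((p ^ a : ℕ) : ℂ) ^ s) ^ c) ^ N := by
          rw [← zpow_natCast, ← zpow_natCast, ← zpow_mul, ← zpow_mul, mul_assoc]
        rw [h3, ← hrel1, mul_pow]
        have h4 : (∏ y, w y ^ (s * cnt y)) ^ N ≠ 0 := pow_ne_zero _ hP0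
        have h5 : ρ ^ N ≠ 0 := pow_ne_zero _ hρ0
        field_simp)
    have h2 := hang 0 (fun x => (u : ℤ) * (-((s * cnt x : ℕ) : ℤ) -
        -((s * cnt ⟨x.1, ComplexEmbedding.conjugate x.2⟩ : ℕ) : ℤ))) (by
      rw [zpow_zero, ← h1, ← Finset.prod_pow]
      refine Finset.prod_congr rfl fun x _ => ?_
      rw [← zpow_natCast, ← zpow_mul, mul_comm]) i φ
    have h3 : ComplexEmbedding.conjugate (ComplexEmbedding.conjugate φ) = φ := by
      ext x
      simp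
    simp only [h3] at h2
    have hu0 : (u : ℤ) ≠ 0 := by exact_mod_cast hu.ne'
    have h5 := mul_left_cancel₀ hu0 h2
    have h6 : ((s * cnt ⟨i, φ⟩ : ℕ) : ℤ) =
        ((s * cnt ⟨i, ComplexEmbedding.conjugate φ⟩ : ℕ) : ℤ) := by linarith
    exact Nat.eq_of_mul_eq_mul_left hs (by exact_mod_cast h6)
  -- the first element of the list
  obtain ⟨z₀, hz₀⟩ := List.exists_mem_of_length_pos (l := ys) (by omega)
  have h1 : 0 < cnt (idx z₀) := List.count_pos_iff.2 (List.mem_map_of_mem hz₀)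
  rw [hcnt] at h1
  obtain ⟨z₁, hz₁, h2⟩ := List.mem_map.1 (List.count_pos_iff.1 h1)
  have hne : z₀ ≠ z₁ := by
    rintro rfl
    have h3 : (idx z₀).2 = ComplexEmbedding.conjugate (idx z₀).2 := by
      have h4 : idx z₀ = ⟨(idx z₀).1, ComplexEmbedding.conjugate (idx z₀).2⟩ := h2
      exact eq_of_heq (Sigma.mk.inj h4).2
    exact Pool.Agent.TH170.MF.conj_ne _ h3.symm
  have hsymm : Std.Symm (fun y y' : {z : ℂ // ∃ i, aeval z (f i) = 0} => (y : ℂ) ^ s * (y' : ℂ) ^ s ≠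
      ((p ^ a : ℕ) : ℂ) ^ s) := ⟨by
    intro x y h h'
    exact h (by rw [mul_comm]; exact h')⟩
  refine hpw.forall hz₀ hz₁ hne ?_
  have h3 : (z₁ : ℂ) = ComplexEmbedding.conjugate (idx z₀).2 (π (idx z₀).1) := by
    rw [← hidx z₁, h2]
  change (z₀ : ℂ) ^ s * (z₁ : ℂ) ^ s = _
  rw [h3, ← hidx z₀, ← mul_pow]
  congr 1
  have h4 := congrArg (idx z₀).2 (hw (idx z₀).1)
  rw [map_mul, IsCMField.complexEmbedding_complexConj, map_pow, map_natCast] at h4
  change (idx z₀).2 (π (idx z₀).1) * _ = _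
  rw [ComplexEmbedding.conjugate_coe_eq, h4]
  push_cast
  rfl

/-- Maximal angle rank excludes relations with products of unrelated numbers. -/
theorem noRel_products {π : ∀ i, K i} (hang : MaximalAngleRank (p ^ a) π)
    (hw : ∀ i, π i * IsCMField.complexConj (K i) (π i) = (p : K i) ^ a) (f : I → ℤ[X])
    (hf : ∀ i, IsPolyOf (π i) (f i)) :
    NoRel f (p ^ a) (fun ρ => ρ ≠ 0 ∧ IsProductOfUnrelated K ρ) where
  monic i := (hf i).1
  one := ⟨one_ne_zero, 0, Fin.elim0, fun l => l.elim0, by simp⟩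
  pair s hs ρ hρ := exactPair_of_products hang hw f hf s hs ρ hρ.1 hρ.2

theorem product_of_harmless {C : Type} {J : C → Type} {K : C → Type} [∀ c, Field (K c)]
    [∀ c, NumberField (K c)] [∀ c, IsCMField (K c)] (hirr : ∀ c, OddIrreducible (K c)) {ρ : ℂ}
    (h : HarmlessProduct K ρ) : IsProductOfUnrelated (fun i : Σ c, J c => K i.1) ρ := by
  obtain ⟨-, t, y, hy, hρ⟩ := h
  refine ⟨t, y, fun l => ⟨(hy l).1, fun i => ?_⟩, hρ⟩
  rcases (hy l).2 i.1 with h1 | h1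
  · exact h1
  · exact Pool.Agent.Q70.HN.unrelatedTo_of_degree (hirr i.1) (hy l).1.isIntegral h1

end Pool.Agent.Q70.MM
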