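import Mathlib
import Pool.Agent.Q70.MM.MotSum
import Pool.Agent.Q70.MM.ProdDefs
import Pool.Agent.Q70.MM.Prod
import Pool.Agent.Q70.MM.CluTwo
import Pool.Agent.Q70.MM.Three

/-!
# The Mumford-Tate conjecture for sums: several Weil numbers in related fields
-/

set_option autoImplicit false
set_option linter.unusedSectionVars false

namespace Pool.Agent.Q70.MM

open NumberField Module IntermediateField Pool.Agent.H204R3.GP Pool.Agent.TH170
  Pool.Agent.Y137.MV Pool.Agent.Y137.SL Pool.Agent.Y1.CT Pool.Agent.Q70.SQ Pool.Agent.Q306.TP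

/-- For all abelian varieties `A` over a finitely generated subfield of the complex numbers with a
Frobenius element `γ` whose characteristic polynomial on the Tate module is the product of the
minimal polynomials of the Weil numbers `π i`, and all motives `N` for which `γ` is killed, on the
`ℓ`-adic realization, by a rational polynomial `f` all of whose complex roots are products of numbers
unrelated to the fields `K c` or of smaller degree: the Mumford-Tate conjecture holds for the sum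
`H_1(A) ⊕ N` if and only if it holds for `N`. -/
def SumHolds (p : ℕ) [Fact p.Prime] (a : ℕ) {C : Type} (K : C → Type) [∀ c, Field (K c)]
    [∀ c, NumberField (K c)] {I : Type} [Fintype I]
    (F : I → Type) [∀ i, Field (F i)] [∀ i, NumberField (F i)] [∀ i, IsCMField (F i)]
    (π : ∀ i, F i) : Prop :=
  ∀ (ℓ : ℕ) [Fact ℓ.Prime] (W T V Γ WN R M : Type) [AddCommGroup W] [Module ℚ W]
    [AddCommGroup T] [Module ℂ T] [AddCommGroup V] [Module ℚ_[ℓ] V] [FiniteDimensional ℚ_[ℓ] V]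
    [Group Γ] [AddCommGroup WN] [Module ℚ WN] [AddCommGroup R] [Module ℝ R] [AddCommGroup M]
    [Module ℚ_[ℓ] M] [FiniteDimensional ℚ_[ℓ] M] (per : W →+ T) (ω₀ : W →ₗ[ℚ] W →ₗ[ℚ] ℚ)
    (comp : W →+ V) (ρ : Representation ℚ_[ℓ] Γ V) (χ : Γ →* ℚ_[ℓ])
    (ω : V →ₗ[ℚ_[ℓ]] V →ₗ[ℚ_[ℓ]] ℚ_[ℓ]) (perN : WN →+ R) (h : ℂ → R →ₗ[ℝ] R) (compN : WN →+ M)
    (τ : Representation ℚ_[ℓ] Γ M) (γ : Γ) (f : Polynomial ℚ),
    FT.IsRealization per ω₀ comp ρ χ ω → χ γ = (p : ℚ_[ℓ]) ^ a →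
    (ρ γ).charpoly = ∏ i, (minpoly ℚ (π i)).map (algebraMap ℚ ℚ_[ℓ]) → f ≠ 0 →
    Polynomial.aeval (τ γ) (f.map (algebraMap ℚ ℚ_[ℓ])) = 0 → HarmlessProducts K f →
      (MumfordTateFor (per.prodMap perN) (sumHodge h) (comp.prodMap compN) (sumRep ρ τ) χ ↔
        MumfordTateFor perN h compN τ χ)

theorem sumHolds {p : ℕ} [Fact p.Prime] {a : ℕ} {C : Type} {K : C → Type} [∀ c, Field (K c)]
    [∀ c, NumberField (K c)] [∀ c, IsCMField (K c)] {J : C → Type} [Fintype C]
    [∀ c, Fintype (J c)] {π : ∀ c, J c → K c} (hirr : ∀ c, OddIrreducible (K c))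
    (hgen : ∀ i : Σ c, J c, ℚ⟮π i.1 i.2⟯ = ⊤)
    (hw : ∀ i : Σ c, J c, π i.1 i.2 * IsCMField.complexConj (K i.1) (π i.1 i.2) =
      (p : K i.1) ^ a)
    (hang : MaximalAngleRank (p ^ a) (F := fun i : Σ c, J c => K i.1) (fun i => π i.1 i.2)) :
    SumHolds p a K (fun i : Σ c, J c => K i.1) (fun i => π i.1 i.2) := by
  intro ℓ _ W T V Γ WN R M _ _ _ _ _ _ _ _ _ _ _ _ _ _ _ per ω₀ comp ρ χ ω perN h compN τ γ f hR
    hχ hγ hf0 hfγ hf
  exact mumfordTate_sum (F := fun i : Σ c, J c => K i.1) (π := fun i => π i.1 i.2) hgen hw hang hR γ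
    hχ hγ hf0 hfγ fun α hα => product_of_harmless hirr (hf α hα)

end Pool.Agent.Q70.MM
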