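import Mathlib
import Pool.Agent.TH117.PO.Defs

/-!
# Primitive classes modulo numerical equivalence: definitions
-/

set_option autoImplicit false

namespace Pool.Agent.Q70.MM

open NumberField Pool.Agent.H204R3.CM Pool.Agent.W547.KB Pool.Agent.W547.LD Pool.Agent.W547.HR
  Pool.Agent.W495.TA Pool.Agent.TH117.PO Module
open scoped TensorProduct

/-- The cycle `z` of codimension `r` on `Y`, `dim Y = 2 r + m`, is primitive modulo numerical
equivalence for the polarization given by `α`: the product of `z` with the power `m + 1` of the class of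
the polarization is numerically equivalent to zero, that is, its intersection numbers with all cycles
`y` of complementary codimension are zero. -/
def IsPrimNum {p : ℕ} [Fact p.Prime] {ν : PadicAlgCl p ≃+* ℂ} {Ω : Type} [Field Ω] [CharZero Ω]
    (C : (Y : RedAV p ν) → (κ : Type) → ((TM Ω Y) [⋀^κ]→ₗ[Ω] Ω) → Prop) {Y : RedAV p ν}
    (α : Y.X.H1) {κ : Type} [Fintype κ] [DecidableEq κ] (m : ℕ)
    (z : (TM Ω Y) [⋀^κ]→ₗ[Ω] Ω) : Prop :=
  ∀ (κ' : Type) [Fintype κ'] [DecidableEq κ'] (y : (TM Ω Y) [⋀^κ']→ₗ[Ω] Ω), C Y κ' y →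
    Fintype.card κ' + (Fintype.card κ + 2 * (m + 1)) = finrank ℚ Y.X.H1 →
      ∀ v : κ' ⊕ (κ ⊕ (Fin (m + 1) × Fin 2)) → Y.X.H1,
        altSum (times (res y) (times (res z)
          (powE (castE Ω (riemannForm Y.X α)) (m + 1)))) v = 0

/-- The numerical standard conjecture of Hodge type for the abelian variety `Y`, in the codimension `r`,
`dim Y = 2 r + m`, for the classes of cycles `C`: for each polarization (given by `α`) and each cycle
`z` which is primitive and not zero modulo numerical equivalence `(-1)^r z ∪ z ∪ E^m > 0`, where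
`E` is the class of the polarization. -/
def NumHodgeStandard {p : ℕ} [Fact p.Prime] {ν : PadicAlgCl p ≃+* ℂ} {Ω : Type} [Field Ω]
    [CharZero Ω] (C : (Y : RedAV p ν) → (κ : Type) → ((TM Ω Y) [⋀^κ]→ₗ[Ω] Ω) → Prop)
    (Y : RedAV p ν) : Prop :=
  ∀ α : Y.X.H1, IsPolar Y.X α → ∀ r m : ℕ, 2 * (2 * r + m) = finrank ℚ Y.X.H1 →
    ∀ z : (TM Ω Y) [⋀^Fin r × Fin 2]→ₗ[Ω] Ω, C Y (Fin r × Fin 2) z →
      ¬ IsNumTrivial Ω C z → IsPrimNum C α m z → IsPosClass α m z

end Pool.Agent.Q70.MM
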