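import Mathlib
import Pool.Agent.TH117.PO.Full
import Pool.Agent.Q70.MM.NumPosDefs

/-!
# Positivity modulo numerical equivalence
-/

set_option autoImplicit false
set_option linter.unusedSectionVars false
set_option linter.unusedVariables false

namespace Pool.Agent.Q70.MM

open NumberField Pool.Agent.H204R3.CM Pool.Agent.W547.KB Pool.Agent.W547.LD Pool.Agent.W547.HR
  Pool.Agent.W495.TA Pool.Agent.TH117.PO Pool.Agent.TH117.BL Module Equiv
open scoped TensorProduct

noncomputable section

variable {p : ℕ} [Fact p.Prime] {ν : PadicAlgCl p ≃+* ℂ} {Ω : Type} [Field Ω] [CharZero Ω]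
  {C : (Y : RedAV p ν) → (κ : Type) → ((TM Ω Y) [⋀^κ]→ₗ[Ω] Ω) → Prop}

theorem altSum_swap {P Q H R : Type} [Fintype P] [DecidableEq P] [Fintype Q] [DecidableEq Q]
    [CommRing R] (g : (P → H) → R) (h : (Q → H) → R) (v : P ⊕ Q → H) :
    altSum (times g h) v = altSum (times h g) (fun k => v (Equiv.sumComm Q P k)) := by
  rw [← altSum_reindex (Equiv.sumComm Q P)]
  congr 1
  funext w
  unfold times
  rw [mul_comm]
  rfl

/-- Classes of cycles are in `Alg`. -/
theorem alg_of_cycle (hC : IsCycleSystem Ω C) (hT : AreTate Ω C) {Y : RedAV p ν}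
    (h : ∀ (s r : ℕ) (f : (TM Ω Y) [⋀^Fin (2 * r)]→ₗ[Ω] Ω), 0 < s → IsTateClass Ω Y s r f →
      Alg Ω Y (Fin (2 * r)) f) {κ : Type} {r : ℕ} (e : κ ≃ Fin (2 * r))
    {z : (TM Ω Y) [⋀^κ]→ₗ[Ω] Ω} (hz : C Y κ z) : Alg Ω Y κ z := by
  obtain ⟨s, hs, h1⟩ := hT (z.domDomCongr e) (hC.reindex e z hz)
  have h2 := Alg.reindex e.symm _ (h s r _ hs h1)
  have h3 : (z.domDomCongr e).domDomCongr e.symm = z := by
    refine AlternatingMap.ext fun v => ?_
    change z _ = z v
    congr 1
    funext k
    simp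
  rwa [h3] at h2

/-- Positivity modulo numerical equivalence, if all Tate classes are in `Alg`. -/
theorem numHodge_of_alg [IsAlgClosed Ω] (hC : IsCycleSystem Ω C) (hR : IsRosatiPositive Ω C)
    (hT : AreTate Ω C) {Y : RedAV p ν}
    (h : ∀ (s r : ℕ) (f : (TM Ω Y) [⋀^Fin (2 * r)]→ₗ[Ω] Ω), 0 < s → IsTateClass Ω Y s r f →
      Alg Ω Y (Fin (2 * r)) f) : NumHodgeStandard C Y := by
  classical
  intro α hα r m hrm z hz hnum hprim
  have hzA : Alg Ω Y _ z := alg_of_tate hC hT (h · r) hz
  refine positive hC hR hα hrm hz hzA (fun hz0 => hnum ?_) ?_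
  · intro κ' _ _ y _ _ v
    have h1 : res z = (fun _ => (0 : Ω) : (Fin r × Fin 2 → Y.X.H1) → Ω) := by
      funext u
      unfold res
      rw [hz0]
      rfl
    rw [h1]
    unfold altSum times
    simp
  · -- the product with the power of the polarization
    have hne : Nonempty (Y.X.prod (single (Pool.Agent.TH117.BL.kp p))).I := ⟨Sum.inr ()⟩
    obtain ⟨L, _, _, _, _, j, hj⟩ := exists_cm (Y.X.prod (single (Pool.Agent.TH117.BL.kp p)))
    have hB : Big Y.X j := fun i ψ => hj (Sum.inl i) ψ
    let jO : L →+* Ω := ((IsAlgClosed.lift : L →ₐ[ℚ] Ω) : L →+* Ω)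
    obtain ⟨θ, hθ⟩ := exists_theta (jO := jO) j hα
    have hθr := res_theta j hB hθ
    have hCθ : C Y (Fin 2) θ := theta_mem hC hα hθr
    obtain ⟨Θ, a, ha, hΘ, hΘv⟩ := power_mem hC hCθ (m + 1)
    have hθ1 : ∀ x y : Y.X.H1, θ ![(1 : Ω) ⊗ₜ[ℚ] x, (1 : Ω) ⊗ₜ[ℚ] y] =
        castE Ω (riemannForm Y.X α) x y := by
      intro x y
      rw [castE, ← hθr]
      unfold res
      congr 1
      funext k
      fin_cases k <;> rfl
    have hpow : ∀ (k : ℕ) (v : Fin k × Fin 2 → Y.X.H1),
        powE (fun x y => θ ![x, y]) k (fun i => (1 : Ω) ⊗ₜ[ℚ] v i) =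
          powE (castE Ω (riemannForm Y.X α)) k v := by
      intro k v
      unfold powE
      exact Finset.prod_congr rfl fun i _ => hθ1 _ _
    have hW : C Y _ (cupO z Θ) := hC.cup z Θ hz hΘ _ fun v => cupO_apply z Θ v
    have hWA : Alg Ω Y _ (cupO z Θ) := by
      refine alg_of_cycle hC hT h (r := r + (m + 1)) ?_ hW
      refine Fintype.equivFinOfCardEq ?_
      simp only [Fintype.card_sum, Fintype.card_prod, Fintype.card_fin]
      ring
    set c : Ω := (a : Ω) * ((Fintype.card (Perm (Fin (m + 1) × Fin 2)) : ℕ) : Ω) with hc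
    have hc0 : c ≠ 0 := mul_ne_zero (Rat.cast_ne_zero.2 ha)
      (Nat.cast_ne_zero.2 Fintype.card_ne_zero)
    have hWv : ∀ u : (Fin r × Fin 2) ⊕ (Fin (m + 1) × Fin 2) → Y.X.H1,
        res (cupO z Θ) u = c * altSum (times (res z)
          (powE (castE Ω (riemannForm Y.X α)) (m + 1))) u := by
      intro u
      unfold res
      rw [cupO_apply, hc, mul_assoc]
      have h2 : altSum (times z Θ) (fun i => (1 : Ω) ⊗ₜ[ℚ] u i) =
          (a : Ω) * altSum (times (⇑z) (altSum (powE (fun x y => θ ![x, y]) (m + 1))))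
            (fun i => (1 : Ω) ⊗ₜ[ℚ] u i) := by
        rw [← altSum_const_mul]
        congr 1
        funext x
        unfold times
        rw [hΘv]
        ring
      rw [h2, altSum_absorb]
      congr 2
      unfold altSum
      refine Finset.sum_congr rfl fun σ _ => ?_
      congr 1
      unfold times
      rw [hpow]
    have hWnum : IsNumTrivial Ω C (cupO z Θ) := by
      intro κ' _ _ y hy hcard v
      have hres : res (cupO z Θ) = fun u => c * altSum (times (res z)
          (powE (castE Ω (riemannForm Y.X α)) (m + 1))) u := funext hWv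
      rw [altSum_swap, hres]
      have h2 : (times (res y) fun u => c * altSum (times (res z)
          (powE (castE Ω (riemannForm Y.X α)) (m + 1))) u) =
          fun w => c * times (res y) (altSum (times (res z)
            (powE (castE Ω (riemannForm Y.X α)) (m + 1)))) w := by
        funext w
        unfold times
        ring
      rw [h2, altSum_const_mul, altSum_absorb, hprim κ' y hy (by
        rw [← hcard]
        simp only [Fintype.card_sum, Fintype.card_prod, Fintype.card_fin]
        ring) _, mul_zero, mul_zero]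
    have hW0 := nondegenerate hC hWA hWnum
    intro v
    have h2 := hWv v
    rw [hW0] at h2
    have h3 : res (0 : (TM Ω Y) [⋀^(Fin r × Fin 2) ⊕ (Fin (m + 1) × Fin 2)]→ₗ[Ω] Ω) v = 0 := rfl
    rw [h3] at h2
    exact (mul_eq_zero.1 h2.symm).resolve_left hc0

end

end Pool.Agent.Q70.MM
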