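import Mathlib
import Pool.Agent.Q70.MM.Defs
import Pool.Agent.Q70.SQ.Main

/-!
# Weil numbers with slopes `0`, `1 / 2`, `1`
-/

set_option autoImplicit false
set_option linter.unusedSectionVars false
set_option linter.unusedVariables false

namespace Pool.Agent.Q70.MM

open NumberField Module IntermediateField Pool.Agent.Q70.SQ

/-- The Weil number `π` for `q = p ^ a` has only the slopes `0`, `1 / 2` and `1`, and `p`-rank `f`:
`2 f` of its `p`-adic conjugates do not have the slope `1 / 2` (so `f` of them have the slope `0` and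
`f` have the slope `1`). -/
def HasPRank (p a : ℕ) [Fact p.Prime] {F : Type*} [Field F] [NumberField F] (π : F) (f : ℕ) :
    Prop :=
  (∀ x ∈ (minpoly ℚ π).aroots (PadicAlgCl p),
    ‖x‖ = 1 ∨ ‖x‖ = ‖(p : PadicAlgCl p) ^ a‖ ∨ ‖x‖ ^ 2 = ‖(p : PadicAlgCl p) ^ a‖) ∧
  (((minpoly ℚ π).aroots (PadicAlgCl p)).filter
    fun x => ‖x‖ ^ 2 ≠ ‖(p : PadicAlgCl p) ^ a‖).card = 2 * f

/-- The natural number `n` is not the sum of the squares of two rational numbers. -/
def NotSumOfTwoSquares (n : ℕ) : Prop := ∀ r s : ℚ, (n : ℚ) ≠ r ^ 2 + s ^ 2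

/-- The condition on the degrees `D`, `D'` of two CM fields and the `p`-ranks `f`, `f'` of two Weil
numbers: the degrees are different, or they are twice an odd number and `f * f'` is not a square, or
they are four times an odd number and `f * f'` is not a sum of two squares. -/
def DistinguishedRanks (D D' f f' : ℕ) : Prop :=
  D ≠ D' ∨ (Odd (D / 2) ∧ ¬ IsSquare (f * f')) ∨ (D / 2 % 4 = 2 ∧ NotSumOfTwoSquares (f * f'))

variable {p : ℕ} [Fact p.Prime] {a : ℕ}

theorem weilDeviation_rank (ha : 0 < a) {F : Type*} [Field F] [NumberField F] {π : F} {f : ℕ}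
    (h : HasPRank p a π f) : weilDeviation p a π =
      (a * Real.log p) ^ 2 / 4 * (2 * f / (minpoly ℚ π).natDegree) := by
  classical
  have h1 : (((minpoly ℚ π).aroots (PadicAlgCl p)).map
      (fun x => (Real.log ‖x‖ + (a : ℝ) * Real.log p / 2) ^ 2)).sum =
      ((a : ℝ) * Real.log p) ^ 2 / 4 * (2 * f) := by
    have hlogp : 0 < (a : ℝ) * Real.log p :=
      mul_pos (Nat.cast_pos.2 ha) (Real.log_pos (by exact_mod_cast (Fact.out : p.Prime).one_lt))
    rw [← Multiset.filter_add_not (fun x => ‖x‖ ^ 2 ≠ ‖(p : PadicAlgCl p) ^ a‖)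
      ((minpoly ℚ π).aroots (PadicAlgCl p)), Multiset.map_add, Multiset.sum_add]
    have h2 : (((minpoly ℚ π).aroots (PadicAlgCl p)).filter
        (fun x => ‖x‖ ^ 2 ≠ ‖(p : PadicAlgCl p) ^ a‖)).map
        (fun x => (Real.log ‖x‖ + (a : ℝ) * Real.log p / 2) ^ 2) =
        (((minpoly ℚ π).aroots (PadicAlgCl p)).filter
        (fun x => ‖x‖ ^ 2 ≠ ‖(p : PadicAlgCl p) ^ a‖)).map
        (fun _ => ((a : ℝ) * Real.log p) ^ 2 / 4) := by
      refine Multiset.map_congr rfl fun x hx => ?_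
      rw [Multiset.mem_filter] at hx
      rcases h.1 x hx.1 with h2 | h2 | h2
      · rw [h2, Real.log_one]
        ring
      · rw [h2, log_Q]
        ring
      · exact absurd h2 hx.2
    have h3 : (((minpoly ℚ π).aroots (PadicAlgCl p)).filter
        (fun x => ¬ ‖x‖ ^ 2 ≠ ‖(p : PadicAlgCl p) ^ a‖)).map
        (fun x => (Real.log ‖x‖ + (a : ℝ) * Real.log p / 2) ^ 2) =
        (((minpoly ℚ π).aroots (PadicAlgCl p)).filter
        (fun x => ¬ ‖x‖ ^ 2 ≠ ‖(p : PadicAlgCl p) ^ a‖)).map (fun _ => (0 : ℝ)) := by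
      refine Multiset.map_congr rfl fun x hx => ?_
      rw [Multiset.mem_filter, not_not] at hx
      have h4 := congrArg Real.log hx.2
      rw [Real.log_pow, log_Q] at h4
      push_cast at h4
      have h5 : Real.log ‖x‖ + (a : ℝ) * Real.log p / 2 = 0 := by linarith
      rw [h5, zero_pow two_ne_zero]
    rw [h2, h3, Multiset.map_const', Multiset.map_const', Multiset.sum_replicate,
      Multiset.sum_replicate, h.2]
    simp only [nsmul_eq_mul, mul_zero, add_zero]
    push_cast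
    ring
  rw [weilDeviation, meanSquare, h1]
  ring

theorem hasOther_of_rank {F : Type*} [Field F] [NumberField F] {π : F} {f : ℕ} (hf : 0 < f)
    (h : HasPRank p a π f) : Y137.MV.HasOtherSlope p a π := by
  classical
  have h1 : 0 < (((minpoly ℚ π).aroots (PadicAlgCl p)).filter
    fun x => ‖x‖ ^ 2 ≠ ‖(p : PadicAlgCl p) ^ a‖).card := by
    rw [h.2]
    omega
  obtain ⟨x, hx⟩ := Multiset.card_pos_iff_exists_mem.1 h1
  rw [Multiset.mem_filter, Polynomial.mem_aroots] at hx
  obtain ⟨⟨h2, h3⟩, h4⟩ := hx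
  have hint : IsIntegral ℚ π := Algebra.IsIntegral.isIntegral π
  have h5 : x ∈ (minpoly ℚ π).rootSet (PadicAlgCl p) := by
    rw [Polynomial.mem_rootSet]
    exact ⟨h2, h3⟩
  have h6 := Embeddings.range_eval_eq_rootSet_minpoly F (PadicAlgCl p) π
  rw [← h6] at h5
  obtain ⟨τ, hτ⟩ := h5
  refine ⟨τ, ?_⟩
  have h7 : τ π = x := hτ
  rw [h7]
  exact h4

theorem distinguished_of_ranks (ha : 0 < a) {F K : Type*} [Field F] [NumberField F] [Field K]
    [NumberField K] {x : F} {y : K} (hx : ℚ⟮x⟯ = ⊤) (hy : ℚ⟮y⟯ = ⊤) {f f' : ℕ} (hf : 0 < f)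
    (hf' : 0 < f') (hx' : HasPRank p a x f) (hy' : HasPRank p a y f')
    (h : DistinguishedRanks (finrank ℚ F) (finrank ℚ K) f f') : Distinguished p a x y := by
  have hlogp : 0 < (a : ℝ) * Real.log p :=
    mul_pos (Nat.cast_pos.2 ha) (Real.log_pos (by exact_mod_cast (Fact.out : p.Prime).one_lt))
  have hdx : (minpoly ℚ x).natDegree = finrank ℚ F := by
    have h1 : IsIntegral ℚ x := Algebra.IsIntegral.isIntegral x
    rw [← IntermediateField.adjoin.finrank h1, hx, IntermediateField.finrank_top']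
  have hdy : (minpoly ℚ y).natDegree = finrank ℚ K := by
    have h1 : IsIntegral ℚ y := Algebra.IsIntegral.isIntegral y
    rw [← IntermediateField.adjoin.finrank h1, hy, IntermediateField.finrank_top']
  have hD : (0 : ℝ) < finrank ℚ F := Nat.cast_pos.2 finrank_pos
  by_cases hDD : finrank ℚ F = finrank ℚ K
  swap
  · exact Or.inl hDD
  have key : ∀ z : ℝ, weilDeviation p a x = z * weilDeviation p a y → (f : ℝ) = z * f' := by
    intro z hz
    rw [weilDeviation_rank ha hx', weilDeviation_rank ha hy', hdx, hdy, ← hDD] at hz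
    have hc : (0 : ℝ) < (a * Real.log p) ^ 2 / 4 * (2 / (finrank ℚ F : ℝ)) := by positivity
    have h1 : (a * Real.log p) ^ 2 / 4 * (2 / (finrank ℚ F : ℝ)) * ((f : ℝ) - z * f') = 0 := by
      have h2 : (a * Real.log p) ^ 2 / 4 * (2 / (finrank ℚ F : ℝ)) * ((f : ℝ) - z * f') =
          (a * Real.log p) ^ 2 / 4 * (2 * f / (finrank ℚ F : ℝ)) -
          z * ((a * Real.log p) ^ 2 / 4 * (2 * f' / (finrank ℚ F : ℝ))) := by ring
      rw [h2, hz, sub_self]
    have h3 := (mul_eq_zero.1 h1).resolve_left hc.ne'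
    linarith
  rcases h with h | ⟨h1, h2⟩ | ⟨h1, h2⟩
  · exact absurd hDD h
  · refine Or.inr (Or.inl ⟨h1, fun r hr => h2 ?_⟩)
    have h3 := key _ hr
    have h4 : ((f * f' : ℕ) : ℚ) = (r * f') * (r * f') := by
      have h5 : (f : ℚ) = r ^ 2 * f' := by exact_mod_cast h3
      push_cast
      rw [h5]
      ring
    rw [← Rat.isSquare_natCast_iff, h4]
    exact ⟨_, rfl⟩
  · refine Or.inr (Or.inr ⟨h1, fun r s hr => ?_⟩)
    have h3 := key _ hr
    have h5 : (f : ℚ) = (r ^ 2 + s ^ 2) * f' := by exact_mod_cast h3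
    refine h2 (r * f') (s * f') ?_
    push_cast
    rw [h5]
    ring

end Pool.Agent.Q70.MM
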