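import Mathlib
import Pool.Agent.Q70.MM.Prod
import Pool.Agent.Q70.MM.Three
import Pool.Agent.Q64.P.Good
import Pool.Agent.Q64.P.Mono

/-!
# Several Weil numbers in the same fields and products of harmless numbers
-/

set_option autoImplicit false
set_option linter.unusedSectionVars false

namespace Pool.Agent.Q70.MM

open NumberField Module Polynomial Pool.Agent.Y137.MV Pool.Agent.Y137.SL Pool.Agent.Y1.CT
  Pool.Agent.Q70.SQ Pool.Agent.Q306.TP Pool.Agent.Q64.L Pool.Agent.Q64.P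

variable {p : ℕ} [Fact p.Prime] {a : ℕ} {C : Type} [Fintype C] {K : C → Type}
  [∀ c, Field (K c)] [∀ c, NumberField (K c)] [∀ c, IsCMField (K c)] {J : C → Type}
  [∀ c, Fintype (J c)] {π : ∀ c, J c → K c}

theorem noRel_same (ha : 0 < a)
    (hw : ∀ c l, π c l * IsCMField.complexConj (K c) (π c l) = (p : K c) ^ a)
    (habs : ∀ c, OddAbsolutelyIrreducible (K c))
    (hun : ∀ c c', c ≠ c' → Pool.Agent.Y137.MV.Unrelated (K c) (K c'))
    (hind : IndependentSlopes p a π) (f : (Σ c, J c) → ℤ[X])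
    (hf : ∀ i, IsPolyOf (π i.1 i.2) (f i)) :
    NoRel f (p ^ a) (fun ρ => ρ ≠ 0 ∧ IsProductOfUnrelated (fun i : Σ c, J c => K i.1) ρ) :=
  noRel_products (K := fun i : Σ c, J c => K i.1) (π := fun i => π i.1 i.2)
    (angle_same π ha hw habs hun hind) (fun i => hw i.1 i.2) f hf

theorem rootsIn_of_harmless (habs : ∀ c, OddAbsolutelyIrreducible (K c)) (χ : ℚ[X])
    (h : HarmlessProducts K χ) :
    RootsIn (fun ρ => ρ ≠ 0 ∧ IsProductOfUnrelated (fun i : Σ c, J c => K i.1) ρ) χ :=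
  fun ρ hρ => ⟨(h ρ hρ).1, product_of_harmless (fun c => (habs c).1) (h ρ hρ)⟩

theorem harmless_one : HarmlessProducts K (X - 1) := by
  intro ρ hρ
  rw [map_sub, aeval_X, map_one, sub_eq_zero] at hρ
  rw [hρ]
  exact ⟨one_ne_zero, 0, Fin.elim0, fun l => l.elim0, by simp⟩

theorem good_same (ha : 0 < a)
    (hw : ∀ c l, π c l * IsCMField.complexConj (K c) (π c l) = (p : K c) ^ a)
    (habs : ∀ c, OddAbsolutelyIrreducible (K c))
    (hun : ∀ c c', c ≠ c' → Pool.Agent.Y137.MV.Unrelated (K c) (K c'))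
    (hind : IndependentSlopes p a π) (f : (Σ c, J c) → ℤ[X])
    (hf : ∀ i, IsPolyOf (π i.1 i.2) (f i)) : Good (HarmlessProducts K) (p ^ a) f :=
  good_mono (good_of_noRel (fun _ h => h.1) (noRel_same ha hw habs hun hind f hf))
    (rootsIn_of_harmless habs) harmless_one

end Pool.Agent.Q70.MM
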