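import Mathlib
import Pool.Agent.Q70.MM.MotSum

/-!
# Transfer of Tate classes on sums to another group
-/

set_option autoImplicit false
set_option linter.unusedSectionVars false

namespace Pool.Agent.Q70.MM

open NumberField Module TensorProduct IntermediateField
open Pool.Agent.H204R3.CM Pool.Agent.H204R3.SP Pool.Agent.H204R3.GP Pool.Agent.Y137.MV
  Pool.Agent.TH170 Pool.Agent.Q306.TP Pool.Agent.Y1.CT

noncomputable section

section closure

variable {k V Γ : Type} [Field k] [AddCommGroup V] [Module k V] [Group Γ]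

/-- The Tate classes with a given twist. -/
def tateSub (ρ : Representation k Γ V) (χ : Γ →* k) (c : ℤ) (b : ℕ) :
    Submodule k (MultilinearMap k (fun _ : Fin b => V) k) where
  carrier := {φ | IsTateForms ρ χ c φ}
  zero_mem' := ⟨⊤, inferInstance, fun s _ v => by simp⟩
  add_mem' := by
    rintro φ φ' ⟨Δ, hΔ, h⟩ ⟨Δ', hΔ', h'⟩
    refine ⟨Δ ⊓ Δ', inferInstance, fun s hs v => ?_⟩
    rw [Subgroup.mem_inf] at hs
    rw [MultilinearMap.add_apply, MultilinearMap.add_apply, h s hs.1, h' s hs.2, mul_add]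
  smul_mem' := by
    rintro r φ ⟨Δ, hΔ, h⟩
    refine ⟨Δ, hΔ, fun s hs v => ?_⟩
    rw [MultilinearMap.smul_apply, MultilinearMap.smul_apply, h s hs, smul_eq_mul, smul_eq_mul]
    ring

theorem mem_tateSub (ρ : Representation k Γ V) (χ : Γ →* k) (c : ℤ) (b : ℕ)
    (φ : MultilinearMap k (fun _ : Fin b => V) k) :
    φ ∈ tateSub ρ χ c b ↔ IsTateForms ρ χ c φ := Iff.rfl

/-- The bilinear Tate forms. -/
def tate2Sub (ρ : Representation k Γ V) (χ : Γ →* k) : Submodule k (V →ₗ[k] V →ₗ[k] k) where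
  carrier := {B | IsTate2 ρ χ B}
  zero_mem' := ⟨⊤, inferInstance, fun s _ u v => by simp⟩
  add_mem' := by
    rintro φ φ' ⟨Δ, hΔ, h⟩ ⟨Δ', hΔ', h'⟩
    refine ⟨Δ ⊓ Δ', inferInstance, fun s hs u v => ?_⟩
    rw [Subgroup.mem_inf] at hs
    rw [LinearMap.add_apply, LinearMap.add_apply, LinearMap.add_apply, LinearMap.add_apply,
      h s hs.1, h' s hs.2, mul_add]
  smul_mem' := by
    rintro r φ ⟨Δ, hΔ, h⟩
    refine ⟨Δ, hΔ, fun s hs u v => ?_⟩
    rw [LinearMap.smul_apply, LinearMap.smul_apply, LinearMap.smul_apply, LinearMap.smul_apply,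
      h s hs, smul_eq_mul, smul_eq_mul]
    ring

end closure

variable {p : ℕ} [Fact p.Prime] {a : ℕ} {ι : Type} [Fintype ι] {F : ι → Type}
  [∀ i, Field (F i)] [∀ i, NumberField (F i)] [∀ i, IsCMField (F i)] {π : ∀ i, F i}
  (hgen : ∀ i, ℚ⟮π i⟯ = ⊤)
  (hw : ∀ i, π i * IsCMField.complexConj (F i) (π i) = (p : F i) ^ a)
  (hang : MaximalAngleRank (p ^ a) π)
  {k : Type} [Field k] [CharZero k] {V : Type} [AddCommGroup V] [Module k V]
  [FiniteDimensional k V] {M : Type} [AddCommGroup M] [Module k M] [FiniteDimensional k M]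
  {Γ : Type} [Group Γ] (ρ : Representation k Γ V) (τ : Representation k Γ M) (χ : Γ →* k)
  (ω : V →ₗ[k] V →ₗ[k] k) (halt : ∀ v, ω v v = 0) (hnd : ∀ u, (∀ v, ω v u = 0) → u = 0)
  (hωρ : ∀ s u v, ω (ρ s u) (ρ s v) = χ s * ω u v)
  (hss : ∀ Δ : Subgroup Γ, Δ.FiniteIndex → SemiUnder (ρ '' (Δ : Set Γ)))
  (γ : Γ) (hχ : χ γ = (p : k) ^ a)
  (hγ : (ρ γ).charpoly = ∏ i, (minpoly ℚ (π i)).map (algebraMap ℚ k))
  {f : Polynomial ℚ} (hf0 : f ≠ 0)
  (hfγ : Polynomial.aeval (τ γ) (f.map (algebraMap ℚ k)) = 0)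
  (hf : ∀ α : ℂ, Polynomial.aeval α f = 0 → IsProductOfUnrelated F α)
  {Γ' : Type} [Group Γ'] (ρ' : Representation k Γ' V) (τ' : Representation k Γ' M) (χ' : Γ' →* k)
  (h1 : ∀ B : V →ₗ[k] V →ₗ[k] k, IsTate2 ρ χ B → IsTate2 ρ' χ' B)
  (h2 : ∀ (b : ℕ) (c : ℤ) (w : MultilinearMap k (fun _ : Fin b => M) k), IsTateForms τ χ c w →
    IsTateForms τ' χ' c w)

include hgen hw hang halt hnd hωρ hss hχ hγ hf0 hfγ hf h1 h2 in
/-- **Transfer of the Tate classes.** If all Tate forms of degree two on `V` and all Tate forms on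
`M` for `Γ` are Tate forms for `Γ'`, then all Tate forms on `V ⊕ M` for `Γ` are Tate forms for
`Γ'`. -/
theorem tate_transfer (b : ℕ) (c : ℤ) (φ : MultilinearMap k (fun _ : Fin b => V × M) k)
    (hφ : IsTateForms (sumRep ρ τ) χ c φ) : IsTateForms (sumRep ρ' τ') χ' c φ := by
  classical
  have hχ0 : ∀ s, χ s ≠ 0 := by
    intro s h0
    have h1 : χ s * χ s⁻¹ = 1 := by rw [← map_mul, mul_inv_cancel, map_one]
    rw [h0, zero_mul] at h1
    exact zero_ne_one h1
  have hχ0' : ∀ s, χ' s ≠ 0 := by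
    intro s h0
    have h1 : χ' s * χ' s⁻¹ = 1 := by rw [← map_mul, mul_inv_cancel, map_one]
    rw [h0, zero_mul] at h1
    exact zero_ne_one h1
  obtain ⟨Δ, hΔ, hφ⟩ := hφ
  rw [← mem_tateSub, sum_mixed k φ]
  refine Submodule.sum_mem _ fun s _ => ?_
  set l := sᶜ.card with hl
  set Φ := mixed k (s := s) rfl rfl φ with hΦdef
  have hΦ : IsTateMixed ρ τ χ c Φ := ⟨Δ, hΔ, fun g hg v x => by
    rw [hΦdef, mixed_apply, mixed_apply, ← hφ g hg]
    congr 1
    funext i
    rcases (finSumEquivOfFinset (s := s) rfl rfl).symm i with y | y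
    · change (ρ g (v y), (0 : M)) = (ρ g (v y), τ g 0)
      rw [map_zero]
    · change ((0 : V), τ g (x y)) = (ρ g 0, τ g (x y))
      rw [map_zero]⟩
  -- the polynomial
  obtain ⟨P, hP0, hP, hroot⟩ := formRep_killed τ χ γ hf0 hfγ hχ c l
  have hPr : ∀ α : ℂ, Polynomial.aeval α P = 0 → IsProductOfUnrelated F α := by
    intro z hz
    obtain ⟨α, hα, rfl⟩ := hroot z hz
    refine isProduct_mul (isProduct_rat _) (isProduct_prod fun i => ?_)
    have h1 := isProduct_inv (hf _ (hα i).2)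
    rwa [inv_inv] at h1
  obtain ⟨hs1, hs2⟩ := eqv_split hgen hw hang ρ (formRep τ χ c l) χ ω halt hnd hωρ hss γ hχ hγ
    hP0 hP hPr
  have hEqv : ∀ {κ : Type} (Φ : MultilinearMap k (fun _ : κ => V)
      (MultilinearMap k (fun _ : Fin l => M) k)), IsTateMixed ρ τ χ c Φ →
      IsEqv ρ (formRep τ χ c l) Φ := by
    rintro κ Φ ⟨Δ, hΔ, hΦ⟩
    refine ⟨Δ, hΔ, fun s hs v => MultilinearMap.ext fun x => ?_⟩
    have h1 := hΦ s hs v (fun i => τ s⁻¹ (x i))
    have h2 : ∀ y : M, τ s (τ s⁻¹ y) = y := by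
      intro y
      change (τ s * τ s⁻¹) y = y
      rw [← map_mul, mul_inv_cancel, map_one]
      rfl
    simp only [h2] at h1
    rw [formRep_apply]
    exact h1
  clear_value Φ
  have hgoal : ∀ Φ : MultilinearMap k (fun _ : Fin s.card => V)
      (MultilinearMap k (fun _ : Fin sᶜ.card => M) k), IsTateMixed ρ' τ' χ' c Φ →
      back k rfl rfl Φ ∈ tateSub (sumRep ρ' τ') χ' c b := by
    rintro Φ ⟨Δ, hΔ, hΦ⟩
    refine ⟨Δ, hΔ, fun g hg v => ?_⟩
    rw [back_apply, back_apply]
    exact hΦ g hg _ _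
  have hback0 : back k (s := s) rfl rfl (0 : MultilinearMap k (fun _ : Fin s.card => V)
      (MultilinearMap k (fun _ : Fin sᶜ.card => M) k)) = 0 := map_zero _
  have hmain : back k (s := s) rfl rfl Φ ∈ tateSub (sumRep ρ' τ') χ' c b := by
    rcases Nat.even_or_odd' s.card with ⟨m, hm | hm⟩
    · let e : Fin m × Fin 2 ≃ Fin s.card :=
        finProdFinEquiv.trans (finCongr ((mul_comm m 2).trans hm.symm))
      have h3 := hs1 m (Φ.domDomCongr e.symm) (hEqv _ (by
        obtain ⟨Δ, hΔ, hΦ⟩ := hΦ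
        exact ⟨Δ, hΔ, fun s hs v x => hΦ s hs (fun i => v (e.symm i)) x⟩))
      let D : MultilinearMap k (fun _ : Fin m × Fin 2 => V)
          (MultilinearMap k (fun _ : Fin sᶜ.card => M) k) →ₗ[k]
          MultilinearMap k (fun _ : Fin b => V × M) k :=
        (back k (s := s) rfl rfl).comp
          ({ toFun := fun Φ => Φ.domDomCongr e
             map_add' := fun _ _ => rfl
             map_smul' := fun _ _ => rfl } : MultilinearMap k (fun _ : Fin m × Fin 2 => V)
              (MultilinearMap k (fun _ : Fin sᶜ.card => M) k) →ₗ[k]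
            MultilinearMap k (fun _ : Fin s.card => V)
              (MultilinearMap k (fun _ : Fin sᶜ.card => M) k))
      have h4 : D (Φ.domDomCongr e.symm) = back k (s := s) rfl rfl Φ := by
        change back k (s := s) rfl rfl ((Φ.domDomCongr e.symm).domDomCongr e) = _
        congr 1
        refine MultilinearMap.ext fun v => ?_
        change Φ (fun i => v (e (e.symm i))) = Φ v
        congr 1
        funext i
        rw [e.apply_symm_apply]
      rw [← h4]
      have h5 := Submodule.mem_map_of_mem (f := D) h3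
      rw [Submodule.map_span] at h5
      refine Submodule.span_le.2 ?_ h5
      rintro _ ⟨_, ⟨h', ⟨σ, B, hB, rfl⟩, w, ⟨Δ, hΔ, hw⟩, rfl⟩, rfl⟩
      -- the factors
      have hw' : IsTateForms τ' χ' (c - m) w := by
        refine h2 _ (c - m) w ⟨Δ, hΔ, fun s hs x => ?_⟩
        have h5 := congrArg (fun g : MultilinearMap k (fun _ : Fin _ => M) k =>
          g (fun i => τ s (x i))) (hw s hs)
        have h6 : ∀ y : M, τ s⁻¹ (τ s y) = y := by
          intro y
          change (τ s⁻¹ * τ s) y = y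
          rw [← map_mul, inv_mul_cancel, map_one]
          rfl
        simp only [formRep_apply, h6] at h5
        change (χ s) ^ c * w x = χ s ^ m * w (fun i => τ s (x i)) at h5
        rw [zpow_sub₀ (hχ0 s), zpow_natCast, div_mul_eq_mul_div, h5,
          mul_div_cancel_left₀ _ (pow_ne_zero m (hχ0 s))]
      obtain ⟨Δ', hΔ', hw'⟩ := hw'
      choose Δ₂ hΔ₂ hB' using fun l => h1 (B l) (hB l)
      have hfin : (Δ' ⊓ ⨅ l, Δ₂ l).FiniteIndex := by
        have h6 := Subgroup.finiteIndex_iInf hΔ₂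
        infer_instance
      refine hgoal _ ⟨_, hfin, fun s hs v x => ?_⟩
      rw [Subgroup.mem_inf] at hs
      have h7 : ∀ v : Fin m × Fin 2 → V, mmG σ B (fun i => ρ' s (v i)) = χ' s ^ m * mmG σ B v := by
        intro v
        rw [mmG_apply, mmG_apply, Finset.prod_congr rfl fun l _ =>
          hB' l s (Subgroup.mem_iInf.1 hs.2 l) _ _, Finset.prod_mul_distrib, Finset.prod_const,
          Finset.card_univ, Fintype.card_fin]
      change mmG σ B (fun i => ρ' s (v (e i))) * w (fun i => τ' s (x i)) =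
        χ' s ^ c * (mmG σ B (fun i => v (e i)) * w x)
      rw [h7, hw' s hs.1, zpow_sub₀ (hχ0' s), zpow_natCast]
      have h8 := pow_ne_zero m (hχ0' s)
      field_simp
    · let e : Fin (2 * m + 1) ≃ Fin s.card := finCongr hm.symm
      have h3 := hs2 m (Φ.domDomCongr e.symm) (hEqv _ (by
        obtain ⟨Δ, hΔ, hΦ⟩ := hΦ
        exact ⟨Δ, hΔ, fun s hs v x => hΦ s hs (fun i => v (e.symm i)) x⟩))
      have h4 : Φ = 0 := by
        refine MultilinearMap.ext fun v => ?_
        have h5 := congrArg (fun g => g (fun i => v (e i))) h3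
        change Φ (fun i => v (e (e.symm i))) = 0 at h5
        have h6 : (fun i => v (e (e.symm i))) = v := by
          funext i
          rw [e.apply_symm_apply]
        rw [h6] at h5
        exact h5
      rw [h4, hback0]
      exact Submodule.zero_mem _
  exact hmain

end

end Pool.Agent.Q70.MM
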