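import Mathlib
import Pool.Agent.Q70.MM.Trans
import Pool.Agent.Q70.MM.ProdDefs
import Pool.Agent.Q70.MM.Prod
import Pool.Agent.Q70.MM.CluTwo
import Pool.Agent.Q70.MM.Three

/-!
# Subvarieties through a point with the same `ℓ`-adic group
-/

set_option autoImplicit false
set_option linter.unusedSectionVars false

namespace Pool.Agent.Q70.MM

open NumberField Module IntermediateField Pool.Agent.H204R3.GP Pool.Agent.TH170
  Pool.Agent.Y137.MV Pool.Agent.Y137.SL Pool.Agent.Y1.CT Pool.Agent.Q70.SQ Pool.Agent.Q306.TP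

section defs

variable {k V M Γ Γ' : Type} [Field k] [AddCommGroup V] [Module k V] [Group Γ] [Group Γ']

/-- `Γ` and `Γ'` have the same Tate classes in the multilinear forms on `V`, in any number of
variables and for all twists. -/
def SameTateClasses (ρ : Representation k Γ V) (χ : Γ →* k) (ρ' : Representation k Γ' V)
    (χ' : Γ' →* k) : Prop :=
  ∀ (b : ℕ) (c : ℤ) (φ : MultilinearMap k (fun _ : Fin b => V) k),
    IsTateForms ρ χ c φ ↔ IsTateForms ρ' χ' c φ

/-- The Hodge classes of degree two (given by `per`) are Tate classes for `Γ'`. -/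
def DivisorsExtend {W T : Type} [AddCommGroup W] [Module ℚ W] [AddCommGroup T] [Module ℂ T]
    [CharZero k] (per : W →+ T) (comp : W →+ V) (ρ' : Representation k Γ' V) (χ' : Γ' →* k) : Prop :=
  ∀ (B : V →ₗ[k] V →ₗ[k] k) (B₀ : W →ₗ[ℚ] W →ₗ[ℚ] ℚ), IsHodgeBilinear per B₀ →
    (∀ x y, B (comp x) (comp y) = ((B₀ x y : ℚ) : k)) →
      ∃ Δ : Subgroup Γ', Δ.FiniteIndex ∧ ∀ s ∈ Δ, ∀ u v, B (ρ' s u) (ρ' s v) = χ' s * B u v

/-- The representations `ρ'`, `τ'`, `χ'` specialize to `ρ`, `τ`, `χ`. -/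
def Specializes [AddCommGroup M] [Module k M] (sp : Γ →* Γ') (ρ : Representation k Γ V)
    (τ : Representation k Γ M) (χ : Γ →* k) (ρ' : Representation k Γ' V)
    (τ' : Representation k Γ' M) (χ' : Γ' →* k) : Prop :=
  ∀ s, ρ' (sp s) = ρ s ∧ τ' (sp s) = τ s ∧ χ' (sp s) = χ s

end defs

/-- For all abelian varieties `B` and points `z` such that a Frobenius element has the Weil numbers
`π i` on the Tate module of `B` and is killed on the `ℓ`-adic realization `M` of `z` by a rational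
polynomial whose complex roots are products of numbers unrelated to the fields `K c` or of smaller
degree, and all subvarieties through `y` and `z` on which the divisor classes of `B` extend and
with the same Tate classes as `z`: the sum has the same Tate classes as at the point. -/
def TransferHolds (p : ℕ) [Fact p.Prime] (a : ℕ) {C : Type} (K : C → Type) [∀ c, Field (K c)]
    [∀ c, NumberField (K c)] {I : Type} [Fintype I]
    (F : I → Type) [∀ i, Field (F i)] [∀ i, NumberField (F i)] [∀ i, IsCMField (F i)]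
    (π : ∀ i, F i) : Prop :=
  ∀ (ℓ : ℕ) [Fact ℓ.Prime] (W T V M Γ Γ' : Type) [AddCommGroup W] [Module ℚ W]
    [AddCommGroup T] [Module ℂ T] [AddCommGroup V] [Module ℚ_[ℓ] V] [FiniteDimensional ℚ_[ℓ] V]
    [AddCommGroup M] [Module ℚ_[ℓ] M] [FiniteDimensional ℚ_[ℓ] M] [Group Γ] [Group Γ']
    (per : W →+ T) (ω₀ : W →ₗ[ℚ] W →ₗ[ℚ] ℚ) (comp : W →+ V) (ρ : Representation ℚ_[ℓ] Γ V)
    (χ : Γ →* ℚ_[ℓ]) (ω : V →ₗ[ℚ_[ℓ]] V →ₗ[ℚ_[ℓ]] ℚ_[ℓ]) (τ : Representation ℚ_[ℓ] Γ M)
    (ρ' : Representation ℚ_[ℓ] Γ' V) (τ' : Representation ℚ_[ℓ] Γ' M) (χ' : Γ' →* ℚ_[ℓ])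
    (sp : Γ →* Γ') (γ : Γ) (f : Polynomial ℚ),
    FT.IsRealization per ω₀ comp ρ χ ω → χ γ = (p : ℚ_[ℓ]) ^ a →
    (ρ γ).charpoly = ∏ i, (minpoly ℚ (π i)).map (algebraMap ℚ ℚ_[ℓ]) → f ≠ 0 →
    Polynomial.aeval (τ γ) (f.map (algebraMap ℚ ℚ_[ℓ])) = 0 → HarmlessProducts K f →
    Specializes sp ρ τ χ ρ' τ' χ' → DivisorsExtend per comp ρ' χ' →
    SameTateClasses τ χ τ' χ' → SameTateClasses (sumRep ρ τ) χ (sumRep ρ' τ') χ'

theorem transferHolds {p : ℕ} [Fact p.Prime] {a : ℕ} {C : Type} {K : C → Type} [∀ c, Field (K c)]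
    [∀ c, NumberField (K c)] [∀ c, IsCMField (K c)] {J : C → Type} [Fintype C]
    [∀ c, Fintype (J c)] {π : ∀ c, J c → K c} (hirr : ∀ c, OddIrreducible (K c))
    (hgen : ∀ i : Σ c, J c, ℚ⟮π i.1 i.2⟯ = ⊤)
    (hw : ∀ i : Σ c, J c, π i.1 i.2 * IsCMField.complexConj (K i.1) (π i.1 i.2) =
      (p : K i.1) ^ a)
    (hang : MaximalAngleRank (p ^ a) (F := fun i : Σ c, J c => K i.1) (fun i => π i.1 i.2)) :
    TransferHolds p a K (fun i : Σ c, J c => K i.1) (fun i => π i.1 i.2) := by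
  intro ℓ _ W T V M Γ Γ' _ _ _ _ _ _ _ _ _ _ _ _ per ω₀ comp ρ χ ω τ ρ' τ' χ' sp γ f hR hχ hγ
    hf0 hfγ hf hsp hD hT b c φ
  constructor
  · have hss' : ∀ Δ : Subgroup Γ, Δ.FiniteIndex → SemiUnder (ρ '' (Δ : Set Γ)) := by
      intro Δ hΔ U hU
      obtain ⟨U', h1, h2⟩ := hR.semisimple Δ hΔ U (fun s hs u hu => hU _ ⟨s, hs, rfl⟩ u hu)
      refine ⟨U', ?_, h2⟩
      rintro _ ⟨s, hs, rfl⟩ u hu
      exact h1 s hs u hu
    have hanti : ∀ u v, ω u v = - ω v u := by
      intro u v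
      have h1 := hR.alternating (u + v)
      simp only [map_add, LinearMap.add_apply, hR.alternating, zero_add, add_zero] at h1
      linear_combination h1
    have hnd' : ∀ u, (∀ v, ω u v = 0) → u = 0 := by
      intro u hu
      apply hR.nondegenerate
      intro v
      rw [hanti, hu, neg_zero]
    refine tate_transfer (F := fun i : Σ c, J c => K i.1) (π := fun i => π i.1 i.2) hgen hw hang ρ τ
      χ ω hR.alternating hR.nondegenerate hR.equivariant hss' γ hχ hγ hf0 hfγ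
      (fun α hα => product_of_harmless hirr (hf α hα)) ρ' τ' χ' (fun B hB => ?_)
      (fun b c w hw => (hT b c w).1 hw) b c φ
    have h1 := tate2_mem per comp ρ χ ω hnd' hR.equivariant ω₀ hR.hodge hR.compatible hR.faltings B
      hB
    have h2 : Submodule.span ℚ_[ℓ] (HB (k := ℚ_[ℓ]) per comp) ≤ tate2Sub ρ' χ' := by
      refine Submodule.span_le.2 ?_
      rintro B' ⟨B₀, h3, h4⟩
      exact hD B' B₀ h3 h4
    exact h2 h1
  · rintro ⟨Δ, hΔ, h⟩
    have hfin : (Δ.comap sp).FiniteIndex := by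
      constructor
      rw [Subgroup.index_comap]
      have h3 : (Δ.subgroupOf sp.range).FiniteIndex := inferInstance
      exact h3.index_ne_zero
    refine ⟨Δ.comap sp, hfin, fun s hs v => ?_⟩
    have h1 := h (sp s) hs v
    have h2 : ∀ x : V × M, sumRep ρ' τ' (sp s) x = sumRep ρ τ s x := by
      intro x
      change ((ρ' (sp s)) x.1, (τ' (sp s)) x.2) = ((ρ s) x.1, (τ s) x.2)
      rw [(hsp s).1, (hsp s).2.1]
    simp only [h2, (hsp s).2.2] at h1
    exact h1

end Pool.Agent.Q70.MM
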