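import Mathlib
import Pool.Agent.Q70.MM.MotSum
import Pool.Agent.Y137.MV.AltM

/-!
# Tate classes on `A ^ n × Y` and push-forward to `Y`
-/

set_option autoImplicit false
set_option linter.unusedSectionVars false

namespace Pool.Agent.Q70.MM

open NumberField Module TensorProduct IntermediateField
open Pool.Agent.H204R3.CM Pool.Agent.H204R3.SP Pool.Agent.H204R3.GP Pool.Agent.Y137.MV
  Pool.Agent.TH170 Pool.Agent.Q306.TP Pool.Agent.Y1.CT

noncomputable section

section split

variable {p : ℕ} [Fact p.Prime] {a : ℕ} {ι : Type} [Fintype ι] {F : ι → Type}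
  [∀ i, Field (F i)] [∀ i, NumberField (F i)] [∀ i, IsCMField (F i)] {π : ∀ i, F i}
  (hgen : ∀ i, ℚ⟮π i⟯ = ⊤)
  (hw : ∀ i, π i * IsCMField.complexConj (F i) (π i) = (p : F i) ^ a)
  (hang : MaximalAngleRank (p ^ a) π)
  {k : Type} [Field k] [CharZero k] {V : Type} [AddCommGroup V] [Module k V]
  [FiniteDimensional k V] {M : Type} [AddCommGroup M] [Module k M] [FiniteDimensional k M]
  {Γ : Type} [Group Γ] (ρ : Representation k Γ V) (τ : Representation k Γ M) (χ : Γ →* k)
  (ω : V →ₗ[k] V →ₗ[k] k) (halt : ∀ v, ω v v = 0) (hnd : ∀ u, (∀ v, ω v u = 0) → u = 0)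
  (hωρ : ∀ s u v, ω (ρ s u) (ρ s v) = χ s * ω u v)
  (hss : ∀ Δ : Subgroup Γ, Δ.FiniteIndex → SemiUnder (ρ '' (Δ : Set Γ)))
  (γ : Γ) (hχ : χ γ = (p : k) ^ a)
  (hγ : (ρ γ).charpoly = ∏ i, (minpoly ℚ (π i)).map (algebraMap ℚ k))
  {f : Polynomial ℚ} (hf0 : f ≠ 0)
  (hfγ : Polynomial.aeval (τ γ) (f.map (algebraMap ℚ k)) = 0)
  (hf : ∀ α : ℂ, Polynomial.aeval α f = 0 → IsProductOfUnrelated F α)

include hgen hw hang halt hnd hωρ hss hχ hγ hf0 hfγ hf in
/-- Equivariant alternating maps. -/
theorem alt_split : (∀ (n m : ℕ) (g : (Fin n → V) [⋀^Fin m × Fin 2]→ₗ[k] M),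
      IsEquivariant ρ τ g → g ∈ Submodule.span k (Products ρ χ τ n m)) ∧
    ∀ (n m : ℕ) (g : (Fin n → V) [⋀^Fin (2 * m + 1)]→ₗ[k] M), IsEquivariant ρ τ g → g = 0 := by
  classical
  have hp0 : p ^ a ≠ 0 := pow_ne_zero a (Fact.out : p.Prime).ne_zero
  have hw' : ∀ i, π i * IsCMField.complexConj (F i) (π i) = ((p ^ a : ℕ) : F i) := fun i => by
    rw [hw]; push_cast; rfl
  obtain ⟨L, hLa, hLb, j, h, hroots⟩ := exists_galois_roots F f hf0
  have hneat : Neat p a π L := neat_of_angle j hang
  have hun : ∀ β : L, Polynomial.aeval β f = 0 → ∀ i, Forces π β i := by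
    intro β hβ i
    have hα : Polynomial.aeval (j β) f = 0 := by
      have h1 := Polynomial.aeval_algHom_apply (RingHom.equivRatAlgHom L ℂ j) β f
      rw [hβ, map_zero] at h1
      exact h1
    exact forces_prod hp0 hw' j h hang β (hf (j β) hα) i
  constructor
  · intro n m g hg
    exact final_step ρ χ τ g hg (fun l => alt_of_comp ρ χ _ (fun c => by
      have h2 := comp_mem (L := L) ρ χ τ hgen hw j h hneat ω halt hnd hωρ hss γ hχ hγ hun hroots
        hfγ (component_eqv hg c) l
      exact h2))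
  · intro n m g hg
    ext v
    have h1 : v = fun l => ∑ i, Pi.single i (v l i) := by
      funext l
      exact (Finset.univ_sum_single (v l)).symm
    have h2 : g v = ∑ c : Fin (2 * m + 1) → Fin n,
        g.toMultilinearMap.compLinearMap
          (fun l => LinearMap.single k (fun _ : Fin n => V) (c l)) (fun l => v l (c l)) := by
      conv_lhs => rw [h1]
      exact g.toMultilinearMap.map_sum (fun l i => Pi.single i (v l i))
    rw [h2]
    refine Finset.sum_eq_zero fun c _ => ?_
    have h3 := odd_zero (L := L) ρ χ τ hgen hw j h hneat ω halt hnd hωρ γ hχ hγ hun hroots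
        hfγ (κ := Fin (2 * m + 1)) (by
          rw [Fintype.card_fin]
          exact ⟨m, rfl⟩) (component_eqv hg c)
    rw [h3]
    rfl

end split

section push

variable {k : Type} [Field k] {V : Type} [AddCommGroup V] [Module k V]
  {M : Type} [AddCommGroup M] [Module k M] [FiniteDimensional k M] {κ : Type} {n : ℕ}

/-- The push-forward to `M` of the `M`-valued form `g` by the functional `φ` on the scalar forms. -/
def push (φ : ((Fin n → V) [⋀^κ]→ₗ[k] k) →ₗ[k] k) : ((Fin n → V) [⋀^κ]→ₗ[k] M) →ₗ[k] M where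
  toFun g := (Module.evalEquiv k M).symm
    { toFun := fun l => φ (l.compAlternatingMap g)
      map_add' := fun l l' => by rw [← map_add]; rfl
      map_smul' := fun c l => by rw [← map_smul]; rfl }
  map_add' g g' := by
    rw [← map_add]
    congr 1
    apply LinearMap.ext
    intro l
    change φ (l.compAlternatingMap (g + g')) = φ (l.compAlternatingMap g) +
      φ (l.compAlternatingMap g')
    rw [← map_add]
    congr 1
    apply AlternatingMap.ext
    intro v
    exact map_add l _ _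
  map_smul' c g := by
    rw [← map_smul]
    congr 1
    apply LinearMap.ext
    intro l
    change φ (l.compAlternatingMap (c • g)) = c • φ (l.compAlternatingMap g)
    rw [← map_smul]
    congr 1
    apply AlternatingMap.ext
    intro v
    exact map_smul l _ _

theorem push_spec (φ : ((Fin n → V) [⋀^κ]→ₗ[k] k) →ₗ[k] k) (g : (Fin n → V) [⋀^κ]→ₗ[k] M)
    (l : M →ₗ[k] k) : l (push φ g) = φ (l.compAlternatingMap g) :=
  Module.apply_evalEquiv_symm_apply k M l _

theorem push_product (φ : ((Fin n → V) [⋀^κ]→ₗ[k] k) →ₗ[k] k) (g : (Fin n → V) [⋀^κ]→ₗ[k] M)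
    (h : (Fin n → V) [⋀^κ]→ₗ[k] k) (w : M) (hg : ∀ v, g v = h v • w) : push φ g = φ h • w := by
  rw [← sub_eq_zero, ← Module.forall_dual_apply_eq_zero_iff k]
  intro l
  rw [map_sub, sub_eq_zero, push_spec, map_smul, smul_eq_mul, mul_comm, ← smul_eq_mul, ← map_smul]
  congr 1
  apply AlternatingMap.ext
  intro v
  change l (g v) = l w • h v
  rw [hg, map_smul, smul_eq_mul, smul_eq_mul, mul_comm]

end push

section components

variable {k : Type} [Field k] [CharZero k] {V : Type} [AddCommGroup V] [Module k V]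
  [FiniteDimensional k V] {M : Type} [AddCommGroup M] [Module k M] [FiniteDimensional k M]
  {Γ : Type} [Group Γ] (ρ : Representation k Γ V) (τ : Representation k Γ M) (χ : Γ →* k)

/-- The vectors on which a subgroup of finite index acts through `χ ^ m`. -/
def tateVec (m : ℕ) : Submodule k M where
  carrier := {w | IsTateVector τ χ m w}
  zero_mem' := ⟨⊤, inferInstance, fun s _ => by rw [map_zero, smul_zero]⟩
  add_mem' := by
    rintro w w' ⟨Δ, hΔ, h⟩ ⟨Δ', hΔ', h'⟩
    refine ⟨Δ ⊓ Δ', inferInstance, fun s hs => ?_⟩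
    rw [Subgroup.mem_inf] at hs
    rw [map_add, h s hs.1, h' s hs.2, smul_add]
  smul_mem' := by
    rintro r w ⟨Δ, hΔ, h⟩
    refine ⟨Δ, hΔ, fun s hs => ?_⟩
    rw [map_smul, h s hs, smul_comm]

/-- **The components of a Tate class on `A ^ n × Y` are push-forwards.** -/
theorem components {n m : ℕ} {g : (Fin n → V) [⋀^Fin m × Fin 2]→ₗ[k] M}
    (hg : g ∈ Submodule.span k (Products ρ χ τ n m))
    (Φ : Submodule k (((Fin n → V) [⋀^Fin m × Fin 2]→ₗ[k] k) →ₗ[k] k))
    (hsep : ∀ f ∈ Submodule.span k (Wedges ρ χ (V := V) n m), (∀ φ ∈ Φ, φ f = 0) → f = 0) :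
    g ∈ Submodule.span k {h : (Fin n → V) [⋀^Fin m × Fin 2]→ₗ[k] M |
      ∃ f ∈ Wedges ρ χ (V := V) n m, ∃ φ ∈ Φ, IsTateVector τ χ m (push φ g) ∧
        ∀ v, h v = f v • push φ g} := by
  classical
  obtain ⟨S, hS1, hS2, hS3⟩ := exists_linearIndependent k (Wedges ρ χ (V := V) n m)
  have hfin : Finite S := hS3.finite
  have _ : Fintype S := Fintype.ofFinite S
  have hsum : ∀ (G : S → (Fin n → V) [⋀^Fin m × Fin 2]→ₗ[k] k) v, (∑ s, G s) v = ∑ s, G s v := by
    intro G v
    exact map_sum ({ toFun := fun F => F v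
                     map_zero' := rfl
                     map_add' := fun _ _ => rfl } :
      ((Fin n → V) [⋀^Fin m × Fin 2]→ₗ[k] k) →+ k) G Finset.univ
  have hsumM : ∀ (G : S → (Fin n → V) [⋀^Fin m × Fin 2]→ₗ[k] M) v, (∑ s, G s) v = ∑ s, G s v := by
    intro G v
    exact map_sum ({ toFun := fun F => F v
                     map_zero' := rfl
                     map_add' := fun _ _ => rfl } :
      ((Fin n → V) [⋀^Fin m × Fin 2]→ₗ[k] M) →+ M) G Finset.univ
  -- the decomposition
  have hdec : ∃ u : S → M, (∀ s, u s ∈ tateVec τ χ m) ∧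
      g = ∑ s : S, (LinearMap.toSpanSingleton k M (u s)).compAlternatingMap
        (s : (Fin n → V) [⋀^Fin m × Fin 2]→ₗ[k] k) := by
    induction hg using Submodule.span_induction with
    | mem g hg =>
      obtain ⟨f, hf, w, hw, hgv⟩ := hg
      have h1 : f ∈ Submodule.span k (Set.range ((↑) : S →
          ((Fin n → V) [⋀^Fin m × Fin 2]→ₗ[k] k))) := by
        rw [Subtype.range_coe, hS2]
        exact Submodule.subset_span hf
      obtain ⟨c, hc⟩ := (Submodule.mem_span_range_iff_exists_fun k).1 h1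
      refine ⟨fun s => c s • w, fun s => Submodule.smul_mem _ _ hw, ?_⟩
      apply AlternatingMap.ext
      intro v
      rw [hsumM, hgv, ← hc, hsum, Finset.sum_smul]
      refine Finset.sum_congr rfl fun s _ => ?_
      change (c s • (s : (Fin n → V) [⋀^Fin m × Fin 2]→ₗ[k] k) v) • w = _
      change _ = (s : (Fin n → V) [⋀^Fin m × Fin 2]→ₗ[k] k) v • (c s • w)
      rw [smul_smul, smul_eq_mul, mul_comm]
    | zero =>
      refine ⟨0, fun s => Submodule.zero_mem _, ?_⟩
      apply AlternatingMap.ext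
      intro v
      rw [hsumM]
      symm
      refine Finset.sum_eq_zero fun s _ => ?_
      change (s : (Fin n → V) [⋀^Fin m × Fin 2]→ₗ[k] k) v • (0 : M) = 0
      exact smul_zero _
    | add g g' _ _ h h' =>
      obtain ⟨u, hu, hg⟩ := h
      obtain ⟨u', hu', hg'⟩ := h'
      refine ⟨u + u', fun s => Submodule.add_mem _ (hu s) (hu' s), ?_⟩
      conv_lhs => rw [hg, hg']
      rw [← Finset.sum_add_distrib]
      refine Finset.sum_congr rfl fun s _ => ?_
      apply AlternatingMap.ext
      intro v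
      change (s : (Fin n → V) [⋀^Fin m × Fin 2]→ₗ[k] k) v • u s +
        (s : (Fin n → V) [⋀^Fin m × Fin 2]→ₗ[k] k) v • u' s =
        (s : (Fin n → V) [⋀^Fin m × Fin 2]→ₗ[k] k) v • (u s + u' s)
      rw [smul_add]
    | smul r g _ h =>
      obtain ⟨u, hu, hg⟩ := h
      refine ⟨r • u, fun s => Submodule.smul_mem _ _ (hu s), ?_⟩
      conv_lhs => rw [hg]
      rw [Finset.smul_sum]
      refine Finset.sum_congr rfl fun s _ => ?_
      apply AlternatingMap.ext
      intro v
      change r • ((s : (Fin n → V) [⋀^Fin m × Fin 2]→ₗ[k] k) v • u s) =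
        (s : (Fin n → V) [⋀^Fin m × Fin 2]→ₗ[k] k) v • (r • u s)
      rw [smul_comm]
  obtain ⟨u, hu, hgu⟩ := hdec
  -- the dual functionals
  have hφ : ∀ s : S, ∃ φ ∈ Φ, ∀ s' : S, φ (s' : (Fin n → V) [⋀^Fin m × Fin 2]→ₗ[k] k) =
      if s' = s then 1 else 0 := by
    intro s
    set N := Submodule.span k (Set.range ((↑) : S →
      ((Fin n → V) [⋀^Fin m × Fin 2]→ₗ[k] k))) with hN
    have hNW : N = Submodule.span k (Wedges ρ χ (V := V) n m) := by
      rw [hN, Subtype.range_coe, hS2]
    let r : Φ →ₗ[k] Dual k N :=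
      { toFun := fun φ => (φ : ((Fin n → V) [⋀^Fin m × Fin 2]→ₗ[k] k) →ₗ[k] k).comp N.subtype
        map_add' := fun _ _ => rfl
        map_smul' := fun _ _ => rfl }
    have hr : LinearMap.range r = ⊤ := by
      have h1 : (LinearMap.range r).dualCoannihilator = ⊥ := by
        rw [eq_bot_iff]
        intro x hx
        rw [Submodule.mem_bot]
        apply Subtype.ext
        refine hsep x (hNW ▸ x.2) fun φ hφ => ?_
        rw [Submodule.mem_dualCoannihilator] at hx
        exact hx (r ⟨φ, hφ⟩) ⟨⟨φ, hφ⟩, rfl⟩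
      have h2 : (LinearMap.range r).dualCoannihilator.dualAnnihilator = LinearMap.range r :=
        Subspace.dualCoannihilator_dualAnnihilator_eq (K := k) (V := N)
      rw [h1, Submodule.dualAnnihilator_bot] at h2
      exact h2.symm
    let b : Basis S k N := Basis.span hS3
    have h1 : b.coord s ∈ LinearMap.range r := by rw [hr]; exact Submodule.mem_top
    obtain ⟨⟨φ, hφ⟩, hφr⟩ := h1
    refine ⟨φ, hφ, fun s' => ?_⟩
    have h2 := congrArg (fun z => z (b s')) hφr
    have h3 : ((b s' : N) : (Fin n → V) [⋀^Fin m × Fin 2]→ₗ[k] k) = s' := by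
      exact congrArg Subtype.val (Basis.span_apply hS3 s')
    change φ ((b s' : N) : (Fin n → V) [⋀^Fin m × Fin 2]→ₗ[k] k) = b.coord s (b s') at h2
    rw [h3] at h2
    rw [h2, Basis.coord_apply, Basis.repr_self, Finsupp.single_apply]
  choose φ hφΦ hφS using hφ
  have hpush : ∀ s, push (φ s) g = u s := by
    intro s
    rw [hgu, map_sum, Finset.sum_congr rfl fun (s' : S) _ => push_product (φ s) _
      (s' : (Fin n → V) [⋀^Fin m × Fin 2]→ₗ[k] k) (u s') fun v => rfl]
    rw [Finset.sum_eq_single s]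
    · rw [hφS, if_pos rfl, one_smul]
    · intro s' _ hs'
      rw [hφS, if_neg hs', zero_smul]
    · intro h
      exact absurd (Finset.mem_univ _) h
  have hmem : ∀ s : S, (LinearMap.toSpanSingleton k M (u s)).compAlternatingMap
      (s : (Fin n → V) [⋀^Fin m × Fin 2]→ₗ[k] k) ∈
      {h : (Fin n → V) [⋀^Fin m × Fin 2]→ₗ[k] M |
        ∃ f ∈ Wedges ρ χ (V := V) n m, ∃ φ ∈ Φ, IsTateVector τ χ m (push φ g) ∧
        ∀ v, h v = f v • push φ g} := by
    intro s
    refine ⟨s, hS1 s.2, φ s, hφΦ s, ?_, fun v => ?_⟩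
    · rw [hpush]; exact hu s
    · rw [hpush]; rfl
  have h9 : (∑ s : S, (LinearMap.toSpanSingleton k M (u s)).compAlternatingMap
      (s : (Fin n → V) [⋀^Fin m × Fin 2]→ₗ[k] k)) ∈ Submodule.span k
      {h : (Fin n → V) [⋀^Fin m × Fin 2]→ₗ[k] M |
        ∃ f ∈ Wedges ρ χ (V := V) n m, ∃ φ ∈ Φ, IsTateVector τ χ m (push φ g) ∧
        ∀ v, h v = f v • push φ g} :=
    Submodule.sum_mem _ fun s _ => Submodule.subset_span (hmem s)
  rwa [← hgu] at h9

end components

end

end Pool.Agent.Q70.MM
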