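import Mathlib
import Pool.Agent.Q70.MM.Vhc
import Pool.Agent.Q70.MM.ProdDefs
import Pool.Agent.Q70.MM.Prod
import Pool.Agent.Q70.MM.CluTwo
import Pool.Agent.Q70.MM.Three
import Pool.Agent.TH170.FT.TateDefs

/-!
# The variational Hodge conjecture for `A ^ n ×_S Y`: definitions and main theorem
-/

set_option autoImplicit false
set_option linter.unusedSectionVars false

namespace Pool.Agent.Q70.MM

open NumberField Module IntermediateField Pool.Agent.H204R3.GP Pool.Agent.TH170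
  Pool.Agent.Y137.MV Pool.Agent.Y137.SL Pool.Agent.Y1.CT Pool.Agent.Q70.SQ Pool.Agent.Q306.TP

section defs

variable {k V M Γ : Type} [Field k] [AddCommGroup V] [Module k V] [AddCommGroup M] [Module k M]
  [Group Γ] {n m : ℕ}

/-- The alternating form `f` is a product of `m` classes of degree two on `A ^ n`, on each of which a
subgroup of finite index acts through the cyclotomic character (by the theorem of Faltings they are
combinations of classes of divisors). -/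
def IsDivisorProduct (ρ : Representation k Γ V) (χ : Γ →* k)
    (f : (Fin n → V) [⋀^Fin m × Fin 2]→ₗ[k] k) : Prop :=
  ∃ B : Fin m → (Fin n → V) [⋀^Fin 2]→ₗ[k] k, (∀ l, IsTateForm ρ χ (B l)) ∧
    ∀ v, f v = ∑ σ : Equiv.Perm (Fin m × Fin 2), ((Equiv.Perm.sign σ : ℤ) : k) *
      ∏ l, B l ![v (σ (l, 0)), v (σ (l, 1))]

/-- The properties of algebraic cycles on the generic fibre of `A ^ n ×_S Y` and on its fibre over a
point `0` of `S`. `Φ` is the set of the functionals `f ↦ ∫ f ∧ β` on the cohomology of `A ^ n`, where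
`β` is a product of classes of divisors of complementary degree. -/
structure IsCycleSystem (ρ : Representation k Γ V) (χ : Γ →* k)
    (Φ : Set (((Fin n → V) [⋀^Fin m × Fin 2]→ₗ[k] k) →ₗ[k] k))
    (Xη X0 : Submodule k ((Fin n → V) [⋀^Fin m × Fin 2]→ₗ[k] M)) (Yη Y0 : Submodule k M) :
    Prop where
  /-- products of divisor classes on `A ^ n` and of cycle classes on `Y` are cycle classes -/
  product : ∀ (f : (Fin n → V) [⋀^Fin m × Fin 2]→ₗ[k] k) (w : M)
    (g : (Fin n → V) [⋀^Fin m × Fin 2]→ₗ[k] M), IsDivisorProduct ρ χ f → w ∈ Yη →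
      (∀ v, g v = f v • w) → g ∈ Xη
  /-- push-forwards to `Y` of products with divisor classes on `A ^ n` are cycle classes -/
  push : ∀ φ ∈ Φ, ∀ g ∈ X0, ∀ w : M, (∀ l : M →ₗ[k] k, l w = φ (l.compAlternatingMap g)) → w ∈ Y0
  /-- numerical and homological equivalence agree for products of divisors on `A ^ n` -/
  pairing : ∀ f ∈ Submodule.span k {f : (Fin n → V) [⋀^Fin m × Fin 2]→ₗ[k] k |
    IsDivisorProduct ρ χ f}, (∀ φ ∈ Φ, φ f = 0) → f = 0

end defs

/-- For all abelian schemes `A` and families `Y` over a base such that a Frobenius element at one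
closed point has the Weil numbers `π i` on the Tate module of `A` and is killed on the cohomology
`M` of `Y` by a rational polynomial whose complex roots are products of numbers unrelated to the
fields `K c` or of smaller degree: the variational conjecture for `Y` implies the one for
`A ^ n ×_S Y`. -/
def VariationalHolds (p : ℕ) [Fact p.Prime] (a : ℕ) {C : Type} (K : C → Type) [∀ c, Field (K c)]
    [∀ c, NumberField (K c)] {I : Type} [Fintype I]
    (F : I → Type) [∀ i, Field (F i)] [∀ i, NumberField (F i)] [∀ i, IsCMField (F i)]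
    (π : ∀ i, F i) : Prop :=
  ∀ (ℓ : ℕ) [Fact ℓ.Prime] (V M Γ : Type) [AddCommGroup V] [Module ℚ_[ℓ] V]
    [FiniteDimensional ℚ_[ℓ] V] [AddCommGroup M] [Module ℚ_[ℓ] M] [FiniteDimensional ℚ_[ℓ] M]
    [Group Γ] (ρ : Representation ℚ_[ℓ] Γ V) (χ : Γ →* ℚ_[ℓ]) (ω : V →ₗ[ℚ_[ℓ]] V →ₗ[ℚ_[ℓ]] ℚ_[ℓ])
    (τ : Representation ℚ_[ℓ] Γ M) (γ : Γ) (f : Polynomial ℚ),
    FT.IsTateModule ρ χ ω → χ γ = (p : ℚ_[ℓ]) ^ a →
    (ρ γ).charpoly = ∏ i, (minpoly ℚ (π i)).map (algebraMap ℚ ℚ_[ℓ]) → f ≠ 0 →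
    Polynomial.aeval (τ γ) (f.map (algebraMap ℚ ℚ_[ℓ])) = 0 → HarmlessProducts K f →
    (∀ (n m : ℕ) (Φ : Set (((Fin n → V) [⋀^Fin m × Fin 2]→ₗ[ℚ_[ℓ]] ℚ_[ℓ]) →ₗ[ℚ_[ℓ]] ℚ_[ℓ]))
      (Xη X0 : Submodule ℚ_[ℓ] ((Fin n → V) [⋀^Fin m × Fin 2]→ₗ[ℚ_[ℓ]] M))
      (Yη Y0 : Submodule ℚ_[ℓ] M), IsCycleSystem ρ χ Φ Xη X0 Yη Y0 →
      (∀ w ∈ Y0, IsTateVector τ χ m w → w ∈ Yη) →
      ∀ g ∈ X0, IsEquivariant ρ τ g → g ∈ Xη) ∧
    ∀ (n m : ℕ) (g : (Fin n → V) [⋀^Fin (2 * m + 1)]→ₗ[ℚ_[ℓ]] M), IsEquivariant ρ τ g → g = 0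

theorem semi_of {ℓ : ℕ} [Fact ℓ.Prime] {V Γ : Type} [AddCommGroup V] [Module ℚ_[ℓ] V]
    [Group Γ] {ρ : Representation ℚ_[ℓ] Γ V} {χ : Γ →* ℚ_[ℓ]} {ω : V →ₗ[ℚ_[ℓ]] V →ₗ[ℚ_[ℓ]] ℚ_[ℓ]}
    (hR : FT.IsTateModule ρ χ ω) (Δ : Subgroup Γ) (hΔ : Δ.FiniteIndex) :
    SemiUnder (ρ '' (Δ : Set Γ)) := by
  intro U hU
  obtain ⟨U', h1, h2⟩ := hR.semisimple Δ hΔ U (fun s hs u hu => hU _ ⟨s, hs, rfl⟩ u hu)
  refine ⟨U', ?_, h2⟩
  rintro _ ⟨s, hs, rfl⟩ u hu
  exact h1 s hs u hu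

theorem variationalHolds {p : ℕ} [Fact p.Prime] {a : ℕ} {C : Type} {K : C → Type}
    [∀ c, Field (K c)] [∀ c, NumberField (K c)] [∀ c, IsCMField (K c)] {J : C → Type} [Fintype C]
    [∀ c, Fintype (J c)] {π : ∀ c, J c → K c} (hirr : ∀ c, OddIrreducible (K c))
    (hgen : ∀ i : Σ c, J c, ℚ⟮π i.1 i.2⟯ = ⊤)
    (hw : ∀ i : Σ c, J c, π i.1 i.2 * IsCMField.complexConj (K i.1) (π i.1 i.2) =
      (p : K i.1) ^ a)
    (hang : MaximalAngleRank (p ^ a) (F := fun i : Σ c, J c => K i.1) (fun i => π i.1 i.2)) :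
    VariationalHolds p a K (fun i : Σ c, J c => K i.1) (fun i => π i.1 i.2) := by
  intro ℓ _ V M Γ _ _ _ _ _ _ _ ρ χ ω τ γ f hR hχ hγ hf0 hfγ hf
  obtain ⟨h1, h2⟩ := alt_split (F := fun i : Σ c, J c => K i.1) (π := fun i => π i.1 i.2) hgen hw
    hang ρ τ χ ω hR.alternating hR.nondegenerate hR.equivariant (semi_of hR) γ hχ hγ hf0 hfγ
    (fun α hα => product_of_harmless hirr (hf α hα))
  refine ⟨fun n m Φ Xη X0 Yη Y0 hS hY g hg0 hg => ?_, h2⟩
  have h3 := components ρ τ χ (h1 n m g hg) (Submodule.span ℚ_[ℓ] Φ) (by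
    intro f hf hΦ
    exact hS.pairing f hf fun φ hφ => hΦ φ (Submodule.subset_span hφ))
  refine Submodule.span_le.2 ?_ h3
  rintro h ⟨f, hf, φ, hφ, hT, hh⟩
  refine hS.product f (push φ g) h hf (hY _ ?_ hT) hh
  -- the push-forward is algebraic at `0`
  have h4 : ∀ φ ∈ Submodule.span ℚ_[ℓ] Φ, push φ g ∈ Y0 := by
    intro φ hφ
    induction hφ using Submodule.span_induction with
    | mem φ hφ => exact hS.push φ hφ g hg0 _ fun l => push_spec φ g l
    | zero =>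
      have h5 : push (0 : ((Fin n → V) [⋀^Fin m × Fin 2]→ₗ[ℚ_[ℓ]] ℚ_[ℓ]) →ₗ[ℚ_[ℓ]] ℚ_[ℓ]) g = 0 := by
        rw [← Module.forall_dual_apply_eq_zero_iff ℚ_[ℓ]]
        intro l
        rw [push_spec]
        rfl
      rw [h5]
      exact Submodule.zero_mem _
    | add φ ψ _ _ h h' =>
      have h5 : push (φ + ψ) g = push φ g + push ψ g := by
        rw [← sub_eq_zero, ← Module.forall_dual_apply_eq_zero_iff ℚ_[ℓ]]
        intro l
        rw [map_sub, map_add, push_spec, push_spec, push_spec]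
        exact sub_self _
      rw [h5]
      exact Submodule.add_mem _ h h'
    | smul r φ _ h =>
      have h5 : push (r • φ) g = r • push φ g := by
        rw [← sub_eq_zero, ← Module.forall_dual_apply_eq_zero_iff ℚ_[ℓ]]
        intro l
        rw [map_sub, map_smul, push_spec, push_spec]
        exact sub_self _
      rw [h5]
      exact Submodule.smul_mem _ _ h
  exact h4 φ hφ

end Pool.Agent.Q70.MM
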