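import Mathlib
import Pool.Agent.Q70.MM.VhcDefs

/-!
# The noncommutative variational Hodge conjecture for `perf (A ^ n) ⊗ 𝒞`: definitions and theorem
-/

set_option autoImplicit false
set_option linter.unusedSectionVars false

namespace Pool.Agent.Q70.MM

open NumberField Module IntermediateField Pool.Agent.H204R3.GP Pool.Agent.TH170
  Pool.Agent.Y137.MV Pool.Agent.Y137.SL Pool.Agent.Y1.CT Pool.Agent.Q70.SQ Pool.Agent.Q306.TP

section twist

variable {k M Γ : Type} [Field k] [AddCommGroup M] [Module k M] [Group Γ]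

/-- The twist of the representation `τ` by `χ ^ m`. -/
noncomputable def twist (τ : Representation k Γ M) (χ : Γ →* k) (m : ℕ) : Representation k Γ M where
  toFun s := χ s ^ m • τ s
  map_one' := by rw [map_one, map_one, one_pow, one_smul]
  map_mul' s t := by
    rw [map_mul, map_mul, mul_pow]
    apply LinearMap.ext
    intro v
    change (χ s ^ m * χ t ^ m) • τ s (τ t v) = χ s ^ m • τ s (χ t ^ m • τ t v)
    rw [map_smul, smul_smul]

/-- A subgroup of finite index fixes the vector `w`. -/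
def IsInvariant (τ : Representation k Γ M) (w : M) : Prop :=
  ∃ Δ : Subgroup Γ, Δ.FiniteIndex ∧ ∀ s ∈ Δ, τ s w = w

theorem invariant_of_twist {τ : Representation k Γ M} {χ : Γ →* k} {m : ℕ} {w : M}
    (h : IsTateVector (twist τ χ m) χ m w) : IsInvariant τ w := by
  obtain ⟨Δ, hΔ, h⟩ := h
  refine ⟨Δ, hΔ, fun s hs => ?_⟩
  have h1 : χ s ^ m • τ s w = χ s ^ m • w := h s hs
  have h2 : χ s ^ m ≠ 0 := pow_ne_zero m (by
    have h3 : IsUnit (χ s) := (Group.isUnit s).map χ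
    exact h3.ne_zero)
  exact smul_right_injective M h2 h1

end twist

/-- The twist of a polynomial: if `f` kills `T` then the twist kills `c * T`. -/
noncomputable def scaled (f : Polynomial ℚ) (c : ℚ) : Polynomial ℚ :=
  f.comp (Polynomial.C c⁻¹ * Polynomial.X)

theorem scaled_ne_zero {f : Polynomial ℚ} (hf : f ≠ 0) {c : ℚ} (hc : c ≠ 0) : scaled f c ≠ 0 := by
  intro h
  refine hf ?_
  have h1 : (scaled f c).comp (Polynomial.C c * Polynomial.X) = f := by
    unfold scaled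
    rw [Polynomial.comp_assoc]
    have h2 : (Polynomial.C c⁻¹ * Polynomial.X : Polynomial ℚ).comp
        (Polynomial.C c * Polynomial.X) = Polynomial.X := by
      rw [Polynomial.mul_comp, Polynomial.C_comp, Polynomial.X_comp, ← mul_assoc, ← Polynomial.C_mul,
        inv_mul_cancel₀ hc, Polynomial.C_1, one_mul]
    rw [h2, Polynomial.comp_X]
  rw [← h1, h, Polynomial.zero_comp]

theorem scaled_kills {k M : Type} [Field k] [CharZero k] [AddCommGroup M] [Module k M]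
    {f : Polynomial ℚ} {c : ℚ} (hc : c ≠ 0) {T : M →ₗ[k] M}
    (h : Polynomial.aeval T (f.map (algebraMap ℚ k)) = 0) :
    Polynomial.aeval ((c : k) • T) ((scaled f c).map (algebraMap ℚ k)) = 0 := by
  have h1 : (scaled f c).map (algebraMap ℚ k) =
      (f.map (algebraMap ℚ k)).comp (Polynomial.C (c : k)⁻¹ * Polynomial.X) := by
    unfold scaled
    rw [Polynomial.map_comp, Polynomial.map_mul, Polynomial.map_C, Polynomial.map_X, map_inv₀,
      eq_ratCast]
  rw [h1, Polynomial.aeval_comp]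
  have h2 : Polynomial.aeval ((c : k) • T) (Polynomial.C (c : k)⁻¹ * Polynomial.X) = T := by
    rw [map_mul, Polynomial.aeval_C, Polynomial.aeval_X, ← Algebra.smul_def, smul_smul,
      inv_mul_cancel₀ (Rat.cast_ne_zero.2 hc), one_smul]
  rw [h2, h]

theorem unrelated_of_rat (K : Type) [Field K] (c : ℚ) : UnrelatedTo K (c : ℂ) := by
  intro n hodd hinv
  funext φ
  have h1 := hinv (starRingAut (R := ℂ)) ⟨1, one_pos, by
    rw [pow_one]
    change (starRingEnd ℂ) (c : ℂ) = c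
    exact map_ratCast _ c⟩ φ
  have h2 : ((starRingAut (R := ℂ) : ℂ ≃+* ℂ) : ℂ →+* ℂ).comp φ = ComplexEmbedding.conjugate φ := rfl
  rw [h2, hodd] at h1
  change n φ = 0
  linarith

theorem harmless_scaled {C : Type} {K : C → Type} [∀ c, Field (K c)] [∀ c, NumberField (K c)]
    {f : Polynomial ℚ} (hf : HarmlessProducts K f) {q : ℚ} (hq : q ≠ 0) :
    HarmlessProducts K (scaled f q) := by
  intro ρ hρ
  have hqC : (q : ℂ) ≠ 0 := Rat.cast_ne_zero.2 hq
  have h1 : Polynomial.aeval ((q : ℂ)⁻¹ * ρ) f = 0 := by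
    have h2 : Polynomial.aeval ρ (scaled f q) = Polynomial.aeval ((q : ℂ)⁻¹ * ρ) f := by
      unfold scaled
      rw [Polynomial.aeval_comp, map_mul, Polynomial.aeval_C, Polynomial.aeval_X, eq_ratCast,
        Rat.cast_inv]
    rw [← h2, hρ]
  obtain ⟨h2, t, y, hy, hρy⟩ := hf _ h1
  refine ⟨fun h => h2 (by rw [h, mul_zero]), t + 1, Fin.cons (q : ℂ) y, fun l => ?_, ?_⟩
  · refine Fin.cases ?_ (fun l => ?_) l
    · exact ⟨isAlgebraic_algebraMap q, fun c => Or.inl (unrelated_of_rat (K c) q)⟩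
    · exact hy l
  · rw [Fin.prod_univ_succ]
    change ρ = (q : ℂ) * ∏ l, y l
    rw [← hρy, ← mul_assoc, mul_inv_cancel₀ hqC, one_mul]

section defs

variable {k V M₀ M₁ Γ : Type} [Field k] [AddCommGroup V] [Module k V] [AddCommGroup M₀]
  [Module k M₀] [AddCommGroup M₁] [Module k M₁] [Group Γ] {n D : ℕ}

/-- The topological `K`-theory of `perf (A ^ n) ⊗ 𝒞` with `ℓ`-adic coefficients, by the Künneth formula:
`M₀` and `M₁` are the groups `K_0` and `K_1` of `𝒞`. -/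
def KClass (k V M₀ M₁ : Type) [Field k] [AddCommGroup V] [Module k V] [AddCommGroup M₀]
    [Module k M₀] [AddCommGroup M₁] [Module k M₁] (n D : ℕ) : Type :=
  (∀ m : Fin D, (Fin n → V) [⋀^Fin (m : ℕ) × Fin 2]→ₗ[k] M₀) ×
    (∀ m : Fin D, (Fin n → V) [⋀^Fin (2 * (m : ℕ) + 1)]→ₗ[k] M₁)

noncomputable instance : AddCommGroup (KClass k V M₀ M₁ n D) :=
  inferInstanceAs (AddCommGroup ((∀ m : Fin D, (Fin n → V) [⋀^Fin (m : ℕ) × Fin 2]→ₗ[k] M₀) ×
    (∀ m : Fin D, (Fin n → V) [⋀^Fin (2 * (m : ℕ) + 1)]→ₗ[k] M₁)))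

noncomputable instance : Module k (KClass k V M₀ M₁ n D) :=
  inferInstanceAs (Module k ((∀ m : Fin D, (Fin n → V) [⋀^Fin (m : ℕ) × Fin 2]→ₗ[k] M₀) ×
    (∀ m : Fin D, (Fin n → V) [⋀^Fin (2 * (m : ℕ) + 1)]→ₗ[k] M₁)))

/-- The component of degree `2 m`. -/
def KClass.even (G : KClass k V M₀ M₁ n D) (m : Fin D) :
    (Fin n → V) [⋀^Fin (m : ℕ) × Fin 2]→ₗ[k] M₀ := G.1 m

/-- The component of degree `2 m + 1`. -/
def KClass.odd (G : KClass k V M₀ M₁ n D) (m : Fin D) :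
    (Fin n → V) [⋀^Fin (2 * (m : ℕ) + 1)]→ₗ[k] M₁ := G.2 m

/-- The functionals on the alternating forms of degree `2 m` on `V ^ n`. -/
abbrev Func (k V : Type) [Field k] [AddCommGroup V] [Module k V] (n m : ℕ) : Type :=
  ((Fin n → V) [⋀^Fin m × Fin 2]→ₗ[k] k) →ₗ[k] k

/-- All components of the class `G` are equivariant, with the twists, under subgroups of finite
index. -/
def IsFlatClass (ρ : Representation k Γ V) (χ : Γ →* k) (τ₀ : Representation k Γ M₀)
    (τ₁ : Representation k Γ M₁) (G : KClass k V M₀ M₁ n D) : Prop :=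
  (∀ m : Fin D, IsEquivariant ρ (twist τ₀ χ (m : ℕ)) (G.even m)) ∧
    ∀ m : Fin D, IsEquivariant ρ (twist τ₁ χ (m : ℕ)) (G.odd m)

/-- The class `G` is the exterior product of a product `f` of `m` divisor classes on `A ^ n` and of
`w`. -/
def IsExterior (ρ : Representation k Γ V) (χ : Γ →* k) (w : M₀) (G : KClass k V M₀ M₁ n D) : Prop :=
  ∃ (m : Fin D) (f : (Fin n → V) [⋀^Fin (m : ℕ) × Fin 2]→ₗ[k] k), IsDivisorProduct ρ χ f ∧
    (∀ v, G.even m v = f v • w) ∧ (∀ m', m' ≠ m → G.even m' = 0) ∧ ∀ m', G.odd m' = 0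

/-- The vector `w` is the value of the functional `φ` at the form `g` with values in `M₀`. -/
def IsPush {m : ℕ} (φ : Func k V n m) (g : (Fin n → V) [⋀^Fin m × Fin 2]→ₗ[k] M₀) (w : M₀) : Prop :=
  ∀ l : M₀ →ₗ[k] k, l w = φ (l.compAlternatingMap g)

/-- The functionals in `Φ` separate the combinations of products of divisor classes. -/
def SeparatesProducts (ρ : Representation k Γ V) (χ : Γ →* k) {m : ℕ} (Φ : Set (Func k V n m)) :
    Prop :=
  ∀ f ∈ Submodule.span k {f : (Fin n → V) [⋀^Fin m × Fin 2]→ₗ[k] k | IsDivisorProduct ρ χ f},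
    (∀ φ ∈ Φ, φ f = 0) → f = 0

/-- The properties of algebraic classes in the `K`-theory of `perf (A ^ n) ⊗ 𝒞` and of `𝒞`, over the
generic point of `S` and over a point `0` of `S`. `Φ m` is the set of the functionals `f ↦ ∫ f ∧ β` on
the cohomology of degree `2 m` of `A ^ n`, where `β` is a product of classes of divisors of
complementary degree. -/
structure IsKCycleSystem (ρ : Representation k Γ V) (χ : Γ →* k)
    (Φ : ∀ m : Fin D, Set (Func k V n m))
    (Xη X0 : Submodule k (KClass k V M₀ M₁ n D)) (Yη Y0 : Submodule k M₀) : Prop where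
  /-- exterior products of products of divisor classes on `A ^ n` and of algebraic classes of `𝒞` -/
  product : ∀ w ∈ Yη, ∀ G : KClass k V M₀ M₁ n D, IsExterior ρ χ w G → G ∈ Xη
  /-- push-forwards to `𝒞` of products with divisor classes on `A ^ n` are algebraic -/
  push : ∀ (m : Fin D), ∀ φ ∈ Φ m, ∀ G ∈ X0, ∀ w : M₀, IsPush φ (G.even m) w → w ∈ Y0
  /-- numerical and homological equivalence agree for products of divisors on `A ^ n` -/
  pairing : ∀ (m : Fin D), SeparatesProducts ρ χ (Φ m)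

/-- The variational conjecture for `𝒞` implies the one for `perf (A ^ n) ⊗ 𝒞`, for all `n` and all
systems of algebraic classes. -/
def TransfersToProducts (ρ : Representation k Γ V) (χ : Γ →* k) (τ₀ : Representation k Γ M₀)
    (τ₁ : Representation k Γ M₁) : Prop :=
  ∀ (n D : ℕ) (Φ : ∀ m : Fin D, Set (Func k V n m)) (Xη X0 : Submodule k (KClass k V M₀ M₁ n D))
    (Yη Y0 : Submodule k M₀), IsKCycleSystem ρ χ Φ Xη X0 Yη Y0 →
      (∀ w ∈ Y0, IsInvariant τ₀ w → w ∈ Yη) → ∀ G ∈ X0, IsFlatClass ρ χ τ₀ τ₁ G → G ∈ Xη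

end defs

/-- For all abelian schemes `A` over `S` and `S`-linear categories `𝒞` such that a Frobenius element
at one closed point has the Weil numbers `π i` on the Tate module of `A` and is killed on the groups
`K_0` and `K_1` of `𝒞` by a rational polynomial whose complex roots are products of numbers unrelated
to the fields `K c` or of smaller degree: the variational conjecture for `𝒞` implies the one for
`perf (A ^ n) ⊗ 𝒞`. -/
def NCVariationalHolds (p : ℕ) [Fact p.Prime] (a : ℕ) {C : Type} (K : C → Type) [∀ c, Field (K c)]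
    [∀ c, NumberField (K c)] {I : Type} [Fintype I]
    (F : I → Type) [∀ i, Field (F i)] [∀ i, NumberField (F i)] [∀ i, IsCMField (F i)]
    (π : ∀ i, F i) : Prop :=
  ∀ (ℓ : ℕ) [Fact ℓ.Prime] (V M₀ M₁ Γ : Type) [AddCommGroup V] [Module ℚ_[ℓ] V]
    [FiniteDimensional ℚ_[ℓ] V] [AddCommGroup M₀] [Module ℚ_[ℓ] M₀] [FiniteDimensional ℚ_[ℓ] M₀]
    [AddCommGroup M₁] [Module ℚ_[ℓ] M₁] [FiniteDimensional ℚ_[ℓ] M₁]
    [Group Γ] (ρ : Representation ℚ_[ℓ] Γ V) (χ : Γ →* ℚ_[ℓ]) (ω : V →ₗ[ℚ_[ℓ]] V →ₗ[ℚ_[ℓ]] ℚ_[ℓ])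
    (τ₀ : Representation ℚ_[ℓ] Γ M₀) (τ₁ : Representation ℚ_[ℓ] Γ M₁) (γ : Γ) (f : Polynomial ℚ),
    FT.IsTateModule ρ χ ω → χ γ = (p : ℚ_[ℓ]) ^ a →
    (ρ γ).charpoly = ∏ i, (minpoly ℚ (π i)).map (algebraMap ℚ ℚ_[ℓ]) → f ≠ 0 →
    Polynomial.aeval (τ₀ γ) (f.map (algebraMap ℚ ℚ_[ℓ])) = 0 →
    Polynomial.aeval (τ₁ γ) (f.map (algebraMap ℚ ℚ_[ℓ])) = 0 → HarmlessProducts K f →
    TransfersToProducts ρ χ τ₀ τ₁

theorem twist_apply {k M Γ : Type} [Field k] [AddCommGroup M] [Module k M] [Group Γ]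
    (τ : Representation k Γ M) (χ : Γ →* k) (m : ℕ) (s : Γ) : twist τ χ m s = χ s ^ m • τ s := rfl

theorem single_same {D : ℕ} {A : Fin D → Type} [∀ m, AddCommGroup (A m)] (m : Fin D) (h : A m) :
    (Pi.single m h : ∀ m, A m) m = h := Pi.single_eq_same m h

theorem single_other {D : ℕ} {A : Fin D → Type} [∀ m, AddCommGroup (A m)] {m m' : Fin D}
    (hm : m' ≠ m) (h : A m) : (Pi.single m h : ∀ m, A m) m' = 0 := Pi.single_eq_of_ne hm h

section incl

variable {k V M₀ M₁ : Type} [Field k] [AddCommGroup V] [Module k V] [AddCommGroup M₀]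
  [Module k M₀] [AddCommGroup M₁] [Module k M₁] {n D : ℕ}

/-- The inclusion of the component of degree `2 m`. -/
noncomputable def incl (m : Fin D) :
    ((Fin n → V) [⋀^Fin (m : ℕ) × Fin 2]→ₗ[k] M₀) →ₗ[k] KClass k V M₀ M₁ n D :=
  (LinearMap.inl k (∀ m : Fin D, (Fin n → V) [⋀^Fin (m : ℕ) × Fin 2]→ₗ[k] M₀)
    (∀ m : Fin D, (Fin n → V) [⋀^Fin (2 * (m : ℕ) + 1)]→ₗ[k] M₁) ∘ₗ
      LinearMap.single k (fun m : Fin D => (Fin n → V) [⋀^Fin (m : ℕ) × Fin 2]→ₗ[k] M₀) m)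

theorem sum_incl (G : KClass k V M₀ M₁ n D) (h : G.2 = 0) :
    G = ∑ m : Fin D, incl (k := k) (V := V) (M₀ := M₀) (M₁ := M₁) (n := n) m (G.1 m) := by
  let G' : (∀ m : Fin D, (Fin n → V) [⋀^Fin (m : ℕ) × Fin 2]→ₗ[k] M₀) ×
    (∀ m : Fin D, (Fin n → V) [⋀^Fin (2 * (m : ℕ) + 1)]→ₗ[k] M₁) := G
  have hsum : G' = ∑ m : Fin D, (LinearMap.inl k
      (∀ m : Fin D, (Fin n → V) [⋀^Fin (m : ℕ) × Fin 2]→ₗ[k] M₀)
      (∀ m : Fin D, (Fin n → V) [⋀^Fin (2 * (m : ℕ) + 1)]→ₗ[k] M₁) ∘ₗ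
        LinearMap.single k (fun m : Fin D => (Fin n → V) [⋀^Fin (m : ℕ) × Fin 2]→ₗ[k] M₀) m)
          (G'.1 m) := by
    apply Prod.ext
    · rw [Prod.fst_sum]
      change G'.1 = ∑ m : Fin D, Pi.single m (G'.1 m)
      exact (Finset.univ_sum_single G'.1).symm
    · rw [Prod.snd_sum]
      have h1 : G'.2 = 0 := h
      rw [h1]
      symm
      exact Finset.sum_eq_zero fun m _ => rfl
  exact hsum

end incl

theorem ncVariationalHolds {p : ℕ} [Fact p.Prime] {a : ℕ} {C : Type} {K : C → Type}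
    [∀ c, Field (K c)] [∀ c, NumberField (K c)] [∀ c, IsCMField (K c)] {J : C → Type} [Fintype C]
    [∀ c, Fintype (J c)] {π : ∀ c, J c → K c} (hirr : ∀ c, OddIrreducible (K c))
    (hgen : ∀ i : Σ c, J c, ℚ⟮π i.1 i.2⟯ = ⊤)
    (hw : ∀ i : Σ c, J c, π i.1 i.2 * IsCMField.complexConj (K i.1) (π i.1 i.2) =
      (p : K i.1) ^ a)
    (hang : MaximalAngleRank (p ^ a) (F := fun i : Σ c, J c => K i.1) (fun i => π i.1 i.2)) :
    NCVariationalHolds p a K (fun i : Σ c, J c => K i.1) (fun i => π i.1 i.2) := by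
  classical
  intro ℓ _ V M₀ M₁ Γ _ _ _ _ _ _ _ _ _ _ ρ χ ω τ₀ τ₁ γ f hR hχ hγ hf0 hfγ0 hfγ1 hf n D Φ Xη X0
    Yη Y0 hS hY G hG0 hG
  have hpq : ((p ^ a : ℕ) : ℚ) ≠ 0 :=
    Nat.cast_ne_zero.2 (pow_ne_zero a (Fact.out : p.Prime).ne_zero)
  have hc : ∀ m : ℕ, (((p ^ a : ℕ) : ℚ) ^ m) ≠ 0 := fun m => pow_ne_zero m hpq
  have hcast : ∀ m : ℕ, ((((p ^ a : ℕ) : ℚ) ^ m : ℚ) : ℚ_[ℓ]) = χ γ ^ m := by
    intro m
    rw [hχ]
    push_cast
    rfl
  have key0 : ∀ m : ℕ, Polynomial.aeval (twist τ₀ χ m γ)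
      ((scaled f (((p ^ a : ℕ) : ℚ) ^ m)).map (algebraMap ℚ ℚ_[ℓ])) = 0 := by
    intro m
    rw [twist_apply, ← hcast m]
    exact scaled_kills (hc m) hfγ0
  have key1 : ∀ m : ℕ, Polynomial.aeval (twist τ₁ χ m γ)
      ((scaled f (((p ^ a : ℕ) : ℚ) ^ m)).map (algebraMap ℚ ℚ_[ℓ])) = 0 := by
    intro m
    rw [twist_apply, ← hcast m]
    exact scaled_kills (hc m) hfγ1
  have hodd : G.2 = 0 := by
    funext m
    obtain ⟨-, h2⟩ := alt_split (F := fun i : Σ c, J c => K i.1) (π := fun i => π i.1 i.2) hgen hw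
      hang ρ (twist τ₁ χ m) χ ω hR.alternating hR.nondegenerate hR.equivariant (semi_of hR) γ hχ hγ
      (scaled_ne_zero hf0 (hc m)) (key1 m)
      (fun α hα => product_of_harmless hirr (harmless_scaled hf (hc m) α hα))
    exact h2 n m (G.2 m) (hG.2 m)
  -- the even components
  have heven : ∀ m : Fin D, incl (k := ℚ_[ℓ]) (V := V) (M₀ := M₀) (M₁ := M₁) (n := n) m (G.1 m) ∈ Xη := by
    intro m
    obtain ⟨h1, -⟩ := alt_split (F := fun i : Σ c, J c => K i.1) (π := fun i => π i.1 i.2) hgen hw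
      hang ρ (twist τ₀ χ m) χ ω hR.alternating hR.nondegenerate hR.equivariant (semi_of hR) γ hχ hγ
      (scaled_ne_zero hf0 (hc m)) (key0 m)
      (fun α hα => product_of_harmless hirr (harmless_scaled hf (hc m) α hα))
    have h3 := components ρ (twist τ₀ χ m) χ (h1 n m (G.1 m) (hG.1 m))
      (Submodule.span ℚ_[ℓ] (Φ m)) (by
        intro f hf hΦ
        exact hS.pairing m f hf fun φ hφ => hΦ φ (Submodule.subset_span hφ))
    have h4 : ∀ φ ∈ Submodule.span ℚ_[ℓ] (Φ m), push φ (G.1 m) ∈ Y0 := by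
      intro φ hφ
      induction hφ using Submodule.span_induction with
      | mem φ hφ => exact hS.push m φ hφ G hG0 _ fun l => push_spec φ (G.1 m) l
      | zero =>
        have h5 : push (0 : ((Fin n → V) [⋀^Fin (m : ℕ) × Fin 2]→ₗ[ℚ_[ℓ]] ℚ_[ℓ]) →ₗ[ℚ_[ℓ]] ℚ_[ℓ])
            (G.1 m) = 0 := by
          rw [← Module.forall_dual_apply_eq_zero_iff ℚ_[ℓ]]
          intro l
          rw [push_spec]
          rfl
        rw [h5]
        exact Submodule.zero_mem _
      | add φ ψ _ _ h h' =>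
        have h5 : push (φ + ψ) (G.1 m) = push φ (G.1 m) + push ψ (G.1 m) := by
          rw [← sub_eq_zero, ← Module.forall_dual_apply_eq_zero_iff ℚ_[ℓ]]
          intro l
          rw [map_sub, map_add, push_spec, push_spec, push_spec]
          exact sub_self _
        rw [h5]
        exact Submodule.add_mem _ h h'
      | smul r φ _ h =>
        have h5 : push (r • φ) (G.1 m) = r • push φ (G.1 m) := by
          rw [← sub_eq_zero, ← Module.forall_dual_apply_eq_zero_iff ℚ_[ℓ]]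
          intro l
          rw [map_sub, map_smul, push_spec, push_spec]
          exact sub_self _
        rw [h5]
        exact Submodule.smul_mem _ _ h
    have h5 : G.1 m ∈ Xη.comap (incl (k := ℚ_[ℓ]) (V := V) (M₀ := M₀) (M₁ := M₁) (n := n) m) := by
      refine Submodule.span_le.2 ?_ h3
      rintro h ⟨f', hf', φ, hφ, hT, hh⟩
      refine hS.product (push φ (G.1 m)) (hY _ (h4 φ hφ) (invariant_of_twist hT)) _
        ⟨m, f', hf', ?_, ?_, fun _ => rfl⟩
      · intro v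
        have h6 : (Pi.single m h : ∀ m : Fin D, (Fin n → V) [⋀^Fin (m : ℕ) × Fin 2]→ₗ[ℚ_[ℓ]] M₀) m = h :=
          single_same (A := fun m : Fin D => (Fin n → V) [⋀^Fin (m : ℕ) × Fin 2]→ₗ[ℚ_[ℓ]] M₀) m h
        change (Pi.single m h : ∀ m : Fin D, (Fin n → V) [⋀^Fin (m : ℕ) × Fin 2]→ₗ[ℚ_[ℓ]] M₀) m v = _
        rw [h6]
        exact hh v
      · intro m' hm'
        change (Pi.single m h : ∀ m : Fin D, (Fin n → V) [⋀^Fin (m : ℕ) × Fin 2]→ₗ[ℚ_[ℓ]] M₀) m' = 0
        exact single_other (A := fun m : Fin D => (Fin n → V) [⋀^Fin (m : ℕ) × Fin 2]→ₗ[ℚ_[ℓ]] M₀)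
          hm' h
    exact h5
  have hsum : G = ∑ m : Fin D, incl (k := ℚ_[ℓ]) (V := V) (M₀ := M₀) (M₁ := M₁) (n := n) m (G.1 m) := sum_incl G hodd
  rw [hsum]
  exact Submodule.sum_mem _ fun m _ => heven m

end Pool.Agent.Q70.MM
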